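import Pool.Agent.MP_90395b_gt.AsFrame

namespace Pool.Agent.MP_90395b_gt.As

open Pool.Agent.MP_90395b_gt.W5

/-- oriented facet of the hull of `a` -/
def CntT {n : ℕ} (a : Fin n → V3) (i j k : Fin n) : Prop :=
  i ≠ j ∧ k ≠ i ∧ k ≠ j ∧ ∀ z, dt (a j - a i) (a k - a i) (a z - a i) ≤ 0

/-- oriented facet whose first vertex has the middle height -/
def CntM {n : ℕ} (a : Fin n → V3) (σ : ℝ) (v p q : Fin n) : Prop :=
  CntT a v p q ∧ 0 < σ * (a p 0 - a v 0) ∧ σ * (a q 0 - a v 0) < 0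

lemma cnt_sub (x y P Q : V3) : ip x (cr P Q) - ip y (cr P Q) = dt P Q (x - y) := by
  rw [ip_cr, ip_cr]; simp only [dt, Pi.sub_apply]; ring

lemma CntT.rot {n : ℕ} {a : Fin n → V3} {i j k : Fin n} (h : CntT a i j k) : CntT a j k i := by
  refine ⟨h.2.2.1.symm, h.1, h.2.1.symm, fun z => le_of_eq_of_le ?_ (h.2.2.2 z)⟩
  simp only [dt, Pi.sub_apply]; ring

lemma cnt_key {n : ℕ} {a b : Fin n → V3} (hG : Gen a b) {σ : ℝ} {v p q p' q' : Fin n}
    (h : CntM a σ v p q) (h' : CntM a σ v p' q') : p = p' ∧ q = q' := by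
  obtain ⟨⟨n1, n2, n3, t⟩, s1, s2⟩ := h
  obtain ⟨⟨m1, m2, -, t'⟩, r1, r2⟩ := h'
  have e : σ * (a p 0 - a v 0) * dt (a p' - a v) (a q' - a v) (a q - a v)
      + -(σ * (a q 0 - a v 0)) * dt (a p' - a v) (a q' - a v) (a p - a v)
      + σ * (a p' 0 - a v 0) * dt (a p - a v) (a q - a v) (a q' - a v)
      + -(σ * (a q' 0 - a v 0)) * dt (a p - a v) (a q - a v) (a p' - a v) = 0 := by
    simp only [dt, Pi.sub_apply]; ring
  have b1 := mul_nonpos_of_nonneg_of_nonpos s1.le (t' q)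
  have b2 := mul_nonpos_of_nonneg_of_nonpos (neg_pos.2 s2).le (t' p)
  have b3 := mul_nonpos_of_nonneg_of_nonpos r1.le (t q')
  have b4 := mul_nonpos_of_nonneg_of_nonpos (neg_pos.2 r2).le (t p')
  constructor
  · by_contra hn
    refine mul_ne_zero (neg_pos.2 r2).ne' (hG.aaa v p q p' n1 n2.symm m1 n3.symm hn ?_)
      (by linarith)
    rintro rfl
    linarith
  · by_contra hn
    refine mul_ne_zero r1.ne' (hG.aaa v p q q' n1 n2.symm m2.symm n3.symm ?_ hn) (by linarith)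
    rintro rfl
    linarith

theorem card_tri {n : ℕ} (a b : Fin n → V3) (hG : Gen a b) : (triSet a b).card ≤ 6 * n := by
  classical
  have hT : ∀ t ∈ triSet a b, CntT a t.1 t.2.1 t.2.2.1 := fun t ht => by
    obtain ⟨h1, h2, h3, h4, -⟩ := (Finset.mem_filter.1 ht).2
    exact ⟨h1, h2, h3, fun z => by rw [← cnt_sub]; exact sub_nonpos.2 (h4 z)⟩
  have key := Finset.card_le_card_of_forall_subsingleton
    (s := triSet a b) (t := (Finset.univ : Finset (Fin n × Bool × Fin 3)))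
    (fun t c => ∃ p q, CntM a (if c.2.1 then 1 else -1) c.1 p q ∧
      (t.1, t.2.1, t.2.2.1) = ![(c.1, p, q), (q, c.1, p), (p, q, c.1)] c.2.2)
    (fun t ht => ?_) fun c _ t ht t' ht' => ?_
  · simpa [mul_comm] using key
  · obtain ⟨i, j, k, l⟩ := t
    have h0 : CntT a i j k := hT _ ht
    have h1 := h0.rot
    have h2 := h1.rot
    rcases (hG.ht i j h0.1).lt_or_gt with x | x <;>
      rcases (hG.ht k i h0.2.1).lt_or_gt with y | y <;>
      rcases (hG.ht k j h0.2.2.1).lt_or_gt with z | z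
    · exact ⟨(i, true, 0), Finset.mem_univ _, j, k, ⟨h0, by simpa, by simpa⟩, rfl⟩
    · linarith
    · exact ⟨(k, false, 2), Finset.mem_univ _, i, j, ⟨h2, by simpa, by simpa⟩, rfl⟩
    · exact ⟨(j, true, 1), Finset.mem_univ _, k, i, ⟨h1, by simpa, by simpa⟩, rfl⟩
    · exact ⟨(j, false, 1), Finset.mem_univ _, k, i, ⟨h1, by simpa, by simpa⟩, rfl⟩
    · exact ⟨(k, true, 2), Finset.mem_univ _, i, j, ⟨h2, by simpa, by simpa⟩, rfl⟩
    · linarith
    · exact ⟨(i, false, 0), Finset.mem_univ _, j, k, ⟨h0, by simpa, by simpa⟩, rfl⟩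
  · obtain ⟨m, p, q, h1, e1⟩ := ht
    obtain ⟨m', p', q', h2, e2⟩ := ht'
    obtain ⟨rfl, rfl⟩ := cnt_key hG h1 h2
    obtain ⟨i, j, k, l⟩ := t
    obtain ⟨i', j', k', l'⟩ := t'
    obtain ⟨rfl, rfl, rfl⟩ : i = i' ∧ j = j' ∧ k = k' := by simpa using e1.trans e2.symm
    obtain ⟨n1, n2, n3, -, u1⟩ := (Finset.mem_filter.1 m).2
    obtain ⟨-, -, -, -, u2⟩ := (Finset.mem_filter.1 m').2
    obtain rfl : l = l' := by
      by_contra hn
      refine hG.aab i j k l l' n1 n2.symm n3.symm hn ?_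
      rw [← cnt_sub]
      exact sub_eq_zero.2 (le_antisymm (u1 l') (u2 l))
    rfl

end Pool.Agent.MP_90395b_gt.As
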