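import Pool.Agent.MP_90395b_gt.AsFrame

namespace Pool.Agent.MP_90395b_gt.As

open Pool.Agent.MP_90395b_gt.W5

/-- pairs of configurations -/
abbrev DenE (n : ℕ) := (Fin n → V3) × (Fin n → V3)

/-- open and dense -/
def DenOD {n : ℕ} (s : Set (DenE n)) : Prop := IsOpen s ∧ Dense s

theorem den_an {n : ℕ} (F : DenE n → ℝ) (hF : ∀ x, AnalyticAt ℝ F x) (p : DenE n) (hp : F p ≠ 0) :
    DenOD {x | F x ≠ 0} := by
  have hc : Continuous F := continuous_iff_continuousAt.2 fun x => (hF x).continuousAt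
  refine ⟨isOpen_ne_fun hc continuous_const, dense_iff_inter_open.2 ?_⟩
  rintro U hU ⟨x, hx⟩
  by_contra h
  have h0 : F =ᶠ[nhds x] 0 := by
    filter_upwards [hU.mem_nhds hx] with y hy
    by_contra h1
    exact h ⟨y, hy, h1⟩
  exact hp (AnalyticOnNhd.eqOn_zero_of_preconnected_of_eventuallyEq_zero (U := Set.univ)
    (fun y _ => hF y) isPreconnected_univ (Set.mem_univ x) h0 (Set.mem_univ p))

theorem den_inter {n : ℕ} {s t : Set (DenE n)} (hs : DenOD s) (ht : DenOD t) : DenOD (s ∩ t) :=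
  ⟨hs.1.inter ht.1, hs.2.inter_of_isOpen_left ht.2 hs.1⟩

theorem den_all {n : ℕ} {P : Fin n → DenE n → Prop} (h : ∀ i, DenOD {x | P i x}) :
    DenOD {x | ∀ i, P i x} := by
  rw [Set.ofPred_forall]
  exact ⟨isOpen_iInter_of_finite fun i => (h i).1,
    dense_iInter_of_isOpen (fun i => (h i).1) fun i => (h i).2⟩

theorem den_imp {n : ℕ} {Q : Prop} {P : DenE n → Prop} (h : Q → DenOD {x | P x}) :
    DenOD {x | Q → P x} := by
  by_cases hQ : Q
  · simpa [hQ] using h hQ
  · simp only [hQ, false_imp_iff, Set.ofPred_true]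
    exact ⟨isOpen_univ, dense_univ⟩

theorem den_fst {n : ℕ} (i : Fin n) (c : Fin 3) (x : DenE n) :
    AnalyticAt ℝ (fun p : DenE n => p.1 i c) x :=
  ((ContinuousLinearMap.proj (R := ℝ) (φ := fun _ : Fin 3 => ℝ) c).comp
    ((ContinuousLinearMap.proj (R := ℝ) (φ := fun _ : Fin n => V3) i).comp
      (ContinuousLinearMap.fst ℝ _ _))).analyticAt x

theorem den_snd {n : ℕ} (i : Fin n) (c : Fin 3) (x : DenE n) :
    AnalyticAt ℝ (fun p : DenE n => p.2 i c) x :=
  ((ContinuousLinearMap.proj (R := ℝ) (φ := fun _ : Fin 3 => ℝ) c).comp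
    ((ContinuousLinearMap.proj (R := ℝ) (φ := fun _ : Fin n => V3) i).comp
      (ContinuousLinearMap.snd ℝ _ _))).analyticAt x

theorem den_dt {n : ℕ} {f g h : DenE n → V3} {x : DenE n}
    (hf : ∀ c, AnalyticAt ℝ (fun p => f p c) x) (hg : ∀ c, AnalyticAt ℝ (fun p => g p c) x)
    (hh : ∀ c, AnalyticAt ℝ (fun p => h p c) x) :
    AnalyticAt ℝ (fun p => dt (f p) (g p) (h p)) x :=
  (((hf 0).mul (((hg 1).mul (hh 2)).sub ((hg 2).mul (hh 1)))).sub
    ((hf 1).mul (((hg 0).mul (hh 2)).sub ((hg 2).mul (hh 0))))).add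
    ((hf 2).mul (((hg 0).mul (hh 1)).sub ((hg 1).mul (hh 0))))

theorem den_gen (n : ℕ) : DenOD {p : DenE n | Gen p.1 p.2} := by
  have a1 : ∀ (i j : Fin n) (x : DenE n) c, AnalyticAt ℝ (fun p : DenE n => (p.1 j - p.1 i) c) x :=
    fun i j x c => (den_fst j c x).sub (den_fst i c x)
  have a2 : ∀ (i j : Fin n) (x : DenE n) c, AnalyticAt ℝ (fun p : DenE n => (p.2 j - p.2 i) c) x :=
    fun i j x c => (den_snd j c x).sub (den_snd i c x)
  have h1 : DenOD {p : DenE n | ∀ i j k l, i ≠ j → i ≠ k → i ≠ l → j ≠ k → j ≠ l → k ≠ l →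
      dt (p.1 j - p.1 i) (p.1 k - p.1 i) (p.1 l - p.1 i) ≠ 0} :=
    den_all fun i => den_all fun j => den_all fun k => den_all fun l => den_imp fun h1 =>
      den_imp fun h2 => den_imp fun h3 => den_imp fun h4 => den_imp fun h5 => den_imp fun h6 =>
        den_an _ (fun x => den_dt (a1 i j x) (a1 i k x) (a1 i l x))
          (fun z => if z = j then ![1, 0, 0] else if z = k then ![0, 1, 0] else
            if z = l then ![0, 0, 1] else 0, 0)
          (by simp [dt, h1, h2, h3, h4.symm, h5.symm, h6.symm])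
  have h2 : DenOD {p : DenE n | ∀ i j k l m, i ≠ j → i ≠ k → j ≠ k → l ≠ m →
      dt (p.1 j - p.1 i) (p.1 k - p.1 i) (p.2 m - p.2 l) ≠ 0} :=
    den_all fun i => den_all fun j => den_all fun k => den_all fun l => den_all fun m =>
      den_imp fun h1 => den_imp fun h2 => den_imp fun h3 => den_imp fun h4 =>
        den_an _ (fun x => den_dt (a1 i j x) (a1 i k x) (a2 l m x))
          (fun z => if z = j then ![1, 0, 0] else if z = k then ![0, 1, 0] else 0,
            fun z => if z = m then ![0, 0, 1] else 0)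
          (by simp [dt, h1, h2, h3.symm, h4])
  have h3 : DenOD {p : DenE n | ∀ i j l m q, i ≠ j → l ≠ m → l ≠ q → m ≠ q →
      dt (p.1 j - p.1 i) (p.2 m - p.2 l) (p.2 q - p.2 l) ≠ 0} :=
    den_all fun i => den_all fun j => den_all fun l => den_all fun m => den_all fun q =>
      den_imp fun h1 => den_imp fun h2 => den_imp fun h3 => den_imp fun h4 =>
        den_an _ (fun x => den_dt (a1 i j x) (a2 l m x) (a2 l q x))
          (fun z => if z = j then ![1, 0, 0] else 0,
            fun z => if z = m then ![0, 1, 0] else if z = q then ![0, 0, 1] else 0)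
          (by simp [dt, h1, h2, h3, h4.symm])
  have h4 : DenOD {p : DenE n | ∀ i j, i ≠ j → (p.1 i - p.1 j) 0 ≠ 0} :=
    den_all fun i => den_all fun j => den_imp fun h1 =>
      den_an _ (fun x => a1 j i x 0) (fun z => if z = i then ![1, 0, 0] else 0, 0)
        (by simp [h1.symm])
  convert den_inter h1 (den_inter h2 (den_inter h3 h4)) using 1
  ext p
  exact ⟨fun h => ⟨h.aaa, h.aab, h.abb, fun i j hij => sub_ne_zero.2 (h.ht i j hij)⟩,
    fun h => ⟨h.1, h.2.1, h.2.2.1, fun i j hij => sub_ne_zero.1 (h.2.2.2 i j hij)⟩⟩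

theorem dense_gen (n : ℕ) :
    Dense {p : (Fin n → V3) × (Fin n → V3) | Gen p.1 p.2 ∧ Gen p.2 p.1} := by
  have h := den_gen n
  have h2 : Dense {p : DenE n | Gen p.2 p.1} :=
    h.2.preimage (Homeomorph.prodComm (Fin n → V3) (Fin n → V3)).isOpenMap
  exact h.2.inter_of_isOpen_left h2 h.1

end Pool.Agent.MP_90395b_gt.As
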