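import Pool.Agent.MP_90395b_gt.AsFrame

namespace Pool.Agent.MP_90395b_gt.As

open Pool.Agent.MP_90395b_gt.W5 MeasureTheory

namespace Vol

/-- open standard simplex -/
def simp3 : Set V3 := {y | (∀ i, 0 < y i) ∧ ∑ i, y i < 1}

lemma simp3_open : IsOpen simp3 := by
  have h1 : IsOpen {y : V3 | ∀ i, 0 < y i} := by
    rw [Set.ofPred_forall]
    exact isOpen_iInter_of_finite fun i => isOpen_lt continuous_const (continuous_apply i)
  have h2 : IsOpen {y : V3 | ∑ i, y i < 1} := isOpen_lt (by fun_prop) continuous_const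
  exact h1.inter h2

/-- sign change -/
def sgn3 (e : Fin 3 → Bool) (y : V3) : V3 := fun i => if e i then y i else - y i

lemma sgn3_mp (e : Fin 3 → Bool) : MeasurePreserving (sgn3 e) := by
  have h : ∀ i : Fin 3, MeasurePreserving (fun t : ℝ => if e i then t else - t) := by
    intro i
    cases e i
    · simpa using Measure.measurePreserving_neg (volume : Measure ℝ)
    · exact MeasurePreserving.id (volume : Measure ℝ)
  exact volume_preserving_pi h

lemma vol_simp3 : volume simp3 ≤ ENNReal.ofReal (1 / 6) := by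
  have hoct := volume_sum_rpow_lt_one (Fin 3) (p := 1) le_rfl
  have hval : (2 * Real.Gamma (1 / 1 + 1)) ^ Fintype.card (Fin 3) /
      Real.Gamma ((Fintype.card (Fin 3) : ℝ) / 1 + 1) = 8 * (1 / 6) := by
    have h1 : Real.Gamma (1 / 1 + 1) = 1 := by
      have := Real.Gamma_nat_eq_factorial 1
      norm_num at this ⊢
    have h3 : Real.Gamma ((Fintype.card (Fin 3) : ℝ) / 1 + 1) = 6 := by
      have := Real.Gamma_nat_eq_factorial 3
      simp only [Fintype.card_fin, div_one]
      rw [this]; norm_num [Nat.factorial]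
    rw [h1, h3]; simp; norm_num
  rw [hval] at hoct
  have hm : ∀ e : Fin 3 → Bool, MeasurableSet (sgn3 e ⁻¹' simp3) := fun e =>
    (sgn3_mp e).measurable simp3_open.measurableSet
  have hd : Pairwise (Function.onFun Disjoint fun e : Fin 3 → Bool => sgn3 e ⁻¹' simp3) := by
    intro e e' hne
    rw [Function.onFun, Set.disjoint_left]
    intro y hy hy'
    apply hne
    funext i
    have h1 := hy.1 i
    have h2 := hy'.1 i
    simp only [sgn3] at h1 h2
    cases h3 : e i <;> cases h4 : e' i <;> simp [h3, h4] at h1 h2 ⊢ <;> linarith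
  have hU := measure_iUnion (μ := (volume : Measure V3)) hd hm
  have hsub : (⋃ e : Fin 3 → Bool, sgn3 e ⁻¹' simp3) ⊆ {x : V3 | ∑ i, |x i| ^ (1 : ℝ) < 1} := by
    intro y hy
    obtain ⟨e, he⟩ := Set.mem_iUnion.mp hy
    have h2 : ∑ i, sgn3 e y i < 1 := he.2
    have h3 : ∀ i, |y i| ^ (1 : ℝ) = sgn3 e y i := by
      intro i
      have h1 := he.1 i
      rw [Real.rpow_one]
      simp only [sgn3] at h1 ⊢
      cases h3 : e i <;> simp [h3] at h1 ⊢
      · exact h1.le
      · exact h1.le
    simp only [Set.mem_ofPred_eq, h3]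
    exact h2
  have hle := measure_mono (μ := (volume : Measure V3)) hsub
  rw [hU, hoct, tsum_fintype] at hle
  have he : ∀ e : Fin 3 → Bool, volume (sgn3 e ⁻¹' simp3) = volume simp3 := fun e =>
    (sgn3_mp e).measure_preimage simp3_open.measurableSet.nullMeasurableSet
  simp only [he, Finset.sum_const, Finset.card_univ, Fintype.card_pi, Fintype.card_bool,
    Finset.prod_const, Fintype.card_fin, nsmul_eq_mul] at hle
  rw [ENNReal.ofReal_mul (by norm_num)] at hle
  have h8 : ENNReal.ofReal 8 = ((2 ^ 3 : ℕ) : ENNReal) := by norm_num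
  rw [h8] at hle
  exact (ENNReal.mul_le_mul_iff_right (by norm_num) (by simp)).mp hle

/-- open tetrahedron with apex `0` -/
def tet (p q w : V3) : Set V3 :=
  {x | ∃ s t v : ℝ, 0 < s ∧ 0 < t ∧ 0 < v ∧ s + t + v < 1 ∧ x = s • p + t • q + v • w}

lemma vol_tet (p q w : V3) (h : 0 ≤ dt p q w) :
    volume (tet p q w) ≤ ENNReal.ofReal (dt p q w / 6) := by
  have hsub : tet p q w ⊆ Matrix.toLin' (Matrix.of ![p, q, w]).transpose '' simp3 := by
    rintro x ⟨s, t, v, hs, ht, hv, h1, rfl⟩
    refine ⟨![s, t, v], ⟨fun i => ?_, ?_⟩, ?_⟩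
    · fin_cases i <;> simpa
    · simpa [Fin.sum_univ_three] using h1
    · funext i
      simp [Matrix.toLin'_apply, Matrix.mulVec, dotProduct, Fin.sum_univ_three]
      ring
  refine (measure_mono hsub).trans ?_
  rw [Measure.addHaar_image_linearMap, LinearMap.det_toLin', Matrix.det_transpose]
  have hdet : (Matrix.of ![p, q, w]).det = dt p q w := by
    rw [Matrix.det_fin_three]; simp; unfold dt; ring
  rw [hdet, abs_of_nonneg h, div_eq_mul_one_div, ENNReal.ofReal_mul h]
  exact mul_le_mul_right vol_simp3 _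

lemma vol_ball (r : ℝ) (hr : 0 < r) :
    volume {x : V3 | ip x x < r ^ 2} = ENNReal.ofReal (r ^ 3 * (Real.pi * 4 / 3)) := by
  have h := EuclideanSpace.volume_ball_fin_three 0 r
  rw [← (PiLp.volume_preserving_toLp (Fin 3)).measure_preimage
    measurableSet_ball.nullMeasurableSet] at h
  rw [ENNReal.ofReal_mul (by positivity), ENNReal.ofReal_pow hr.le, ← h]
  congr 1
  ext x
  simp only [Set.mem_ofPred_eq, Set.mem_preimage, mem_ball_zero_iff, EuclideanSpace.norm_eq,
    Real.norm_eq_abs, sq_abs, Fin.sum_univ_three]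
  rw [Real.sqrt_lt' hr]
  unfold ip
  constructor <;> intro h <;> nlinarith

lemma vol_plane (v : V3) (hv : 0 < ip v v) : volume {x : V3 | ip x v = 0} = 0 := by
  let f : V3 →ₗ[ℝ] ℝ :=
    { toFun := fun x => ip x v
      map_add' := fun x y => add_ip v x y
      map_smul' := fun t x => smul_ip v x t }
  have h : (LinearMap.ker f) ≠ ⊤ := by
    intro h
    have : v ∈ LinearMap.ker f := h ▸ Submodule.mem_top
    exact hv.ne' this
  exact Measure.addHaar_submodule volume (LinearMap.ker f) h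

lemma inr_scale {n : ℕ} {a : Fin n → V3} {r : ℝ} (ha : Inr a r) (u : V3) :
    ∃ z, r * Real.sqrt (ip u u) ≤ ip (a z) u := by
  rcases (ip_nonneg u).lt_or_eq with h | h
  · have hs : 0 < Real.sqrt (ip u u) := Real.sqrt_pos.mpr h
    have hs2 := Real.mul_self_sqrt h.le
    obtain ⟨z, hz⟩ := ha ((Real.sqrt (ip u u))⁻¹ • u) (by
      rw [ip_smul, smul_ip]; field_simp; nlinarith)
    refine ⟨z, ?_⟩
    rw [ip_smul, ← div_eq_inv_mul, le_div_iff₀ hs] at hz
    exact hz
  · obtain ⟨z, -⟩ := ha ![1, 0, 0] (by simp [ip])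
    refine ⟨z, ?_⟩
    have h1 := ip_cs (a z) u
    rw [← h] at h1 ⊢
    have h2 : ip (a z) u = 0 := by nlinarith [sq_nonneg (ip (a z) u)]
    simp [h2]

lemma DT_nonneg {n : ℕ} {a b : Fin n → V3} {r : ℝ} (hr : 0 < r) (ha : Inr a r) (t : I4 n)
    (ht : Tri a b t) : 0 ≤ DT a t := by
  obtain ⟨z, hz⟩ := inr_scale ha (cr (a t.2.1 - a t.1) (a t.2.2.1 - a t.1))
  have h1 := ht.2.2.2.1 z
  have h2 : ip (a t.1) (cr (a t.2.1 - a t.1) (a t.2.2.1 - a t.1)) = DT a t := by
    simp [ip, cr, DT, dt]; ring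
  have h3 : 0 ≤ r * Real.sqrt (ip (cr (a t.2.1 - a t.1) (a t.2.2.1 - a t.1))
    (cr (a t.2.1 - a t.1) (a t.2.2.1 - a t.1))) := by positivity
  linarith

/-- the dual linear programme has an optimum -/
lemma ex_opt {n : ℕ} {a : Fin n → V3} {r : ℝ} (hr : 0 < r) (ha : Inr a r) (x : V3) :
    ∃ u : V3, (∀ z, ip (a z) u ≤ 1) ∧ r ^ 2 * ip u u ≤ 1 ∧
      ∀ v : V3, (∀ z, ip (a z) u = 1 → ip (a z) v ≤ 0) → ip x v ≤ 0 := by
  have hb : ∀ u : V3, (∀ z, ip (a z) u ≤ 1) → r ^ 2 * ip u u ≤ 1 := by
    intro u hu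
    obtain ⟨z, hz⟩ := inr_scale ha u
    have h1 := hz.trans (hu z)
    have h2 := Real.mul_self_sqrt (ip_nonneg u)
    have h3 : 0 ≤ r * Real.sqrt (ip u u) := by positivity
    nlinarith
  have hcont : ∀ y : V3, Continuous fun u : V3 => ip y u := fun y => by unfold ip; fun_prop
  have hK : IsCompact {u : V3 | ∀ z, ip (a z) u ≤ 1} := by
    apply Metric.isCompact_of_isClosed_isBounded
    · rw [Set.ofPred_forall]
      exact isClosed_iInter fun z => isClosed_le (hcont _) continuous_const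
    · rw [isBounded_iff_forall_norm_le]
      refine ⟨1 / r, fun u hu => ?_⟩
      have h1 := hb u hu
      rw [pi_norm_le_iff_of_nonneg (by positivity)]
      intro i
      rw [Real.norm_eq_abs, le_div_iff₀ hr]
      have h2 : u i ^ 2 ≤ ip u u := by
        unfold ip
        fin_cases i <;> simp <;> nlinarith [sq_nonneg (u 0), sq_nonneg (u 1), sq_nonneg (u 2)]
      have h3 : (|u i| * r) ^ 2 ≤ 1 ^ 2 := by
        rw [mul_pow, sq_abs]; nlinarith [mul_le_mul_of_nonneg_left h2 (sq_nonneg r)]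
      exact (abs_le_of_sq_le_sq' h3 zero_le_one).2
  obtain ⟨u, hu, hmax⟩ := hK.exists_isMaxOn ⟨0, fun z => by simp [ip]⟩ (hcont x).continuousOn
  refine ⟨u, hu, hb u hu, fun v hv => ?_⟩
  have hev : ∀ᶠ e in nhdsWithin (0 : ℝ) (Set.Ioi 0), ∀ z, ip (a z) (u + e • v) ≤ 1 := by
    rw [Filter.eventually_all]
    intro z
    rcases (hu z).lt_or_eq with h | h
    · apply Filter.Eventually.filter_mono nhdsWithin_le_nhds
      have hc : Continuous fun e : ℝ => ip (a z) (u + e • v) := (hcont _).comp (by fun_prop)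
      have := hc.continuousAt (x := 0).eventually_lt (continuousAt_const (y := (1 : ℝ)))
        (by simpa using h)
      exact this.mono fun e he => he.le
    · filter_upwards [self_mem_nhdsWithin] with e he
      rw [ip_add, ip_smul, h]
      have := mul_nonpos_of_nonneg_of_nonpos (le_of_lt he) (hv z h)
      linarith
  obtain ⟨e, he1, he2⟩ := (hev.and self_mem_nhdsWithin).exists
  have h1 : ip x (u + e • v) ≤ ip x u := hmax he1
  rw [ip_add, ip_smul] at h1
  have he3 : 0 < e := he2
  by_contra h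
  push Not at h
  have := mul_pos he3 h
  linarith

lemma eq_zero_of_ip (p q w u : V3) (h : dt p q w ≠ 0) (h1 : ip p u = 0) (h2 : ip q u = 0)
    (h3 : ip w u = 0) (y : V3) : ip y u = 0 := by
  have : dt p q w * ip y u = dt y q w * ip p u + dt p y w * ip q u + dt p q y * ip w u := by
    unfold dt ip; ring
  rw [h1, h2, h3] at this
  simpa [h] using this

/-- three tight constraints with positive orientation give three rotated facets -/
lemma tri_of_tight {n : ℕ} (a b : Fin n → V3) (u : V3) (hu : ∀ z, ip (a z) u ≤ 1) (i j k : Fin n)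
    (hij : i ≠ j) (hik : i ≠ k) (hjk : j ≠ k) (hi : ip (a i) u = 1) (hj : ip (a j) u = 1)
    (hk : ip (a k) u = 1) (hd : 0 < dt (a i) (a j) (a k)) : ∃ l, Tri a b (i, j, k, l) := by
  obtain ⟨l, -, hl⟩ := Finset.exists_max_image Finset.univ
    (fun z => ip (b z) (cr (a j - a i) (a k - a i))) ⟨i, Finset.mem_univ _⟩
  refine ⟨l, hij, hik.symm, hjk.symm, fun z => ?_, fun z => hl z (Finset.mem_univ _)⟩
  have key : ∀ y : V3, ip y (cr (a j - a i) (a k - a i)) = dt (a i) (a j) (a k) * ip y u := by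
    intro y
    have : dt (a i) (a j) (a k) * ip y u = dt y (a j) (a k) * ip (a i) u
        + dt (a i) y (a k) * ip (a j) u + dt (a i) (a j) y * ip (a k) u := by
      unfold dt ip; ring
    rw [this, hi, hj, hk]
    simp [ip, cr, dt]; ring
  show ip (a z) (cr (a j - a i) (a k - a i)) ≤ ip (a i) (cr (a j - a i) (a k - a i))
  rw [key, key, hi]
  exact mul_le_mul_of_nonneg_left (hu z) hd.le

lemma tet_rot (p q w x : V3) (h : x ∈ tet p q w) : x ∈ tet q w p := by
  obtain ⟨s, t, v, hs, ht, hv, h1, rfl⟩ := h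
  exact ⟨t, v, s, ht, hv, hs, by linarith, by abel⟩

lemma dt_rot (p q w : V3) : dt q w p = dt p q w := by unfold dt; ring

/-- a generic point of the ball lies in the tetrahedron of a facet -/
lemma cover {n : ℕ} (a b : Fin n → V3) (hG : Gen a b) (r : ℝ) (hr : 0 < r) (ha : Inr a r)
    (V : Fin n → Fin n → V3) (hV1 : ∀ i j, ip (V i j) (a i) = 0)
    (hV2 : ∀ i j, ip (V i j) (a j) = 0) (x : V3) (hx : ip x x < r ^ 2)
    (hg : ∀ i j, ip x (V i j) ≠ 0) :
    ∃ i j k, x ∈ tet (a i) (a j) (a k) ∧ (∃ l, Tri a b (i, j, k, l)) ∧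
      (∃ l, Tri a b (j, k, i, l)) ∧ (∃ l, Tri a b (k, i, j, l)) := by
  obtain ⟨u, hu, hub, hopt⟩ := ex_opt hr ha x
  obtain ⟨z0, -⟩ := inr_scale ha u
  have hthird : ∀ i j, ∃ k, ip (a k) u = 1 ∧ k ≠ i ∧ k ≠ j := by
    intro i j
    by_contra hcon
    push Not at hcon
    have h0 : ∀ z, ip (a z) u = 1 → ip (a z) (V i j) = 0 := by
      intro z hz
      by_cases hzi : z = i
      · rw [hzi, ip_comm, hV1]
      · rw [hcon z hz hzi, ip_comm, hV2]
    have h1 := hopt (V i j) fun z hz => (h0 z hz).le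
    have h2 := hopt ((-1 : ℝ) • V i j) fun z hz => by rw [ip_smul, h0 z hz]; simp
    rw [ip_smul] at h2
    exact hg i j (by linarith)
  have main : ∀ i j k, i ≠ j → i ≠ k → j ≠ k → ip (a i) u = 1 → ip (a j) u = 1 →
      ip (a k) u = 1 → 0 < dt (a i) (a j) (a k) →
      x ∈ tet (a i) (a j) (a k) ∧ (∃ l, Tri a b (i, j, k, l)) ∧
      (∃ l, Tri a b (j, k, i, l)) ∧ (∃ l, Tri a b (k, i, j, l)) := by
    intro i j k hij hik hjk hi hj hk hd
    refine ⟨?_, tri_of_tight a b u hu i j k hij hik hjk hi hj hk hd,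
      tri_of_tight a b u hu j k i hjk hij.symm hik.symm hj hk hi (by rwa [dt_rot]),
      tri_of_tight a b u hu k i j hik.symm hjk.symm hij hk hi hj (by rwa [← dt_rot])⟩
    have hA : ∀ z, ip (a z) u = 1 → z = i ∨ z = j ∨ z = k := by
      intro z hz
      by_contra hcon
      push Not at hcon
      have h4 := hG.aaa i j k z hij hik (Ne.symm hcon.1) hjk (Ne.symm hcon.2.1)
        (Ne.symm hcon.2.2)
      have := eq_zero_of_ip _ _ _ u h4 (by rw [sub_ip, hj, hi]; simp)
        (by rw [sub_ip, hk, hi]; simp) (by rw [sub_ip, hz, hi]; simp) (a i)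
      rw [hi] at this
      exact one_ne_zero this
    have pos : ∀ i' j' k', (∀ z, ip (a z) u = 1 → z = i' ∨ z = j' ∨ z = k') →
        0 < dt (a i') (a j') (a k') → 0 < dt x (a j') (a k') := by
      intro i' j' k' hA' hd'
      have h1 := hopt ((-1 : ℝ) • cr (a j') (a k')) fun z hz => by
        rw [ip_smul, ip_cr]
        rcases hA' z hz with h | h | h <;> rw [h]
        · rw [← dt_rot] at hd'; linarith
        · have : dt (a j') (a k') (a j') = 0 := by unfold dt; ring
          rw [this]; simp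
        · have : dt (a j') (a k') (a k') = 0 := by unfold dt; ring
          rw [this]; simp
      rw [ip_smul, ip_cr, dt_rot] at h1
      rcases (show 0 ≤ dt x (a j') (a k') by linarith).lt_or_eq with h2 | h2
      · exact h2
      · exfalso
        have h3 : dt (a i') (a j') (a k') * ip x (V j' k') =
            dt x (a j') (a k') * ip (V j' k') (a i') + dt (a i') x (a k') * ip (V j' k') (a j')
              + dt (a i') (a j') x * ip (V j' k') (a k') := by
          unfold dt ip; ring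
        rw [hV1, hV2, ← h2] at h3
        apply hg j' k'
        simpa [hd'.ne'] using h3
    have p1 := pos i j k hA hd
    have p2 := pos j k i (fun z hz => by have := hA z hz; tauto) (by rwa [dt_rot])
    have p3 := pos k i j (fun z hz => by have := hA z hz; tauto) (by rwa [← dt_rot])
    refine ⟨dt x (a j) (a k) / dt (a i) (a j) (a k), dt x (a k) (a i) / dt (a i) (a j) (a k),
      dt x (a i) (a j) / dt (a i) (a j) (a k), by positivity, by positivity, by positivity, ?_, ?_⟩
    · rw [← add_div, ← add_div, div_lt_one hd]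
      have h1 : dt (a i) (a j) (a k) * ip x u = dt x (a j) (a k) * ip (a i) u
          + dt x (a k) (a i) * ip (a j) u + dt x (a i) (a j) * ip (a k) u := by
        unfold dt ip; ring
      rw [hi, hj, hk] at h1
      have h2 := ip_cs x u
      have h3 : ip x x * ip u u < 1 := by
        rcases (ip_nonneg u).lt_or_eq with h4 | h4
        · nlinarith [mul_lt_mul_of_pos_right hx h4]
        · rw [← h4]; simp
      have h4 : ip x u < 1 := by nlinarith
      nlinarith [mul_lt_mul_of_pos_left h4 hd]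
    · funext c
      have hd' := hd.ne'
      simp only [Pi.add_apply, Pi.smul_apply, smul_eq_mul]
      field_simp
      fin_cases c <;> simp [dt] <;> ring
  obtain ⟨i, hi, -, -⟩ := hthird z0 z0
  obtain ⟨j, hj, hji, -⟩ := hthird i i
  obtain ⟨k, hk, hki, hkj⟩ := hthird i j
  have hne : dt (a i) (a j) (a k) ≠ 0 := by
    intro h0
    have h1 := hG.aab i j k i j hji.symm hki.symm hkj.symm hji.symm
    apply h1
    have key : ∀ y : V3, ip y (cr (a j - a i) (a k - a i)) = dt (a i) (a j) (a k) * ip y u := by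
      intro y
      have : dt (a i) (a j) (a k) * ip y u = dt y (a j) (a k) * ip (a i) u
          + dt (a i) y (a k) * ip (a j) u + dt (a i) (a j) y * ip (a k) u := by
        unfold dt ip; ring
      rw [this, hi, hj, hk]
      simp [ip, cr, dt]; ring
    rw [← ip_cr, key, h0, zero_mul]
  rcases hne.lt_or_gt with h | h
  · refine ⟨i, k, j, main i k j hki.symm hji.symm hkj hi hk hj ?_⟩
    have : dt (a i) (a k) (a j) = - dt (a i) (a j) (a k) := by unfold dt; ring
    linarith
  · exact ⟨i, j, k, main i j k hji.symm hki.symm hkj.symm hi hj hk h⟩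

/-- position of the least index -/
def posm {n : ℕ} (t : I4 n) : Fin 3 :=
  if t.1 < t.2.1 ∧ t.1 < t.2.2.1 then 0 else if t.2.1 < t.2.2.1 then 1 else 2

lemma posm_all {n : ℕ} (i j k l1 l2 l3 : Fin n) (hij : i ≠ j) (hki : k ≠ i) (hkj : k ≠ j)
    (p : Fin 3) :
    posm (i, j, k, l1) = p ∨ posm (j, k, i, l2) = p ∨ posm (k, i, j, l3) = p := by
  unfold posm
  simp only
  fin_cases p <;> split_ifs <;> simp <;> omega

end Vol

open Vol

theorem vol_tri {n : ℕ} (a b : Fin n → V3) (hG : Gen a b) (r : ℝ) (hr : 0 < r) (ha : Inr a r) :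
    24 * Real.pi * r ^ 3 ≤ ∑ t ∈ triSet a b, DT a t := by
  have hV : ∀ i j, ∃ v : V3, 0 < ip v v ∧ ip v (a i) = 0 ∧ ip v (a j) = 0 := by
    intro i j
    obtain ⟨v, h0, h1, h2, -⟩ := exZ (a i) (a j) (a j) (by unfold dt; ring)
    exact ⟨v, h0, h1, h2⟩
  choose V hV0 hV1 hV2 using hV
  have hmem : ∀ t, t ∈ triSet a b ↔ Tri a b t := fun t => by simp [triSet]
  have hp : ∀ p : Fin 3, 8 * Real.pi * r ^ 3 ≤
      ∑ t ∈ (triSet a b).filter (fun t => posm t = p), DT a t := by
    intro p
    have hsub : {x : V3 | ip x x < r ^ 2} ⊆ (⋃ i, ⋃ j, {x : V3 | ip x (V i j) = 0}) ∪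
        ⋃ t ∈ (triSet a b).filter (fun t => posm t = p), tet (a t.1) (a t.2.1) (a t.2.2.1) := by
      intro x hx
      by_cases hg : ∀ i j, ip x (V i j) ≠ 0
      · right
        obtain ⟨i, j, k, hx1, ⟨l1, h1⟩, ⟨l2, h2⟩, ⟨l3, h3⟩⟩ :=
          cover a b hG r hr ha V hV1 hV2 x hx hg
        simp only [Set.mem_iUnion, Finset.mem_filter, hmem]
        rcases posm_all i j k l1 l2 l3 h1.1 h1.2.1 h1.2.2.1 p with h | h | h
        · exact ⟨_, ⟨h1, h⟩, hx1⟩
        · exact ⟨_, ⟨h2, h⟩, tet_rot _ _ _ _ hx1⟩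
        · exact ⟨_, ⟨h3, h⟩, tet_rot _ _ _ _ (tet_rot _ _ _ _ hx1)⟩
      · left
        push Not at hg
        simpa using hg
    have h0 : volume (⋃ i, ⋃ j, {x : V3 | ip x (V i j) = 0}) = 0 :=
      measure_iUnion_null fun i => measure_iUnion_null fun j => vol_plane _ (hV0 i j)
    have h1 := (measure_mono (μ := (volume : Measure V3)) hsub).trans (measure_union_le _ _)
    rw [h0, zero_add, vol_ball r hr] at h1
    have hnn : ∀ t ∈ (triSet a b).filter (fun t => posm t = p), 0 ≤ DT a t := fun t ht =>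
      DT_nonneg hr ha t ((hmem t).mp (Finset.mem_filter.mp ht).1)
    have h2 : ENNReal.ofReal (r ^ 3 * (Real.pi * 4 / 3)) ≤
        ∑ t ∈ (triSet a b).filter (fun t => posm t = p), ENNReal.ofReal (DT a t / 6) :=
      h1.trans ((measure_biUnion_finset_le _ _).trans
        (Finset.sum_le_sum fun t ht => vol_tet _ _ _ (hnn t ht)))
    rw [← ENNReal.ofReal_sum_of_nonneg (fun t ht => div_nonneg (hnn t ht) (by norm_num)),
      ENNReal.ofReal_le_ofReal_iff
        (Finset.sum_nonneg fun t ht => div_nonneg (hnn t ht) (by norm_num)),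
      ← Finset.sum_div] at h2
    linarith
  rw [← Finset.sum_fiberwise (triSet a b) posm (DT a), Fin.sum_univ_three]
  linarith [hp 0, hp 1, hp 2]

end Pool.Agent.MP_90395b_gt.As
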