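import Pool.Agent.MP_90395b_gt.AsEdge
import Pool.Agent.MP_90395b_gt.AsCount
import Pool.Agent.MP_90395b_gt.AsVol
import Pool.Agent.MP_90395b_gt.AsDense

namespace Pool.Agent.MP_90395b_gt.As

open Pool.Agent.MP_90395b_gt.W5

lemma unit_abs_le_cmb (u : V3) (hu : ip u u = 1) (k : Fin 3) : |u k| ≤ 1 := by
  unfold ip at hu
  rw [abs_le]
  fin_cases k <;> simp only [Fin.zero_eta, Fin.mk_one, Fin.reduceFinMk, Fin.isValue] <;>
    constructor <;> nlinarith [sq_nonneg (u 0), sq_nonneg (u 1), sq_nonneg (u 2),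
      sq_nonneg (u 0 - 1), sq_nonneg (u 1 - 1), sq_nonneg (u 2 - 1), sq_nonneg (u 0 + 1),
      sq_nonneg (u 1 + 1), sq_nonneg (u 2 + 1)]

lemma cont_ip_cmb {α : Type} [TopologicalSpace α] {f g : α → V3} (hf : Continuous f)
    (hg : Continuous g) : Continuous fun x => ip (f x) (g x) := by
  unfold ip
  fun_prop

lemma cont_dt_cmb {α : Type} [TopologicalSpace α] {f g h : α → V3} (hf : Continuous f)
    (hg : Continuous g) (hh : Continuous h) : Continuous fun x => dt (f x) (g x) (h x) := by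
  unfold dt
  fun_prop

lemma sphere_compact_cmb : IsCompact {u : V3 | ip u u = 1} := by
  apply Metric.isCompact_of_isClosed_isBounded
  · exact isClosed_eq (cont_ip_cmb continuous_id continuous_id) continuous_const
  · refine (Metric.isBounded_closedBall (x := (0 : V3)) (r := 1)).subset ?_
    intro u hu
    rw [mem_closedBall_zero_iff, pi_norm_le_iff_of_nonneg zero_le_one]
    intro k
    exact unit_abs_le_cmb u hu k

lemma closed_ex_cmb {α : Type} [TopologicalSpace α] (P : α → V3 → Prop)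
    (h : IsClosed {q : α × V3 | P q.1 q.2}) : IsClosed {x | ∃ u, ip u u = 1 ∧ P x u} := by
  have : CompactSpace {u : V3 | ip u u = 1} := isCompact_iff_compactSpace.1 sphere_compact_cmb
  have h1 : IsClosed {q : α × {u : V3 | ip u u = 1} | P q.1 q.2.1} :=
    h.preimage (f := fun q : α × {u : V3 | ip u u = 1} => (q.1, q.2.1)) (by fun_prop)
  have h2 := isClosedMap_fst_of_compactSpace _ h1
  convert h2 using 1
  ext x
  constructor
  · rintro ⟨u, hu, hP⟩
    exact ⟨(x, ⟨u, hu⟩), hP, rfl⟩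
  · rintro ⟨⟨y, u⟩, hP, rfl⟩
    exact ⟨u.1, u.2, hP⟩

lemma closed_sup_cmb {α : Type} [TopologicalSpace α] {n : ℕ} {f : α → Fin n → V3} {g : α → V3}
    (hf : Continuous f) (hg : Continuous g) (i : Fin n) : IsClosed {x | Sup (f x) i (g x)} := by
  unfold Sup
  rw [Set.ofPred_forall]
  exact isClosed_iInter fun z => isClosed_le (cont_ip_cmb (by fun_prop) hg)
    (cont_ip_cmb (by fun_prop) hg)

lemma closed_wtri_cmb {α : Type} [TopologicalSpace α] {n : ℕ} {f g : α → Fin n → V3}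
    (hf : Continuous f) (hg : Continuous g) (t : I4 n) : IsClosed {x | WTri (f x) (g x) t} := by
  unfold WTri
  apply closed_ex_cmb (fun x u => Sup (f x) t.1 u ∧ ip (f x t.2.1) u = ip (f x t.1) u ∧
    ip (f x t.2.2.1) u = ip (f x t.1) u ∧ Sup (g x) t.2.2.2 u ∧
    0 ≤ dt (f x t.2.1 - f x t.1) (f x t.2.2.1 - f x t.1) u)
  refine IsClosed.inter (closed_sup_cmb (f := fun q : α × V3 => f q.1) (by fun_prop)
    continuous_snd _) (IsClosed.inter ?_ (IsClosed.inter ?_ (IsClosed.inter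
      (closed_sup_cmb (f := fun q : α × V3 => g q.1) (by fun_prop) continuous_snd _) ?_)))
  · exact isClosed_eq (cont_ip_cmb (by fun_prop) continuous_snd)
      (cont_ip_cmb (by fun_prop) continuous_snd)
  · exact isClosed_eq (cont_ip_cmb (by fun_prop) continuous_snd)
      (cont_ip_cmb (by fun_prop) continuous_snd)
  · exact isClosed_le continuous_const (cont_dt_cmb (by fun_prop) (by fun_prop) continuous_snd)

lemma closed_wcrs_cmb {α : Type} [TopologicalSpace α] {n : ℕ} {f g : α → Fin n → V3}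
    (hf : Continuous f) (hg : Continuous g) (t : I4 n) : IsClosed {x | WCrs (f x) (g x) t} := by
  unfold WCrs
  apply closed_ex_cmb (fun x u => Sup (f x) t.1 u ∧ ip (f x t.2.1) u = ip (f x t.1) u ∧
    Sup (g x) t.2.2.1 u ∧ ip (g x t.2.2.2) u = ip (g x t.2.2.1) u ∧
    0 ≤ dt (f x t.2.1 - f x t.1) (g x t.2.2.2 - g x t.2.2.1) u)
  refine IsClosed.inter (closed_sup_cmb (f := fun q : α × V3 => f q.1) (by fun_prop)
    continuous_snd _) (IsClosed.inter ?_ (IsClosed.inter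
      (closed_sup_cmb (f := fun q : α × V3 => g q.1) (by fun_prop) continuous_snd _)
      (IsClosed.inter ?_ ?_)))
  · exact isClosed_eq (cont_ip_cmb (by fun_prop) continuous_snd)
      (cont_ip_cmb (by fun_prop) continuous_snd)
  · exact isClosed_eq (cont_ip_cmb (by fun_prop) continuous_snd)
      (cont_ip_cmb (by fun_prop) continuous_snd)
  · exact isClosed_le continuous_const (cont_dt_cmb (by fun_prop) (by fun_prop) continuous_snd)

lemma normalise_cmb (N d : V3) (h : ip d N ≠ 0) :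
    ∃ s : ℝ, 0 < s ∧ ip (s • N) (s • N) = 1 := by
  have hN : 0 < ip N N := (pos_of_ip d N h).1
  refine ⟨1 / Real.sqrt (ip N N), by positivity, ?_⟩
  rw [ip_smul, smul_ip]
  have h1 : Real.sqrt (ip N N) * Real.sqrt (ip N N) = ip N N := Real.mul_self_sqrt hN.le
  have h2 : 0 < Real.sqrt (ip N N) := Real.sqrt_pos.2 hN
  field_simp
  nlinarith

lemma sup_smul_cmb {n : ℕ} {a : Fin n → V3} {i : Fin n} {N : V3} (h : Sup a i N) {s : ℝ}
    (hs : 0 < s) : Sup a i (s • N) := by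
  intro z
  rw [ip_smul, ip_smul]
  exact mul_le_mul_of_nonneg_left (h z) hs.le

lemma perp_left_cmb (x y e : V3) (s : ℝ) : ip y (s • cr (y - x) e) = ip x (s • cr (y - x) e) := by
  simp [ip, cr]; ring

lemma perp_right_cmb (x y e : V3) (s : ℝ) :
    ip y (s • cr e (y - x)) = ip x (s • cr e (y - x)) := by
  simp [ip, cr]; ring

lemma dt_pos_cmb (d e : V3) {s : ℝ} (hs : 0 < s) : 0 ≤ dt d e (s • cr d e) := by
  rw [← ip_cr, smul_ip]
  exact mul_nonneg hs.le (ip_nonneg _)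

lemma third_cmb {n : ℕ} (hn : 3 ≤ n) (i j : Fin n) : ∃ k : Fin n, k ≠ i ∧ k ≠ j := by
  by_contra hcon
  have hsub : (Finset.univ : Finset (Fin n)) ⊆ {i, j} := by
    intro k _
    by_contra hk
    simp only [Finset.mem_insert, Finset.mem_singleton, not_or] at hk
    exact hcon ⟨k, hk⟩
  have h1 := Finset.card_le_card hsub
  have h2 : ({i, j} : Finset (Fin n)).card ≤ 2 := Finset.card_le_two
  simp only [Finset.card_univ, Fintype.card_fin] at h1
  omega

lemma tri_wtri_cmb {n : ℕ} (hn : 3 ≤ n) {a b : Fin n → V3} (hG : Gen a b) (t : I4 n)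
    (h : Tri a b t) : WTri a b t := by
  obtain ⟨h1, h2, h3, h4, h5⟩ := h
  obtain ⟨k, hk, -⟩ := third_cmb hn t.1 t.1
  have h6 := hG.aab t.1 t.2.1 t.2.2.1 t.1 k h1 h2.symm h3.symm hk.symm
  rw [← ip_cr] at h6
  obtain ⟨s, hs, hu⟩ := normalise_cmb _ _ h6
  exact ⟨_, hu, sup_smul_cmb h4 hs, perp_left_cmb _ _ _ _, perp_right_cmb _ _ _ _,
    sup_smul_cmb h5 hs, dt_pos_cmb _ _ hs⟩

lemma crs_wcrs_cmb {n : ℕ} (hn : 3 ≤ n) {a b : Fin n → V3} (hG : Gen a b) (t : I4 n)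
    (h : Crs a b t) : WCrs a b t := by
  obtain ⟨h1, h2, h4, h5⟩ := h
  obtain ⟨k, hk, hk'⟩ := third_cmb hn t.1 t.2.1
  have h6 := hG.aab t.1 t.2.1 k t.2.2.1 t.2.2.2 h1 hk.symm hk'.symm h2
  have h7 : ip (a k - a t.1) (cr (a t.2.1 - a t.1) (b t.2.2.2 - b t.2.2.1)) ≠ 0 := by
    intro h0
    apply h6
    rw [ip_cr] at h0
    have e : ∀ x y z : V3, dt x y z = - dt x z y := fun x y z => by unfold dt; ring
    rw [e, h0, neg_zero]
  obtain ⟨s, hs, hu⟩ := normalise_cmb _ _ h7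
  exact ⟨_, hu, sup_smul_cmb h4 hs, perp_left_cmb _ _ _ _, sup_smul_cmb h5 hs,
    perp_right_cmb _ _ _ _, dt_pos_cmb _ _ hs⟩

lemma inr_near_cmb {n : ℕ} {a a' : Fin n → V3} {r r' : ℝ} (ha : Inr a r)
    (h : dist a' a < (r - r') / 3) : Inr a' r' := by
  intro u hu
  obtain ⟨i, hi⟩ := ha u hu
  refine ⟨i, ?_⟩
  have hk : ∀ k, (a i k - a' i k) * u k ≤ (r - r') / 3 := by
    intro k
    have h1 : dist (a' i k) (a i k) < (r - r') / 3 :=
      lt_of_le_of_lt ((dist_le_pi_dist (a' i) (a i) k).trans (dist_le_pi_dist a' a i)) h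
    rw [Real.dist_eq, abs_sub_comm] at h1
    have h2 := unit_abs_le_cmb u hu k
    calc (a i k - a' i k) * u k ≤ |(a i k - a' i k) * u k| := le_abs_self _
      _ = |a i k - a' i k| * |u k| := abs_mul _ _
      _ ≤ |a i k - a' i k| * 1 := mul_le_mul_of_nonneg_left h2 (abs_nonneg _)
      _ ≤ (r - r') / 3 := by linarith
  have h0 := hk 0
  have h1 := hk 1
  have h2 := hk 2
  unfold ip at hi ⊢
  linarith

/-- the eight conclusions for a fixed triple of index sets -/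
def CS_cmb {n : ℕ} (c : V3 → V3 → V3 → ℝ) (r' : ℝ)
    (τ : Finset (I4 n) × Finset (I4 n) × Finset (I4 n)) : Set ((Fin n → V3) × (Fin n → V3)) :=
  {p | (∀ t ∈ τ.1, WTri p.1 p.2 t) ∧ (∀ t ∈ τ.2.1, WTri p.2 p.1 t) ∧
      (∀ t ∈ τ.2.2, WCrs p.1 p.2 t) ∧ τ.1.card ≤ 6 * n ∧ τ.2.1.card ≤ 6 * n ∧
      24 * Real.pi * r' ^ 3 ≤ ∑ t ∈ τ.1, DT p.1 t ∧ 24 * Real.pi * r' ^ 3 ≤ ∑ t ∈ τ.2.1, DT p.2 t ∧
      2 * (∑ t ∈ τ.1, VT c p.1 p.2 t + ∑ t ∈ τ.2.1, VT c p.2 p.1 t)
        = 3 * ∑ t ∈ τ.2.2, ST c p.1 p.2 t}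

lemma closed_CS_cmb {n : ℕ} (c : V3 → V3 → V3 → ℝ)
    (hcont : Continuous fun p : V3 × V3 × V3 => c p.1 p.2.1 p.2.2) (r' : ℝ)
    (τ : Finset (I4 n) × Finset (I4 n) × Finset (I4 n)) : IsClosed (CS_cmb c r' τ) := by
  have hc3 : ∀ f g h : (Fin n → V3) × (Fin n → V3) → V3, Continuous f → Continuous g →
      Continuous h → Continuous fun p => c (f p) (g p) (h p) := fun f g h hf hg hh =>
    hcont.comp (hf.prodMk (hg.prodMk hh))
  have hall : ∀ (T : Finset (I4 n)) (P : (Fin n → V3) × (Fin n → V3) → I4 n → Prop),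
      (∀ t, IsClosed {p | P p t}) → IsClosed {p | ∀ t ∈ T, P p t} := by
    intro T P hP
    have : {p | ∀ t ∈ T, P p t} = ⋂ t ∈ T, {p | P p t} := by ext p; simp
    rw [this]
    exact isClosed_biInter fun t _ => hP t
  have hVT : ∀ t : I4 n, Continuous fun p : (Fin n → V3) × (Fin n → V3) => VT c p.1 p.2 t := by
    intro t
    unfold VT Vf
    refine ((hc3 _ _ _ ?_ ?_ ?_).add (hc3 _ _ _ ?_ ?_ ?_)).add (hc3 _ _ _ ?_ ?_ ?_) <;> fun_prop
  have hVT' : ∀ t : I4 n, Continuous fun p : (Fin n → V3) × (Fin n → V3) => VT c p.2 p.1 t :=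
    fun t => (hVT t).comp continuous_swap
  have hST : ∀ t : I4 n, Continuous fun p : (Fin n → V3) × (Fin n → V3) => ST c p.1 p.2 t := by
    intro t
    unfold ST Sf
    refine (((hc3 _ _ _ ?_ ?_ ?_).add (hc3 _ _ _ ?_ ?_ ?_)).add (hc3 _ _ _ ?_ ?_ ?_)).add
      (hc3 _ _ _ ?_ ?_ ?_) <;> fun_prop
  have hDT : ∀ t : I4 n, Continuous fun p : (Fin n → V3) × (Fin n → V3) => DT p.1 t := by
    intro t
    unfold DT
    exact cont_dt_cmb (by fun_prop) (by fun_prop) (by fun_prop)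
  have hDT' : ∀ t : I4 n, Continuous fun p : (Fin n → V3) × (Fin n → V3) => DT p.2 t :=
    fun t => (hDT t).comp continuous_swap
  unfold CS_cmb
  refine IsClosed.inter (hall _ _ fun t => closed_wtri_cmb continuous_fst continuous_snd t)
    (IsClosed.inter (hall _ _ fun t => closed_wtri_cmb continuous_snd continuous_fst t)
    (IsClosed.inter (hall _ _ fun t => closed_wcrs_cmb continuous_fst continuous_snd t)
    (IsClosed.inter isClosed_const (IsClosed.inter isClosed_const (IsClosed.inter ?_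
    (IsClosed.inter ?_ ?_))))))
  · exact isClosed_le continuous_const (continuous_finsetSum _ fun t _ => hDT t)
  · exact isClosed_le continuous_const (continuous_finsetSum _ fun t _ => hDT' t)
  · exact isClosed_eq (continuous_const.mul ((continuous_finsetSum _ fun t _ => hVT t).add
      (continuous_finsetSum _ fun t _ => hVT' t)))
      (continuous_const.mul (continuous_finsetSum _ fun t _ => hST t))

theorem comb {n : ℕ} (hn : 3 ≤ n) (a b : Fin n → V3) (c : V3 → V3 → V3 → ℝ)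
    (hc : ∀ x y z, c y x z = -c x y z)
    (hcont : Continuous fun p : V3 × V3 × V3 => c p.1 p.2.1 p.2.2)
    (r r' : ℝ) (h0 : 0 < r') (hr : r' < r) (ha : Inr a r) (hb : Inr b r) :
    ∃ TA TB X : Finset (I4 n), (∀ t ∈ TA, WTri a b t) ∧ (∀ t ∈ TB, WTri b a t) ∧
      (∀ t ∈ X, WCrs a b t) ∧ TA.card ≤ 6 * n ∧ TB.card ≤ 6 * n ∧
      24 * Real.pi * r' ^ 3 ≤ ∑ t ∈ TA, DT a t ∧ 24 * Real.pi * r' ^ 3 ≤ ∑ t ∈ TB, DT b t ∧
      2 * (∑ t ∈ TA, VT c a b t + ∑ t ∈ TB, VT c b a t) = 3 * ∑ t ∈ X, ST c a b t := by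
  have hcl : IsClosed (⋃ τ, CS_cmb (n := n) c r' τ) :=
    isClosed_iUnion_of_finite fun τ => closed_CS_cmb c hcont r' τ
  have hmem : (a, b) ∈ ⋃ τ, CS_cmb (n := n) c r' τ := by
    rw [← hcl.closure_eq, Metric.mem_closure_iff]
    intro ε hε
    have hδ : 0 < min ε ((r - r') / 3) := lt_min hε (by linarith)
    obtain ⟨p, hp, hG, hG'⟩ := Metric.dense_iff.1 (dense_gen n) (a, b) _ hδ
    rw [Metric.mem_ball] at hp
    refine ⟨p, ?_, by rw [dist_comm]; exact lt_of_lt_of_le hp (min_le_left _ _)⟩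
    have hp' : dist p (a, b) < (r - r') / 3 := lt_of_lt_of_le hp (min_le_right _ _)
    rw [Prod.dist_eq, max_lt_iff] at hp'
    have ha' : Inr p.1 r' := inr_near_cmb ha hp'.1
    have hb' : Inr p.2 r' := inr_near_cmb hb hp'.2
    refine Set.mem_iUnion.2 ⟨(triSet p.1 p.2, triSet p.2 p.1, crsSet p.1 p.2), ?_, ?_, ?_,
      card_tri _ _ hG, card_tri _ _ hG', vol_tri _ _ hG r' h0 ha', vol_tri _ _ hG' r' h0 hb',
      cob_id _ _ hG hG' c hc⟩
    · intro t ht
      exact tri_wtri_cmb hn hG t (by simpa [triSet] using ht)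
    · intro t ht
      exact tri_wtri_cmb hn hG' t (by simpa [triSet] using ht)
    · intro t ht
      exact crs_wcrs_cmb hn hG t (by simpa [crsSet] using ht)
  obtain ⟨τ, hτ⟩ := Set.mem_iUnion.1 hmem
  exact ⟨τ.1, τ.2.1, τ.2.2, hτ⟩

end Pool.Agent.MP_90395b_gt.As
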