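import Pool.Agent.MP_90395b_gt.AsFrame

namespace Pool.Agent.MP_90395b_gt.As

open Pool.Agent.MP_90395b_gt.W5

open Real

/-- spherical coordinates -/
noncomputable def consPt (φ l : ℝ) : V3 := ![cos φ * cos l, cos φ * sin l, sin φ]

lemma cons_ip (φ l φ' l' : ℝ) : ip (consPt φ l) (consPt φ' l') =
    cos (φ - φ') - cos φ * cos φ' * (1 - cos (l - l')) := by
  simp only [ip, consPt, cos_sub, Matrix.cons_val_zero, Matrix.cons_val_one, Matrix.cons_val]
  ring

lemma cons_unit (φ l : ℝ) : ip (consPt φ l) (consPt φ l) = 1 := by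
  rw [cons_ip]; simp

lemma cons_le {φ l φ' l' c : ℝ} (h0 : 0 ≤ cos φ') (h1 : cos φ' ≤ c) (h2 : cos φ ≤ c) :
    1 - ip (consPt φ l) (consPt φ' l') ≤ (φ - φ') ^ 2 / 2 + c ^ 2 * ((l - l') ^ 2 / 2) := by
  rw [cons_ip]
  have a1 := one_sub_sq_div_two_le_cos (x := φ - φ')
  have a2 := one_sub_sq_div_two_le_cos (x := l - l')
  have a3 := cos_le_one (l - l')
  have a4 : cos φ * cos φ' ≤ c ^ 2 := by nlinarith
  have a5 : cos φ * cos φ' * (1 - cos (l - l')) ≤ c ^ 2 * (1 - cos (l - l')) :=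
    mul_le_mul_of_nonneg_right a4 (by linarith)
  have a6 : c ^ 2 * (1 - cos (l - l')) ≤ c ^ 2 * ((l - l') ^ 2 / 2) :=
    mul_le_mul_of_nonneg_left (by linarith) (sq_nonneg c)
  linarith

lemma cons_sph (u : V3) (hu : ip u u = 1) (h2 : 0 ≤ u 2) :
    ∃ φ l : ℝ, 0 ≤ φ ∧ φ ≤ π / 2 ∧ -π ≤ l ∧ l ≤ π ∧ u = consPt φ l := by
  unfold ip at hu
  have h1 : u 2 ≤ 1 := by nlinarith [sq_nonneg (u 0), sq_nonneg (u 1)]
  let z : ℂ := ⟨u 0, u 1⟩
  have hr : cos (arcsin (u 2)) = ‖z‖ := by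
    rw [cos_arcsin, Complex.norm_def, Complex.normSq_mk]
    congr 1
    linarith
  refine ⟨arcsin (u 2), z.arg, arcsin_nonneg.2 h2, arcsin_le_pi_div_two _,
    (Complex.neg_pi_lt_arg z).le, Complex.arg_le_pi z, ?_⟩
  unfold consPt
  rw [hr, Complex.norm_mul_cos_arg, Complex.norm_mul_sin_arg, sin_arcsin (by linarith) h1]
  funext i
  fin_cases i <;> rfl

lemma cons_cell {t w : ℝ} (hw : 0 < w) (ht : 0 ≤ t) :
    ∃ j : ℕ, j * w ≤ t ∧ t ≤ (j + 1) * w := by
  refine ⟨⌊t / w⌋₊, ?_, ?_⟩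
  · exact (le_div_iff₀ hw).1 (Nat.floor_le (div_nonneg ht hw.le))
  · exact (div_le_iff₀ hw).1 (Nat.lt_floor_add_one _).le

lemma cons_two {a w t : ℝ} (h1 : a ≤ t) (h2 : t ≤ a + w) :
    (a - t) ^ 2 + (a + w - t) ^ 2 ≤ w ^ 2 := by
  nlinarith [mul_nonneg (sub_nonneg.2 h1) (sub_nonneg.2 h2)]

/-- the grid of one band -/
noncomputable def consRow (α s : ℝ) (N j l : ℕ) : V3 :=
  consPt (α + j * (s / 2)) (((2 * l + j % 2 : ℕ) : ℝ) * (π / N) - π)

lemma cons_band {α s φ l : ℝ} {N : ℕ} (hα : 0 ≤ α) (h1 : α ≤ φ) (h2 : φ ≤ π / 2) (hs : 0 < s)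
    (hs1 : s ≤ 1) (hN : 0 < N) (hc : 2 * π * cos α ≤ N * s) (hl1 : -π ≤ l) (hl2 : l ≤ π) :
    ∃ j l1 l2 : ℕ, j * (s / 2) ≤ φ - α ∧ l1 ≤ N ∧ l2 ≤ N ∧
      (1 - ip (consRow α s N j l1) (consPt φ l)) +
        (1 - ip (consRow α s N (j + 1) l2) (consPt φ l)) ≤ s ^ 2 / 4 := by
  have hπ := pi_gt_three
  have hN' : (0 : ℝ) < N := by exact_mod_cast hN
  have hw : 0 < π / N := by positivity
  obtain ⟨j, j1, j2⟩ := cons_cell (t := φ - α) (w := s / 2) (by linarith) (by linarith)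
  obtain ⟨q, q1, q2⟩ := cons_cell (t := l + π) hw (by linarith)
  have hq : q ≤ 2 * N := by
    have : (q : ℝ) * (π / N) ≤ (2 * N : ℕ) * (π / N) := by
      push_cast
      have : 2 * (N : ℝ) * (π / N) = 2 * π := by field_simp
      linarith
    exact_mod_cast le_of_mul_le_mul_right this hw
  have hj0 : (0 : ℝ) ≤ j * (s / 2) := by positivity
  have c0 : 0 ≤ cos φ := cos_nonneg_of_neg_pi_div_two_le_of_le (by linarith) h2
  have c1 : cos φ ≤ cos α := cos_le_cos_of_nonneg_of_le_pi hα (by linarith) h1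
  have c2 : cos (α + j * (s / 2)) ≤ cos α :=
    cos_le_cos_of_nonneg_of_le_pi hα (by linarith) (by linarith)
  have c3 : cos (α + ((j + 1 : ℕ) : ℝ) * (s / 2)) ≤ cos α := by
    push_cast
    exact cos_le_cos_of_nonneg_of_le_pi hα (by linarith) (by linarith)
  have e1 : (α + j * (s / 2) - φ) ^ 2 + (α + ((j + 1 : ℕ) : ℝ) * (s / 2) - φ) ^ 2 ≤
      (s / 2) ^ 2 := by
    have := cons_two (a := α + j * (s / 2)) (w := s / 2) (t := φ) (by linarith) (by linarith)
    push_cast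
    convert this using 3
    ring
  have e2 : ((q : ℝ) * (π / N) - π - l) ^ 2 + (((q + 1 : ℕ) : ℝ) * (π / N) - π - l) ^ 2 ≤
      (π / N) ^ 2 := by
    have := cons_two (a := q * (π / N) - π) (w := π / N) (t := l) (by linarith) (by linarith)
    push_cast
    convert this using 3
    ring
  have e3 : cos α ^ 2 * (π / N) ^ 2 ≤ (s / 2) ^ 2 := by
    rw [← mul_pow]
    refine pow_le_pow_left₀ (mul_nonneg (c0.trans c1) hw.le) ?_ 2
    rw [← mul_div_assoc, div_le_iff₀ hN']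
    linarith
  have e4 := mul_le_mul_of_nonneg_left e2 (sq_nonneg (cos α))
  by_cases hp : q % 2 = j % 2
  · refine ⟨j, q / 2, (q + 1) / 2, j1, by omega, by omega, ?_⟩
    unfold consRow
    rw [show 2 * (q / 2) + j % 2 = q by omega,
      show 2 * ((q + 1) / 2) + (j + 1) % 2 = q + 1 by omega]
    have a1 := cons_le (l := (q : ℝ) * (π / N) - π) (l' := l) c0 c1 c2
    have a2 := cons_le (l := ((q + 1 : ℕ) : ℝ) * (π / N) - π) (l' := l) c0 c1 c3
    linarith
  · refine ⟨j, (q + 1) / 2, q / 2, j1, by omega, by omega, ?_⟩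
    unfold consRow
    rw [show 2 * ((q + 1) / 2) + j % 2 = q + 1 by omega,
      show 2 * (q / 2) + (j + 1) % 2 = q by omega]
    have a1 := cons_le (l := ((q + 1 : ℕ) : ℝ) * (π / N) - π) (l' := l) c0 c1 c2
    have a2 := cons_le (l := (q : ℝ) * (π / N) - π) (l' := l) c0 c1 c3
    linarith

lemma cons_sum {h : ℝ} (h0 : 0 < h) (h1 : h ≤ 1) (K : ℕ) (hK : K * h ≤ π / 2) :
    ∑ k ∈ Finset.range (K + 1), h * cos (k * h) ≤ sin ((K + 1) * h) + (K + 1) * h ^ 2 := by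
  have step : ∀ a : ℝ, 0 ≤ a → a ≤ π / 2 → h * cos a ≤ sin (a + h) - sin a + h ^ 2 := by
    intro a a0 a1
    have hπ := pi_gt_three
    have c0 : 0 ≤ cos a := cos_nonneg_of_neg_pi_div_two_le_of_le (by linarith) a1
    have s0 : 0 ≤ sin a := sin_nonneg_of_nonneg_of_le_pi a0 (by linarith)
    have b1 := one_sub_sq_div_two_le_cos (x := h)
    have b2 := sin_gt_sub_cube h0
    have b3 := cos_le_one a
    have b4 := sin_le_one a
    have b5 : h ^ 3 ≤ h ^ 2 := pow_le_pow_of_le_one h0.le h1 (by norm_num)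
    have b6 : sin a * (1 - cos h) ≤ h ^ 2 / 2 := by
      nlinarith [cos_le_one h]
    have b7 : cos a * (h - sin h) ≤ h ^ 3 / 6 := by
      nlinarith [sin_le h0.le]
    rw [sin_add]
    nlinarith [sq_nonneg h]
  induction K with
  | zero => simpa using step 0 le_rfl (by positivity)
  | succ K ih =>
    push_cast at hK ⊢
    rw [Finset.sum_range_succ]
    have i1 := ih (by linarith)
    have i2 := step ((K + 1) * h) (by positivity) hK
    push_cast
    rw [show ((K : ℝ) + 1 + 1) * h = (K + 1) * h + h by ring]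
    linarith

lemma cons_fin {h s : ℝ} (h0 : 0 < h) (h1 : h ≤ 1) (hs : 0 < s) (hs1 : s ≤ 1) :
    ∃ S : Finset V3, (∀ a ∈ S, ip a a = 1) ∧
      (S.card : ℝ) ≤ (2 * h / s + 2) * (2 * π * (1 + 3 * h) / (h * s) + 6 / h) ∧
      ∀ u : V3, ip u u = 1 → ∃ a ∈ S, ∃ b ∈ S, 2 - s ^ 2 / 4 ≤ ip a u - ip b u := by
  classical
  have hπ := pi_gt_three
  have hπ4 := pi_le_four
  let K : ℕ := ⌊π / 2 / h⌋₊
  let M : ℕ := ⌊2 * h / s⌋₊ + 1
  let N : ℕ → ℕ := fun k => ⌊2 * π * cos (k * h) / s⌋₊ + 1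
  let X : ℕ → ℕ × ℕ → V3 := fun k p => ((-1 : ℝ) ^ p.1) • consRow (k * h) s (N k) p.1 p.2
  let S : Finset V3 := (Finset.range (K + 1)).biUnion fun k =>
    (Finset.range (M + 1) ×ˢ Finset.range (N k + 1)).image (X k)
  have hK : K * h ≤ π / 2 := (le_div_iff₀ h0).1 (Nat.floor_le (by positivity))
  have mem : ∀ k j l, k ≤ K → j ≤ M → l ≤ N k → X k (j, l) ∈ S := fun k j l a b c =>
    Finset.mem_biUnion.2 ⟨k, Finset.mem_range.2 (by omega), Finset.mem_image.2
      ⟨(j, l), Finset.mem_product.2 ⟨Finset.mem_range.2 (by omega), Finset.mem_range.2 (by omega)⟩,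
        rfl⟩⟩
  have north : ∀ u : V3, ip u u = 1 → 0 ≤ u 2 →
      ∃ a ∈ S, ∃ b ∈ S, 2 - s ^ 2 / 4 ≤ ip a u - ip b u := by
    intro u hu h2
    obtain ⟨φ, l, p0, p1, l0, l1, rfl⟩ := cons_sph u hu h2
    obtain ⟨k, k1, k2⟩ := cons_cell h0 p0
    have hk : k ≤ K := Nat.le_floor ((le_div_iff₀ h0).2 (by linarith))
    have hc : 2 * π * cos (k * h) ≤ (N k : ℝ) * s := by
      rw [← div_le_iff₀ hs]
      push_cast [N]
      exact (Nat.lt_floor_add_one _).le
    obtain ⟨j, l1, l2, j1, b1, b2, b3⟩ := cons_band (N := N k) (by positivity) k1 p1 hs hs1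
      (Nat.succ_pos _) hc l0 l1
    have hj : j ≤ ⌊2 * h / s⌋₊ := Nat.le_floor ((le_div_iff₀ hs).2 (by linarith))
    have m1 := mem k j l1 hk (by omega) b1
    have m2 := mem k (j + 1) l2 hk (by omega) b2
    rcases Nat.even_or_odd j with hp | hp
    · refine ⟨_, m1, _, m2, ?_⟩
      simp only [X, smul_ip, pow_succ, hp.neg_one_pow]
      linarith
    · refine ⟨_, m2, _, m1, ?_⟩
      simp only [X, smul_ip, pow_succ, hp.neg_one_pow]
      linarith
  refine ⟨S, ?_, ?_, fun u hu => ?_⟩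
  · intro a ha
    obtain ⟨k, -, ha⟩ := Finset.mem_biUnion.1 ha
    obtain ⟨p, -, rfl⟩ := Finset.mem_image.1 ha
    simp only [X, smul_ip, ip_smul, consRow, cons_unit, mul_one, ← mul_pow]
    norm_num
  · have c1 : S.card ≤ ∑ k ∈ Finset.range (K + 1), (M + 1) * (N k + 1) := by
      refine Finset.card_biUnion_le.trans (Finset.sum_le_sum fun k _ => ?_)
      refine Finset.card_image_le.trans ?_
      rw [Finset.card_product, Finset.card_range, Finset.card_range]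
    have c2 : ((M + 1 : ℕ) : ℝ) ≤ 2 * h / s + 2 := by
      push_cast [M]
      have := Nat.floor_le (show 0 ≤ 2 * h / s by positivity)
      linarith
    have c3 : ∀ k ∈ Finset.range (K + 1),
        ((N k + 1 : ℕ) : ℝ) ≤ 2 * π / (h * s) * (h * cos (k * h)) + 2 := by
      intro k hk
      have hk' : (k : ℝ) ≤ K := by exact_mod_cast Nat.lt_succ_iff.1 (Finset.mem_range.1 hk)
      have hkh : (k : ℝ) * h ≤ K * h := mul_le_mul_of_nonneg_right hk' h0.le
      have hk0 : (0 : ℝ) ≤ k * h := by positivity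
      have c0 : 0 ≤ cos (k * h) :=
        cos_nonneg_of_neg_pi_div_two_le_of_le (by linarith) (by linarith)
      push_cast [N]
      have := Nat.floor_le (show 0 ≤ 2 * π * cos (k * h) / s by positivity)
      have e : 2 * π / (h * s) * (h * cos (k * h)) = 2 * π * cos (k * h) / s := by field_simp
      linarith
    have c4 := cons_sum h0 h1 K hK
    have c5 : ((K : ℝ) + 1) * h ≤ 3 := by linarith
    have c6 : ∑ k ∈ Finset.range (K + 1), h * cos (k * h) ≤ 1 + 3 * h := by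
      have := sin_le_one (((K : ℝ) + 1) * h)
      nlinarith
    have c7 : ∑ k ∈ Finset.range (K + 1), ((N k + 1 : ℕ) : ℝ) ≤
        2 * π * (1 + 3 * h) / (h * s) + 6 / h := by
      refine (Finset.sum_le_sum c3).trans ?_
      rw [Finset.sum_add_distrib, ← Finset.mul_sum, Finset.sum_const, Finset.card_range,
        nsmul_eq_mul]
      have d1 := mul_le_mul_of_nonneg_left c6 (show 0 ≤ 2 * π / (h * s) by positivity)
      have d2 : ((K + 1 : ℕ) : ℝ) * 2 ≤ 6 / h := by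
        rw [le_div_iff₀ h0]
        push_cast
        linarith
      have d3 : 2 * π / (h * s) * (1 + 3 * h) = 2 * π * (1 + 3 * h) / (h * s) := by ring
      linarith
    calc (S.card : ℝ) ≤ ((∑ k ∈ Finset.range (K + 1), (M + 1) * (N k + 1) : ℕ) : ℝ) := by
          exact_mod_cast c1
      _ = ((M + 1 : ℕ) : ℝ) * ∑ k ∈ Finset.range (K + 1), ((N k + 1 : ℕ) : ℝ) := by
          rw [← Finset.mul_sum, Nat.cast_mul, Nat.cast_sum]
      _ ≤ _ := mul_le_mul c2 c7 (by positivity) (by positivity)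
  · rcases le_total 0 (u 2) with h2 | h2
    · exact north u hu h2
    · obtain ⟨a, ha, b, hb, hab⟩ := north ((-1 : ℝ) • u)
        (by rw [smul_ip, ip_smul, hu]; norm_num) (by simpa using h2)
      refine ⟨b, hb, a, ha, ?_⟩
      rw [ip_smul, ip_smul] at hab
      linarith

lemma cons_pad (S : Finset V3) (hS : ∀ a ∈ S, ip a a = 1) {n : ℕ} (hn : S.card ≤ n) :
    ∃ x : Fin n → V3, Function.Injective x ∧ (∀ i, ip (x i) (x i) = 1) ∧
      ∀ a ∈ S, ∃ i, x i = a := by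
  classical
  have hinf : {v : V3 | ip v v = 1}.Infinite := by
    refine Set.infinite_of_injOn_mapsTo (s := Set.Icc (0 : ℝ) 1)
      (f := fun t => (![t, √(1 - t ^ 2), 0] : V3)) (fun a _ b _ h => congrFun h 0) ?_
      (Set.Icc_infinite zero_lt_one)
    intro t ht
    have : 0 ≤ 1 - t ^ 2 := by nlinarith [ht.1, ht.2]
    have := Real.mul_self_sqrt this
    simp only [Set.mem_ofPred_eq, ip, Matrix.cons_val_zero, Matrix.cons_val_one, Matrix.cons_val]
    linarith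
  have := hinf.to_subtype
  obtain ⟨T, hT, hc⟩ := Infinite.exists_superset_card_eq
    (S.subtype (· ∈ {v : V3 | ip v v = 1})) n
    ((Finset.card_subtype _ _).trans_le ((Finset.card_filter_le _ _).trans hn))
  let e : T ≃ Fin n := T.equivFinOfCardEq hc
  refine ⟨fun i => ((e.symm i).1 : V3), fun i j h => ?_, fun i => (e.symm i).1.2, fun a ha => ?_⟩
  · exact e.symm.injective (Subtype.ext (Subtype.ext h))
  · exact ⟨e ⟨⟨a, hS a ha⟩, hT (Finset.mem_subtype.2 ha)⟩, by simp⟩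

theorem construction (ε : ℝ) (hε : 0 < ε) : ∃ N : ℕ, ∀ n ≥ N, ∃ x : Fin n → V3,
    Function.Injective x ∧ (∀ i, ip (x i) (x i) = 1) ∧
      ∀ u : V3, ip u u = 1 → ∃ i j, 2 - (Real.pi + ε) / n ≤ ip (x i) u - ip (x j) u := by
  have hπ := pi_gt_three
  have hπ4 := pi_le_four
  obtain ⟨h, h0, h1, h2⟩ : ∃ h : ℝ, 0 < h ∧ h ≤ 1 ∧ h ≤ ε / 24 :=
    ⟨min 1 (ε / 24), by positivity, min_le_left _ _, min_le_right _ _⟩
  obtain ⟨t, t0, t1, t2⟩ : ∃ t : ℝ, 0 < t ∧ t ≤ 1 ∧ t ≤ 2 * ε / (12 + 76 / h) :=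
    ⟨min 1 (2 * ε / (12 + 76 / h)), by positivity, min_le_left _ _, min_le_right _ _⟩
  refine ⟨⌈4 * (π + ε) / t ^ 2⌉₊ + 1, fun n hn => ?_⟩
  have hn0 : (0 : ℝ) < n := by exact_mod_cast (by omega : 0 < n)
  have hn1 : 4 * (π + ε) / t ^ 2 ≤ n :=
    (Nat.le_ceil _).trans (by exact_mod_cast (by omega))
  obtain ⟨s, s0, s2⟩ : ∃ s : ℝ, 0 < s ∧ s ^ 2 = 4 * (π + ε) / n :=
    ⟨√(4 * (π + ε) / n), by positivity, Real.sq_sqrt (by positivity)⟩
  have st : s ≤ t := by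
    refine (pow_le_pow_iff_left₀ s0.le t0.le two_ne_zero).1 ?_
    rw [s2, div_le_iff₀ hn0]
    rw [div_le_iff₀ (by positivity)] at hn1
    linarith
  obtain ⟨S, S1, S2, S3⟩ := cons_fin h0 h1 s0 (st.trans t1)
  have hcard : S.card ≤ n := by
    have e1 : (n : ℝ) * s ^ 2 = 4 * (π + ε) := by rw [s2]; field_simp
    have e2 : (2 * h / s + 2) * (2 * π * (1 + 3 * h) / (h * s) + 6 / h) * s ^ 2 =
        4 * π * (1 + 3 * h) + s * (12 + 4 * π * (1 + 3 * h) / h + 12 * s / h) := by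
      field_simp
      ring
    have e3 : 4 * π * (1 + 3 * h) / h + 12 * s / h ≤ 76 / h := by
      rw [← add_div]
      refine div_le_div_of_nonneg_right ?_ h0.le
      nlinarith
    have e4 : s * (12 + 76 / h) ≤ 2 * ε := (le_div_iff₀ (by positivity)).1 (st.trans t2)
    have e5 : s * (12 + 4 * π * (1 + 3 * h) / h + 12 * s / h) ≤ s * (12 + 76 / h) :=
      mul_le_mul_of_nonneg_left (by linarith) s0.le
    have e6 : (S.card : ℝ) * s ^ 2 ≤ n * s ^ 2 := by
      have := mul_le_mul_of_nonneg_right S2 (sq_nonneg s)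
      nlinarith
    exact_mod_cast le_of_mul_le_mul_right e6 (by positivity)
  obtain ⟨x, x1, x2, x3⟩ := cons_pad S S1 hcard
  refine ⟨x, x1, x2, fun u hu => ?_⟩
  obtain ⟨a, ha, b, hb, hab⟩ := S3 u hu
  obtain ⟨i, rfl⟩ := x3 a ha
  obtain ⟨j, rfl⟩ := x3 b hb
  refine ⟨i, j, ?_⟩
  have : (π + ε) / n = s ^ 2 / 4 := by rw [s2]; ring
  rw [this]
  exact hab

end Pool.Agent.MP_90395b_gt.As
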