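import Pool.Agent.MP_90395b_gt.W5Alg

/-! Definitions for the asymptotics of the maximal width. -/

namespace Pool.Agent.MP_90395b_gt.As

open Pool.Agent.MP_90395b_gt.W5

/-- cross product -/
def cr (a b : V3) : V3 := ![a 1 * b 2 - a 2 * b 1, a 2 * b 0 - a 0 * b 2, a 0 * b 1 - a 1 * b 0]

abbrev I4 (n : ℕ) := Fin n × Fin n × Fin n × Fin n

/-- `a i` maximises the functional `u` -/
def Sup {n : ℕ} (a : Fin n → V3) (i : Fin n) (u : V3) : Prop := ∀ z, ip (a z) u ≤ ip (a i) u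

/-- oriented facet `(i, j, k)` of the hull of `a`, whose normal is maximised over `b` at `l` -/
def Tri {n : ℕ} (a b : Fin n → V3) (t : I4 n) : Prop :=
  t.1 ≠ t.2.1 ∧ t.2.2.1 ≠ t.1 ∧ t.2.2.1 ≠ t.2.1 ∧
    Sup a t.1 (cr (a t.2.1 - a t.1) (a t.2.2.1 - a t.1)) ∧
    Sup b t.2.2.2 (cr (a t.2.1 - a t.1) (a t.2.2.1 - a t.1))

/-- edge `(i, j)` of the hull of `a` and edge `(l, m)` of the hull of `b` with a common normal -/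
def Crs {n : ℕ} (a b : Fin n → V3) (t : I4 n) : Prop :=
  t.1 ≠ t.2.1 ∧ t.2.2.1 ≠ t.2.2.2 ∧
    Sup a t.1 (cr (a t.2.1 - a t.1) (b t.2.2.2 - b t.2.2.1)) ∧
    Sup b t.2.2.1 (cr (a t.2.1 - a t.1) (b t.2.2.2 - b t.2.2.1))

open Classical in
noncomputable def triSet {n : ℕ} (a b : Fin n → V3) : Finset (I4 n) := Finset.univ.filter (Tri a b)

open Classical in
noncomputable def crsSet {n : ℕ} (a b : Fin n → V3) : Finset (I4 n) := Finset.univ.filter (Crs a b)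

/-- general position -/
structure Gen {n : ℕ} (a b : Fin n → V3) : Prop where
  aaa : ∀ i j k l, i ≠ j → i ≠ k → i ≠ l → j ≠ k → j ≠ l → k ≠ l →
    dt (a j - a i) (a k - a i) (a l - a i) ≠ 0
  aab : ∀ i j k l m, i ≠ j → i ≠ k → j ≠ k → l ≠ m → dt (a j - a i) (a k - a i) (b m - b l) ≠ 0
  abb : ∀ i j l m p, i ≠ j → l ≠ m → l ≠ p → m ≠ p → dt (a j - a i) (b m - b l) (b p - b l) ≠ 0
  ht : ∀ i j, i ≠ j → a i 0 ≠ a j 0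

/-- closed form of `Tri` -/
def WTri {n : ℕ} (a b : Fin n → V3) (t : I4 n) : Prop :=
  ∃ u : V3, ip u u = 1 ∧ Sup a t.1 u ∧ ip (a t.2.1) u = ip (a t.1) u ∧
    ip (a t.2.2.1) u = ip (a t.1) u ∧ Sup b t.2.2.2 u ∧
    0 ≤ dt (a t.2.1 - a t.1) (a t.2.2.1 - a t.1) u

/-- closed form of `Crs` -/
def WCrs {n : ℕ} (a b : Fin n → V3) (t : I4 n) : Prop :=
  ∃ u : V3, ip u u = 1 ∧ Sup a t.1 u ∧ ip (a t.2.1) u = ip (a t.1) u ∧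
    Sup b t.2.2.1 u ∧ ip (b t.2.2.2) u = ip (b t.2.2.1) u ∧
    0 ≤ dt (a t.2.1 - a t.1) (b t.2.2.2 - b t.2.2.1) u

/-- coboundary on a triangle -/
def Vf (c : V3 → V3 → V3 → ℝ) (a1 a2 a3 b : V3) : ℝ := c a1 a2 b + c a2 a3 b + c a3 a1 b

/-- coboundary on a parallelogram -/
def Sf (c : V3 → V3 → V3 → ℝ) (a a' b b' : V3) : ℝ := c a' a b + c a a' b' + c b' b a' + c b b' a

def VT {n : ℕ} (c : V3 → V3 → V3 → ℝ) (a b : Fin n → V3) (t : I4 n) : ℝ :=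
  Vf c (a t.1) (a t.2.1) (a t.2.2.1) (b t.2.2.2)

def ST {n : ℕ} (c : V3 → V3 → V3 → ℝ) (a b : Fin n → V3) (t : I4 n) : ℝ :=
  Sf c (a t.1) (a t.2.1) (b t.2.2.1) (b t.2.2.2)

def DT {n : ℕ} (a : Fin n → V3) (t : I4 n) : ℝ := dt (a t.1) (a t.2.1) (a t.2.2.1)

/-- every direction has height at least `r` -/
def Inr {n : ℕ} (a : Fin n → V3) (r : ℝ) : Prop := ∀ u : V3, ip u u = 1 → ∃ i, r ≤ ip (a i) u

/-- the weight polynomial -/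
noncomputable def g (x m q : ℝ) : ℝ :=
  1173 / 2000 - 527 / 500 * (x - 1 / 2) - 127 / 1000 * m + 267 / 250 * (x - 1 / 2) ^ 2
    + 601 / 1000 * (x - 1 / 2) * m - 79 / 500 * m ^ 2 - 239 / 1000 * q - 1 / 10 * (x - 1 / 2) ^ 3
    - 91 / 125 * (x - 1 / 2) ^ 2 * m - 121 / 500 * (x - 1 / 2) * m ^ 2 + 33 / 250 * m ^ 3
    + 43 / 250 * (x - 1 / 2) * q + 611 / 1000 * m * q

/-- cochain value from a determinant `D`, quarter squared length `x`, squared distances `r, r'` -/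
noncomputable def c2 (D x r r' : ℝ) : ℝ := D / 2 * g x ((r + r') / 2 - x) ((r - r') ^ 2 / 16)

/-- the cochain at scale `T` -/
noncomputable def cg (T : ℝ) (a a' b : V3) : ℝ :=
  c2 (dt a a' b / T) (ip (a - a') (a - a') / (4 * T)) (ip (a - b) (a - b) / T)
    (ip (a' - b) (a' - b) / T)

/-- the area cochain at scale `T` -/
noncomputable def c0 (T : ℝ) (a a' b : V3) : ℝ := dt a a' b / (2 * T)

/-- planar cochain: points `(a1, a2)`, `(p1, p2)` seen from `(b1, b2)` -/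
noncomputable def cp (a1 a2 p1 p2 b1 b2 : ℝ) : ℝ :=
  c2 ((a1 - b1) * (p2 - b2) - (a2 - b2) * (p1 - b1)) (((a1 - p1) ^ 2 + (a2 - p2) ^ 2) / 4)
    ((a1 - b1) ^ 2 + (a2 - b2) ^ 2) ((p1 - b1) ^ 2 + (p2 - b2) ^ 2)

noncomputable def Vp (a1 a2 p1 p2 q1 q2 b1 b2 : ℝ) : ℝ :=
  cp a1 a2 p1 p2 b1 b2 + cp p1 p2 q1 q2 b1 b2 + cp q1 q2 a1 a2 b1 b2

/-- the computer-checked triangle inequality -/
def BoxV : Prop := ∀ h k u v s : ℝ, 0 ≤ h → k ≤ 1 / 2 → 0 ≤ s → s ≤ 2 → (k ≤ 0 → s ≤ 1) →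
  (3 / 4 ≤ h → k ≤ 1 / 8 → s ≤ 3 / 2) → h ^ 2 + k ^ 2 + u ^ 2 + v ^ 2 ≤ 1 →
  Vp (-h) (-k) h (-k) ((h * (1 - s ^ 2) + 2 * k * s) / (1 + s ^ 2))
    ((2 * h * s - k * (1 - s ^ 2)) / (1 + s ^ 2)) u v ≤ 1 / 2

noncomputable def Jl0 (x y t u c : ℝ) : ℝ :=
  1393 / 1000 - 1219 / 2000 * y - 2197 / 1000 * x - 3657 / 2000 * u ^ 2 - 1219 / 2000 * t ^ 2 -
  37 / 1000 * y ^ 2 + 1329 / 1000 * x * y + 609 / 500 * x ^ 2 + 1219 / 500 * t * u * c + 323 /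
  125 * y * u ^ 2 - 111 / 500 * y * t ^ 2 + 33 / 250 * y ^ 3 + 107 / 125 * x * u ^ 2 + 1329 /
  1000 * x * t ^ 2 - 121 / 500 * x * y ^ 2 - 91 / 125 * x ^ 2 * y - 1 / 10 * x ^ 3 - 37 / 200 *
  u ^ 4 - 111 / 500 * t ^ 2 * u ^ 2 - 37 / 1000 * t ^ 4 - 177 / 500 * y * t * u * c - 53 / 50 *
  y ^ 2 * u ^ 2 + 99 / 50 * y ^ 2 * t ^ 2 - 1329 / 250 * x * t * u * c - 13 / 40 * x * y * c ^ 2
  - 841 / 1000 * x * y * u ^ 2 - 363 / 250 * x * y * t ^ 2 + 59 / 250 * x ^ 2 * u ^ 2 - 91 / 125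
  * x ^ 2 * t ^ 2 + 74 / 125 * t * u ^ 3 * c + 37 / 125 * t ^ 3 * u * c - 143 / 250 * y * u ^ 4
  + 37 / 250 * y * t ^ 2 * c ^ 2 + 263 / 100 * y * t ^ 2 * u ^ 2 + 99 / 50 * y * t ^ 4 - 31 / 25
  * y ^ 2 * t * u * c + 39 / 40 * x * u ^ 2 * c ^ 2 + 3009 / 1000 * x * u ^ 4 + 1711 / 1000 * x
  * t ^ 2 * u ^ 2 - 121 / 500 * x * t ^ 4 + 2801 / 500 * x * y * t * u * c + 611 / 1000 * x * y
  ^ 2 * c ^ 2 + 364 / 125 * x ^ 2 * t * u * c + 43 / 250 * x ^ 2 * y * c ^ 2 + 231 / 250 * u ^ 6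
  - 111 / 250 * t ^ 2 * u ^ 2 * c ^ 2 + 99 / 50 * t ^ 2 * u ^ 4 + 297 / 250 * t ^ 4 * u ^ 2 + 33
  / 250 * t ^ 6 - 1 / 100 * y * t * u ^ 3 * c - 617 / 100 * y * t ^ 3 * u * c - 198 / 125 * y ^
  2 * t ^ 2 * c ^ 2 - 919 / 250 * x * t * u ^ 3 * c + 242 / 125 * x * t ^ 3 * u * c + 1579 /
  1000 * x * y * t ^ 2 * c ^ 2 - 129 / 250 * x ^ 2 * u ^ 2 * c ^ 2 - 594 / 125 * t * u ^ 5 * c -
  792 / 125 * t ^ 3 * u ^ 3 * c - 198 / 125 * t ^ 5 * u * c - 249 / 500 * y * t ^ 2 * u ^ 2 * c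
  ^ 2 - 198 / 125 * y * t ^ 4 * c ^ 2 - 2889 / 1000 * x * u ^ 4 * c ^ 2 - 4737 / 1000 * x * t ^
  2 * u ^ 2 * c ^ 2 - 611 / 125 * x * y * t * u * c ^ 3 + 198 / 25 * t ^ 2 * u ^ 4 * c ^ 2 + 594
  / 125 * t ^ 4 * u ^ 2 * c ^ 2 + 528 / 125 * y * t ^ 3 * u * c ^ 3 + 611 / 125 * x * t * u ^ 3
  * c ^ 3 - 528 / 125 * t ^ 3 * u ^ 3 * c ^ 3

noncomputable def Jl1 (x y t u c : ℝ) : ℝ :=
  - 1219 / 2000 - 37 / 500 * y + 1329 / 1000 * x - 111 / 500 * u ^ 2 - 37 / 500 * t ^ 2 + 99 /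
  250 * y ^ 2 - 121 / 250 * x * y - 91 / 125 * x ^ 2 + 37 / 125 * t * u * c - 22 / 125 * y * u ^
  2 + 297 / 125 * y * t ^ 2 + 1711 / 1000 * x * u ^ 2 - 121 / 250 * x * t ^ 2 + 99 / 50 * u ^ 4
  + 297 / 125 * t ^ 2 * u ^ 2 + 99 / 250 * t ^ 4 - 973 / 500 * y * t * u * c + 242 / 125 * x * t
  * u * c + 611 / 1000 * x * y * c ^ 2 - 792 / 125 * t * u ^ 3 * c - 396 / 125 * t ^ 3 * u * c -
  198 / 125 * y * t ^ 2 * c ^ 2 - 1833 / 1000 * x * u ^ 2 * c ^ 2 + 594 / 125 * t ^ 2 * u ^ 2 *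
  c ^ 2

noncomputable def Jl2 (x y t u c : ℝ) : ℝ :=
  - 37 / 1000 + 99 / 250 * y - 121 / 500 * x + 297 / 250 * u ^ 2 + 99 / 250 * t ^ 2 - 198 / 125
  * t * u * c

noncomputable def Jl3 (x y t u c : ℝ) : ℝ :=
  33 / 250

noncomputable def Jm0 (x y t u c : ℝ) : ℝ :=
  1393 / 1000 - 2197 / 1000 * y - 1219 / 2000 * x - 1219 / 2000 * u ^ 2 - 3657 / 2000 * t ^ 2 +
  609 / 500 * y ^ 2 + 1329 / 1000 * x * y - 37 / 1000 * x ^ 2 + 1219 / 500 * t * u * c + 1329 /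
  1000 * y * u ^ 2 + 107 / 125 * y * t ^ 2 - 1 / 10 * y ^ 3 - 111 / 500 * x * u ^ 2 + 323 / 125
  * x * t ^ 2 - 91 / 125 * x * y ^ 2 - 121 / 500 * x ^ 2 * y + 33 / 250 * x ^ 3 - 37 / 1000 * u
  ^ 4 - 111 / 500 * t ^ 2 * u ^ 2 - 37 / 200 * t ^ 4 - 1329 / 250 * y * t * u * c - 91 / 125 * y
  ^ 2 * u ^ 2 + 59 / 250 * y ^ 2 * t ^ 2 - 177 / 500 * x * t * u * c - 13 / 40 * x * y * c ^ 2 -
  363 / 250 * x * y * u ^ 2 - 841 / 1000 * x * y * t ^ 2 + 99 / 50 * x ^ 2 * u ^ 2 - 53 / 50 * x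
  ^ 2 * t ^ 2 + 37 / 125 * t * u ^ 3 * c + 74 / 125 * t ^ 3 * u * c - 121 / 500 * y * u ^ 4 + 39
  / 40 * y * t ^ 2 * c ^ 2 + 1711 / 1000 * y * t ^ 2 * u ^ 2 + 3009 / 1000 * y * t ^ 4 + 364 /
  125 * y ^ 2 * t * u * c + 37 / 250 * x * u ^ 2 * c ^ 2 + 99 / 50 * x * u ^ 4 + 263 / 100 * x *
  t ^ 2 * u ^ 2 - 143 / 250 * x * t ^ 4 + 2801 / 500 * x * y * t * u * c + 43 / 250 * x * y ^ 2
  * c ^ 2 - 31 / 25 * x ^ 2 * t * u * c + 611 / 1000 * x ^ 2 * y * c ^ 2 + 33 / 250 * u ^ 6 -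
  111 / 250 * t ^ 2 * u ^ 2 * c ^ 2 + 297 / 250 * t ^ 2 * u ^ 4 + 99 / 50 * t ^ 4 * u ^ 2 + 231
  / 250 * t ^ 6 + 242 / 125 * y * t * u ^ 3 * c - 919 / 250 * y * t ^ 3 * u * c - 129 / 250 * y
  ^ 2 * t ^ 2 * c ^ 2 - 617 / 100 * x * t * u ^ 3 * c - 1 / 100 * x * t ^ 3 * u * c + 1579 /
  1000 * x * y * u ^ 2 * c ^ 2 - 198 / 125 * x ^ 2 * u ^ 2 * c ^ 2 - 198 / 125 * t * u ^ 5 * c -
  792 / 125 * t ^ 3 * u ^ 3 * c - 594 / 125 * t ^ 5 * u * c - 4737 / 1000 * y * t ^ 2 * u ^ 2 *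
  c ^ 2 - 2889 / 1000 * y * t ^ 4 * c ^ 2 - 198 / 125 * x * u ^ 4 * c ^ 2 - 249 / 500 * x * t ^
  2 * u ^ 2 * c ^ 2 - 611 / 125 * x * y * t * u * c ^ 3 + 594 / 125 * t ^ 2 * u ^ 4 * c ^ 2 +
  198 / 25 * t ^ 4 * u ^ 2 * c ^ 2 + 611 / 125 * y * t ^ 3 * u * c ^ 3 + 528 / 125 * x * t * u ^
  3 * c ^ 3 - 528 / 125 * t ^ 3 * u ^ 3 * c ^ 3

noncomputable def Jm1 (x y t u c : ℝ) : ℝ :=
  - 1219 / 2000 + 1329 / 1000 * y - 37 / 500 * x - 37 / 500 * u ^ 2 - 111 / 500 * t ^ 2 - 91 /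
  125 * y ^ 2 - 121 / 250 * x * y + 99 / 250 * x ^ 2 + 37 / 125 * t * u * c - 121 / 250 * y * u
  ^ 2 + 1711 / 1000 * y * t ^ 2 + 297 / 125 * x * u ^ 2 - 22 / 125 * x * t ^ 2 + 99 / 250 * u ^
  4 + 297 / 125 * t ^ 2 * u ^ 2 + 99 / 50 * t ^ 4 + 242 / 125 * y * t * u * c - 973 / 500 * x *
  t * u * c + 611 / 1000 * x * y * c ^ 2 - 396 / 125 * t * u ^ 3 * c - 792 / 125 * t ^ 3 * u * c
  - 1833 / 1000 * y * t ^ 2 * c ^ 2 - 198 / 125 * x * u ^ 2 * c ^ 2 + 594 / 125 * t ^ 2 * u ^ 2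
  * c ^ 2

noncomputable def Jm2 (x y t u c : ℝ) : ℝ :=
  - 37 / 1000 - 121 / 500 * y + 99 / 250 * x + 99 / 250 * u ^ 2 + 297 / 250 * t ^ 2 - 198 / 125
  * t * u * c

noncomputable def Jm3 (x y t u c : ℝ) : ℝ :=
  33 / 250

/-- quotient of the parallelogram coboundary by the area -/
noncomputable def Jt (x y t u c l m e : ℝ) : ℝ :=
  l * (Jl0 x y t u c + e * Jl1 x y t u c + e ^ 2 * Jl2 x y t u c + e ^ 3 * Jl3 x y t u c)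
    + m * (Jm0 x y t u c + e * Jm1 x y t u c + e ^ 2 * Jm2 x y t u c + e ^ 3 * Jm3 x y t u c)

/-- the computer-checked parallelogram inequality -/
def BoxX : Prop := ∀ x y t u c : ℝ, 0 ≤ x → 0 ≤ y → -1 ≤ c → c ≤ 1 → x + y + t ^ 2 + u ^ 2 ≤ 1 →
  1 ≤ Jt x y t u c 1 1 0

end Pool.Agent.MP_90395b_gt.As
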