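import Pool.Agent.MP_90395b_gt.AsFrame

namespace Pool.Agent.MP_90395b_gt.As

open Pool.Agent.MP_90395b_gt.W5

theorem edge_ex {ι : Type} [Fintype ι] (S : ι → Prop) (f : ι → ι → ℝ)
    (ha : ∀ x y, f y x = -f x y) (hn : ∀ x y, S x → S y → f x y = 0 → x = y)
    (h0 : ∀ x y, ¬ S y → f x y = 0)
    (hp : ∀ x y z t, f x y * f z t - f x z * f y t + f x t * f y z = 0)
    (h : ∃ x, S x ∧ ∀ y, f x y ≤ 0) : ∃ x, S x ∧ ∀ y, 0 ≤ f x y := by
  classical
  obtain ⟨w0, s0, hw0⟩ := h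
  obtain ⟨w1, s1, hw1⟩ := Finset.exists_max_image (Finset.univ.filter S)
    (fun x => (Finset.univ.filter fun t => S t ∧ 0 ≤ f x t).card) ⟨w0, by simpa using s0⟩
  have s1' : S w1 := by simpa using s1
  refine ⟨w1, s1', fun y => ?_⟩
  by_contra hy
  rw [not_le] at hy
  have sy : S y := by
    by_contra h'
    exact hy.ne (h0 w1 y h')
  have hyw : 0 < f y w1 := by rw [ha]; linarith
  refine absurd (hw1 y (by simpa using sy)) (not_le.2 (Finset.card_lt_card ⟨fun t ht => ?_, ?_⟩))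
  · simp only [Finset.mem_filter, Finset.mem_univ, true_and] at ht ⊢
    refine ⟨ht.1, ?_⟩
    by_cases e : w1 = w0
    · subst e
      rw [← hn w1 t s1' ht.1 (le_antisymm (hw0 t) ht.2)]
      exact hyw.le
    · have h1 : f w0 w1 < 0 := lt_of_le_of_ne (hw0 w1) fun h' => e (hn w0 w1 s0 s1' h').symm
      have h2 := hp w0 y w1 t
      have h3 := mul_nonpos_of_nonpos_of_nonneg (hw0 y) ht.2
      have h4 := mul_nonpos_of_nonpos_of_nonneg (hw0 t) hyw.le
      by_contra h5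
      have := mul_pos_of_neg_of_neg h1 (not_le.1 h5)
      linarith
  · intro h'
    have hyy : f y y = 0 := by linarith [ha y y]
    have := h' (show y ∈ Finset.univ.filter fun t => S t ∧ 0 ≤ f y t by simp [sy, hyy])
    simp only [Finset.mem_filter, Finset.mem_univ, true_and] at this
    linarith [this.2]

open Classical in
theorem edge_one {ι : Type} [Fintype ι] (P : ι → Prop) (h : ∀ x y, P x → P y → x = y) :
    ∑ x, (if P x then (1 : ℝ) else 0) = if ∃ x, P x then 1 else 0 := by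
  split_ifs with h'
  · obtain ⟨x, hx⟩ := h'
    rw [Finset.sum_eq_single x, if_pos hx]
    · intro y _ hy
      exact if_neg fun h'' => hy (h y x h'' hx)
    · simp
  · exact Finset.sum_eq_zero fun x _ => if_neg fun h'' => h' ⟨x, h''⟩

open Classical in
theorem edge_plane {ι : Type} [Fintype ι] (S : ι → Prop) (f : ι → ι → ℝ)
    (ha : ∀ x y, f y x = -f x y) (hn : ∀ x y, S x → S y → f x y = 0 → x = y)
    (h0 : ∀ x y, ¬ S y → f x y = 0)
    (hp : ∀ x y z t, f x y * f z t - f x z * f y t + f x t * f y z = 0) :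
    ∑ x, (if S x ∧ ∀ y, f x y ≤ 0 then (1 : ℝ) else 0) =
      ∑ x, (if S x ∧ ∀ y, 0 ≤ f x y then (1 : ℝ) else 0) := by
  have e1 := edge_one (fun x => S x ∧ ∀ y, f x y ≤ 0) fun x y hx hy =>
    hn x y hx.1 hy.1 (by linarith [hx.2 y, hy.2 x, ha x y])
  have e2 := edge_one (fun x => S x ∧ ∀ y, 0 ≤ f x y) fun x y hx hy =>
    hn x y hx.1 hy.1 (by linarith [hx.2 y, hy.2 x, ha x y])
  have e3 : (∃ x, S x ∧ ∀ y, f x y ≤ 0) ↔ ∃ x, S x ∧ ∀ y, 0 ≤ f x y := by
    refine ⟨edge_ex S f ha hn h0 hp, fun h => ?_⟩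
    have := edge_ex S (fun x y => -f x y) (fun x y => by rw [ha]) (fun x y hx hy h' =>
      hn x y hx hy (neg_eq_zero.1 h')) (fun x y hy => by rw [h0 x y hy, neg_zero])
      (fun x y z t => by linarith [hp x y z t]) (by simpa using h)
    simpa using this
  by_cases h : ∃ x, S x ∧ ∀ y, f x y ≤ 0
  · rw [if_pos h] at e1
    rw [if_pos (e3.1 h)] at e2
    convert e1.trans e2.symm
  · rw [if_neg h] at e1
    rw [if_neg (mt e3.2 h)] at e2
    convert e1.trans e2.symm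

theorem edge_sup {n : ℕ} (a : Fin n → V3) (i i' : Fin n) (u d w : V3) (s : ℝ)
    (h : ∀ z, ip (a z) u - ip (a i) u = s * dt d w (a z - a i')) :
    Sup a i u ↔ ∀ z, s * dt d w (a z - a i') ≤ 0 :=
  forall_congr' fun z => by rw [← h, sub_nonpos]

open Classical in
theorem edge_sym {n : ℕ} (a b : Fin n → V3) (hG : Gen a b) (i j l : Fin n) :
    ∑ k, (if Tri a b (i, j, k, l) then (1 : ℝ) else 0) +
      ∑ m, (if Crs a b (i, j, l, m) then (1 : ℝ) else 0) =
    ∑ k, (if Tri a b (j, i, k, l) then (1 : ℝ) else 0) +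
      ∑ m, (if Crs a b (j, i, l, m) then (1 : ℝ) else 0) := by
  by_cases hij : i = j
  · rw [hij]
  let w : Fin n ⊕ Fin n → V3 := Sum.elim (fun k => a k - a i) fun m => b m - b l
  let S : Fin n ⊕ Fin n → Prop := Sum.elim (fun k => k ≠ i ∧ k ≠ j) fun m => l ≠ m
  have key := edge_plane S (fun x y => dt (a j - a i) (w x) (w y))
    (fun x y => by simp only [dt]; ring) (by
      rintro (k | m) (k' | m') h1 h2 h3
      · by_contra h
        exact hG.aaa i j k k' hij (Ne.symm h1.1) (Ne.symm h2.1) (Ne.symm h1.2) (Ne.symm h2.2)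
          (fun e => h (congrArg _ e)) h3
      · exact (hG.aab i j k l m' hij (Ne.symm h1.1) (Ne.symm h1.2) h2 h3).elim
      · refine (hG.aab i j k' l m hij (Ne.symm h2.1) (Ne.symm h2.2) h1 ?_).elim
        have : dt (a j - a i) (b m - b l) (a k' - a i) = 0 := h3
        simp only [dt] at this ⊢
        linarith
      · by_contra h
        exact hG.abb i j l m m' hij h1 h2 (fun e => h (congrArg _ e)) h3) (by
      rintro x (k | m) h
      · change dt (a j - a i) (w x) (a k - a i) = 0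
        by_cases h1 : k = i
        · simp [h1, dt]
        · have h2 : k = j := by
            by_contra h2
            exact h ⟨h1, h2⟩
          rw [h2]
          simp only [dt]
          ring
      · change dt (a j - a i) (w x) (b m - b l) = 0
        have h1 : l = m := not_not.1 h
        simp [h1, dt])
    (fun x y z t => by simp only [dt]; ring)
  rw [Fintype.sum_sum_type, Fintype.sum_sum_type] at key
  have t1 : ∀ k, Tri a b (i, j, k, l) ↔
      S (.inl k) ∧ ∀ y, dt (a j - a i) (w (.inl k)) (w y) ≤ 0 := fun k => by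
    simp only [Tri, Sum.forall, S, w, Sum.elim_inl, Sum.elim_inr]
    rw [edge_sup a i i _ (a j - a i) (a k - a i) 1 fun z => by simp [ip, cr, dt]; ring,
      edge_sup b l l _ (a j - a i) (a k - a i) 1 fun z => by simp [ip, cr, dt]; ring]
    simp [hij, and_assoc]
  have t2 : ∀ m, Crs a b (i, j, l, m) ↔
      S (.inr m) ∧ ∀ y, dt (a j - a i) (w (.inr m)) (w y) ≤ 0 := fun m => by
    simp only [Crs, Sum.forall, S, w, Sum.elim_inl, Sum.elim_inr]
    rw [edge_sup a i i _ (a j - a i) (b m - b l) 1 fun z => by simp [ip, cr, dt]; ring,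
      edge_sup b l l _ (a j - a i) (b m - b l) 1 fun z => by simp [ip, cr, dt]; ring]
    simp [hij]
  have t3 : ∀ k, Tri a b (j, i, k, l) ↔
      S (.inl k) ∧ ∀ y, 0 ≤ dt (a j - a i) (w (.inl k)) (w y) := fun k => by
    simp only [Tri, Sum.forall, S, w, Sum.elim_inl, Sum.elim_inr]
    rw [edge_sup a j i _ (a j - a i) (a k - a i) (-1) fun z => by simp [ip, cr, dt]; ring,
      edge_sup b l l _ (a j - a i) (a k - a i) (-1) fun z => by simp [ip, cr, dt]; ring]
    simp only [neg_mul, one_mul, Left.neg_nonpos_iff]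
    exact ⟨fun h => ⟨⟨h.2.2.1, h.2.1⟩, h.2.2.2⟩, fun h => ⟨Ne.symm hij, h.1.2, h.1.1, h.2⟩⟩
  have t4 : ∀ m, Crs a b (j, i, l, m) ↔
      S (.inr m) ∧ ∀ y, 0 ≤ dt (a j - a i) (w (.inr m)) (w y) := fun m => by
    simp only [Crs, Sum.forall, S, w, Sum.elim_inl, Sum.elim_inr]
    rw [edge_sup a j i _ (a j - a i) (b m - b l) (-1) fun z => by simp [ip, cr, dt]; ring,
      edge_sup b l l _ (a j - a i) (b m - b l) (-1) fun z => by simp [ip, cr, dt]; ring]
    simp only [neg_mul, one_mul, Left.neg_nonpos_iff]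
    exact ⟨fun h => h.2, fun h => ⟨Ne.symm hij, h⟩⟩
  simp only [t1, t2, t3, t4]
  convert key

theorem edge_id {n : ℕ} (a b : Fin n → V3) (hG : Gen a b) (c : V3 → V3 → V3 → ℝ)
    (hc : ∀ x y z, c y x z = -c x y z) :
    ∑ t ∈ triSet a b, c (a t.1) (a t.2.1) (b t.2.2.2)
      + ∑ t ∈ crsSet a b, c (a t.1) (a t.2.1) (b t.2.2.1) = 0 := by
  classical
  let R : Fin n → Fin n → Fin n → ℝ := fun i j l =>
    ∑ k, (if Tri a b (i, j, k, l) then (1 : ℝ) else 0) +
      ∑ m, (if Crs a b (i, j, l, m) then (1 : ℝ) else 0)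
  have h1 : ∑ t ∈ triSet a b, c (a t.1) (a t.2.1) (b t.2.2.2)
      + ∑ t ∈ crsSet a b, c (a t.1) (a t.2.1) (b t.2.2.1) =
      ∑ i, ∑ j, ∑ l, c (a i) (a j) (b l) * R i j l := by
    simp only [triSet, crsSet, Finset.sum_filter, Fintype.sum_prod_type, R, mul_add,
      Finset.sum_add_distrib, Finset.mul_sum, mul_ite, mul_one, mul_zero]
    congr 1
    refine Finset.sum_congr rfl fun i _ => Finset.sum_congr rfl fun j _ => ?_
    rw [Finset.sum_comm]
  have h2 : ∑ i, ∑ j, ∑ l, c (a i) (a j) (b l) * R i j l =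
      -∑ i, ∑ j, ∑ l, c (a i) (a j) (b l) * R i j l := by
    conv_lhs => rw [Finset.sum_comm]
    simp only [← Finset.sum_neg_distrib]
    refine Finset.sum_congr rfl fun i _ => Finset.sum_congr rfl fun j _ =>
      Finset.sum_congr rfl fun l _ => ?_
    have : R j i l = R i j l := by convert edge_sym a b hG j i l
    rw [this, hc, neg_mul]
  linarith

theorem edge_sup_iff {n : ℕ} (a : Fin n → V3) {i j : Fin n} {u u' : V3} (hu : u' = u)
    (h : ip (a j) u = ip (a i) u) : Sup a i u ↔ Sup a j u' := by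
  simp only [Sup, hu, h]

theorem edge_rot {n : ℕ} (a b : Fin n → V3) (g : I4 n → ℝ) :
    ∑ t ∈ triSet a b, g (t.2.1, t.2.2.1, t.1, t.2.2.2) = ∑ t ∈ triSet a b, g t := by
  refine Finset.sum_equiv (⟨fun t => (t.2.1, t.2.2.1, t.1, t.2.2.2),
    fun t => (t.2.2.1, t.1, t.2.1, t.2.2.2), fun _ => rfl, fun _ => rfl⟩ : I4 n ≃ I4 n) ?_
    fun _ _ => rfl
  rintro ⟨i, j, k, l⟩
  have hu : cr (a k - a j) (a i - a j) = cr (a j - a i) (a k - a i) := by
    funext x
    fin_cases x <;> simp [cr] <;> ring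
  simp only [triSet, Finset.mem_filter, Finset.mem_univ, true_and, Tri, Equiv.coe_fn_mk]
  rw [edge_sup_iff a (i := i) (j := j) hu (by simp [ip, cr]; ring), hu]
  exact ⟨fun h => ⟨h.2.2.1.symm, h.1, h.2.1.symm, h.2.2.2⟩,
    fun h => ⟨h.2.1, h.2.2.1.symm, h.1.symm, h.2.2.2⟩⟩

theorem edge_swap {n : ℕ} (a b : Fin n → V3) (g : I4 n → ℝ) :
    ∑ t ∈ crsSet a b, g (t.2.1, t.1, t.2.2.2, t.2.2.1) = ∑ t ∈ crsSet a b, g t := by
  refine Finset.sum_equiv (⟨fun t => (t.2.1, t.1, t.2.2.2, t.2.2.1),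
    fun t => (t.2.1, t.1, t.2.2.2, t.2.2.1), fun _ => rfl, fun _ => rfl⟩ : I4 n ≃ I4 n) ?_
    fun _ _ => rfl
  rintro ⟨i, j, l, m⟩
  have hu : cr (a i - a j) (b l - b m) = cr (a j - a i) (b m - b l) := by
    funext x
    fin_cases x <;> simp [cr] <;> ring
  simp only [crsSet, Finset.mem_filter, Finset.mem_univ, true_and, Crs, Equiv.coe_fn_mk]
  rw [edge_sup_iff a (i := i) (j := j) hu (by simp [ip, cr]; ring),
    edge_sup_iff b (i := l) (j := m) hu (by simp [ip, cr]; ring)]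
  exact ⟨fun h => ⟨h.1.symm, h.2.1.symm, h.2.2⟩, fun h => ⟨h.1.symm, h.2.1.symm, h.2.2⟩⟩

theorem edge_flip {n : ℕ} (a b : Fin n → V3) (g : I4 n → ℝ) :
    ∑ t ∈ crsSet a b, g (t.2.2.2, t.2.2.1, t.1, t.2.1) = ∑ t ∈ crsSet b a, g t := by
  refine Finset.sum_equiv (⟨fun t => (t.2.2.2, t.2.2.1, t.1, t.2.1),
    fun t => (t.2.2.1, t.2.2.2, t.2.1, t.1), fun _ => rfl, fun _ => rfl⟩ : I4 n ≃ I4 n) ?_
    fun _ _ => rfl
  rintro ⟨i, j, l, m⟩
  have hu : cr (b l - b m) (a j - a i) = cr (a j - a i) (b m - b l) := by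
    funext x
    fin_cases x <;> simp [cr] <;> ring
  simp only [crsSet, Finset.mem_filter, Finset.mem_univ, true_and, Crs, Equiv.coe_fn_mk]
  rw [edge_sup_iff b (i := l) (j := m) hu (by simp [ip, cr]; ring), hu]
  exact ⟨fun h => ⟨h.2.1.symm, h.1, h.2.2.2, h.2.2.1⟩, fun h => ⟨h.2.1, h.1.symm, h.2.2.2, h.2.2.1⟩⟩

theorem edge_tri {n : ℕ} (a b : Fin n → V3) (c : V3 → V3 → V3 → ℝ) :
    ∑ t ∈ triSet a b, VT c a b t = 3 * ∑ t ∈ triSet a b, c (a t.1) (a t.2.1) (b t.2.2.2) := by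
  have h1 := edge_rot a b fun t => c (a t.1) (a t.2.1) (b t.2.2.2)
  have h2 := edge_rot a b fun t => c (a t.2.2.1) (a t.1) (b t.2.2.2)
  simp only [VT, Vf, Finset.sum_add_distrib] at h1 h2 ⊢
  linarith

theorem cob_id {n : ℕ} (a b : Fin n → V3) (hG : Gen a b) (hG' : Gen b a) (c : V3 → V3 → V3 → ℝ)
    (hc : ∀ x y z, c y x z = -c x y z) :
    2 * (∑ t ∈ triSet a b, VT c a b t + ∑ t ∈ triSet b a, VT c b a t)
      = 3 * ∑ t ∈ crsSet a b, ST c a b t := by
  have e1 := edge_id a b hG c hc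
  have e2 := edge_id b a hG' c hc
  have h1 := edge_swap a b fun t => c (a t.1) (a t.2.1) (b t.2.2.1)
  have h2 := edge_flip a b fun t => c (b t.1) (b t.2.1) (a t.2.2.1)
  have h3 := edge_swap a b fun t => c (b t.2.2.2) (b t.2.2.1) (a t.1)
  have h4 : ∑ t ∈ crsSet a b, ST c a b t =
      -∑ t ∈ crsSet a b, c (a t.1) (a t.2.1) (b t.2.2.1)
      - ∑ t ∈ crsSet a b, c (a t.2.1) (a t.1) (b t.2.2.2)
      - ∑ t ∈ crsSet a b, c (b t.2.2.1) (b t.2.2.2) (a t.2.1)
      - ∑ t ∈ crsSet a b, c (b t.2.2.2) (b t.2.2.1) (a t.1) := by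
    simp only [← Finset.sum_neg_distrib, ← Finset.sum_sub_distrib]
    refine Finset.sum_congr rfl fun t _ => ?_
    rw [ST, Sf, hc (a t.1) (a t.2.1) (b t.2.2.1), hc (a t.1) (a t.2.1) (b t.2.2.2),
      hc (b t.2.2.1) (b t.2.2.2) (a t.2.1), hc (b t.2.2.1) (b t.2.2.2) (a t.1)]
    ring
  rw [edge_tri, edge_tri, h4]
  simp only at h1 h2 h3
  linarith

end Pool.Agent.MP_90395b_gt.As
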