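import Pool.Agent.MP_90395b_gt.AsUpper
import Pool.Agent.MP_90395b_gt.AsCons

namespace Pool.Agent.MP_90395b_gt.As

open Pool.Agent.MP_90395b_gt.W5 Filter Topology

/-- Euclidean 3-space. -/
abbrev FE := EuclideanSpace ℝ (Fin 3)

lemma fin_inner_ip (a b : FE) : inner ℝ a b = ip a.ofLp b.ofLp := by
  simp [PiLp.inner_apply, Fin.sum_univ_three, ip]; ring

lemma fin_ip_one (a : FE) (h : ‖a‖ = 1) : ip a.ofLp a.ofLp = 1 := by
  rw [← fin_inner_ip, real_inner_self_eq_norm_sq, h]; norm_num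

lemma fin_norm_one (a : V3) (h : ip a a = 1) : ‖(WithLp.toLp 2 a : FE)‖ = 1 := by
  have h1 := fin_inner_ip (WithLp.toLp 2 a) (WithLp.toLp 2 a)
  rw [real_inner_self_eq_norm_sq, h] at h1
  exact (pow_eq_one_iff_of_nonneg (norm_nonneg _) two_ne_zero).mp h1

lemma fin_hull_bound {n : ℕ} (x : Fin n → FE) (u : FE) (lo hi : ℝ)
    (h : ∀ i, lo ≤ inner ℝ (x i) u ∧ inner ℝ (x i) u ≤ hi) :
    ∀ r ∈ (fun y : FE => inner ℝ y u) '' convexHull ℝ (Set.range x), lo ≤ r ∧ r ≤ hi := by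
  rintro r ⟨y, hy, rfl⟩
  have hc : Convex ℝ {y : FE | lo ≤ inner ℝ y u ∧ inner ℝ y u ≤ hi} := by
    intro a ha b hb s t hs ht hst
    simp only [Set.mem_ofPred_eq, inner_add_left, real_inner_smul_left] at ha hb ⊢
    have e1 : lo = s * lo + t * lo := by rw [← add_mul, hst, one_mul]
    have e2 : hi = s * hi + t * hi := by rw [← add_mul, hst, one_mul]
    constructor
    · linarith [mul_le_mul_of_nonneg_left ha.1 hs, mul_le_mul_of_nonneg_left hb.1 ht]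
    · linarith [mul_le_mul_of_nonneg_left ha.2 hs, mul_le_mul_of_nonneg_left hb.2 ht]
  exact convexHull_min (by rintro _ ⟨i, rfl⟩; exact h i) hc hy

lemma fin_vert_bound {n : ℕ} (x : Fin n → FE) (hn : ∀ i, ‖x i‖ = 1) (u : FE) (i : Fin n) :
    sInf ((fun y : FE => inner ℝ y u) '' convexHull ℝ (Set.range x)) ≤ inner ℝ (x i) u ∧
    inner ℝ (x i) u ≤ sSup ((fun y : FE => inner ℝ y u) '' convexHull ℝ (Set.range x)) := by
  have hb := fin_hull_bound x u (-‖u‖) ‖u‖ (fun j => by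
    have := abs_real_inner_le_norm (x j) u
    rw [hn j, one_mul] at this
    exact abs_le.mp this)
  have hm : inner ℝ (x i) u ∈ (fun y : FE => inner ℝ y u) '' convexHull ℝ (Set.range x) :=
    ⟨x i, subset_convexHull ℝ _ ⟨i, rfl⟩, rfl⟩
  exact ⟨csInf_le ⟨-‖u‖, fun r hr => (hb r hr).1⟩ hm, le_csSup ⟨‖u‖, fun r hr => (hb r hr).2⟩ hm⟩

/-- the width of the hull of the points `x i` -/
noncomputable def finW {n : ℕ} (x : Fin n → FE) : ℝ :=
  ⨅ u : {u : FE // ‖u‖ = 1},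
    (sSup ((fun y : FE => inner ℝ y u.1) '' convexHull ℝ (Set.range x))
      - sInf ((fun y : FE => inner ℝ y u.1) '' convexHull ℝ (Set.range x)))

lemma fin_width_le {n : ℕ} (x : Fin n → FE) (i₀ : Fin n) (hn : ∀ i, ‖x i‖ = 1) (u : FE)
    (hu : ‖u‖ = 1) (lo hi : ℝ) (h : ∀ i, lo ≤ inner ℝ (x i) u ∧ inner ℝ (x i) u ≤ hi) :
    finW x ≤ hi - lo := by
  have hb := fin_hull_bound x u lo hi h
  have hne : ((fun y : FE => inner ℝ y u) '' convexHull ℝ (Set.range x)).Nonempty :=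
    ⟨_, x i₀, subset_convexHull ℝ _ ⟨i₀, rfl⟩, rfl⟩
  refine le_trans (ciInf_le ⟨0, ?_⟩ ⟨u, hu⟩) ?_
  · rintro _ ⟨v, rfl⟩
    have := fin_vert_bound x hn v.1 i₀
    simp only
    linarith [this.1, this.2]
  · have h1 := csSup_le hne (fun r hr => (hb r hr).2)
    have h2 := le_csInf hne (fun r hr => (hb r hr).1)
    simp only
    linarith

lemma fin_upper {n : ℕ} (hn0 : 0 < n) (x : Fin n → FE) (hn : ∀ i, ‖x i‖ = 1) (c : ℝ) (u : V3)
    (hu : ip u u = 1) (h : ∀ i j, ip (x i).ofLp u - ip (x j).ofLp u ≤ c) : finW x ≤ c := by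
  have hne : (Finset.univ : Finset (Fin n)).Nonempty := ⟨⟨0, hn0⟩, Finset.mem_univ _⟩
  obtain ⟨a, -, ha⟩ := Finset.exists_min_image Finset.univ (fun i => ip (x i).ofLp u) hne
  obtain ⟨b, -, hb⟩ := Finset.exists_max_image Finset.univ (fun i => ip (x i).ofLp u) hne
  refine le_trans (fin_width_le x a hn (WithLp.toLp 2 u) (fin_norm_one u hu) (ip (x a).ofLp u)
    (ip (x b).ofLp u) fun i => ?_) (h b a)
  rw [fin_inner_ip]
  exact ⟨ha i (Finset.mem_univ _), hb i (Finset.mem_univ _)⟩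

lemma fin_lower {n : ℕ} (x : Fin n → FE) (hn : ∀ i, ‖x i‖ = 1) (c : ℝ)
    (h : ∀ u : V3, ip u u = 1 → ∃ i j, c ≤ ip (x i).ofLp u - ip (x j).ofLp u) : c ≤ finW x := by
  have : Nonempty {u : FE // ‖u‖ = 1} := ⟨⟨EuclideanSpace.single 0 1, by simp⟩⟩
  refine le_ciInf fun u => ?_
  obtain ⟨i, j, hij⟩ := h u.1.ofLp (fin_ip_one _ u.2)
  have h1 := (fin_vert_bound x hn u.1 i).2
  have h2 := (fin_vert_bound x hn u.1 j).1
  rw [fin_inner_ip] at h1 h2
  linarith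

theorem final (hV : BoxV) (hX : BoxX) : Tendsto (fun n : ℕ => (n : ℝ) *
    (2 - sSup {w : ℝ | ∃ x : Fin n → EuclideanSpace ℝ (Fin 3),
      (Function.Injective x ∧ ∀ i, ‖x i‖ = 1) ∧
      w = ⨅ u : {u : EuclideanSpace ℝ (Fin 3) // ‖u‖ = 1},
        (sSup ((fun y : EuclideanSpace ℝ (Fin 3) => inner ℝ y u.1) '' convexHull ℝ (Set.range x))
          - sInf ((fun y : EuclideanSpace ℝ (Fin 3) => inner ℝ y u.1) ''
            convexHull ℝ (Set.range x)))})) atTop (𝓝 Real.pi) := by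
  change Tendsto (fun n : ℕ => (n : ℝ) * (2 - sSup {w : ℝ | ∃ x : Fin n → FE,
      (Function.Injective x ∧ ∀ i, ‖x i‖ = 1) ∧ w = finW x})) atTop (𝓝 Real.pi)
  refine Metric.tendsto_atTop.mpr fun ε hε => ?_
  obtain ⟨N₁, h1⟩ := upper hV hX (ε / 2) (by positivity)
  obtain ⟨N₂, h2⟩ := construction (ε / 2) (by positivity)
  refine ⟨max (max N₁ N₂) 1, fun n hn => ?_⟩
  have hn0 : 0 < n := by omega
  have hnr : (0 : ℝ) < n := by exact_mod_cast hn0
  set S := {w : ℝ | ∃ x : Fin n → FE, (Function.Injective x ∧ ∀ i, ‖x i‖ = 1) ∧ w = finW x}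
    with hS
  have hub : ∀ w ∈ S, w ≤ 2 - (Real.pi - ε / 2) / n := by
    rintro w ⟨x, hx, rfl⟩
    obtain ⟨u, hu, h⟩ := h1 n (by omega) (fun i => (x i).ofLp) fun i => fin_ip_one _ (hx.2 i)
    exact fin_upper hn0 x hx.2 _ u hu h
  obtain ⟨y, hy, hy1, hy2⟩ := h2 n (by omega)
  have hyn : ∀ i, ‖(WithLp.toLp 2 (y i) : FE)‖ = 1 := fun i => fin_norm_one _ (hy1 i)
  have hmem : finW (fun i => (WithLp.toLp 2 (y i) : FE)) ∈ S :=
    ⟨_, ⟨fun a b hab => hy (WithLp.toLp_injective 2 hab), hyn⟩, rfl⟩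
  have hlo : 2 - (Real.pi + ε / 2) / n ≤ sSup S :=
    le_trans (fin_lower _ hyn _ hy2) (le_csSup ⟨_, hub⟩ hmem)
  have hhi : sSup S ≤ 2 - (Real.pi - ε / 2) / n := csSup_le ⟨_, hmem⟩ hub
  have e1 : 2 - sSup S ≤ (Real.pi + ε / 2) / n := by linarith
  have e2 : (Real.pi - ε / 2) / n ≤ 2 - sSup S := by linarith
  rw [le_div_iff₀ hnr] at e1
  rw [div_le_iff₀ hnr] at e2
  rw [Real.dist_eq, abs_lt]
  constructor <;> linarith

end Pool.Agent.MP_90395b_gt.As
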