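import Pool.Agent.MP_90395b_gt.AsDefs

namespace Pool.Agent.MP_90395b_gt.As

open Pool.Agent.MP_90395b_gt.W5

lemma ip_cr (a b c : V3) : ip c (cr a b) = dt a b c := by simp [ip, cr, dt]; ring

/-- coordinates in an oriented orthonormal frame whose last vector is `u` -/
theorem frame (u : V3) (hu : ip u u = 1) : ∃ e1 e2 : V3,
    (∀ x y, ip x y = ip x e1 * ip y e1 + ip x e2 * ip y e2 + ip x u * ip y u) ∧
    (∀ x y z, dt x y z =
      ip x e1 * (ip y e2 * ip z u - ip y u * ip z e2) - ip x e2 * (ip y e1 * ip z u - ip y u * ip z e1)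
        + ip x u * (ip y e1 * ip z e2 - ip y e2 * ip z e1)) ∧ ip u e1 = 0 ∧ ip u e2 = 0 := by
  have key : ∀ e1 e2 : V3, ip e1 e1 = 1 → ip e2 e2 = 1 → ip e1 e2 = 0 → ip e1 u = 0 →
      ip e2 u = 0 → dt e1 e2 u = 1 →
      (∀ x y, ip x y = ip x e1 * ip y e1 + ip x e2 * ip y e2 + ip x u * ip y u) ∧
      (∀ x y z, dt x y z =
        ip x e1 * (ip y e2 * ip z u - ip y u * ip z e2)
          - ip x e2 * (ip y e1 * ip z u - ip y u * ip z e1)
          + ip x u * (ip y e1 * ip z e2 - ip y e2 * ip z e1)) ∧ ip u e1 = 0 ∧ ip u e2 = 0 := by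
    intro p q h1 h2 h3 h4 h5 h6
    refine ⟨fun x y => ?_, fun x y z => ?_, by rw [ip_comm, h4], by rw [ip_comm, h5]⟩
    · have hG : ip x y * dt p q u ^ 2
        = ip x p * ip y p * (ip q q * ip u u - ip q u ^ 2)
          + ip x q * ip y q * (ip p p * ip u u - ip p u ^ 2)
          + ip x u * ip y u * (ip p p * ip q q - ip p q ^ 2)
          - (ip x p * ip y q + ip x q * ip y p) * (ip p q * ip u u - ip p u * ip q u)
          + (ip x p * ip y u + ip x u * ip y p) * (ip p q * ip q u - ip p u * ip q q)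
          - (ip x q * ip y u + ip x u * ip y q) * (ip p p * ip q u - ip p q * ip p u) := by
        unfold ip dt; ring
      rw [h1, h2, h3, h4, h5, h6, hu] at hG
      linarith
    · rw [← dt_mul, h6, mul_one]
  by_cases h : u 2 = -1
  · have h0 : u 0 = 0 := by unfold ip at hu; rw [h] at hu; nlinarith [sq_nonneg (u 0), sq_nonneg (u 1)]
    have h1 : u 1 = 0 := by unfold ip at hu; rw [h] at hu; nlinarith [sq_nonneg (u 0), sq_nonneg (u 1)]
    refine ⟨![0, 1, 0], ![1, 0, 0], key _ _ ?_ ?_ ?_ ?_ ?_ ?_⟩ <;> simp [ip, dt, h, h0, h1]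
  · have hp : 1 + u 2 ≠ 0 := fun h' => h (by linarith)
    unfold ip at hu
    refine ⟨![1 - u 0 ^ 2 / (1 + u 2), -(u 0 * u 1 / (1 + u 2)), -u 0],
      ![-(u 0 * u 1 / (1 + u 2)), 1 - u 1 ^ 2 / (1 + u 2), -u 1], key _ _ ?_ ?_ ?_ ?_ ?_ ?_⟩ <;>
      simp only [ip, dt, Matrix.cons_val_zero, Matrix.cons_val_one, Matrix.cons_val] <;> field_simp
    · linear_combination (u 0 ^ 2) * hu
    · linear_combination (u 1 ^ 2) * hu
    · linear_combination (u 0 * u 1) * hu
    · linear_combination (-u 0) * hu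
    · linear_combination (-u 1) * hu
    · linear_combination (1 + u 2) * hu

/-- uniform continuity in three parameters over a compact set -/
theorem unif {α : Type} [TopologicalSpace α] {K : Set α} (hK : IsCompact K)
    (f : α × ℝ × ℝ × ℝ → ℝ) (hf : Continuous f) (c ε : ℝ) (hε : 0 < ε)
    (h : ∀ p ∈ K, f (p, 1, 1, 0) ≤ c) :
    ∃ δ > 0, ∀ p ∈ K, ∀ l m e : ℝ, |l - 1| ≤ δ → |m - 1| ≤ δ → |e| ≤ δ →
      f (p, l, m, e) ≤ c + ε := by
  have h1 : ∀ᶠ θ in nhds ((1, 1, 0) : ℝ × ℝ × ℝ), ∀ p ∈ K, f (p, θ) < c + ε := by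
    apply hK.eventually_forall_of_forall_eventually
    intro p hp
    have hc : Continuous fun z : (ℝ × ℝ × ℝ) × α => f (z.2, z.1) := by fun_prop
    exact hc.continuousAt.eventually_lt continuousAt_const (by simpa using by linarith [h p hp])
  obtain ⟨r, hr, h2⟩ := Metric.eventually_nhds_iff.mp h1
  refine ⟨r / 2, by positivity, fun p hp l m e hl hm he => (h2 ?_ p hp).le⟩
  simp only [Prod.dist_eq, Real.dist_eq, sub_zero, max_lt_iff]
  exact ⟨by linarith, by linarith, by linarith⟩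

end Pool.Agent.MP_90395b_gt.As
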