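import Pool.Agent.MP_90395b_gt.AsVPlane

namespace Pool.Agent.MP_90395b_gt.As

open Pool.Agent.MP_90395b_gt.W5

namespace V3h

/-- deformed planar cochain -/
noncomputable def cq (a1 a2 p1 p2 b1 b2 l m e : ℝ) : ℝ :=
  c2 (m * (a1 * p2 - a2 * p1) + l * (p1 * b2 - p2 * b1 + a2 * b1 - a1 * b2))
    (((a1 - p1) ^ 2 + (a2 - p2) ^ 2) / 4)
    ((a1 - b1) ^ 2 + (a2 - b2) ^ 2 + e) ((p1 - b1) ^ 2 + (p2 - b2) ^ 2 + e)

lemma cq_one (a1 a2 p1 p2 b1 b2 : ℝ) : cq a1 a2 p1 p2 b1 b2 1 1 0 = cp a1 a2 p1 p2 b1 b2 := by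
  unfold cq cp
  congr 1 <;> ring

/-- deformed coboundary -/
noncomputable def Fq (z : (Fin 8 → ℝ) × ℝ × ℝ × ℝ) : ℝ :=
  cq (z.1 0) (z.1 1) (z.1 2) (z.1 3) (z.1 6) (z.1 7) z.2.1 z.2.2.1 z.2.2.2
    + cq (z.1 2) (z.1 3) (z.1 4) (z.1 5) (z.1 6) (z.1 7) z.2.1 z.2.2.1 z.2.2.2
    + cq (z.1 4) (z.1 5) (z.1 0) (z.1 1) (z.1 6) (z.1 7) z.2.1 z.2.2.1 z.2.2.2

lemma cont_g : Continuous fun z : ℝ × ℝ × ℝ => g z.1 z.2.1 z.2.2 := by
  unfold g; fun_prop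

lemma cont_c2 {α : Type} [TopologicalSpace α] {D x r r' : α → ℝ} (h1 : Continuous D)
    (h2 : Continuous x) (h3 : Continuous r) (h4 : Continuous r') :
    Continuous fun z => c2 (D z) (x z) (r z) (r' z) := by
  unfold c2
  have h5 : Continuous fun z => (x z, (r z + r' z) / 2 - x z, (r z - r' z) ^ 2 / 16) := by
    fun_prop
  have h6 := cont_g.comp h5
  exact (h1.div_const 2).mul h6

lemma cont_Fq : Continuous Fq := by
  unfold Fq cq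
  refine ((cont_c2 ?_ ?_ ?_ ?_).add (cont_c2 ?_ ?_ ?_ ?_)).add (cont_c2 ?_ ?_ ?_ ?_) <;> fun_prop

/-- the compact parameter set -/
def Kq : Set (Fin 8 → ℝ) :=
  {p | p 2 ^ 2 + p 3 ^ 2 = p 0 ^ 2 + p 1 ^ 2 ∧ p 4 ^ 2 + p 5 ^ 2 = p 0 ^ 2 + p 1 ^ 2 ∧
    p 0 ^ 2 + p 1 ^ 2 + p 6 ^ 2 + p 7 ^ 2 ≤ 1 ∧
    0 ≤ (p 2 - p 0) * (p 5 - p 1) - (p 3 - p 1) * (p 4 - p 0)}

lemma Kq_compact : IsCompact Kq := by
  have hc : IsClosed Kq := by
    unfold Kq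
    simp only [Set.setOf_and]
    refine (isClosed_eq ?_ ?_).inter ((isClosed_eq ?_ ?_).inter
      ((isClosed_le ?_ ?_).inter (isClosed_le ?_ ?_))) <;> fun_prop
  refine (isCompact_Icc (a := fun _ : Fin 8 => (-1 : ℝ)) (b := fun _ => 1)).of_isClosed_subset hc ?_
  rintro p ⟨h1, h2, h3, -⟩
  have h : ∀ i, p i ^ 2 ≤ 1 := by
    intro i
    have := sq_nonneg (p 0)
    have := sq_nonneg (p 1)
    have := sq_nonneg (p 2)
    have := sq_nonneg (p 3)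
    have := sq_nonneg (p 4)
    have := sq_nonneg (p 5)
    have := sq_nonneg (p 6)
    have := sq_nonneg (p 7)
    fin_cases i <;> simp only [Fin.reduceFinMk, Fin.zero_eta, Fin.mk_one] <;> linarith
  constructor
  · intro i
    exact (abs_le.mp ((sq_le_one_iff_abs_le_one _).mp (h i))).1
  · intro i
    exact (abs_le.mp ((sq_le_one_iff_abs_le_one _).mp (h i))).2

lemma cg_eq (u e1 e2 : V3) (s : ℝ) (hs : 0 < s)
    (hi : ∀ x y, ip x y = ip x e1 * ip y e1 + ip x e2 * ip y e2 + ip x u * ip y u)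
    (hd : ∀ x y z, dt x y z =
      ip x e1 * (ip y e2 * ip z u - ip y u * ip z e2) - ip x e2 * (ip y e1 * ip z u - ip y u * ip z e1)
        + ip x u * (ip y e1 * ip z e2 - ip y e2 * ip z e1))
    (a a' b : V3) (l m : ℝ) (ha : ip a u = l) (ha' : ip a' u = l) (hb : ip b u = m) :
    cg (s ^ 2) a a' b = cq (ip a e1 / s) (ip a e2 / s) (ip a' e1 / s) (ip a' e2 / s)
      (ip b e1 / s) (ip b e2 / s) l m ((l - m) ^ 2 / s ^ 2) := by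
  have hs' := hs.ne'
  unfold cg cq
  congr 1
  · rw [hd, ha, ha', hb]; field_simp; ring
  · rw [hi]; simp only [sub_ip, ha, ha']; field_simp; ring
  · rw [hi]; simp only [sub_ip, ha, hb]; field_simp
  · rw [hi]; simp only [sub_ip, ha', hb]; field_simp

lemma ip_le_one (a u : V3) (ha : ip a a = 1) (hu : ip u u = 1) : ip a u ≤ 1 := by
  have h := ip_cs a u
  rw [ha, hu] at h
  nlinarith

end V3h

open V3h in
theorem v3 (hB : BoxV) (ε : ℝ) (hε : 0 < ε) : ∃ T0 > 0, ∀ T, 0 < T → T ≤ T0 →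
    ∀ a1 a2 a3 b u : V3, ip a1 a1 = 1 → ip a2 a2 = 1 → ip a3 a3 = 1 → ip b b = 1 → ip u u = 1 →
      ip a2 u = ip a1 u → ip a3 u = ip a1 u → (1 - ip a1 u) + (1 - ip b u) ≤ T / 2 →
      0 ≤ dt (a2 - a1) (a3 - a1) u → Vf (cg T) a1 a2 a3 b ≤ 1 / 2 + ε := by
  obtain ⟨δ, hδ, H⟩ := unif Kq_compact Fq cont_Fq (1 / 2) ε hε (by
    rintro p ⟨h1, h2, h3, h4⟩
    have := vplane hB (p 0) (p 1) (p 2) (p 3) (p 4) (p 5) (p 6) (p 7) h1 h2 h3 h4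
    unfold Vp at this
    simpa only [Fq, cq_one] using this)
  refine ⟨δ, hδ, fun T hT hTδ a1 a2 a3 b u h1 h2 h3 hb hu k2 k3 hs hdt => ?_⟩
  obtain ⟨e1, e2, hi, hd, hu1, hu2⟩ := frame u hu
  obtain ⟨s, hs0, rfl⟩ : ∃ s : ℝ, 0 < s ∧ T = s ^ 2 :=
    ⟨Real.sqrt T, Real.sqrt_pos.mpr hT, (Real.sq_sqrt hT.le).symm⟩
  have hl := ip_le_one a1 u h1 hu
  have hm := ip_le_one b u hb hu
  obtain ⟨l, hl0⟩ : ∃ l, ip a1 u = l := ⟨_, rfl⟩
  obtain ⟨m, hm0⟩ : ∃ m, ip b u = m := ⟨_, rfl⟩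
  rw [hl0] at k2 k3 hs hl
  rw [hm0] at hs hm
  have hs' := hs0.ne'
  have hK : (![ip a1 e1 / s, ip a1 e2 / s, ip a2 e1 / s, ip a2 e2 / s, ip a3 e1 / s, ip a3 e2 / s,
      ip b e1 / s, ip b e2 / s] : Fin 8 → ℝ) ∈ Kq := by
    have g1 := hi a1 a1
    have g2 := hi a2 a2
    have g3 := hi a3 a3
    have g4 := hi b b
    rw [h1, hl0] at g1
    rw [h2, k2] at g2
    rw [h3, k3] at g3
    rw [hb, hm0] at g4
    rw [hd, hu1, hu2, hu] at hdt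
    simp only [sub_ip, k2, k3, hl0] at hdt
    refine ⟨?_, ?_, ?_, ?_⟩
    · show (ip a2 e1 / s) ^ 2 + (ip a2 e2 / s) ^ 2 = (ip a1 e1 / s) ^ 2 + (ip a1 e2 / s) ^ 2
      field_simp; linarith
    · show (ip a3 e1 / s) ^ 2 + (ip a3 e2 / s) ^ 2 = (ip a1 e1 / s) ^ 2 + (ip a1 e2 / s) ^ 2
      field_simp; linarith
    · show (ip a1 e1 / s) ^ 2 + (ip a1 e2 / s) ^ 2 + (ip b e1 / s) ^ 2 + (ip b e2 / s) ^ 2 ≤ 1
      simp only [div_pow, ← add_div]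
      rw [div_le_one hT]
      nlinarith [sq_nonneg (1 - l), sq_nonneg (1 - m)]
    · show 0 ≤ (ip a2 e1 / s - ip a1 e1 / s) * (ip a3 e2 / s - ip a1 e2 / s)
        - (ip a2 e2 / s - ip a1 e2 / s) * (ip a3 e1 / s - ip a1 e1 / s)
      have : (ip a2 e1 / s - ip a1 e1 / s) * (ip a3 e2 / s - ip a1 e2 / s)
        - (ip a2 e2 / s - ip a1 e2 / s) * (ip a3 e1 / s - ip a1 e1 / s)
        = ((ip a2 e1 - ip a1 e1) * (ip a3 e2 - ip a1 e2)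
          - (ip a2 e2 - ip a1 e2) * (ip a3 e1 - ip a1 e1)) / s ^ 2 := by
        field_simp
      rw [this]
      apply div_nonneg _ hT.le
      linarith
  have he : |(l - m) ^ 2 / s ^ 2| ≤ δ := by
    rw [abs_of_nonneg (by positivity), div_le_iff₀ hT]
    have h5 : (l - m) ^ 2 ≤ (s ^ 2 / 2) ^ 2 := by
      apply sq_le_sq'
      · linarith
      · linarith
    nlinarith
  have key := H _ hK l m ((l - m) ^ 2 / s ^ 2) (by rw [abs_le]; constructor <;> linarith)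
    (by rw [abs_le]; constructor <;> linarith) he
  unfold Vf
  rw [cg_eq u e1 e2 s hs0 hi hd a1 a2 b l m hl0 k2 hm0,
    cg_eq u e1 e2 s hs0 hi hd a2 a3 b l m k2 k3 hm0,
    cg_eq u e1 e2 s hs0 hi hd a3 a1 b l m k3 hl0 hm0]
  exact key

end Pool.Agent.MP_90395b_gt.As
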