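import Pool.Agent.MP_90395b_gt.AsFrame

/-! The algebraic identity behind the parallelogram inequality. -/

namespace Pool.Agent.MP_90395b_gt.As

/-- even part of the weight polynomial -/
noncomputable def gEv (x α β q0 q1 S : ℝ) : ℝ :=
  g x α q0 + (-79 / 500 - 121 / 500 * (x - 1 / 2)) * (β ^ 2 * S) + 33 / 250 * (3 * α * β ^ 2 * S)
    + 611 / 1000 * (β * q1 * S)

/-- odd part of the weight polynomial -/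
noncomputable def gOd (x α β q0 q1 S : ℝ) : ℝ :=
  (-127 / 1000 + 601 / 1000 * (x - 1 / 2) - 91 / 125 * (x - 1 / 2) ^ 2) * β
    + (-79 / 500 - 121 / 500 * (x - 1 / 2)) * (2 * α * β) + 33 / 250 * (3 * α ^ 2 * β + β ^ 3 * S)
    + (-239 / 1000 + 43 / 250 * (x - 1 / 2)) * q1 + 611 / 1000 * (α * q1 + β * q0)

lemma c2_par {D x r r' : ℝ} (D' x' α β q0 q1 s S : ℝ) (h : s ^ 2 = S) (h0 : D = D') (hx : x = x')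
    (h1 : (r + r') / 2 - x = α + β * s) (h2 : (r - r') ^ 2 / 16 = q0 + q1 * s) :
    c2 D x r r' = D' / 2 * (gEv x' α β q0 q1 S + s * gOd x' α β q0 q1 S) := by
  rw [c2, h1, h2, h0, hx]
  congr 1
  unfold gEv gOd g
  linear_combination ((-79 / 500 - 121 / 500 * (x' - 1 / 2)) * β ^ 2
    + 33 / 250 * (3 * α * β ^ 2 + β ^ 3 * s) + 611 / 1000 * (β * q1)) * h

lemma core_l (h k t w c e : ℝ) :
    h * k * gEv (h ^ 2) (t ^ 2 + k ^ 2 + w ^ 2 - 2 * t * w * c + e) (2 * t * k)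
        (h ^ 2 * (k ^ 2 * c ^ 2 + w ^ 2 * (1 - c ^ 2))) (2 * h ^ 2 * k * w * c) (1 - c ^ 2)
      - h * w * c * gOd (h ^ 2) (t ^ 2 + k ^ 2 + w ^ 2 - 2 * t * w * c + e) (2 * t * k)
        (h ^ 2 * (k ^ 2 * c ^ 2 + w ^ 2 * (1 - c ^ 2))) (2 * h ^ 2 * k * w * c) (1 - c ^ 2)
      + k * w * gOd (k ^ 2) (h ^ 2 + t ^ 2 + w ^ 2 - 2 * t * w * c + e) (2 * h * w)
        (k ^ 2 * (h ^ 2 * c ^ 2 + t ^ 2 * (1 - c ^ 2))) (2 * k ^ 2 * h * t * c) (1 - c ^ 2)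
    = h * k * (Jl0 (h ^ 2) (k ^ 2) t w c + e * Jl1 (h ^ 2) (k ^ 2) t w c
      + e ^ 2 * Jl2 (h ^ 2) (k ^ 2) t w c + e ^ 3 * Jl3 (h ^ 2) (k ^ 2) t w c) := by
  unfold gEv gOd g Jl0 Jl1 Jl2 Jl3
  ring

lemma core_m (h k t w c e : ℝ) :
    h * k * gEv (k ^ 2) (h ^ 2 + t ^ 2 + w ^ 2 - 2 * t * w * c + e) (2 * h * w)
        (k ^ 2 * (h ^ 2 * c ^ 2 + t ^ 2 * (1 - c ^ 2))) (2 * k ^ 2 * h * t * c) (1 - c ^ 2)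
      - t * k * c * gOd (k ^ 2) (h ^ 2 + t ^ 2 + w ^ 2 - 2 * t * w * c + e) (2 * h * w)
        (k ^ 2 * (h ^ 2 * c ^ 2 + t ^ 2 * (1 - c ^ 2))) (2 * k ^ 2 * h * t * c) (1 - c ^ 2)
      + h * t * gOd (h ^ 2) (t ^ 2 + k ^ 2 + w ^ 2 - 2 * t * w * c + e) (2 * t * k)
        (h ^ 2 * (k ^ 2 * c ^ 2 + w ^ 2 * (1 - c ^ 2))) (2 * h ^ 2 * k * w * c) (1 - c ^ 2)
    = h * k * (Jm0 (h ^ 2) (k ^ 2) t w c + e * Jm1 (h ^ 2) (k ^ 2) t w c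
      + e ^ 2 * Jm2 (h ^ 2) (k ^ 2) t w c + e ^ 3 * Jm3 (h ^ 2) (k ^ 2) t w c) := by
  unfold gEv gOd g Jm0 Jm1 Jm2 Jm3
  ring

lemma gEv_neg (x α β q0 q1 S : ℝ) : gEv x α (-β) q0 (-q1) S = gEv x α β q0 q1 S := by
  unfold gEv; ring

lemma gOd_neg (x α β q0 q1 S : ℝ) : gOd x α (-β) q0 (-q1) S = -gOd x α β q0 q1 S := by
  unfold gOd; ring

lemma polar (v1 v2 : ℝ) : ∃ n1 n2 k : ℝ, n1 ^ 2 + n2 ^ 2 = 1 ∧ 0 ≤ k ∧ v1 = k * n1 ∧ v2 = k * n2 := by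
  by_cases h : v1 ^ 2 + v2 ^ 2 = 0
  · exact ⟨1, 0, 0, by norm_num, le_rfl, by nlinarith [sq_nonneg v1, sq_nonneg v2],
      by nlinarith [sq_nonneg v1, sq_nonneg v2]⟩
  · have h0 : 0 < v1 ^ 2 + v2 ^ 2 := lt_of_le_of_ne (by positivity) (Ne.symm h)
    have h1 := Real.sq_sqrt h0.le
    have h2 := (Real.sqrt_pos.2 h0).ne'
    refine ⟨v1 / √(v1 ^ 2 + v2 ^ 2), v2 / √(v1 ^ 2 + v2 ^ 2), √(v1 ^ 2 + v2 ^ 2), ?_,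
      Real.sqrt_nonneg _, by field_simp, by field_simp⟩
    rw [div_pow, div_pow, h1]
    field_simp

/-- two points at the same distance from the origin -/
lemma chord (A1 A2 P1 P2 : ℝ) (hA : A1 ^ 2 + A2 ^ 2 = P1 ^ 2 + P2 ^ 2) :
    ∃ n1 n2 h t : ℝ, n1 ^ 2 + n2 ^ 2 = 1 ∧ A1 = -h * n1 - t * n2 ∧ A2 = -h * n2 + t * n1 ∧
      P1 = h * n1 - t * n2 ∧ P2 = h * n2 + t * n1 := by
  have key : ∀ n1 n2 h : ℝ, n1 ^ 2 + n2 ^ 2 = 1 → P1 - A1 = 2 * h * n1 → P2 - A2 = 2 * h * n2 →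
      (A1 + P1) * n1 + (A2 + P2) * n2 = 0 →
      ∃ n1 n2 h t : ℝ, n1 ^ 2 + n2 ^ 2 = 1 ∧ A1 = -h * n1 - t * n2 ∧ A2 = -h * n2 + t * n1 ∧
        P1 = h * n1 - t * n2 ∧ P2 = h * n2 + t * n1 := fun n1 n2 h a b c d =>
    ⟨n1, n2, h, (-(A1 + P1) * n2 + (A2 + P2) * n1) / 2, a,
      by linear_combination (-1 / 2) * b + n1 / 2 * d - (A1 + P1) / 2 * a,
      by linear_combination (-1 / 2) * c + n2 / 2 * d - (A2 + P2) / 2 * a,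
      by linear_combination (1 / 2) * b + n1 / 2 * d - (A1 + P1) / 2 * a,
      by linear_combination (1 / 2) * c + n2 / 2 * d - (A2 + P2) / 2 * a⟩
  obtain ⟨n1, n2, k, a, -, b, c⟩ := polar (P1 - A1) (P2 - A2)
  by_cases hk : k = 0
  · obtain ⟨p1, p2, j, a', -, b', c'⟩ := polar (A2 + P2) (-(A1 + P1))
    refine key p1 p2 0 a' (by rw [b, hk]; ring) (by rw [c, hk]; ring) ?_
    linear_combination p2 * b' - p1 * c'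
  · refine key n1 n2 (k / 2) a (by rw [b]; ring) (by rw [c]; ring) (mul_left_cancel₀ hk ?_)
    linear_combination (-(A1 + P1)) * b - (A2 + P2) * c - hA

lemma contJ : Continuous fun z : (ℝ × ℝ × ℝ × ℝ × ℝ) × ℝ × ℝ × ℝ =>
    -Jt z.1.1 z.1.2.1 z.1.2.2.1 z.1.2.2.2.1 z.1.2.2.2.2 z.2.1 z.2.2.1 z.2.2.2 := by
  have a0 : Continuous fun p : ℝ × ℝ × ℝ × ℝ × ℝ => Jl0 p.1 p.2.1 p.2.2.1 p.2.2.2.1 p.2.2.2.2 := by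
    unfold Jl0; fun_prop
  have a1 : Continuous fun p : ℝ × ℝ × ℝ × ℝ × ℝ => Jl1 p.1 p.2.1 p.2.2.1 p.2.2.2.1 p.2.2.2.2 := by
    unfold Jl1; fun_prop
  have a2 : Continuous fun p : ℝ × ℝ × ℝ × ℝ × ℝ => Jl2 p.1 p.2.1 p.2.2.1 p.2.2.2.1 p.2.2.2.2 := by
    unfold Jl2; fun_prop
  have a3 : Continuous fun p : ℝ × ℝ × ℝ × ℝ × ℝ => Jl3 p.1 p.2.1 p.2.2.1 p.2.2.2.1 p.2.2.2.2 := by
    unfold Jl3; fun_prop
  have b0 : Continuous fun p : ℝ × ℝ × ℝ × ℝ × ℝ => Jm0 p.1 p.2.1 p.2.2.1 p.2.2.2.1 p.2.2.2.2 := by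
    unfold Jm0; fun_prop
  have b1 : Continuous fun p : ℝ × ℝ × ℝ × ℝ × ℝ => Jm1 p.1 p.2.1 p.2.2.1 p.2.2.2.1 p.2.2.2.2 := by
    unfold Jm1; fun_prop
  have b2 : Continuous fun p : ℝ × ℝ × ℝ × ℝ × ℝ => Jm2 p.1 p.2.1 p.2.2.1 p.2.2.2.1 p.2.2.2.2 := by
    unfold Jm2; fun_prop
  have b3 : Continuous fun p : ℝ × ℝ × ℝ × ℝ × ℝ => Jm3 p.1 p.2.1 p.2.2.1 p.2.2.2.1 p.2.2.2.2 := by
    unfold Jm3; fun_prop
  have c1 : Continuous fun z : (ℝ × ℝ × ℝ × ℝ × ℝ) × ℝ × ℝ × ℝ => z.2.1 := by fun_prop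
  have c2 : Continuous fun z : (ℝ × ℝ × ℝ × ℝ × ℝ) × ℝ × ℝ × ℝ => z.2.2.1 := by fun_prop
  have c3 : Continuous fun z : (ℝ × ℝ × ℝ × ℝ × ℝ) × ℝ × ℝ × ℝ => z.2.2.2 := by fun_prop
  exact ((c1.mul ((((a0.comp continuous_fst).add (c3.mul (a1.comp continuous_fst))).add
    ((c3.pow 2).mul (a2.comp continuous_fst))).add ((c3.pow 3).mul (a3.comp continuous_fst)))).add
    (c2.mul ((((b0.comp continuous_fst).add (c3.mul (b1.comp continuous_fst))).add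
    ((c3.pow 2).mul (b2.comp continuous_fst))).add ((c3.pow 3).mul (b3.comp continuous_fst))))).neg

lemma unifJ (hB : BoxX) (ε : ℝ) (hε : 0 < ε) : ∃ δ > 0, ∀ x y t u c l m e : ℝ, 0 ≤ x → 0 ≤ y →
    -1 ≤ c → c ≤ 1 → x + y + t ^ 2 + u ^ 2 ≤ 1 → |l - 1| ≤ δ → |m - 1| ≤ δ → |e| ≤ δ →
    1 - ε ≤ Jt x y t u c l m e := by
  have hK : IsCompact {p : ℝ × ℝ × ℝ × ℝ × ℝ | 0 ≤ p.1 ∧ 0 ≤ p.2.1 ∧ -1 ≤ p.2.2.2.2 ∧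
      p.2.2.2.2 ≤ 1 ∧ p.1 + p.2.1 + p.2.2.1 ^ 2 + p.2.2.2.1 ^ 2 ≤ 1} := by
    refine (isCompact_Icc (a := (0, 0, -1, -1, -1)) (b := (1, 1, 1, 1, 1))).of_isClosed_subset ?_ ?_
    · simp only [Set.ofPred_and]
      refine (isClosed_le ?_ ?_).inter ((isClosed_le ?_ ?_).inter ((isClosed_le ?_ ?_).inter
        ((isClosed_le ?_ ?_).inter (isClosed_le ?_ ?_)))) <;> fun_prop
    · rintro ⟨x, y, t, u, c⟩ ⟨h1, h2, h3, h4, h5⟩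
      simp only [Set.mem_Icc, Prod.mk_le_mk] at *
      refine ⟨⟨h1, h2, ?_, ?_, h3⟩, ?_, ?_, ?_, ?_, h4⟩ <;>
        nlinarith [sq_nonneg t, sq_nonneg u, sq_nonneg (t - 1), sq_nonneg (u - 1),
          sq_nonneg (t + 1), sq_nonneg (u + 1)]
  obtain ⟨δ, h0, h1⟩ := unif hK _ contJ (-1) ε hε fun p hp =>
    neg_le_neg (hB _ _ _ _ _ hp.1 hp.2.1 hp.2.2.1 hp.2.2.2.1 hp.2.2.2.2)
  refine ⟨δ, h0, fun x y t u c l m e a1 a2 a3 a4 a5 a6 a7 a8 => ?_⟩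
  have := h1 (x, y, t, u, c) ⟨a1, a2, a3, a4, a5⟩ l m e a6 a7 a8
  dsimp only at this
  linarith

end Pool.Agent.MP_90395b_gt.As
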