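import Pool.Agent.MP_90395b_gt.AsFrame
import Pool.Agent.MP_90395b_gt.AsX3a

namespace Pool.Agent.MP_90395b_gt.As

open Pool.Agent.MP_90395b_gt.W5

/-- planar form of the cochain -/
noncomputable def cqX (T x1 x2 x3 y1 y2 y3 z1 z2 z3 : ℝ) : ℝ :=
  c2 (z3 * (x1 * y2 - x2 * y1) + y3 * (z1 * x2 - z2 * x1) + x3 * (y1 * z2 - y2 * z1))
    (((x1 - y1) ^ 2 + (x2 - y2) ^ 2 + (x3 - y3) ^ 2 / T) / 4)
    ((x1 - z1) ^ 2 + (x2 - z2) ^ 2 + (x3 - z3) ^ 2 / T)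
    ((y1 - z1) ^ 2 + (y2 - z2) ^ 2 + (y3 - z3) ^ 2 / T)

lemma cqX_sum (T h k t w n1 n2 p1 p2 l m : ℝ) (hn : n1 ^ 2 + n2 ^ 2 = 1) (hp : p1 ^ 2 + p2 ^ 2 = 1) :
    cqX T (h * n1 - t * n2) (h * n2 + t * n1) l (-h * n1 - t * n2) (-h * n2 + t * n1) l
        (-k * p1 - w * p2) (-k * p2 + w * p1) m
      + cqX T (-h * n1 - t * n2) (-h * n2 + t * n1) l (h * n1 - t * n2) (h * n2 + t * n1) l
        (k * p1 - w * p2) (k * p2 + w * p1) m
      + cqX T (k * p1 - w * p2) (k * p2 + w * p1) m (-k * p1 - w * p2) (-k * p2 + w * p1) m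
        (h * n1 - t * n2) (h * n2 + t * n1) l
      + cqX T (-k * p1 - w * p2) (-k * p2 + w * p1) m (k * p1 - w * p2) (k * p2 + w * p1) m
        (-h * n1 - t * n2) (-h * n2 + t * n1) l
    = 2 * h * k * (n1 * p2 - n2 * p1) *
      Jt (h ^ 2) (k ^ 2) t w (n1 * p1 + n2 * p2) l m ((l - m) ^ 2 / T) := by
  obtain ⟨c, hc⟩ : ∃ c, c = n1 * p1 + n2 * p2 := ⟨_, rfl⟩
  obtain ⟨s, hs⟩ : ∃ s, s = n1 * p2 - n2 * p1 := ⟨_, rfl⟩
  obtain ⟨e, he⟩ : ∃ e, e = (l - m) ^ 2 / T := ⟨_, rfl⟩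
  have he' : (m - l) ^ 2 / T = e := by rw [he]; ring
  have h2 : s ^ 2 = 1 - c ^ 2 := by
    rw [hs, hc]; linear_combination (p1 ^ 2 + p2 ^ 2) * hn + hp
  unfold cqX
  rw [← he, ← hc, ← hs, he', sub_self l, sub_self m,
    c2_par (2 * h * t * m + l * (2 * h * k * s - 2 * h * w * c)) (h ^ 2)
      (t ^ 2 + k ^ 2 + w ^ 2 - 2 * t * w * c + e) (2 * t * k)
      (h ^ 2 * (k ^ 2 * c ^ 2 + w ^ 2 * (1 - c ^ 2))) (2 * h ^ 2 * k * w * c) s _ h2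
      (by rw [hs, hc]; linear_combination (2 * h * t * m) * hn)
      (by linear_combination (h ^ 2) * hn)
      (by rw [hs, hc]; linear_combination (t ^ 2) * hn + (k ^ 2 + w ^ 2) * hp)
      (by rw [← h2, hs, hc]; ring),
    c2_par (-(2 * h * t * m) + l * (2 * h * k * s + 2 * h * w * c)) (h ^ 2)
      (t ^ 2 + k ^ 2 + w ^ 2 - 2 * t * w * c + e) (-(2 * t * k))
      (h ^ 2 * (k ^ 2 * c ^ 2 + w ^ 2 * (1 - c ^ 2))) (-(2 * h ^ 2 * k * w * c)) s _ h2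
      (by rw [hs, hc]; linear_combination (-(2 * h * t * m)) * hn)
      (by linear_combination (h ^ 2) * hn)
      (by rw [hs, hc]; linear_combination (t ^ 2) * hn + (k ^ 2 + w ^ 2) * hp)
      (by rw [← h2, hs, hc]; ring),
    c2_par (2 * k * w * l + m * (2 * h * k * s - 2 * t * k * c)) (k ^ 2)
      (h ^ 2 + t ^ 2 + w ^ 2 - 2 * t * w * c + e) (2 * h * w)
      (k ^ 2 * (h ^ 2 * c ^ 2 + t ^ 2 * (1 - c ^ 2))) (2 * k ^ 2 * h * t * c) s _ h2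
      (by rw [hs, hc]; linear_combination (2 * k * w * l) * hp)
      (by linear_combination (k ^ 2) * hp)
      (by rw [hs, hc]; linear_combination (w ^ 2) * hp + (h ^ 2 + t ^ 2) * hn)
      (by rw [← h2, hs, hc]; ring),
    c2_par (-(2 * k * w * l) + m * (2 * h * k * s + 2 * t * k * c)) (k ^ 2)
      (h ^ 2 + t ^ 2 + w ^ 2 - 2 * t * w * c + e) (-(2 * h * w))
      (k ^ 2 * (h ^ 2 * c ^ 2 + t ^ 2 * (1 - c ^ 2))) (-(2 * k ^ 2 * h * t * c)) s _ h2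
      (by rw [hs, hc]; linear_combination (-(2 * k * w * l)) * hp)
      (by linear_combination (k ^ 2) * hp)
      (by rw [hs, hc]; linear_combination (w ^ 2) * hp + (h ^ 2 + t ^ 2) * hn)
      (by rw [← h2, hs, hc]; ring),
    gEv_neg, gOd_neg, gEv_neg, gOd_neg, Jt]
  linear_combination (2 * s * l) * core_l h k t w c e + (2 * s * m) * core_m h k t w c e

theorem x3 (hB : BoxX) (ε : ℝ) (hε : 0 < ε) (hε1 : ε ≤ 1) : ∃ T0 > 0, ∀ T, 0 < T → T ≤ T0 →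
    ∀ a a' b b' u : V3, ip a a = 1 → ip a' a' = 1 → ip b b = 1 → ip b' b' = 1 → ip u u = 1 →
      ip a' u = ip a u → ip b' u = ip b u → (1 - ip a u) + (1 - ip b u) ≤ T / 2 →
      0 ≤ dt (a' - a) (b' - b) u →
      (1 - ε) / 2 * Sf (c0 T) a a' b b' ≤ Sf (cg T) a a' b b' := by
  obtain ⟨δ, hδ, hJ⟩ := unifJ hB ε hε
  refine ⟨δ, hδ, fun T hT hTδ a a' b b' u ha ha' hb hb' hu hl hm hlm hd => ?_⟩
  obtain ⟨e1, e2, hip, hdt, hu1, hu2⟩ := frame u hu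
  obtain ⟨r, hr, rfl⟩ : ∃ r : ℝ, 0 < r ∧ T = r ^ 2 :=
    ⟨√T, Real.sqrt_pos.2 hT, (Real.sq_sqrt hT.le).symm⟩
  have hr' := hr.ne'
  have hcg : ∀ x y z : V3, cg (r ^ 2) x y z = cqX (r ^ 2) (ip x e1 / r) (ip x e2 / r) (ip x u)
      (ip y e1 / r) (ip y e2 / r) (ip y u) (ip z e1 / r) (ip z e2 / r) (ip z u) := by
    intro x y z
    unfold cg cqX
    rw [hdt, hip (x - y), hip (x - z), hip (y - z)]
    simp only [sub_ip]
    congr 1 <;> field_simp <;> ring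
  have hc0 : ∀ x y z : V3, c0 (r ^ 2) x y z =
      (ip z u * (ip x e1 / r * (ip y e2 / r) - ip x e2 / r * (ip y e1 / r))
        + ip y u * (ip z e1 / r * (ip x e2 / r) - ip z e2 / r * (ip x e1 / r))
        + ip x u * (ip y e1 / r * (ip z e2 / r) - ip y e2 / r * (ip z e1 / r))) / 2 := by
    intro x y z
    unfold c0
    rw [hdt]
    field_simp
    ring
  have hn : ∀ x : V3, ip x x = 1 →
      (ip x e1 / r) ^ 2 + (ip x e2 / r) ^ 2 = (1 - ip x u ^ 2) / r ^ 2 := fun x hx => by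
    rw [hip] at hx
    field_simp
    linear_combination hx
  have hd' : 0 ≤ (ip a' e1 / r - ip a e1 / r) * (ip b' e2 / r - ip b e2 / r)
      - (ip a' e2 / r - ip a e2 / r) * (ip b' e1 / r - ip b e1 / r) := by
    rw [hdt] at hd
    simp only [sub_ip, hl, hm, hu, hu1, hu2] at hd
    have := div_nonneg hd hT.le
    refine this.trans_eq ?_
    field_simp
    ring
  have na := hn a ha
  have nb := hn b hb
  obtain ⟨n1, n2, h, t, hn1, A1, A2, A3, A4⟩ := chord _ _ _ _ (na.trans (hl ▸ hn a' ha').symm)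
  obtain ⟨p1, p2, k, w, hp1, B1, B2, B3, B4⟩ := chord _ _ _ _ (nb.trans (hm ▸ hn b' hb').symm)
  unfold Sf
  simp only [hcg, hc0]
  rw [A1, A2] at na
  rw [B1, B2] at nb
  rw [A1, A2, A3, A4, B1, B2, B3, B4] at hd' ⊢
  rw [hl, hm, cqX_sum _ h k t w n1 n2 p1 p2 _ _ hn1 hp1]
  generalize ip a u = l at *
  generalize ip b u = m at *
  have e1 : (h ^ 2 + t ^ 2) * r ^ 2 = 1 - l ^ 2 := by
    rw [eq_div_iff hT.ne'] at na
    linear_combination na - (h ^ 2 + t ^ 2) * r ^ 2 * hn1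
  have e2 : (k ^ 2 + w ^ 2) * r ^ 2 = 1 - m ^ 2 := by
    rw [eq_div_iff hT.ne'] at nb
    linear_combination nb - (k ^ 2 + w ^ 2) * r ^ 2 * hp1
  have l0 : ∀ x : ℝ, 0 ≤ 1 - x ^ 2 → x ≤ 1 ∧ -1 ≤ x := fun x hx =>
    (abs_le.1 ((sq_le_one_iff_abs_le_one x).1 (sub_nonneg.1 hx))).symm
  have l1 : l ≤ 1 := (l0 l (e1 ▸ by positivity)).1
  have m1 : m ≤ 1 := (l0 m (e2 ▸ by positivity)).1
  have hcs : (n1 * p1 + n2 * p2) ^ 2 + (n1 * p2 - n2 * p1) ^ 2 = 1 := by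
    linear_combination (p1 ^ 2 + p2 ^ 2) * hn1 + hp1
  have hc := (l0 (n1 * p1 + n2 * p2)
    (by linear_combination sq_nonneg (n1 * p2 - n2 * p1) + hcs)).symm
  have hs : h ^ 2 + k ^ 2 + t ^ 2 + w ^ 2 ≤ 1 := by
    refine le_of_mul_le_mul_right ?_ hT
    linear_combination e1 + e2 + 2 * hlm + sq_nonneg (1 - l) + sq_nonneg (1 - m)
  have he : (l - m) ^ 2 / r ^ 2 ≤ δ := by
    rw [div_le_iff₀ hT]
    have : (l - m) ^ 2 ≤ (r ^ 2) ^ 2 := sq_le_sq' (by linarith) (by linarith)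
    linear_combination this + r ^ 2 * hTδ
  have hj := hJ (h ^ 2) (k ^ 2) t w _ l m ((l - m) ^ 2 / r ^ 2) (sq_nonneg _) (sq_nonneg _) hc.1 hc.2
    hs (abs_le.2 ⟨by linarith, by linarith⟩) (abs_le.2 ⟨by linarith, by linarith⟩)
    (by rwa [abs_of_nonneg (by positivity)])
  have h0 : 0 ≤ 2 * h * k * (n1 * p2 - n2 * p1) := by linear_combination (1 / 2) * hd'
  refine le_trans (le_of_eq (b := (1 - ε) * ((l + m) / 2) * (2 * h * k * (n1 * p2 - n2 * p1)))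
    (by ring)) ?_
  rw [mul_comm (2 * h * k * _)]
  refine mul_le_mul_of_nonneg_right (le_trans ?_ hj) h0
  exact mul_le_of_le_one_right (sub_nonneg.2 hε1) (by linarith)

end Pool.Agent.MP_90395b_gt.As
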