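import Pool.Agent.MP_90395b_gt.AsComb
import Pool.Agent.MP_90395b_gt.AsV3
import Pool.Agent.MP_90395b_gt.AsX3

namespace Pool.Agent.MP_90395b_gt.As

open Pool.Agent.MP_90395b_gt.W5

lemma up_le_one {a u : V3} (ha : ip a a = 1) (hu : ip u u = 1) : ip a u ≤ 1 := by
  have h := ip_cs a u
  rw [ha, hu] at h
  nlinarith

lemma up_neg (a u : V3) : ip (-a) u = -ip a u := by simp [ip]; ring

lemma up_neg2 (a : V3) : ip (-a) (-a) = ip a a := by simp [ip]

lemma up_dt (p q b u : V3) (hu : ip u u = 1) (hp : ip p u = 0) (hq : ip q u = 0) :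
    dt p q b = dt p q u * ip b u := by
  have h : dt p q b * ip u u = dt p q u * ip b u - dt p b u * ip q u + dt q b u * ip p u := by
    unfold dt ip; ring
  rw [hu, hp, hq] at h
  linarith

lemma up_sub (a b u : V3) : ip (a - b) u = ip a u - ip b u := by simp [ip]; ring

/-- the corrected cochain -/
noncomputable def upc (T e : ℝ) (p q z : V3) : ℝ := cg T p q z - (1 - e) / 2 * c0 T p q z

lemma upc_anti (T e : ℝ) (x y z : V3) : upc T e y x z = -upc T e x y z := by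
  have h1 : dt y x z = -dt x y z := by unfold dt; ring
  have h2 : ip (y - x) (y - x) = ip (x - y) (x - y) := by simp [ip]; ring
  unfold upc cg c0 c2
  rw [h1, h2, add_comm (ip (y - z) (y - z) / T),
    show (ip (y - z) (y - z) / T - ip (x - z) (x - z) / T) ^ 2
      = (ip (x - z) (x - z) / T - ip (y - z) (y - z) / T) ^ 2 by ring]
  ring

lemma upc_cont (T e : ℝ) : Continuous fun p : V3 × V3 × V3 => upc T e p.1 p.2.1 p.2.2 := by
  unfold upc cg c0 c2 g dt ip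
  fun_prop

lemma up_tri {n : ℕ} (a b : Fin n → V3) (ha : ∀ i, ip (a i) (a i) = 1)
    (hb : ∀ i, ip (b i) (b i) = 1) (T e : ℝ) (hT : 0 < T) (hT1 : T ≤ 1) (he : e ≤ 1)
    (H : ∀ u : V3, ip u u = 1 → ∃ i j, 2 - T / 2 < ip (a i) u + ip (b j) u)
    (hv : ∀ a1 a2 a3 b u : V3, ip a1 a1 = 1 → ip a2 a2 = 1 → ip a3 a3 = 1 → ip b b = 1 →
      ip u u = 1 → ip a2 u = ip a1 u → ip a3 u = ip a1 u →
      (1 - ip a1 u) + (1 - ip b u) ≤ T / 2 → 0 ≤ dt (a2 - a1) (a3 - a1) u →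
      Vf (cg T) a1 a2 a3 b ≤ 1 / 2 + e)
    (t : I4 n) (ht : WTri a b t) :
    VT (upc T e) a b t ≤ (1 / 2 + e) - (1 - e) * (1 - T / 2) / (4 * T) * DT a t := by
  obtain ⟨u, hu, s1, k2, k3, s4, hd⟩ := ht
  obtain ⟨i, j, hij⟩ := H u hu
  have hs : (1 - ip (a t.1) u) + (1 - ip (b t.2.2.2) u) ≤ T / 2 := by
    linarith [s1 i, s4 j]
  have h1 := hv _ _ _ _ u (ha t.1) (ha t.2.1) (ha t.2.2.1) (hb t.2.2.2) hu k2 k3 hs hd
  have hp : ip (a t.2.1 - a t.1) u = 0 := by rw [up_sub, k2, sub_self]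
  have hq : ip (a t.2.2.1 - a t.1) u = 0 := by rw [up_sub, k3, sub_self]
  have e1 := up_dt _ _ (b t.2.2.2) u hu hp hq
  have e2 := up_dt _ _ (a t.1) u hu hp hq
  have l1 := up_le_one (ha t.1) hu
  have e3 : DT a t = dt (a t.2.1 - a t.1) (a t.2.2.1 - a t.1) (a t.1) := by
    simp [DT, dt]; ring
  have e4 : VT (upc T e) a b t = Vf (cg T) (a t.1) (a t.2.1) (a t.2.2.1) (b t.2.2.2)
      - (1 - e) / (4 * T) * dt (a t.2.1 - a t.1) (a t.2.2.1 - a t.1) (b t.2.2.2) := by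
    simp only [VT, Vf, upc, c0, dt, Pi.sub_apply]
    field_simp
    ring
  rw [e4, e3, e1, e2]
  generalize dt (a t.2.1 - a t.1) (a t.2.2.1 - a t.1) u = ν at hd ⊢
  have hk : 0 ≤ (1 - e) / (4 * T) := div_nonneg (by linarith) (by linarith)
  have h2 : (1 - T / 2) * ip (a t.1) u ≤ ip (b t.2.2.2) u := by nlinarith
  have h3 : (1 - e) / (4 * T) * (ν * ((1 - T / 2) * ip (a t.1) u))
      ≤ (1 - e) / (4 * T) * (ν * ip (b t.2.2.2) u) :=
    mul_le_mul_of_nonneg_left (mul_le_mul_of_nonneg_left h2 hd) hk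
  have h4 : (1 - e) * (1 - T / 2) / (4 * T) * (ν * ip (a t.1) u)
      = (1 - e) / (4 * T) * (ν * ((1 - T / 2) * ip (a t.1) u)) := by ring
  rw [h4]
  linarith

lemma up_sum {n : ℕ} (a b : Fin n → V3) (T e K D : ℝ) (he : 0 ≤ e) (hK : 0 ≤ K)
    (TA : Finset (I4 n)) (hc : TA.card ≤ 6 * n) (hD : D ≤ ∑ t ∈ TA, DT a t)
    (h : ∀ t ∈ TA, VT (upc T e) a b t ≤ (1 / 2 + e) - K * DT a t) :
    ∑ t ∈ TA, VT (upc T e) a b t ≤ 6 * n * (1 / 2 + e) - K * D := by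
  refine (Finset.sum_le_sum h).trans ?_
  rw [Finset.sum_sub_distrib, Finset.sum_const, ← Finset.mul_sum, nsmul_eq_mul]
  have h1 : (TA.card : ℝ) ≤ 6 * n := by exact_mod_cast hc
  have h2 := mul_le_mul_of_nonneg_left hD hK
  have h3 : (TA.card : ℝ) * (1 / 2 + e) ≤ 6 * n * (1 / 2 + e) :=
    mul_le_mul_of_nonneg_right h1 (by linarith)
  linarith

lemma up_inr {n : ℕ} (a b : Fin n → V3) (hb : ∀ i, ip (b i) (b i) = 1) (T : ℝ)
    (H : ∀ u : V3, ip u u = 1 → ∃ i j, 2 - T / 2 < ip (a i) u + ip (b j) u) :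
    Inr a (1 - T / 2) := by
  intro u hu
  obtain ⟨i, j, h⟩ := H u hu
  exact ⟨i, by linarith [up_le_one (hb j) hu]⟩

theorem upper (hV : BoxV) (hX : BoxX) (ε : ℝ) (hε : 0 < ε) : ∃ N : ℕ, ∀ n ≥ N,
    ∀ x : Fin n → V3, (∀ i, ip (x i) (x i) = 1) →
      ∃ u : V3, ip u u = 1 ∧ ∀ i j, ip (x i) u - ip (x j) u ≤ 2 - (Real.pi - ε) / n := by
  rcases le_or_gt Real.pi ε with hπ | hπ
  · refine ⟨0, fun n _ x hx => ⟨![1, 0, 0], by simp [ip], fun i j => ?_⟩⟩
    have hu : ip ![1, 0, 0] ![1, 0, 0] = 1 := by simp [ip]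
    have h1 := up_le_one (hx i) hu
    have h2 := up_le_one ((up_neg2 (x j)).trans (hx j)) hu
    rw [up_neg] at h2
    have h3 : (Real.pi - ε) / n ≤ 0 := div_nonpos_of_nonpos_of_nonneg (by linarith) (by positivity)
    linarith
  have hπ4 := Real.pi_le_four
  have hπ0 := Real.pi_pos
  obtain ⟨e, he⟩ : ∃ e : ℝ, e = ε / 32 := ⟨_, rfl⟩
  have he0 : 0 < e := by rw [he]; positivity
  have he1 : e ≤ 1 / 8 := by rw [he]; linarith
  obtain ⟨T0, hT0, hv⟩ := v3 hV e he0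
  obtain ⟨T1, hT1, hx3⟩ := x3 hX e he0 (by linarith)
  obtain ⟨τ, hτ⟩ : ∃ τ : ℝ, τ = min T0 (min T1 e) := ⟨_, rfl⟩
  have hτ0 : 0 < τ := by rw [hτ]; exact lt_min hT0 (lt_min hT1 he0)
  refine ⟨max 3 ⌈8 / τ⌉₊, fun n hn x hx => ?_⟩
  have hn3 : 3 ≤ n := le_of_max_le_left hn
  have hn0 : (0 : ℝ) < n := by exact_mod_cast (by omega : 0 < n)
  have hnτ : 8 / τ ≤ n := (Nat.le_ceil _).trans (by exact_mod_cast le_of_max_le_right hn)
  obtain ⟨T, hT⟩ : ∃ T : ℝ, T = 2 * (Real.pi - ε) / n := ⟨_, rfl⟩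
  have hTn : n * T = 2 * (Real.pi - ε) := by rw [hT]; field_simp
  have hTp : 0 < T := by rw [hT]; exact div_pos (by linarith) hn0
  have hTτ : T ≤ τ := by
    rw [div_le_iff₀ hτ0] at hnτ
    rw [hT, div_le_iff₀ hn0]
    linarith
  have hTa : T ≤ T0 := hTτ.trans (by rw [hτ]; exact min_le_left _ _)
  have hTb : T ≤ T1 := hTτ.trans (by rw [hτ]; exact (min_le_right _ _).trans (min_le_left _ _))
  have hTe : T ≤ e := hTτ.trans (by rw [hτ]; exact (min_le_right _ _).trans (min_le_right _ _))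
  by_contra hcon
  push Not at hcon
  have hb : ∀ i, ip ((fun i => -x i) i) ((fun i => -x i) i) = 1 := fun i =>
    (up_neg2 (x i)).trans (hx i)
  have H : ∀ u : V3, ip u u = 1 → ∃ i j, 2 - T / 2 < ip (x i) u + ip ((fun i => -x i) j) u := by
    intro u hu
    obtain ⟨i, j, h⟩ := hcon u hu
    refine ⟨i, j, ?_⟩
    have : (Real.pi - ε) / n = T / 2 := by rw [hT]; ring
    rw [this] at h
    simp only [up_neg]
    linarith
  generalize (fun i => -x i) = b at hb H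
  have H' : ∀ u : V3, ip u u = 1 → ∃ i j, 2 - T / 2 < ip (b i) u + ip (x j) u := by
    intro u hu
    obtain ⟨i, j, h⟩ := H u hu
    exact ⟨j, i, by linarith⟩
  obtain ⟨TA, TB, X, hA, hB, hXX, cA, cB, dA, dB, hE⟩ := comb hn3 x b (upc T e) (upc_anti T e)
    (upc_cont T e) (1 - T / 2) (1 - T) (by linarith) (by linarith) (up_inr x b hb T H)
    (up_inr b x hx T H')
  have hK : 0 ≤ (1 - e) * (1 - T / 2) / (4 * T) :=
    div_nonneg (mul_nonneg (by linarith) (by linarith)) (by linarith)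
  have sA := up_sum x b T e _ _ he0.le hK TA cA dA fun t ht =>
    up_tri x b hx hb T e hTp (by linarith) (by linarith) H (hv T hTp hTa) t (hA t ht)
  have sB := up_sum b x T e _ _ he0.le hK TB cB dB fun t ht =>
    up_tri b x hb hx T e hTp (by linarith) (by linarith) H' (hv T hTp hTa) t (hB t ht)
  have sX : 0 ≤ ∑ t ∈ X, ST (upc T e) x b t := by
    refine Finset.sum_nonneg fun t ht => ?_
    obtain ⟨u, hu, s1, k1, s2, k2, hd⟩ := hXX t ht
    obtain ⟨i, j, hij⟩ := H u hu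
    have h1 := hx3 T hTp hTb _ _ _ _ u (hx t.1) (hx t.2.1) (hb t.2.2.1) (hb t.2.2.2) hu k1 k2
      (by linarith [s1 i, s2 j]) hd
    simp only [ST, Sf, upc] at h1 ⊢
    linarith
  have h1 : (1 - e) * (1 - T / 2) / (4 * T) * (24 * Real.pi * (1 - T) ^ 3)
      ≤ 6 * n * (1 / 2 + e) := by linarith
  have h2 : Real.pi * ((1 - e) * (1 - T / 2) * (1 - T) ^ 3) ≤ (Real.pi - ε) * (1 + 2 * e) := by
    have h3 := mul_le_mul_of_nonneg_left h1 hTp.le
    have h4 : T * ((1 - e) * (1 - T / 2) / (4 * T) * (24 * Real.pi * (1 - T) ^ 3))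
        = 6 * (Real.pi * ((1 - e) * (1 - T / 2) * (1 - T) ^ 3)) := by field_simp; ring
    have h5 : T * (6 * n * (1 / 2 + e)) = 6 * ((Real.pi - ε) * (1 + 2 * e)) := by
      linear_combination (3 * (1 + 2 * e)) * hTn
    rw [h4, h5] at h3
    linarith
  have h6 : (1 - e) ^ 5 ≤ (1 - e) * (1 - T / 2) * (1 - T) ^ 3 := by
    have : (1 - e) ^ 5 = (1 - e) * (1 - e) * (1 - e) ^ 3 := by ring
    rw [this]
    have h7 : (0 : ℝ) ≤ 1 - e := by linarith
    gcongr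
    · exact mul_nonneg h7 (by linarith)
    · linarith
  have h8 : 1 - 5 * e ≤ (1 - e) ^ 5 := by
    have := one_add_mul_le_pow (a := -e) (by linarith) 5
    push_cast at this
    calc 1 - 5 * e = 1 + 5 * -e := by ring
      _ ≤ (1 + -e) ^ 5 := this
      _ = (1 - e) ^ 5 := by ring
  have h9 := mul_le_mul_of_nonneg_left (h8.trans h6) hπ0.le
  have h10 : ε = 32 * e := by rw [he]; ring
  nlinarith [mul_pos hε he0]

end Pool.Agent.MP_90395b_gt.As
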