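import Pool.Agent.MP_90395b_gt.AsFrame

namespace Pool.Agent.MP_90395b_gt.As

open Pool.Agent.MP_90395b_gt.W5

theorem vp_c2 (D x r r' : ℝ) : c2 (-D) x r' r = - c2 D x r r' := by
  unfold c2
  rw [add_comm r' r, show (r' - r) ^ 2 = (r - r') ^ 2 by ring]
  ring

theorem vp_swap (a1 a2 p1 p2 b1 b2 : ℝ) : cp p1 p2 a1 a2 b1 b2 = - cp a1 a2 p1 p2 b1 b2 := by
  unfold cp
  rw [← vp_c2]
  congr 1 <;> ring

theorem vp_refl (a1 a2 p1 p2 b1 b2 : ℝ) :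
    cp p1 (-p2) a1 (-a2) b1 (-b2) = cp a1 a2 p1 p2 b1 b2 := by
  rw [← neg_neg (cp a1 a2 p1 p2 b1 b2), ← vp_swap]
  unfold cp
  rw [← vp_c2]
  unfold c2
  congr 2 <;> ring

theorem vp_self (a1 a2 b1 b2 : ℝ) : cp a1 a2 a1 a2 b1 b2 = 0 := by
  have := vp_swap a1 a2 a1 a2 b1 b2
  linarith

theorem vp_rot {c s : ℝ} (h : c ^ 2 + s ^ 2 = 1) (a1 a2 p1 p2 b1 b2 : ℝ) :
    cp (c * a1 + s * a2) (c * a2 - s * a1) (c * p1 + s * p2) (c * p2 - s * p1)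
      (c * b1 + s * b2) (c * b2 - s * b1) = cp a1 a2 p1 p2 b1 b2 := by
  unfold cp
  congr 1
  · linear_combination ((a1 - b1) * (p2 - b2) - (a2 - b2) * (p1 - b1)) * h
  · linear_combination ((a1 - p1) ^ 2 + (a2 - p2) ^ 2) / 4 * h
  · linear_combination ((a1 - b1) ^ 2 + (a2 - b2) ^ 2) * h
  · linear_combination ((p1 - b1) ^ 2 + (p2 - b2) ^ 2) * h

theorem vp_core (hB : BoxV) {h k p q u v : ℝ} (hh : 0 < h) (hp : 0 ≤ p) (hq : 0 ≤ q + k)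
    (hR : p ^ 2 + q ^ 2 = h ^ 2 + k ^ 2) (hl : (p + h) ^ 2 + (q + k) ^ 2 ≤ 4 * h ^ 2)
    (h3 : h ^ 2 + k ^ 2 + u ^ 2 + v ^ 2 ≤ 1) : Vp (-h) (-k) h (-k) p q u v ≤ 1 / 2 := by
  have hph : 0 < p + h := by linarith
  obtain ⟨s, hs⟩ : ∃ s, s * (p + h) = q + k := ⟨(q + k) / (p + h), div_mul_cancel₀ _ hph.ne'⟩
  have hs0 : 0 ≤ s := by
    by_contra a
    have := mul_pos_of_neg_of_neg (not_le.1 a) (neg_neg_of_pos hph)
    linarith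
  have e1 : p - h = (k - q) * s :=
    mul_right_cancel₀ hph.ne' (by linear_combination hR - (k - q) * hs)
  have e2 : p * (1 + s ^ 2) = h * (1 - s ^ 2) + 2 * k * s := by linear_combination e1 + s * hs
  have e3 : q * (1 + s ^ 2) = 2 * h * s - k * (1 - s ^ 2) := by
    linear_combination s * e2 - (1 + s ^ 2) * hs
  have hs1 : 0 < 1 + s ^ 2 := by positivity
  rcases hs0.eq_or_lt with rfl | hs0'
  · obtain rfl : p = h := by linarith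
    obtain rfl : q = -k := by linarith
    unfold Vp
    rw [vp_self, vp_swap (-p) (-k) p (-k)]
    linarith
  have f1 : h * s ^ 2 ≤ h + 2 * k * s := by nlinarith [mul_nonneg hp hs1.le]
  have f2 : 2 * h * k ≤ s * (h ^ 2 - k ^ 2) := by
    have g1 : (p + h) ^ 2 * (1 + s ^ 2) ≤ 4 * h ^ 2 := by
      rw [← hs] at hl; linarith
    have g2 : (p + h) * (1 + s ^ 2) = 2 * (h + k * s) := by linear_combination e2
    have g3 : (2 * (h + k * s)) ^ 2 ≤ 4 * h ^ 2 * (1 + s ^ 2) := by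
      rw [← g2]
      have := mul_le_mul_of_nonneg_right g1 hs1.le
      linarith
    refine le_of_mul_le_mul_left ?_ hs0'
    linarith
  have f3 : 0 < k → 3 * k ^ 2 ≤ h ^ 2 := fun hk => by
    have hk' := mul_pos hh hk
    have hD : 0 < h ^ 2 - k ^ 2 := by
      by_contra a
      have := mul_nonneg hs0 (neg_nonneg.2 (not_lt.1 a))
      linarith
    have g1 : 2 * k ^ 3 ≤ (h * s - 2 * k) * (h ^ 2 - k ^ 2) := by
      have := mul_le_mul_of_nonneg_left f2 hh.le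
      linarith
    have g2 : 2 * h * k * (2 * k ^ 3) ≤
        s * (h ^ 2 - k ^ 2) * ((h * s - 2 * k) * (h ^ 2 - k ^ 2)) :=
      mul_le_mul f2 g1 (by positivity) (mul_pos hs0' hD).le
    have g3 := mul_le_mul_of_nonneg_right f1 (sq_nonneg (h ^ 2 - k ^ 2))
    have g4 : (2 * k ^ 2) ^ 2 ≤ (h ^ 2 - k ^ 2) ^ 2 := le_of_mul_le_mul_left (by linarith) hh
    linarith [(pow_le_pow_iff_left₀ (by positivity : 0 ≤ 2 * k ^ 2) hD.le two_ne_zero).1 g4]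
  have := hB h k u v s hh.le ?_ hs0 ?_ ?_ ?_ h3
  · rwa [← e2, ← e3, mul_div_cancel_right₀ _ hs1.ne', mul_div_cancel_right₀ _ hs1.ne'] at this
  · by_contra a
    have := f3 (by linarith)
    nlinarith [sq_nonneg u, sq_nonneg v]
  · by_contra a
    have g1 : k ≤ 3 / 5 * h := by
      by_contra b
      have := f3 (by linarith)
      nlinarith
    have := mul_le_mul_of_nonneg_right g1 hs0
    nlinarith [mul_pos hh (by nlinarith : 0 < s ^ 2 - 6 / 5 * s - 1)]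
  · intro hk
    by_contra a
    have := mul_nonneg (neg_nonneg.2 hk) hs0
    nlinarith [mul_pos hh (by nlinarith : 0 < s ^ 2 - 1)]
  · intro a b
    by_contra c
    have g1 : k ≤ 1 / 6 * h := by linarith
    have := mul_le_mul_of_nonneg_right g1 hs0
    nlinarith [mul_pos hh (by nlinarith : 0 < s ^ 2 - 1 / 3 * s - 1)]

theorem vp_one (hB : BoxV) (a1 a2 p1 p2 q1 q2 b1 b2 : ℝ)
    (h1 : p1 ^ 2 + p2 ^ 2 = a1 ^ 2 + a2 ^ 2) (h2 : q1 ^ 2 + q2 ^ 2 = a1 ^ 2 + a2 ^ 2)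
    (h3 : a1 ^ 2 + a2 ^ 2 + b1 ^ 2 + b2 ^ 2 ≤ 1)
    (h4 : 0 ≤ (p1 - a1) * (q2 - a2) - (p2 - a2) * (q1 - a1))
    (h5 : (q1 - a1) ^ 2 + (q2 - a2) ^ 2 ≤ (p1 - a1) ^ 2 + (p2 - a2) ^ 2)
    (h6 : (q1 - p1) ^ 2 + (q2 - p2) ^ 2 ≤ (q1 - a1) ^ 2 + (q2 - a2) ^ 2) :
    Vp a1 a2 p1 p2 q1 q2 b1 b2 ≤ 1 / 2 := by
  rcases (by positivity : 0 ≤ (p1 - a1) ^ 2 + (p2 - a2) ^ 2).eq_or_lt with h0 | h0
  · obtain rfl : p1 = a1 := by nlinarith [sq_nonneg (p1 - a1), sq_nonneg (p2 - a2)]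
    obtain rfl : p2 = a2 := by nlinarith [sq_nonneg (p2 - a2)]
    unfold Vp
    rw [vp_self, vp_swap p1 p2 q1 q2]
    linarith
  obtain ⟨L, hL, hL2⟩ : ∃ L : ℝ, 0 < L ∧ L ^ 2 = (p1 - a1) ^ 2 + (p2 - a2) ^ 2 :=
    ⟨_, Real.sqrt_pos.2 h0, Real.sq_sqrt h0.le⟩
  obtain ⟨c, hc⟩ : ∃ c, L * c = p1 - a1 := ⟨(p1 - a1) / L, mul_div_cancel₀ _ hL.ne'⟩
  obtain ⟨s, hs⟩ : ∃ s, L * s = p2 - a2 := ⟨(p2 - a2) / L, mul_div_cancel₀ _ hL.ne'⟩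
  obtain rfl : p1 = a1 + L * c := by linarith
  obtain rfl : p2 = a2 + L * s := by linarith
  have hcs : c ^ 2 + s ^ 2 = 1 :=
    mul_left_cancel₀ (pow_ne_zero 2 hL.ne') (by linear_combination -hL2)
  have e1 : c * a1 + s * a2 = -(L / 2) :=
    mul_left_cancel₀ hL.ne' (by linear_combination h1 / 2 - L ^ 2 / 2 * hcs)
  have e2 : c * (a1 + L * c) + s * (a2 + L * s) = L / 2 := by linear_combination e1 + L * hcs
  have e3 : c * (a2 + L * s) - s * (a1 + L * c) = -(s * a1 - c * a2) := by ring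
  have e4 : c * a2 - s * a1 = -(s * a1 - c * a2) := by ring
  have e5 : (L / 2) ^ 2 + (s * a1 - c * a2) ^ 2 = a1 ^ 2 + a2 ^ 2 := by
    linear_combination (a1 ^ 2 + a2 ^ 2) * hcs - (c * a1 + s * a2 - L / 2) * e1
  have := vp_core hB (h := L / 2) (k := s * a1 - c * a2) (p := c * q1 + s * q2)
    (q := c * q2 - s * q1) (u := c * b1 + s * b2) (v := c * b2 - s * b1) (by linarith)
    (le_of_mul_le_mul_left (by nlinarith) hL) (le_of_mul_le_mul_left (by linarith) hL)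
    (by linear_combination (q1 ^ 2 + q2 ^ 2) * hcs + h2 - e5) ?_ ?_
  · unfold Vp at this ⊢
    rw [← vp_rot hcs a1, ← vp_rot hcs _ _ q1, ← vp_rot hcs q1, e1, e2, e3, e4]
    exact this
  · have : (c * q1 + s * q2 + L / 2) ^ 2 + (c * q2 - s * q1 + (s * a1 - c * a2)) ^ 2 =
        (q1 - a1) ^ 2 + (q2 - a2) ^ 2 := by
      rw [show L / 2 = -(c * a1 + s * a2) by linarith]
      linear_combination ((q1 - a1) ^ 2 + (q2 - a2) ^ 2) * hcs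
    linarith
  · have : (c * b1 + s * b2) ^ 2 + (c * b2 - s * b1) ^ 2 = b1 ^ 2 + b2 ^ 2 := by
      linear_combination (b1 ^ 2 + b2 ^ 2) * hcs
    linarith

theorem vp_two (hB : BoxV) (a1 a2 p1 p2 q1 q2 b1 b2 : ℝ)
    (h1 : p1 ^ 2 + p2 ^ 2 = a1 ^ 2 + a2 ^ 2) (h2 : q1 ^ 2 + q2 ^ 2 = a1 ^ 2 + a2 ^ 2)
    (h3 : a1 ^ 2 + a2 ^ 2 + b1 ^ 2 + b2 ^ 2 ≤ 1)
    (h4 : 0 ≤ (p1 - a1) * (q2 - a2) - (p2 - a2) * (q1 - a1))
    (h5 : (q1 - a1) ^ 2 + (q2 - a2) ^ 2 ≤ (p1 - a1) ^ 2 + (p2 - a2) ^ 2)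
    (h6 : (q1 - p1) ^ 2 + (q2 - p2) ^ 2 ≤ (p1 - a1) ^ 2 + (p2 - a2) ^ 2) :
    Vp a1 a2 p1 p2 q1 q2 b1 b2 ≤ 1 / 2 := by
  rcases le_total ((q1 - p1) ^ 2 + (q2 - p2) ^ 2) ((q1 - a1) ^ 2 + (q2 - a2) ^ 2) with h | h
  · exact vp_one hB _ _ _ _ _ _ _ _ h1 h2 h3 h4 h5 h
  · have := vp_one hB p1 (-p2) a1 (-a2) q1 (-q2) b1 (-b2) (by linarith) (by linarith) (by linarith)
      (by linarith) (by linarith) (by linarith)
    unfold Vp at this ⊢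
    simp only [vp_refl] at this
    linarith

theorem vplane (hB : BoxV) (a1 a2 p1 p2 q1 q2 b1 b2 : ℝ)
    (h1 : p1 ^ 2 + p2 ^ 2 = a1 ^ 2 + a2 ^ 2) (h2 : q1 ^ 2 + q2 ^ 2 = a1 ^ 2 + a2 ^ 2)
    (h3 : a1 ^ 2 + a2 ^ 2 + b1 ^ 2 + b2 ^ 2 ≤ 1)
    (h4 : 0 ≤ (p1 - a1) * (q2 - a2) - (p2 - a2) * (q1 - a1)) :
    Vp a1 a2 p1 p2 q1 q2 b1 b2 ≤ 1 / 2 := by
  by_cases c1 : (q1 - a1) ^ 2 + (q2 - a2) ^ 2 ≤ (p1 - a1) ^ 2 + (p2 - a2) ^ 2 ∧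
      (q1 - p1) ^ 2 + (q2 - p2) ^ 2 ≤ (p1 - a1) ^ 2 + (p2 - a2) ^ 2
  · exact vp_two hB _ _ _ _ _ _ _ _ h1 h2 h3 h4 c1.1 c1.2
  rw [not_and_or, not_le, not_le] at c1
  rcases le_total ((q1 - p1) ^ 2 + (q2 - p2) ^ 2) ((q1 - a1) ^ 2 + (q2 - a2) ^ 2) with h | h
  · have := vp_two hB q1 q2 a1 a2 p1 p2 b1 b2 (by linarith) (by linarith) (by linarith)
      (by linarith) (by linarith) (by rcases c1 with c | c <;> linarith)
    unfold Vp at this ⊢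
    linarith
  · have := vp_two hB p1 p2 q1 q2 a1 a2 b1 b2 (by linarith) (by linarith) (by linarith)
      (by linarith) (by rcases c1 with c | c <;> linarith) (by linarith)
    unfold Vp at this ⊢
    linarith

end Pool.Agent.MP_90395b_gt.As
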