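import Pool.Agent.MP_90395b_gt.BnData

namespace Pool.Agent.MP_90395b_gt.Bn

set_option maxRecDepth 4000
set_option deprecated.oldSectionVars true

theorem vb_s1 : check 36 22 230 192 8 0 [7, 6, 6, 14] [8, 8, 7, 6, 6, 14] [8, 0, 7, 6, 6, 14] 2 1
    [(-2, 0, 7), (2, 2, 7), (-2, 1, 7), (-2, 2, 7), (-2, 2, 7), (-1, 15, 15)] (shAt 1 (shAt 0
      pVA)) (shAt 1 (shAt 0 pCA))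
    (.s 5 (.s 2 .z .z) (.s 2 (.s 3 .z .z) (.s 5 (.s 3 .z .z) (.s 3 (.s 2 .z (.s 4 .z (.s 4 .z (.s
      3 (.s 5 (.s 2 (.l 908) (.s 1 (.l 4853) (.s 2 (.l 2426) (.l 4730)))) (.s 2 (.l 3722) (.l
      6655))) (.l 982))))) .z)))) = true := by
  decide +kernel

theorem vb_u0 : check 36 22 236 183 8 8 [7, 0, 6, 14] [8, 8, 7, 6, 6, 14] [8, 0, 7, 6, 6, 14] 2 1
    [(-2, 0, 7), (-2, 2, 7), (-2, 1, 7), (-2, -2, 7), (-2, 2, 7), (-1, 15, 15)] (shAt 1 (shAt 0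
      pVA)) (shAt 1 (shAt 0 pCA))
    (.s 5 .z (.s 5 (.l 762) (.l 1474))) = true := by
  decide +kernel

theorem vm_cLL : check 26 18 129 98 8 8 [7, 6, 6, 0] [8, 8, 7, 6, 6, 16] [8, 0, 7, 6, 6, 16] 0 0
    [(3, 4, 4), (0, 1, 1), (1, 4, 8), (-3, 3, 4), (-6, 3, 8), (1, 1, 1)] pVA pCA
    (.s 0 (.s 2 (.s 2 (.s 5 (.s 2 (.s 2 (.s 2 (.l 45) (.l 41)) (.s 3 (.s 2 (.l 37) (.l 34)) (.s 1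
      (.l 23) (.l 33)))) (.s 0 (.l 10) (.s 3 (.s 3 (.l 30) (.s 2 (.s 2 (.l 20) (.l 16)) (.l 12)))
      (.s 1 (.s 2 (.l 14) (.l 2)) (.s 2 (.s 2 (.l 24) (.l 19)) (.s 2 (.l 15) (.l 11))))))) (.s 2
      (.l 63) (.s 3 (.s 2 (.l 44) (.l 36)) (.s 2 (.l 29) (.l 19))))) (.s 0 (.l 4) (.s 3 (.s 3 (.s
      5 (.l 16) (.l 27)) (.s 5 (.l 4) (.s 2 (.l 16) (.l 4)))) (.s 5 (.l 7) (.s 2 (.l 11) (.l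
      2)))))) (.l 2)) (.s 3 (.s 3 (.s 2 (.s 5 (.s 2 (.s 2 (.l 144) (.s 3 (.l 115) (.s 2 (.l 91)
      (.s 5 (.s 0 (.l 34) (.l 58)) (.l 76))))) (.s 3 (.s 2 (.l 92) (.s 2 (.l 72) (.l 64))) (.s 5
      (.s 2 (.s 0 (.l 21) (.s 2 (.l 38) (.l 16))) .z) (.s 3 (.l 62) (.s 5 (.s 2 (.l 34) .z) (.l
      46)))))) (.l 162)) (.s 5 (.s 2 (.s 3 (.l 62) (.s 2 (.l 12) (.l 20))) (.s 3 (.l 106) (.s 2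
      (.l 47) (.l 79)))) (.l 129))) (.s 2 (.s 2 (.s 2 (.s 2 (.l 131) (.s 5 (.s 3 (.l 94) (.s 2 (.l
      79) (.s 1 (.s 5 (.s 2 (.l 42) (.l 36)) (.l 57)) (.l 67)))) (.l 111))) (.s 5 (.s 2 (.s 5 (.s
      3 (.s 1 (.s 3 (.l 52) (.s 2 (.l 40) (.l 28))) (.l 61)) (.s 1 (.s 0 (.s 2 (.l 25) (.l 15))
      (.l 29)) (.s 2 (.l 45) (.s 2 (.l 33) (.l 28))))) (.s 3 (.l 72) (.s 2 (.l 55) (.s 0 (.s 2 (.l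
      32) (.l 29)) (.l 43))))) (.s 3 (.s 5 (.s 0 (.s 2 (.l 22) (.l 15)) (.s 3 (.l 37) (.l 27)))
      (.s 3 (.l 50) (.s 2 (.l 40) (.l 30)))) (.s 5 (.s 0 (.s 1 (.l 1) (.l 18)) (.l 21)) (.s 1 (.s
      5 (.l 18) (.s 2 (.l 26) (.l 16))) (.s 2 (.l 33) (.l 24)))))) (.s 2 (.l 89) (.s 3 (.l 67) (.s
      2 (.l 47) (.s 2 (.l 38) (.l 34))))))) (.s 5 (.s 2 (.s 2 (.s 5 (.s 3 (.l 14) (.l 3)) (.s 3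
      (.s 3 (.l 30) (.l 20)) (.s 2 (.l 16) (.l 9)))) (.s 3 (.l 12) (.l 3))) .z) (.s 2 (.s 5 (.s 3
      (.s 2 (.l 44) (.s 2 (.l 29) (.l 22))) (.s 2 (.s 2 (.l 24) (.l 17)) (.l 12))) (.s 2 (.l 50)
      (.l 35))) (.s 3 (.l 22) (.s 2 (.l 11) (.l 7)))))) (.s 2 (.s 2 (.l 7) (.l 9)) (.s 2 (.s 5 (.l
      10) (.l 39)) (.s 2 (.l 57) (.l 77)))))) (.s 2 (.s 2 (.s 2 (.s 2 (.l 105) (.s 5 (.s 5 (.s 1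
      (.s 2 (.l 40) (.s 2 (.l 29) (.l 24))) (.s 3 (.s 2 (.l 60) (.l 47)) (.l 69))) (.s 2 (.l 72)
      (.l 60))) (.l 80))) (.s 5 (.s 2 (.s 1 (.s 5 (.s 2 (.l 19) (.l 2)) (.s 2 (.l 32) (.s 2 (.l
      24) (.l 19)))) (.s 5 (.s 1 (.s 2 (.s 2 (.l 29) (.l 24)) (.l 19)) (.s 2 (.l 45) (.s 3 (.l 27)
      (.l 32)))) (.s 2 (.l 47) (.l 34)))) (.s 1 (.s 5 .z (.l 15)) (.s 2 (.s 0 (.s 5 (.s 1 (.l 6)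
      (.l 19)) (.l 22)) (.s 2 (.l 24) (.l 20))) (.s 5 (.l 13) (.l 18))))) (.s 2 (.l 55) (.s 1 (.s
      2 (.l 30) (.l 24)) (.l 36))))) (.s 5 (.s 2 (.s 2 (.s 2 (.l 11) (.l 5)) .z) .z) (.s 2 (.s 3
      (.s 2 (.s 5 (.l 17) (.l 22)) (.s 2 (.l 13) (.l 10))) (.l 14)) (.s 3 (.s 1 (.l 2) (.l 8)) (.l
      4))))) (.s 2 (.s 3 (.s 1 .z (.s 5 .z (.l 10))) (.l 5)) (.s 2 (.l 1) (.l 38)))))) = true :=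
      by
  decide +kernel

theorem vm_cRRR : check 26 18 143 98 8 8 [7, 6, 6, 0] [8, 8, 7, 6, 6, 16] [8, 0, 7, 6, 6, 16] 0 0
    [(3, 4, 4), (3, 4, 2), (1, 4, 8), (-3, 6, 8), (-3, 3, 4), (1, 1, 1)] pVA pCA
    (.s 2 (.s 3 (.s 3 (.s 3 (.s 5 (.s 3 (.l 42) (.s 5 (.l 4) (.l 25))) (.l 63)) (.s 5 (.s 3 (.s 0
      (.l 5) (.l 8)) .z) (.s 3 (.l 33) (.s 5 (.s 3 (.l 9) (.l 2)) (.l 20))))) (.s 2 .z (.s 5 .z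
      (.s 5 .z (.s 3 (.s 3 (.l 10) .z) .z))))) (.s 3 (.s 2 .z .z) (.s 3 .z (.l 19)))) (.s 3 (.s 2
      (.s 3 (.s 5 (.s 3 (.s 2 (.s 5 (.s 3 (.l 47) (.s 0 (.l 16) (.l 31))) (.l 63)) (.l 84)) (.s 2
      (.s 5 (.s 3 (.l 8) .z) (.s 3 (.s 0 (.s 0 (.s 2 (.l 8) (.l 12)) (.l 19)) (.s 2 (.l 22) (.l
      36))) (.s 5 .z (.s 0 (.s 3 (.l 10) (.l 3)) (.s 2 .z (.l 20)))))) (.s 5 (.s 3 (.s 1 (.s 0 (.s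
      0 (.l 13) (.l 21)) (.s 2 (.l 27) (.l 44))) (.l 24)) (.s 2 .z (.s 5 .z (.s 0 (.l 12) (.l
      27))))) (.s 3 (.l 62) (.s 1 (.s 2 (.s 0 (.s 5 (.s 2 (.l 6) (.l 12)) (.l 18)) (.s 0 (.l 27)
      (.l 38))) (.s 0 (.l 24) (.l 52))) (.l 27)))))) (.s 3 (.l 109) (.s 2 (.s 3 (.l 60) (.s 5 (.s
      5 (.s 0 (.s 2 (.l 8) (.l 15)) (.l 31)) (.l 38)) (.l 48))) (.l 85)))) (.s 5 (.s 2 .z (.s 5 .z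
      (.s 3 (.s 1 (.s 2 (.s 3 (.s 0 (.s 0 (.l 5) (.l 9)) (.s 2 (.l 4) (.l 20))) .z) (.s 0 (.s 3
      (.s 5 (.l 10) (.s 2 (.l 14) (.l 18))) (.s 2 .z (.l 8))) (.s 3 (.s 5 (.l 25) (.s 2 (.l 31)
      (.l 41))) (.s 2 (.l 5) (.l 22))))) (.s 2 .z (.l 13))) .z))) (.s 2 (.s 5 (.s 3 (.s 1 (.s 3
      (.s 2 (.s 0 (.l 4) (.l 7)) (.s 5 (.s 3 (.s 2 (.l 1) (.l 13)) .z) (.s 2 (.l 16) (.l 25))))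
      (.s 0 (.s 2 .z (.l 3)) (.l 8))) (.l 6)) .z) (.s 1 (.s 5 (.s 2 (.s 3 (.s 3 (.l 17) (.l 3))
      .z) (.s 3 (.l 32) (.l 5))) (.s 3 (.l 37) (.l 15))) (.l 16))) (.s 5 (.s 1 (.s 0 (.s 3 (.s 2
      (.s 5 (.s 3 (.s 2 (.l 11) (.l 15)) (.l 6)) (.l 18)) (.s 3 (.l 25) (.l 19))) (.s 2 (.l 3) (.l
      12))) (.s 3 (.s 2 (.s 5 (.s 3 (.l 34) (.l 15)) (.l 41)) (.s 3 (.l 55) (.l 44))) (.s 2 (.l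
      11) (.s 2 (.l 22) (.l 32))))) (.s 2 (.l 16) (.l 27))) (.l 64))))) (.s 5 (.s 3 (.s 2 (.s 3
      (.l 104) (.s 5 (.s 2 (.s 3 (.l 57) (.s 5 (.s 2 (.l 16) (.l 28)) (.l 46))) (.l 69)) (.l 84)))
      (.l 123)) (.s 2 (.s 0 (.s 1 (.s 5 (.s 3 (.s 2 (.s 2 (.l 3) (.l 11)) (.s 3 (.l 20) (.l 12)))
      .z) (.s 3 (.s 2 (.s 3 (.l 24) (.s 0 (.l 10) (.l 18))) (.l 31)) (.s 2 (.l 9) (.l 18)))) (.s 2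
      (.l 6) (.l 12))) (.s 5 (.s 3 (.s 1 (.s 2 (.s 0 (.l 19) (.l 29)) (.s 3 (.l 48) (.l 33))) (.l
      22)) (.l 12)) (.s 1 (.s 2 (.s 3 (.s 3 (.l 55) (.s 0 (.l 29) (.l 43))) (.s 2 (.l 12) (.l
      28))) (.s 2 (.l 61) (.l 66))) (.l 39)))) (.s 5 (.s 0 (.s 2 (.l 27) (.l 34)) (.s 2 (.l 61)
      (.l 72))) (.l 88)))) (.l 148))) (.s 2 (.s 3 (.s 5 .z (.s 2 .z (.s 5 (.l 5) (.l 25)))) (.s 3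
      (.s 2 .z (.l 10)) (.l 33))) (.s 5 (.s 3 (.s 2 (.s 0 (.l 5) (.s 2 (.l 4) (.l 21))) (.s 0 (.l
      23) (.l 55))) (.s 0 (.s 2 (.l 24) (.l 38)) (.s 2 (.l 53) (.l 77)))) (.l 81))))) = true := by
  decide +kernel

theorem vm_f : check 26 18 142 91 8 8 [7, 6, 6, 0] [8, 8, 7, 6, 6, 16] [8, 0, 7, 6, 6, 16] 0 0
    [(3, 4, 4), (5, 6, 4), (0, 1, 8), (-3, 3, 4), (-3, 3, 4), (1, 1, 1)] pVA pCA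
    (.s 3 (.s 2 (.s 3 (.s 3 (.s 2 (.l 58) (.s 5 (.s 3 (.l 27) (.l 10)) (.l 43))) (.s 2 (.s 2 (.l
      33) (.l 15)) (.s 3 (.s 3 (.l 12) (.l 6)) (.l 3)))) (.s 2 (.s 2 (.l 16) (.l 5)) .z)) (.s 2
      (.s 3 (.s 3 (.s 5 (.s 3 (.l 65) (.s 5 (.s 2 (.l 9) (.s 2 (.s 2 (.l 17) (.l 25)) (.l 39)))
      (.s 2 (.l 31) (.l 54)))) (.l 85)) (.s 5 (.s 2 (.s 3 (.s 3 (.l 13) (.l 4)) .z) (.s 5 (.s 3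
      (.s 3 (.s 0 (.l 16) (.l 23)) (.l 7)) .z) (.s 3 (.s 2 (.s 5 (.s 2 (.l 8) (.l 18)) (.s 2 (.l
      22) (.l 30))) (.s 5 (.s 0 (.l 24) (.l 36)) (.l 43))) (.s 2 (.s 3 (.l 10) .z) (.s 5 (.s 0 (.s
      2 (.l 1) (.l 13)) (.l 18)) (.s 3 (.s 0 (.l 21) (.l 32)) (.s 2 (.l 10) (.s 2 (.l 18) (.l
      25))))))))) (.s 5 (.s 3 (.s 2 (.l 28) (.l 53)) (.s 2 (.s 5 (.l 6) (.l 14)) (.s 5 (.s 2 (.s 3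
      (.l 24) (.s 2 (.l 5) (.l 15))) (.s 0 (.l 25) (.l 38))) (.l 42)))) (.l 60)))) (.s 5 (.s 2 .z
      (.s 2 .z (.s 2 .z (.s 3 (.s 0 (.s 2 (.l 1) (.s 3 (.l 9) .z)) (.l 11)) .z)))) (.s 2 (.s 3 (.s
      5 (.l 1) (.s 3 (.s 2 (.l 1) (.l 10)) (.l 1))) .z) (.s 3 (.s 5 (.s 2 (.s 3 (.s 5 (.l 4) (.s 3
      (.s 2 (.l 6) (.l 16)) (.l 7))) .z) (.s 3 (.s 5 (.s 2 (.s 0 (.s 2 (.l 8) (.l 12)) (.l 17))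
      (.s 3 (.s 2 (.l 22) (.l 27)) (.s 2 (.l 11) (.l 18)))) (.s 0 (.l 20) (.l 32))) (.s 5 (.l 3)
      (.s 2 (.l 8) (.s 2 (.l 14) (.l 20)))))) (.s 2 (.s 3 (.l 25) (.s 2 (.l 7) (.s 2 (.l 10) (.l
      14)))) (.l 38))) (.s 5 .z (.s 2 (.l 3) (.s 2 (.l 11) (.l 18)))))))) (.s 5 (.s 3 (.s 2 (.s 3
      (.l 85) (.s 5 (.s 2 (.s 3 (.s 5 (.s 2 (.l 14) (.l 27)) (.l 40)) (.s 0 (.s 2 (.l 5) (.l 16))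
      (.s 2 (.l 6) (.l 24)))) (.s 3 (.l 51) (.s 5 (.s 2 (.l 15) (.l 28)) (.l 41)))) (.s 2 (.s 3
      (.l 54) (.s 5 (.s 2 (.s 3 (.l 30) (.l 19)) (.l 38)) (.l 45))) (.l 65)))) (.l 105)) (.s 2 (.s
      3 (.s 5 (.s 2 .z (.s 2 (.l 11) (.s 0 (.l 16) (.l 27)))) (.s 2 (.s 3 (.s 5 (.s 2 .z (.s 2 (.l
      11) (.l 21))) (.s 2 (.s 3 (.s 2 (.l 20) (.l 26)) (.l 13)) (.s 3 (.l 34) (.l 27)))) (.s 2 .z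
      (.s 0 (.l 9) (.l 16)))) (.s 2 (.s 3 (.s 0 (.l 25) (.l 41)) (.s 0 (.l 16) (.l 28))) (.s 3 (.l
      46) (.l 35))))) (.s 2 .z (.s 0 (.l 11) (.s 2 (.l 4) (.l 21))))) (.s 2 (.s 5 (.s 3 (.s 0 (.l
      26) (.l 42)) (.l 12)) (.l 57)) (.l 68)))) (.s 3 (.l 130) (.s 2 (.s 2 (.s 5 (.s 3 (.s 5 (.s 3
      (.s 2 (.l 34) (.l 41)) (.s 2 (.s 2 (.l 13) (.l 20)) (.l 29))) (.l 45)) (.s 2 (.l 12) (.l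
      22))) (.l 51)) (.l 64)) (.l 90)))))) (.s 2 (.s 2 (.s 2 (.l 8) .z) .z) (.s 2 .z (.s 2 (.s 5
      .z (.s 2 (.l 12) (.l 26))) (.s 5 (.s 2 (.l 13) (.l 32)) (.l 55)))))) = true := by
  decide +kernel

theorem vm_bRRLRL : check 26 18 118 86 8 8 [7, 6, 6, 0] [8, 8, 7, 6, 6, 16] [8, 0, 7, 6, 6, 16] 0
  0
    [(39, 42, 64), (0, 1, 1), (0, 1, 2), (-1, 1, 1), (-1, 1, 1), (1, 1, 1)] pVA pCA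
    (.s 0 (.s 2 (.s 2 (.s 3 (.s 2 (.l 24) (.s 3 (.s 2 (.l 16) (.l 12)) (.s 2 (.s 2 (.l 9) (.l 5))
      .z))) (.s 2 (.s 1 (.l 21) (.l 45)) (.s 3 (.s 1 (.l 1) (.s 0 (.l 5) (.s 2 (.s 1 (.l 9) (.s 2
      (.l 17) (.l 14))) (.s 1 (.l 2) (.s 3 (.l 6) (.s 2 (.l 12) (.l 9))))))) (.s 1 (.l 11) (.s 3
      (.l 23) (.l 32)))))) (.s 3 (.s 3 (.s 3 (.l 9) .z) .z) (.s 3 (.s 2 (.s 2 (.s 3 .z (.s 0 .z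
      (.s 3 .z (.l 6)))) .z) .z) (.s 3 (.s 2 (.s 1 .z (.s 3 (.s 2 (.l 9) (.l 4)) (.l 13))) (.l 4))
      (.l 22))))) (.s 3 (.s 2 (.l 1) (.s 2 (.l 4) (.l 8))) (.s 3 (.l 2) (.s 3 (.s 2 (.l 1) (.l 8))
      (.l 16))))) (.s 2 (.s 2 (.s 2 (.s 3 (.s 3 (.l 117) (.s 1 (.s 0 (.l 32) (.l 61)) (.l 82)))
      (.s 1 (.s 3 (.s 2 (.l 40) (.l 16)) (.l 78)) (.l 138))) (.s 3 (.s 3 (.s 3 (.l 83) (.s 2 (.l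
      59) (.s 0 (.l 15) (.s 2 (.l 40) (.l 30))))) (.s 2 (.s 1 (.s 2 (.l 17) (.l 4)) (.s 0 (.s 2
      (.l 21) (.s 2 (.l 15) (.l 12))) (.s 3 (.s 2 (.l 41) (.l 30)) (.s 2 (.l 30) (.l 17))))) (.s 2
      (.s 3 (.s 0 (.l 8) (.l 18)) (.l 8)) (.l 5)))) (.s 3 (.s 1 (.l 1) (.s 1 (.s 2 (.s 2 (.s 2 (.l
      23) (.l 17)) (.l 11)) (.l 4)) (.s 2 (.s 2 (.l 54) (.s 3 (.s 1 (.l 13) (.l 26)) (.s 3 (.l 34)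
      (.l 44)))) (.s 3 (.s 2 (.s 2 (.s 2 (.l 15) (.l 13)) (.l 11)) (.l 5)) (.s 1 (.s 2 (.l 16) (.l
      7)) (.s 3 (.s 2 (.s 2 (.l 23) (.l 17)) (.l 12)) (.s 2 (.l 34) (.l 24)))))))) (.s 3 (.s 1 (.l
      14) (.s 1 (.s 2 (.l 47) (.l 28)) (.l 79))) (.l 109))))) (.s 3 (.s 3 (.s 3 (.s 2 (.l 55) (.l
      40)) (.s 3 (.s 0 (.l 5) (.l 20)) (.l 5))) .z) (.s 3 (.s 2 (.s 2 (.s 3 .z (.s 3 (.l 2) (.s 3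
      (.l 7) (.s 2 (.l 12) (.l 3))))) .z) .z) (.s 3 (.s 1 .z (.s 1 (.l 8) (.s 3 (.s 2 (.s 2 (.s 2
      (.l 29) (.l 20)) (.l 9)) .z) (.s 2 (.l 46) (.l 17))))) (.s 1 (.l 10) (.l 82)))))) (.s 0 (.s
      2 (.s 3 (.s 3 (.s 3 (.l 15) .z) .z) (.s 3 .z (.s 3 (.l 5) (.l 23)))) (.s 2 (.s 3 (.s 3 (.l
      24) .z) (.s 3 .z (.s 2 (.l 26) (.l 30)))) (.s 3 (.l 36) (.l 42)))) (.s 2 (.s 3 (.s 3 (.s 3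
      (.l 55) .z) .z) (.s 3 .z (.s 1 .z (.s 3 (.l 15) (.l 57))))) (.s 2 (.s 3 (.s 3 (.s 3 (.l 75)
      (.l 38)) .z) (.s 3 .z (.s 3 (.l 36) (.l 73)))) (.s 3 (.s 3 (.l 97) (.l 39)) (.s 3 (.l 31)
      (.l 96)))))))) = true := by
  decide +kernel

theorem vm_bLR : check 26 18 98 62 8 8 [7, 6, 6, 0] [8, 8, 7, 6, 6, 16] [8, 0, 7, 6, 6, 16] 0 0
    [(0, 3, 8), (1, 2, 1), (0, 1, 2), (-1, 1, 1), (-1, 1, 1), (1, 1, 1)] pVA pCA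
    (.s 0 (.s 1 (.s 5 .z (.s 5 (.s 1 .z (.s 3 (.s 0 (.l 1) (.l 2)) (.s 3 .z (.s 3 .z (.s 0 (.l 3)
      (.l 7)))))) (.s 2 (.s 2 (.s 2 (.s 0 (.s 0 (.s 2 (.l 4) (.l 3)) (.s 2 (.l 7) (.l 4))) (.s 2
      (.l 14) (.l 7))) (.l 1)) .z) (.s 2 .z (.s 2 .z (.s 0 (.s 2 (.l 1) (.l 4)) (.s 2 (.l 4) (.l
      11)))))))) (.s 3 (.s 2 (.s 2 (.s 3 (.s 2 (.s 2 (.l 23) (.l 15)) (.s 2 (.l 7) .z)) (.l 2))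
      .z) (.s 2 .z (.s 0 (.l 2) (.l 6)))) (.s 3 (.s 2 (.s 2 (.s 2 (.s 2 (.s 2 (.l 15) (.l 9)) (.l
      3)) .z) .z) .z) (.s 3 (.s 5 (.s 2 (.s 2 (.s 2 (.l 9) .z) .z) .z) (.s 2 (.s 2 (.s 2 (.s 1 (.l
      15) (.l 32)) (.s 0 (.s 2 (.l 7) (.l 3)) (.s 2 (.l 14) (.l 4)))) .z) (.s 2 .z (.s 2 (.l 1)
      (.l 15))))) (.s 2 (.s 2 (.s 2 (.l 51) (.s 1 (.l 16) (.l 36))) (.s 1 (.l 3) (.s 3 (.s 0 (.l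
      5) (.l 11)) (.s 2 (.l 24) (.l 15))))) (.s 2 (.s 3 (.l 2) (.s 2 (.l 11) (.l 16))) (.s 0 (.l
      14) (.l 34)))))))) (.s 1 (.s 5 .z (.s 5 (.s 3 (.l 3) (.s 3 .z (.s 3 .z (.s 2 (.l 26) (.l
      21))))) (.s 3 (.s 3 (.s 3 (.s 0 (.s 2 (.l 23) (.l 22)) (.s 2 (.l 41) (.l 49))) .z) .z) (.s 3
      .z (.s 3 .z (.s 0 (.s 2 (.l 29) (.l 26)) (.s 2 (.l 53) (.l 57)))))))) (.s 3 (.s 2 (.s 3 (.s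
      2 (.s 2 (.l 80) (.l 26)) .z) (.l 2)) (.s 3 (.s 3 (.s 2 .z (.l 48)) .z) .z)) (.s 3 (.s 2 (.s
      2 (.s 2 (.s 2 (.l 45) (.l 3)) .z) .z) .z) (.s 3 (.s 5 (.s 0 (.s 2 (.l 18) .z) (.s 2 (.l 34)
      .z)) (.s 1 (.s 3 (.s 2 (.s 2 (.l 16) .z) .z) (.s 5 (.s 2 (.l 18) .z) (.s 2 (.s 2 (.s 2 (.l
      51) .z) .z) (.s 2 .z (.l 37))))) (.s 0 (.s 2 (.s 2 (.s 2 (.l 60) (.l 26)) .z) (.s 2 .z (.s 2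
      (.l 5) (.l 37)))) (.s 2 (.s 2 (.s 2 (.l 101) (.l 47)) .z) (.s 2 .z (.s 2 (.l 16) (.l
      75))))))) (.s 2 (.s 2 (.s 0 (.s 2 (.l 92) (.l 69)) (.l 141)) (.s 3 (.s 2 (.l 39) .z) (.s 2
      (.l 87) (.l 62)))) (.s 2 (.s 3 (.l 18) (.s 2 (.l 55) (.l 74))) (.s 0 (.l 73) (.l
      125))))))))) = true := by
  decide +kernel

theorem vm_bRRRRR : check 26 18 123 78 8 8 [7, 6, 6, 0] [8, 8, 7, 6, 6, 16] [8, 0, 7, 6, 6, 16] 0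
  0
    [(21, 24, 32), (3, 4, 2), (0, 1, 2), (-1, 1, 1), (-1, 1, 1), (1, 1, 1)] pVA pCA
    (.s 0 (.s 3 (.s 3 (.s 3 (.s 2 (.l 70) (.l 94)) (.s 2 (.s 2 (.s 2 (.l 45) (.l 22)) (.s 2 (.l 8)
      (.l 2))) (.s 2 (.s 2 (.l 6) (.s 3 (.s 2 (.l 19) (.l 30)) (.s 2 .z (.s 2 (.l 9) (.l 18)))))
      (.s 2 (.s 2 (.s 0 (.l 29) (.l 41)) (.l 51)) (.l 74))))) (.s 2 (.s 2 (.s 2 (.l 28) (.l 6))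
      .z) (.s 2 .z (.s 2 (.s 2 (.s 3 (.s 3 (.s 2 (.l 11) (.l 21)) (.l 3)) .z) (.s 3 (.s 3 (.l 34)
      (.s 2 (.l 17) (.l 25))) (.l 15))) (.l 57))))) (.s 3 (.s 2 (.s 2 (.s 2 (.l 42) (.s 2 (.s 2
      (.l 18) (.l 13)) (.s 2 (.l 9) (.l 4)))) (.s 2 (.l 1) .z)) (.s 2 .z (.s 2 (.s 2 (.l 6) (.l
      15)) (.l 38)))) (.s 3 (.s 2 (.s 2 (.s 2 (.l 61) (.l 36)) (.s 2 (.s 2 (.l 17) (.l 10)) (.l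
      5))) (.s 2 (.s 3 (.l 6) (.l 16)) (.s 2 (.l 34) (.l 57)))) (.s 2 (.l 85) (.l 82))))) (.s 2
      (.s 2 (.s 2 (.s 3 (.l 106) (.l 133)) (.s 3 (.s 3 (.l 75) (.l 5)) (.s 3 (.s 2 (.l 32) (.l
      14)) (.s 2 (.l 103) (.l 89))))) (.s 3 (.s 3 (.s 3 (.l 54) (.l 8)) .z) (.s 3 .z (.s 3 (.s 3
      (.l 13) (.l 33)) (.l 77))))) (.s 2 (.s 3 (.s 3 (.s 3 (.l 92) (.s 2 (.l 11) (.s 3 (.s 2 (.l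
      35) (.l 57)) (.s 2 .z (.s 2 (.l 19) (.l 37)))))) .z) (.s 3 .z (.s 3 (.s 3 (.l 17) (.l 36))
      (.l 79)))) (.s 2 (.s 3 (.s 3 (.s 3 (.l 120) (.s 2 (.s 3 (.l 76) (.l 61)) (.l 93))) (.s 2 (.s
      3 (.s 3 (.s 2 (.l 28) (.l 45)) (.l 18)) .z) (.s 3 (.s 5 (.s 2 (.l 34) (.l 49)) (.s 2 (.l 57)
      (.l 68))) (.s 2 (.l 14) (.l 39))))) (.s 3 (.s 2 (.s 2 (.l 9) (.l 18)) (.s 2 (.l 28) (.l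
      37))) (.s 3 (.l 70) (.l 107)))) (.s 3 (.l 147) (.l 137)))))) = true := by
  decide +kernel

theorem vm_g : check 26 18 140 91 8 8 [7, 6, 6, 0] [8, 8, 7, 6, 6, 16] [8, 0, 7, 6, 6, 16] 0 0
    [(3, 4, 4), (3, 5, 4), (-2, 1, 8), (-3, -1, 4), (-3, 3, 4), (1, 1, 1)] pVA pCA
    (.s 3 (.s 3 (.s 2 (.s 3 (.l 108) (.s 2 (.l 77) (.s 3 (.l 57) (.s 5 (.s 5 (.l 19) (.l 28)) (.l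
      41))))) (.s 3 (.s 3 (.l 79) (.s 5 (.s 5 (.s 2 (.l 31) (.s 2 (.l 19) (.l 17))) (.l 44)) (.l
      59))) (.s 5 (.s 3 (.s 5 (.s 2 (.s 2 (.l 17) (.l 12)) (.s 2 (.l 10) (.l 9))) (.s 2 (.l 27)
      (.s 3 (.l 18) (.s 5 (.l 10) (.l 14))))) (.s 5 (.s 2 (.l 8) (.l 2)) (.s 2 (.s 2 (.l 17) (.s 3
      (.l 13) (.l 10))) (.s 0 (.s 5 (.s 2 (.l 7) (.l 6)) (.s 3 (.s 2 (.l 10) (.l 9)) (.s 2 (.l 8)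
      (.l 6)))) (.l 8))))) (.s 3 (.l 40) (.s 2 (.l 26) (.s 3 (.l 18) (.s 5 (.s 2 (.l 12) (.s 2 (.l
      10) (.l 9))) (.l 14)))))))) (.s 2 (.s 5 (.s 2 (.s 2 (.l 34) (.l 25)) (.s 3 (.s 5 (.s 2 (.l
      11) (.l 7)) (.s 2 (.l 19) (.l 14))) (.l 9))) (.l 49)) (.s 5 (.s 3 (.s 5 (.l 1) (.s 2 (.s 3
      (.s 5 (.l 7) (.s 2 (.l 10) (.l 8))) (.l 6)) (.s 3 (.s 2 (.l 5) (.l 2)) .z))) (.l 1)) (.s 2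
      (.s 5 (.s 2 (.l 15) (.s 5 (.s 3 (.s 3 (.l 10) (.l 5)) .z) (.l 11))) (.l 17)) (.s 5 (.s 3 (.s
      0 (.s 3 (.s 5 (.s 2 (.s 2 (.l 8) (.l 7)) (.s 2 (.l 6) (.l 5))) (.s 2 (.l 9) (.l 7))) (.s 2
      (.l 5) (.l 4))) (.l 7)) (.l 1)) (.s 3 (.s 2 (.l 11) (.l 9)) (.l 4))))))) (.s 2 (.s 5 (.s 2
      (.l 10) (.l 3)) (.l 22)) (.s 2 (.l 4) (.l 1)))) = true := by
  decide +kernel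

theorem vm_bRRLRRR : check 26 18 131 86 8 8 [7, 6, 6, 0] [8, 8, 7, 6, 6, 16] [8, 0, 7, 6, 6, 16] 0
  0
    [(39, 42, 64), (3, 4, 2), (0, 1, 2), (-1, 1, 1), (-1, 1, 1), (1, 1, 1)] pVA pCA
    (.s 0 (.s 3 (.s 3 (.s 3 (.s 2 (.s 2 (.l 60) (.l 24)) (.s 2 (.l 34) (.l 72))) (.s 2 (.s 2 (.s 2
      (.l 38) (.l 17)) (.l 3)) (.s 2 (.l 4) (.s 2 (.s 2 (.l 20) (.l 31)) (.l 53))))) (.s 2 (.s 2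
      (.s 2 (.l 23) (.l 3)) .z) (.s 2 .z (.s 2 (.s 2 .z (.l 8)) (.l 37))))) (.s 3 (.s 2 (.s 2 (.s
      2 (.l 37) (.s 2 (.l 14) (.l 4))) .z) (.s 2 .z (.s 2 (.s 2 .z (.l 9)) (.l 29)))) (.s 3 (.s 2
      (.s 2 (.s 2 (.l 56) (.s 2 (.l 34) (.l 25))) (.s 3 (.l 6) (.s 2 (.l 17) (.l 4)))) (.s 2 (.s 3
      (.l 1) (.l 13)) (.s 2 (.l 29) (.l 49)))) (.s 2 (.s 2 (.l 81) (.l 42)) (.s 2 (.l 39) (.l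
      74)))))) (.s 3 (.s 3 (.s 3 (.s 2 (.s 2 (.l 95) (.l 41)) (.s 2 (.l 64) (.l 122))) (.s 2 (.s 2
      (.s 2 (.l 61) (.l 23)) (.l 1)) (.s 2 (.l 11) (.s 2 (.s 2 (.l 40) (.l 62)) (.l 97))))) (.s 2
      (.s 2 (.s 2 (.l 34) .z) .z) (.s 2 .z (.s 2 (.s 2 .z (.l 22)) (.l 74))))) (.s 3 (.s 2 (.s 2
      (.s 2 (.l 65) (.s 2 (.l 25) (.l 4))) .z) (.s 2 .z (.s 2 (.s 2 (.l 3) (.l 24)) (.l 64)))) (.s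
      3 (.s 2 (.s 2 (.s 2 (.l 96) (.l 62)) (.s 3 (.l 7) (.l 32))) (.s 2 (.s 3 (.l 7) (.l 31)) (.s
      2 (.l 61) (.l 95)))) (.s 2 (.s 2 (.l 128) (.l 77)) (.s 2 (.l 76) (.l 127))))))) = true := by
  decide +kernel

theorem vm_hLL : check 26 18 160 112 8 8 [7, 6, 6, 0] [8, 8, 7, 6, 6, 16] [8, 0, 7, 6, 6, 16] 0 0
    [(12, 13, 16), (3, 5, 4), (-2, 1, 8), (2, 3, 8), (-3, 3, 4), (1, 1, 1)] pVA pCA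
    (.s 3 (.s 3 (.s 3 (.s 3 (.l 131) (.s 3 (.l 112) (.s 5 (.s 2 (.s 2 (.l 40) (.l 48)) (.l 75))
      (.l 101)))) (.s 3 (.s 5 (.s 3 (.s 2 (.l 26) (.s 2 (.l 35) (.l 45))) (.l 20)) (.s 3 (.s 2 (.s
      0 (.s 3 (.l 45) (.l 38)) (.l 57)) (.s 0 (.l 53) (.l 86))) (.s 2 (.s 3 (.s 2 (.l 26) (.l 34))
      (.l 22)) (.s 0 (.s 0 (.l 29) (.l 42)) (.s 2 (.l 41) (.l 60)))))) (.s 0 (.s 2 (.l 3) (.s 3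
      (.s 0 (.l 18) (.l 26)) .z)) (.l 26)))) .z) .z) = true := by
  decide +kernel

theorem vm_bRRRLR : check 26 18 116 84 8 8 [7, 6, 6, 0] [8, 8, 7, 6, 6, 16] [8, 0, 7, 6, 6, 16] 0
  0
    [(21, 24, 32), (0, 1, 1), (0, 1, 2), (1, 2, 2), (-1, 1, 1), (1, 1, 1)] pVA pCA
    (.s 0 (.s 3 (.s 3 (.l 12) (.l 1)) (.s 3 (.l 4) (.l 18))) (.s 2 (.s 3 (.s 3 (.s 3 (.l 100) (.s
      0 (.l 16) (.s 2 (.l 53) (.l 65)))) (.s 2 (.l 5) (.s 0 .z (.l 29)))) (.s 3 (.s 2 .z (.l 11))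
      (.s 3 (.l 42) (.l 78)))) (.s 3 (.l 121) (.l 103)))) = true := by
  decide +kernel

theorem xm_c : check 32 24 57 42 6 3 [3, 3, 6, 0] [6, 3, 3, 3, 6, 9] [6, 0, 3, 3, 6, 9] 0 0
    [(-8, 8, 8), (-1, 1, 1), (3, 5, 8), (0, 3, 8), (-1, 1, 1), (1, 1, 1)] pXA pDA
    (.s 3 (.s 5 (.s 3 (.s 5 (.l 65) (.s 0 (.s 0 (.s 0 (.s 3 (.s 5 .z (.s 5 .z (.l 21))) (.s 5 (.s
      3 .z (.s 5 .z (.s 2 (.s 1 .z (.l 5)) (.l 14)))) (.s 0 (.s 0 (.s 0 (.s 2 (.s 3 (.s 0 (.s 5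
      (.s 1 .z (.s 3 (.l 5) (.s 5 .z (.l 10)))) (.s 1 (.l 10) (.l 18))) (.l 5)) (.s 5 (.s 1 .z (.s
      5 (.s 3 (.l 3) (.l 6)) (.l 6))) (.l 6))) (.s 5 (.s 1 (.l 14) (.l 13)) (.l 14))) (.s 1 (.l
      15) (.l 14))) (.l 17)) (.l 14)))) (.l 22)) (.l 2)) (.s 3 (.l 28) (.l 10)))) (.s 5 (.s 0 (.s
      5 (.l 15) (.s 0 (.s 3 (.s 2 (.s 3 .z (.l 12)) (.l 24)) (.s 2 (.l 20) (.l 33))) (.l 35))) (.l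
      24)) (.s 0 (.s 0 (.s 3 (.s 5 (.s 0 (.s 2 (.s 0 (.s 3 (.s 0 (.s 5 (.s 1 .z (.s 1 (.l 7) (.l
      11))) (.s 1 .z (.s 0 (.s 0 (.s 3 (.s 2 (.l 4) (.l 12)) (.s 2 (.l 1) (.l 16))) (.l 11)) (.l
      7)))) (.l 14)) (.s 5 (.s 1 .z (.s 2 (.l 14) (.s 1 (.l 17) (.l 18)))) (.s 1 .z (.l 14)))) (.s
      1 .z (.l 18))) (.s 3 (.s 5 (.s 1 (.s 0 (.l 19) (.l 20)) (.l 20)) (.s 0 (.s 1 (.s 3 (.s 1 (.l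
      17) (.l 18)) (.s 2 (.s 1 .z (.l 17)) (.s 5 (.s 0 (.l 25) (.l 28)) (.l 29)))) (.s 2 (.s 3 (.l
      15) (.l 19)) (.l 28))) (.s 1 (.l 32) (.l 32)))) (.s 0 (.s 5 (.s 1 (.s 2 (.s 3 (.l 18) (.l
      19)) (.s 5 (.l 25) (.s 0 (.s 3 (.l 26) (.l 27)) (.s 0 (.l 31) (.l 33))))) (.s 3 (.l 29) (.l
      32))) (.s 1 (.s 2 (.l 18) (.s 3 (.s 5 (.s 0 (.l 28) (.l 34)) (.l 33)) (.l 36))) (.s 0 (.l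
      29) (.l 36)))) (.s 1 (.s 5 (.s 1 (.l 33) (.l 38)) (.s 2 (.l 14) (.s 1 (.s 3 (.l 37) (.l 36))
      (.l 44)))) (.s 2 (.l 33) (.l 46)))))) (.s 2 (.l 8) (.s 1 (.s 5 (.l 39) (.s 3 (.l 31) (.l
      47))) (.l 51)))) (.s 5 (.s 2 (.s 1 .z (.l 14)) (.s 0 (.s 3 (.s 1 (.l 29) (.l 31)) (.s 0 (.l
      36) (.l 48))) (.s 1 (.l 42) (.l 49)))) (.l 37))) (.s 2 (.l 24) (.s 3 (.s 5 (.s 0 (.s 1 (.s 5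
      (.l 37) (.l 41)) (.l 46)) (.s 1 (.l 49) (.l 52))) (.s 1 .z (.l 54))) (.l 52)))) (.s 2 (.l
      12) (.s 0 (.s 3 (.s 5 (.l 51) (.l 49)) (.s 5 (.l 56) (.s 1 .z (.l 53)))) (.l 59)))) (.l
      41)))) (.s 3 (.s 5 (.s 0 (.s 3 (.l 28) (.l 10)) (.s 0 (.l 2) (.s 0 (.l 22) (.s 3 (.s 5 (.s 5
      (.l 21) .z) .z) (.s 5 (.s 0 (.l 14) (.s 0 (.l 17) (.s 0 (.s 1 (.l 15) (.l 14)) (.s 2 (.s 3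
      (.s 0 (.l 5) (.s 5 (.s 1 (.l 10) (.l 18)) (.s 1 .z (.s 3 (.l 5) (.s 5 (.l 10) .z))))) (.s 5
      (.l 6) (.s 1 .z (.s 5 (.l 6) (.s 3 (.l 3) (.l 6)))))) (.s 5 (.l 14) (.s 1 (.l 14) (.l
      13))))))) (.s 3 .z (.s 5 (.s 2 (.s 1 .z (.l 5)) (.l 14)) .z))))))) (.l 65)) (.s 5 (.s 0 (.l
      41) (.s 0 (.s 2 (.l 12) (.s 0 (.l 59) (.s 3 (.s 5 (.l 49) (.l 51)) (.s 5 (.s 1 .z (.l 53))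
      (.l 56))))) (.s 3 (.s 5 (.s 5 (.l 37) (.s 2 (.s 1 .z (.l 14)) (.s 0 (.s 1 (.l 42) (.l 49))
      (.s 3 (.s 1 (.l 29) (.l 31)) (.s 0 (.l 48) (.l 36)))))) (.s 0 (.s 2 (.l 8) (.s 1 (.s 5 (.s 3
      (.l 31) (.l 47)) (.l 39)) (.l 51))) (.s 2 (.s 0 (.s 1 .z (.l 18)) (.s 3 (.s 0 (.l 14) (.s 5
      (.s 1 .z (.s 0 (.l 7) (.s 0 (.l 11) (.s 3 (.s 2 (.l 4) (.l 12)) (.s 2 (.l 1) (.l 16))))))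
      (.s 1 .z (.s 1 (.l 7) (.l 11))))) (.s 5 (.s 1 .z (.l 14)) (.s 1 .z (.s 2 (.l 14) (.s 1 (.l
      17) (.l 18))))))) (.s 3 (.s 5 (.s 0 (.s 1 (.l 32) (.l 32)) (.s 1 (.s 3 (.s 1 (.l 17) (.l
      18)) (.s 2 (.s 1 .z (.l 17)) (.s 5 (.l 29) (.s 0 (.l 28) (.l 25))))) (.s 2 (.s 3 (.l 15) (.l
      19)) (.l 28)))) (.s 1 (.s 0 (.l 20) (.l 19)) (.l 20))) (.s 0 (.s 1 (.s 5 (.s 2 (.l 14) (.s 1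
      (.s 3 (.l 37) (.l 36)) (.l 44))) (.s 1 (.l 33) (.l 38))) (.s 2 (.l 33) (.l 46))) (.s 5 (.s 1
      (.s 2 (.l 18) (.s 3 (.s 5 (.l 33) (.s 0 (.l 34) (.l 28))) (.l 36))) (.s 0 (.l 36) (.l 29)))
      (.s 1 (.s 2 (.s 3 (.l 18) (.l 19)) (.s 5 (.s 0 (.s 0 (.l 33) (.l 31)) (.s 3 (.l 26) (.l
      27))) (.l 25))) (.s 3 (.l 29) (.l 32))))))))) (.s 2 (.l 24) (.s 3 (.s 5 (.s 1 .z (.l 54))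
      (.s 0 (.s 1 (.l 49) (.l 52)) (.s 1 (.s 5 (.l 41) (.l 37)) (.l 46)))) (.l 52)))))) (.s 0 (.l
      24) (.s 5 (.s 0 (.l 35) (.s 3 (.s 2 (.s 3 .z (.l 12)) (.l 24)) (.s 2 (.l 20) (.l 33)))) (.l
      15)))))) (.s 5 (.s 3 (.s 5 (.s 0 (.l 24) (.s 5 (.l 15) (.s 0 (.l 35) (.s 3 (.s 2 (.l 20) (.l
      33)) (.s 2 (.s 3 (.l 12) .z) (.l 24)))))) (.s 0 (.l 41) (.s 0 (.s 2 (.l 12) (.s 0 (.l 59)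
      (.s 3 (.s 5 (.l 56) (.s 1 .z (.l 53))) (.s 5 (.l 51) (.l 49))))) (.s 3 (.s 2 (.l 24) (.s 3
      (.l 52) (.s 5 (.s 0 (.s 1 (.l 49) (.l 52)) (.s 1 (.s 5 (.l 37) (.l 41)) (.l 46))) (.s 1 .z
      (.l 54))))) (.s 5 (.s 0 (.s 2 (.l 8) (.s 1 (.s 5 (.l 39) (.s 3 (.l 47) (.l 31))) (.l 51)))
      (.s 2 (.s 0 (.s 1 .z (.l 18)) (.s 3 (.s 5 (.s 1 .z (.s 2 (.l 14) (.s 1 (.l 17) (.l 18))))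
      (.s 1 .z (.l 14))) (.s 0 (.l 14) (.s 5 (.s 1 .z (.s 1 (.l 7) (.l 11))) (.s 1 .z (.s 0 (.l 7)
      (.s 0 (.l 11) (.s 3 (.s 2 (.l 1) (.l 16)) (.s 2 (.l 4) (.l 12)))))))))) (.s 3 (.s 0 (.s 1
      (.s 5 (.s 1 (.l 33) (.l 38)) (.s 2 (.l 14) (.s 1 (.s 3 (.l 36) (.l 37)) (.l 44)))) (.s 2 (.l
      33) (.l 46))) (.s 5 (.s 1 (.s 2 (.s 3 (.l 19) (.l 18)) (.s 5 (.l 25) (.s 0 (.s 0 (.l 33) (.l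
      31)) (.s 3 (.l 27) (.l 26))))) (.s 3 (.l 32) (.l 29))) (.s 1 (.s 2 (.l 18) (.s 3 (.l 36) (.s
      5 (.s 0 (.l 34) (.l 28)) (.l 33)))) (.s 0 (.l 36) (.l 29))))) (.s 5 (.s 1 (.s 0 (.l 20) (.l
      19)) (.l 20)) (.s 0 (.s 1 (.l 32) (.l 32)) (.s 1 (.s 3 (.s 2 (.s 1 .z (.l 17)) (.s 5 (.s 0
      (.l 28) (.l 25)) (.l 29))) (.s 1 (.l 17) (.l 18))) (.s 2 (.s 3 (.l 19) (.l 15)) (.l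
      28)))))))) (.s 5 (.s 2 (.s 1 .z (.l 14)) (.s 0 (.s 1 (.l 42) (.l 49)) (.s 3 (.s 0 (.l 48)
      (.l 36)) (.s 1 (.l 29) (.l 31))))) (.l 37))))))) (.s 5 (.l 65) (.s 0 (.s 3 (.l 10) (.l 28))
      (.s 0 (.l 2) (.s 0 (.l 22) (.s 3 (.s 5 (.s 3 (.s 5 .z (.s 2 (.s 1 .z (.l 5)) (.l 14))) .z)
      (.s 0 (.l 14) (.s 0 (.l 17) (.s 0 (.s 1 (.l 15) (.l 14)) (.s 2 (.s 3 (.s 5 (.s 1 .z (.s 5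
      (.s 3 (.l 6) (.l 3)) (.l 6))) (.l 6)) (.s 0 (.l 5) (.s 5 (.s 1 .z (.s 3 (.s 5 .z (.l 10))
      (.l 5))) (.s 1 (.l 10) (.l 18))))) (.s 5 (.s 1 (.l 14) (.l 13)) (.l 14))))))) (.s 5 .z (.s 5
      .z (.l 21))))))))) (.s 3 (.s 5 (.s 0 (.s 0 (.s 3 (.s 2 (.l 24) (.s 3 (.l 52) (.s 5 (.s 1 .z
      (.l 54)) (.s 0 (.s 1 (.s 5 (.l 41) (.l 37)) (.l 46)) (.s 1 (.l 49) (.l 52)))))) (.s 5 (.s 5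
      (.l 37) (.s 2 (.s 1 .z (.l 14)) (.s 0 (.s 3 (.s 0 (.l 36) (.l 48)) (.s 1 (.l 29) (.l 31)))
      (.s 1 (.l 42) (.l 49))))) (.s 0 (.s 2 (.s 0 (.s 3 (.s 5 (.s 1 .z (.l 14)) (.s 1 .z (.s 2 (.l
      14) (.s 1 (.l 17) (.l 18))))) (.s 0 (.s 5 (.s 1 .z (.s 0 (.s 0 (.s 3 (.s 2 (.l 1) (.l 16))
      (.s 2 (.l 4) (.l 12))) (.l 11)) (.l 7))) (.s 1 .z (.s 1 (.l 7) (.l 11)))) (.l 14))) (.s 1 .z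
      (.l 18))) (.s 3 (.s 0 (.s 5 (.s 1 (.s 2 (.l 18) (.s 3 (.l 36) (.s 5 (.l 33) (.s 0 (.l 28)
      (.l 34))))) (.s 0 (.l 29) (.l 36))) (.s 1 (.s 2 (.s 3 (.l 19) (.l 18)) (.s 5 (.s 0 (.s 3 (.l
      27) (.l 26)) (.s 0 (.l 31) (.l 33))) (.l 25))) (.s 3 (.l 32) (.l 29)))) (.s 1 (.s 5 (.s 2
      (.l 14) (.s 1 (.s 3 (.l 36) (.l 37)) (.l 44))) (.s 1 (.l 33) (.l 38))) (.s 2 (.l 33) (.l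
      46)))) (.s 5 (.s 0 (.s 1 (.s 3 (.s 2 (.s 1 .z (.l 17)) (.s 5 (.l 29) (.s 0 (.l 25) (.l
      28)))) (.s 1 (.l 17) (.l 18))) (.s 2 (.s 3 (.l 19) (.l 15)) (.l 28))) (.s 1 (.l 32) (.l
      32))) (.s 1 (.s 0 (.l 19) (.l 20)) (.l 20))))) (.s 2 (.l 8) (.s 1 (.s 5 (.s 3 (.l 47) (.l
      31)) (.l 39)) (.l 51)))))) (.s 2 (.l 12) (.s 0 (.s 3 (.s 5 (.s 1 .z (.l 53)) (.l 56)) (.s 5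
      (.l 49) (.l 51))) (.l 59)))) (.l 41)) (.s 0 (.s 5 (.s 0 (.s 3 (.s 2 (.l 20) (.l 33)) (.s 2
      (.s 3 (.l 12) .z) (.l 24))) (.l 35)) (.l 15)) (.l 24))) (.s 5 (.s 0 (.s 0 (.s 0 (.s 3 (.s 5
      (.s 0 (.s 0 (.s 0 (.s 2 (.s 3 (.s 5 (.l 6) (.s 1 .z (.s 5 (.l 6) (.s 3 (.l 6) (.l 3))))) (.s
      0 (.s 5 (.s 1 (.l 10) (.l 18)) (.s 1 .z (.s 3 (.s 5 (.l 10) .z) (.l 5)))) (.l 5))) (.s 5 (.l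
      14) (.s 1 (.l 14) (.l 13)))) (.s 1 (.l 15) (.l 14))) (.l 17)) (.l 14)) (.s 3 (.s 5 (.s 2 (.s
      1 .z (.l 5)) (.l 14)) .z) .z)) (.s 5 (.s 5 (.l 21) .z) .z)) (.l 22)) (.l 2)) (.s 3 (.l 10)
      (.l 28))) (.l 65))))) = true := by
  decide +kernel

theorem xb_c1 : check 32 24 86 0 6 0 [3, 3, 6, 7] [6, 3, 3, 3, 6, 7] [6, 0, 3, 3, 6, 7] 2 0
    [(-1, 1, 8), (1, 1, 8), (-1, 1, 8), (-1, 1, 8), (-1, 1, 8), (0, 1, 1)] pQA Po.o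
    (.s 1 (.s 2 (.s 1 .z (.s 2 .z (.s 3 (.s 5 .z .z) (.s 5 .z .z)))) (.s 1 (.s 2 .z .z) (.s 2 (.s
      5 (.s 3 (.s 1 .z (.s 1 .z .z)) (.s 1 .z (.s 2 .z .z))) (.s 3 (.s 1 .z (.s 2 .z .z)) (.s 1 .z
      (.s 1 .z .z)))) .z))) (.s 2 (.s 2 (.s 1 .z .z) (.s 1 (.s 3 (.s 5 (.s 2 .z (.s 1 .z .z)) (.s
      2 .z (.s 1 .z .z))) (.s 5 (.s 2 .z (.s 1 .z .z)) (.s 2 .z (.s 1 .z .z)))) .z)) (.s 1 (.s 2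
      (.s 3 (.s 5 .z .z) (.s 5 .z .z)) .z) .z))) = true := by
  decide +kernel

theorem xm_h : check 32 24 71 59 6 3 [3, 3, 6, 0] [6, 3, 3, 3, 6, 9] [6, 0, 3, 3, 6, 9] 0 0
    [(-1, 1, 8), (-1, 1, 1), (3, 5, 8), (3, 5, 8), (1, 8, 8), (1, 1, 1)] pXA pDA
    (.s 3 (.s 0 (.s 3 (.s 0 (.s 1 (.s 2 (.l 180) (.l 183)) (.s 2 (.l 183) (.l 183))) (.s 1 (.s 2
      (.l 187) (.l 190)) (.s 2 (.l 189) (.l 188)))) (.l 185)) (.s 3 (.s 0 (.s 1 (.s 2 (.l 187) (.l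
      190)) (.s 2 (.l 189) (.l 188))) (.s 1 (.s 2 (.l 180) (.l 183)) (.s 2 (.l 183) (.l 183))))
      (.l 185))) (.l 150)) = true := by
  decide +kernel

theorem xb_t1 : check 32 24 79 0 6 3 [3, 3, 0, 7] [6, 3, 3, 3, 6, 7] [6, 0, 3, 3, 6, 7] 2 0
    [(-1, 1, 8), (-1, 1, 8), (-1, 1, 8), (-1, 1, 8), (1, 1, 8), (0, 1, 1)] pQB Po.o
    (.s 1 (.s 2 .z (.s 1 .z .z)) (.s 2 (.s 1 .z .z) .z)) = true := by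
  decide +kernel

theorem xb_y1 : check 32 24 86 0 6 3 [3, 0, 6, 7] [6, 3, 3, 3, 6, 7] [6, 0, 3, 3, 6, 7] 2 0
    [(-1, 1, 8), (-1, 1, 8), (-1, 1, 8), (1, 1, 8), (-1, 1, 8), (0, 1, 1)] pQA Po.o
    .z = true := by
  decide +kernel

end Pool.Agent.MP_90395b_gt.Bn
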