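import Pool.Agent.MP_90395b_gt.BnData

namespace Pool.Agent.MP_90395b_gt.Bn

set_option maxRecDepth 4000
set_option deprecated.oldSectionVars true

theorem vb_u1 : check 36 22 236 183 8 8 [7, 0, 6, 14] [8, 8, 7, 6, 6, 14] [8, 0, 7, 6, 6, 14] 2 1
    [(-2, 0, 7), (-2, 2, 7), (-2, 1, 7), (2, 2, 7), (-2, 2, 7), (-1, 15, 15)] (shAt 1 (shAt 0
      pVA)) (shAt 1 (shAt 0 pCA))
    (.s 5 .z (.s 4 .z (.s 3 (.s 4 (.l 1263) (.s 5 (.s 5 .z (.s 0 (.s 5 (.l 1206) (.s 3 (.s 3 (.l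
      2313) .z) .z)) (.l 2264))) (.s 5 (.s 3 (.s 3 (.s 5 (.s 1 (.l 4314) (.l 3801)) (.l 6488)) (.l
      2460)) (.l 217)) (.s 3 (.l 7488) (.l 1645))))) .z))) = true := by
  decide +kernel

theorem vb_k0 : check 36 22 233 180 8 8 [0, 6, 6, 14] [8, 8, 7, 6, 6, 14] [8, 0, 7, 6, 6, 14] 2 1
    [(-2, 0, 7), (-2, 2, 7), (-2, -2, 7), (-2, 2, 7), (-2, 2, 7), (-1, 15, 15)] (shAt 1 (shAt 0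
      pVA)) (shAt 1 (shAt 0 pCA))
    (.s 5 .z (.s 4 .z (.s 3 (.s 4 (.s 0 (.s 2 (.l 230) (.l 1004)) (.l 964)) (.s 5 (.s 0 (.s 3 (.s
      3 (.s 0 (.s 0 (.l 1133) (.l 1765)) (.l 2257)) .z) .z) (.l 2130)) (.s 2 (.l 1474) (.s 3 (.s 0
      (.s 2 (.l 1671) (.s 3 (.l 4357) (.l 2754))) (.l 6182)) (.l 1396))))) .z))) = true := by
  decide +kernel

theorem vm_cRL : check 26 18 134 92 8 8 [7, 6, 6, 0] [8, 8, 7, 6, 6, 16] [8, 0, 7, 6, 6, 16] 0 0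
    [(3, 4, 4), (2, 3, 2), (1, 4, 8), (-3, 3, 4), (-3, 3, 4), (1, 1, 1)] pVA pCA
    (.s 3 (.s 2 (.s 3 (.s 3 (.s 2 (.l 102) (.s 3 (.l 67) (.s 5 (.s 3 (.l 21) (.l 14)) (.l 42))))
      (.s 2 (.s 2 (.l 63) (.s 5 (.s 2 (.s 2 (.l 26) (.l 20)) (.s 3 (.l 16) (.l 9))) (.l 30))) (.s
      5 (.s 3 (.s 2 (.l 9) (.l 3)) (.l 4)) (.s 3 (.l 19) (.s 2 (.l 8) (.l 4)))))) (.s 2 (.s 2 (.s
      2 (.l 36) (.s 2 (.l 23) (.l 18))) (.s 0 (.s 5 (.s 3 (.s 2 (.l 10) (.l 6)) (.s 2 (.l 7) (.l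
      3))) (.s 2 (.l 14) (.l 8))) (.l 11))) (.s 0 (.s 2 (.s 5 (.l 2) (.s 2 (.s 2 (.l 5) (.l 4))
      (.s 2 (.l 3) (.l 2)))) (.s 3 (.l 1) (.s 5 .z (.s 1 .z (.l 1))))) .z))) (.s 2 (.s 3 (.s 3 (.s
      5 (.s 3 (.l 90) (.s 5 (.s 2 (.l 12) (.s 0 (.l 17) (.s 2 (.l 35) (.l 53)))) (.l 73))) (.l
      113)) (.s 5 (.s 1 (.s 2 (.s 3 (.s 0 (.l 6) (.s 2 (.l 1) (.l 19))) .z) (.s 0 (.s 3 (.s 5 (.l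
      1) (.s 2 (.l 11) (.l 17))) (.l 5)) (.s 5 (.s 3 (.s 2 .z (.l 25)) .z) (.s 3 (.s 2 (.s 2 (.l
      30) (.l 39)) (.l 56)) (.s 2 (.l 8) (.s 0 (.l 18) (.l 36))))))) (.s 3 (.l 9) .z)) (.s 3 (.l
      78) (.s 5 (.s 1 (.s 2 (.s 0 (.l 4) (.s 2 .z (.l 18))) (.s 2 (.s 0 (.l 9) (.s 2 (.l 27) (.l
      36))) (.l 52))) (.l 2)) (.l 61))))) (.s 5 .z (.s 2 (.s 5 .z (.s 1 (.s 3 (.s 3 (.l 10) .z)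
      .z) (.l 2))) (.s 1 (.s 0 (.s 3 (.s 5 (.s 2 .z (.l 5)) (.l 10)) .z) (.s 3 (.s 5 (.s 1 (.s 2
      (.s 0 (.l 5) (.s 2 (.l 2) (.l 15))) (.s 3 (.s 0 (.l 17) (.l 35)) (.l 14))) (.l 9)) (.s 2 (.s
      2 (.l 18) (.l 27)) (.l 44))) (.s 2 .z (.s 2 (.l 5) (.l 14))))) (.l 1))))) (.s 5 (.s 3 (.s 3
      (.l 137) (.s 2 (.s 1 (.s 0 (.s 2 (.s 5 (.l 12) (.l 23)) (.l 31)) (.s 5 (.s 2 (.s 3 (.l 49)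
      (.l 20)) (.s 2 (.l 58) (.l 67))) (.s 3 (.l 85) (.s 0 (.l 42) (.s 2 (.l 55) (.l 71)))))) (.s
      2 (.l 22) (.l 37))) (.l 113))) (.s 2 (.s 1 (.s 0 (.s 2 (.l 2) (.s 2 (.l 8) (.l 13))) (.s 3
      (.s 5 (.s 2 .z (.l 23)) (.s 2 (.s 0 (.l 15) (.s 2 (.l 21) (.l 35))) (.s 3 (.l 56) (.l 38))))
      (.s 2 .z (.l 15)))) .z) (.s 5 (.s 2 (.s 0 (.l 10) (.s 2 (.l 40) (.l 52))) (.l 72)) (.l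
      90)))) (.s 3 (.l 161) (.s 2 (.s 2 (.s 5 (.s 0 (.l 12) (.s 3 (.s 3 (.l 53) (.l 37)) (.l 18)))
      (.l 62)) (.l 81)) (.l 116)))))) (.s 3 (.s 0 (.s 2 (.s 2 (.s 2 (.s 1 (.s 2 (.l 20) (.l 11))
      (.l 32)) (.s 1 (.l 5) (.s 2 (.l 10) (.l 4)))) (.s 5 .z (.s 1 .z (.l 1)))) (.s 2 (.s 1 .z (.s
      2 (.s 5 .z (.l 1)) (.l 1))) (.s 2 (.l 4) (.s 2 (.l 13) (.l 23))))) (.s 2 (.s 2 (.s 2 (.s 2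
      (.l 52) (.l 31)) (.l 12)) .z) (.s 2 .z (.s 2 (.s 5 .z (.s 2 (.l 11) (.l 32))) (.s 5 (.l 44)
      (.l 75)))))) (.s 3 (.s 0 (.s 2 (.s 2 (.s 2 (.l 42) (.s 2 (.l 19) (.l 10))) (.l 3)) (.s 2 .z
      (.s 2 (.l 6) (.l 24)))) (.s 2 (.s 2 (.s 2 (.l 73) (.l 33)) (.l 2)) (.s 2 .z (.s 2 (.l 22)
      (.l 63))))) (.s 5 (.s 2 (.s 2 (.l 98) (.s 2 (.l 34) (.l 9))) (.s 2 (.l 22) (.l 85))) (.l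
      98))))) = true := by
  decide +kernel

theorem vm_hLR : check 26 18 162 113 8 8 [7, 6, 6, 0] [8, 8, 7, 6, 6, 16] [8, 0, 7, 6, 6, 16] 0 0
    [(13, 16, 16), (3, 5, 4), (-2, 1, 8), (2, 3, 8), (-3, 3, 4), (1, 1, 1)] pVA pCA
    (.s 3 (.s 3 (.s 3 (.l 132) (.s 5 (.s 3 (.s 5 (.s 3 (.s 1 (.l 70) (.l 63)) (.s 2 (.s 5 (.s 0
      (.s 3 (.l 24) (.s 2 (.l 17) (.l 20))) (.s 3 (.l 35) (.l 24))) (.s 2 (.s 3 (.l 43) (.l 35))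
      (.l 51))) (.s 5 (.s 1 (.s 2 (.l 42) (.l 51)) (.s 2 (.l 39) (.l 46))) (.l 63)))) (.l 83)) (.s
      5 (.s 2 (.s 3 (.s 5 (.s 0 (.s 3 (.s 2 (.l 11) (.l 15)) (.l 10)) (.l 15)) (.s 3 (.s 5 (.s 2
      (.l 19) (.l 27)) (.s 2 (.l 26) (.l 37))) (.s 1 (.s 0 (.s 2 (.l 16) (.l 20)) (.l 23)) (.l
      16)))) (.s 0 (.s 5 (.l 2) (.s 3 (.s 2 (.l 11) (.l 15)) (.l 9))) (.l 15))) (.s 5 (.s 3 (.s 0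
      (.s 3 (.l 23) (.s 2 (.l 15) (.l 19))) (.s 2 (.l 24) (.s 2 (.l 32) (.l 39)))) (.s 0 (.s 2 (.l
      9) (.l 14)) (.l 15))) (.s 3 (.s 2 (.s 5 (.s 2 (.l 32) (.l 39)) (.l 47)) (.l 54)) (.s 0 (.s 2
      (.s 3 (.l 19) (.l 14)) (.l 22)) (.s 2 (.s 3 (.l 28) (.l 15)) (.s 5 (.l 29) (.s 2 (.l 37) (.l
      42)))))))) (.s 2 (.s 3 (.s 5 (.s 2 (.s 3 (.l 43) (.s 2 (.l 30) (.l 36))) (.l 50)) (.l 57))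
      (.s 5 (.s 2 (.s 3 (.s 5 (.l 19) (.l 27)) (.s 1 (.s 0 (.l 14) (.l 14)) (.l 1))) (.s 5 (.s 3
      (.l 28) (.l 19)) (.s 3 (.l 38) (.l 28)))) (.s 2 (.s 1 (.l 37) (.l 34)) (.l 47)))) (.s 3 (.l
      67) (.s 5 (.s 2 (.s 5 (.s 1 (.l 35) (.l 33)) (.l 47)) (.l 53)) (.l 60)))))) (.l 101))) (.s 5
      (.s 3 (.s 5 (.s 3 (.s 2 (.l 5) (.s 3 (.s 0 (.s 5 .z (.s 2 (.l 9) (.s 2 (.l 11) (.l 14))))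
      (.l 16)) (.l 3))) .z) (.s 3 (.s 2 (.s 3 (.s 5 (.s 1 (.s 0 (.s 2 (.l 9) (.s 3 (.l 14) (.l
      9))) (.l 14)) .z) (.s 2 (.s 5 (.s 3 (.l 18) (.l 11)) (.s 3 (.l 26) (.l 17))) (.s 0 (.l 19)
      (.s 5 (.s 3 (.l 29) (.l 16)) (.s 2 (.l 31) (.l 37)))))) (.s 5 (.l 5) (.s 1 (.s 0 (.s 2 (.l
      8) (.l 12)) (.l 13)) (.l 7)))) (.s 5 (.s 3 (.s 0 (.s 2 (.s 3 (.l 18) (.l 13)) (.l 21)) (.s 2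
      (.s 1 (.s 2 (.l 19) (.l 25)) (.l 22)) (.s 1 (.s 2 (.l 32) (.l 38)) (.s 2 (.l 29) (.l 35)))))
      (.s 1 (.s 0 (.s 2 (.l 9) (.l 13)) (.l 16)) (.l 7))) (.s 3 (.s 1 (.l 48) (.l 44)) (.s 0 (.s 2
      (.l 16) (.l 19)) (.s 2 (.s 1 (.s 2 (.l 18) (.l 24)) (.l 22)) (.s 1 (.l 36) (.l 33))))))) (.s
      2 (.s 2 .z (.l 5)) (.s 5 (.l 5) (.s 3 (.s 2 (.l 10) (.s 5 (.l 11) (.l 22))) (.l 6)))))) .z)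
      (.s 3 (.s 5 (.s 3 (.s 2 (.s 5 (.s 3 (.s 1 (.l 41) (.l 37)) (.s 2 (.s 5 (.s 2 (.l 12) (.l
      16)) (.l 22)) (.s 1 (.l 28) (.l 26)))) (.l 48)) (.l 60)) (.s 2 (.s 5 (.s 3 (.s 2 (.l 9) (.s
      2 (.l 12) (.l 16))) (.l 5)) (.s 3 (.s 2 (.l 18) (.l 27)) (.s 2 (.l 7) (.l 13)))) (.s 5 (.s 3
      (.s 2 (.s 3 (.l 28) (.l 18)) (.l 36)) (.s 2 (.l 10) (.l 21))) (.l 42)))) (.l 68)) (.s 5 (.s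
      2 (.l 4) (.s 5 (.l 5) (.s 2 (.l 9) (.l 18)))) (.s 2 (.s 2 (.l 11) (.l 18)) (.l 32)))))) (.l
      1)) = true := by
  decide +kernel

theorem vm_iR : check 26 18 137 90 8 8 [7, 6, 6, 0] [8, 8, 7, 6, 6, 16] [8, 0, 7, 6, 6, 16] 0 0
    [(3, 4, 4), (3, 5, 4), (-2, 1, 8), (-1, 1, 4), (-2, -1, 4), (1, 1, 1)] pVA pCA
    (.s 5 (.s 3 (.s 5 (.l 9) (.s 2 (.s 3 (.s 5 (.l 23) (.s 3 (.l 35) (.l 27))) (.s 3 (.l 20) (.l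
      9))) (.s 3 (.s 2 (.s 5 (.l 25) (.s 0 (.s 1 (.s 3 (.s 5 (.l 38) (.l 49)) (.s 3 (.l 34) (.l
      25))) .z) (.l 44))) (.s 5 (.s 1 (.s 0 (.s 3 (.s 2 (.l 38) (.s 0 (.l 46) (.l 56))) (.s 0 (.s
      2 (.l 4) (.l 32)) (.l 35))) (.l 56)) .z) (.s 2 (.s 3 (.s 5 (.s 2 (.l 49) (.l 59)) (.l 72))
      (.s 0 (.s 5 (.l 35) (.s 2 (.l 40) (.l 48))) (.l 46))) (.s 3 (.s 5 (.s 2 (.l 70) (.l 84)) (.l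
      106)) (.s 5 (.s 0 (.s 2 (.l 44) (.l 54)) (.l 53)) (.s 2 (.s 2 (.l 60) (.l 67)) (.l 83)))))))
      (.s 5 (.l 5) (.s 2 (.l 16) (.s 1 (.s 0 (.s 2 (.s 3 (.s 2 (.l 22) (.l 31)) (.l 1)) (.s 3 (.s
      5 (.l 34) (.s 2 (.l 41) (.l 51))) (.s 2 (.l 18) (.l 32)))) (.s 2 (.l 12) (.l 50))) (.l
      6))))))) (.l 6)) (.s 2 (.s 3 (.s 5 (.s 3 (.s 3 (.l 58) (.s 5 (.l 37) (.l 47))) (.s 5 (.s 0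
      (.s 3 (.l 28) (.l 22)) (.l 5)) (.s 3 (.l 36) (.l 28)))) (.l 77)) (.s 5 (.s 3 (.s 0 (.s 2 (.s
      5 (.l 16) (.s 2 (.l 22) (.l 18))) (.l 15)) .z) (.l 11)) (.s 3 (.l 28) (.s 2 (.l 18) (.l
      12))))) (.s 3 (.s 5 (.s 3 (.s 5 (.s 2 (.s 3 (.l 73) (.s 5 (.s 2 (.l 37) (.l 49)) (.l 57)))
      (.s 3 (.l 126) (.s 2 (.s 2 (.s 2 (.l 62) (.l 68)) (.l 82)) (.l 114)))) (.l 136)) (.s 2 (.s 5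
      (.s 0 (.s 3 (.s 5 (.l 29) (.l 38)) (.s 2 (.l 15) (.l 24))) (.l 32)) (.s 3 (.l 58) (.s 2 (.l
      32) (.s 2 (.l 37) (.l 44))))) (.s 5 (.s 2 (.s 3 (.s 1 (.s 5 (.s 2 (.l 41) (.l 50)) (.l 61))
      (.l 45)) (.s 0 (.s 5 (.l 27) (.l 39)) (.l 36))) (.s 3 (.s 5 (.s 1 (.s 2 (.l 61) (.l 76)) (.l
      65)) (.l 100)) (.s 5 (.s 0 (.s 2 (.l 37) (.l 47)) (.l 48)) (.s 2 (.s 2 (.l 51) (.l 59)) (.s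
      2 (.l 69) (.l 79)))))) (.s 2 (.s 3 (.l 87) (.s 2 (.l 53) (.l 67))) (.l 116))))) (.l 152))
      (.s 5 (.s 2 (.s 3 (.s 5 (.l 9) (.s 3 (.s 5 (.l 23) (.l 30)) (.l 18))) (.l 4)) (.s 3 (.s 5
      (.s 1 (.s 2 (.s 3 (.s 2 (.l 17) (.l 28)) (.l 5)) (.s 0 (.s 3 (.s 5 (.l 29) (.l 42)) (.l 25))
      (.l 42))) (.l 19)) (.s 2 (.s 3 (.s 5 (.s 2 (.l 30) (.l 39)) (.l 49)) (.s 0 (.l 28) (.l 25)))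
      (.s 5 (.s 3 (.s 2 (.l 53) (.l 73)) (.s 2 (.l 33) (.l 49))) (.s 1 (.l 80) (.l 77))))) (.s 5
      (.l 9) (.s 2 (.s 2 (.l 10) (.l 19)) (.s 3 (.s 5 (.l 27) (.s 2 (.l 28) (.l 43))) (.l 23))))))
      (.s 5 (.s 2 (.s 3 (.s 2 (.l 29) (.l 42)) (.s 3 (.l 19) (.l 9))) (.s 3 (.s 2 (.l 68) (.l
      102)) (.s 2 (.s 2 (.l 25) (.l 33)) (.s 2 (.s 2 (.l 40) (.l 49)) (.l 71))))) (.l 111)))))) =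
      true := by
  decide +kernel

theorem vm_aLLRR : check 26 18 92 60 8 8 [7, 6, 6, 0] [8, 8, 7, 6, 6, 16] [8, 0, 7, 6, 6, 16] 0 0
    [(0, 3, 4), (0, 1, 1), (-1, 0, 2), (0, 1, 1), (-2, -1, 2), (1, 1, 1)] pVA pCA
    (.s 5 (.s 3 (.s 2 (.l 1) (.s 2 (.l 3) (.l 15))) (.l 1)) (.s 0 (.s 0 (.s 3 (.s 5 (.l 7) (.l
      12)) (.s 5 (.l 3) (.s 2 (.l 4) (.l 7)))) (.s 3 (.s 2 (.s 5 (.s 3 (.l 14) (.s 2 (.l 7) (.l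
      10))) (.s 1 (.s 3 (.l 34) (.l 26)) (.l 18))) (.l 42)) (.s 5 (.s 2 (.l 4) (.s 2 (.s 2 (.l 6)
      (.l 8)) (.l 12))) (.s 2 (.s 1 (.s 3 (.s 5 (.s 3 (.l 13) (.s 2 (.l 7) (.l 10))) (.s 1 (.l 20)
      (.l 14))) (.s 5 (.s 2 (.l 1) (.l 7)) (.s 0 (.l 6) (.s 1 (.s 2 (.s 3 (.l 12) (.l 8)) (.l 14))
      (.l 8))))) (.s 3 (.l 7) (.l 1))) (.s 5 (.s 1 (.s 2 (.l 16) (.l 20)) (.l 11)) (.l 28))))))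
      (.s 5 (.s 2 (.s 3 (.s 5 (.l 6) (.s 3 (.l 43) (.l 18))) (.l 5)) (.s 3 (.s 2 (.l 63) (.l 82))
      (.s 2 (.s 0 (.s 2 (.l 9) (.l 15)) (.l 25)) (.l 55)))) (.s 3 (.s 2 (.s 5 (.s 3 (.l 81) (.s 3
      (.l 63) (.s 5 (.s 2 (.l 13) (.l 27)) (.s 2 (.l 27) (.l 52))))) (.l 112)) (.l 143)) (.s 2 (.s
      5 (.s 3 (.s 5 (.s 1 (.s 2 (.l 7) (.l 15)) (.l 5)) (.s 2 (.s 3 (.l 18) (.l 10)) (.s 3 (.s 2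
      (.l 24) (.l 39)) (.s 2 (.l 15) (.l 24))))) (.s 1 (.s 1 (.s 2 (.l 2) (.l 14)) (.l 9)) .z))
      (.s 3 (.s 2 (.s 3 (.s 5 (.s 1 (.l 32) (.l 26)) (.s 2 (.l 45) (.l 57))) (.s 5 (.s 1 (.s 1 (.l
      23) (.s 2 (.l 12) (.l 19))) (.l 2)) (.s 1 (.s 5 (.s 2 (.l 24) (.l 30)) (.l 40)) (.s 0 (.l
      18) (.s 2 (.l 20) (.l 35)))))) (.s 3 (.s 0 (.l 45) (.l 79)) (.s 2 (.s 5 (.s 1 (.l 30) (.l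
      23)) (.s 0 (.l 35) (.l 57))) (.s 0 (.l 40) (.l 70))))) (.s 2 (.s 1 (.s 5 (.s 1 (.s 2 (.l 10)
      (.l 14)) (.l 3)) (.s 0 (.s 3 (.s 1 (.l 24) (.s 3 (.s 2 (.l 15) (.l 20)) (.l 15))) (.s 1 (.s
      2 (.l 12) (.l 16)) (.l 7))) (.s 3 (.l 25) (.l 15)))) (.s 0 (.l 5) (.l 10))) (.s 5 (.s 2 (.s
      1 (.s 3 (.s 2 (.l 17) (.l 20)) (.l 11)) .z) (.s 3 (.s 0 (.l 24) (.l 34)) (.s 2 (.l 15) (.l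
      20)))) (.s 2 (.s 3 (.s 1 (.s 5 (.l 28) (.l 39)) (.s 0 (.l 14) (.s 2 (.l 22) (.l 36)))) (.s 1
      (.s 0 (.s 1 (.l 22) (.s 2 (.l 13) (.l 17))) (.l 23)) (.l 9))) (.s 3 (.s 0 (.l 34) (.l 59))
      (.s 0 (.s 1 (.l 27) (.l 13)) (.s 2 (.l 34) (.l 46))))))))) (.s 2 (.s 3 (.s 0 (.l 54) (.l
      99)) (.s 2 (.s 5 (.s 3 (.l 28) (.l 15)) (.s 5 (.s 0 (.l 29) (.l 53)) (.l 72))) (.s 0 (.l 43)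
      (.l 83)))) (.l 118))))))) = true := by
  decide +kernel

theorem vm_bRLRR : check 26 18 107 70 8 8 [7, 6, 6, 0] [8, 8, 7, 6, 6, 16] [8, 0, 7, 6, 6, 16] 0 0
    [(6, 9, 16), (1, 2, 1), (0, 1, 2), (-1, 1, 1), (0, 1, 1), (1, 1, 1)] pVA pCA
    (.s 0 (.s 3 (.s 2 (.s 2 (.s 1 (.s 2 (.l 2) .z) (.s 2 (.s 2 (.l 16) (.s 1 (.l 3) (.s 0 (.s 2
      (.l 6) (.l 4)) (.l 10)))) (.s 2 (.s 0 (.s 3 (.l 1) (.s 2 (.s 3 (.l 2) (.l 3)) (.l 2))) (.s 2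
      (.l 5) (.l 2))) (.l 1)))) .z) (.s 2 .z (.s 2 .z (.s 2 (.l 3) (.l 8))))) (.s 1 (.s 3 (.s 1
      (.s 2 (.l 1) (.s 0 (.l 1) (.l 3))) (.s 2 (.s 2 (.s 2 (.l 7) .z) .z) (.s 2 .z (.s 2 .z (.l
      7))))) (.s 0 (.s 2 (.s 2 (.l 7) (.l 1)) (.s 2 .z (.l 5))) (.s 3 (.s 2 (.s 2 (.l 10) .z) (.s
      2 .z (.l 10))) (.s 2 (.l 14) (.l 14))))) (.s 3 (.s 2 (.s 2 (.s 2 (.l 26) (.s 1 (.s 2 (.s 2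
      (.l 5) (.l 3)) (.l 1)) (.s 3 (.s 2 (.s 2 (.l 10) (.l 7)) (.s 3 (.l 2) (.s 2 (.l 5) (.l 3))))
      (.s 0 (.l 7) (.l 15))))) (.s 3 (.l 1) (.s 2 (.s 0 (.s 3 (.l 2) (.s 2 (.l 4) (.l 2))) (.s 2
      (.l 7) (.l 3))) (.l 1)))) (.s 2 (.s 3 .z (.s 0 (.l 1) (.l 3))) (.s 2 (.s 0 (.s 2 (.l 2) (.l
      3)) (.s 2 (.l 6) (.l 9))) (.l 17)))) (.s 2 (.s 2 (.l 39) (.s 3 (.s 1 (.l 2) (.s 0 (.s 2 (.l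
      6) (.l 4)) (.s 2 (.l 13) (.l 8)))) (.l 19))) (.s 2 (.s 3 (.s 1 .z (.s 0 (.l 4) (.l 9))) (.l
      15)) (.l 30)))))) (.s 3 (.s 2 (.s 2 (.s 2 (.s 2 (.l 55) (.s 0 (.l 19) (.l 34))) (.s 2 (.l
      11) .z)) .z) (.s 2 .z (.s 2 (.l 2) (.s 2 (.s 2 (.l 15) (.l 26)) (.l 47))))) (.s 3 (.s 1 (.s
      2 (.s 2 (.s 2 (.l 23) .z) .z) (.s 2 .z (.s 2 .z (.l 41)))) (.s 0 (.s 2 (.s 2 (.s 2 (.l 51)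
      (.s 3 (.s 2 (.l 19) (.l 9)) (.l 30))) (.s 3 .z (.s 2 (.l 13) .z))) (.s 2 (.s 2 .z (.l 8))
      (.s 2 (.s 2 (.l 15) (.l 22)) (.l 40)))) (.s 2 (.s 2 (.s 2 (.l 87) (.s 3 (.l 34) (.l 55)))
      (.s 3 .z (.l 24))) (.s 2 (.s 2 .z (.l 20)) (.s 2 (.s 2 (.l 34) (.l 49)) (.l 81)))))) (.s 1
      (.s 2 (.s 2 (.l 55) .z) (.s 2 .z (.l 70))) (.s 2 (.s 2 (.l 121) (.s 3 (.s 0 (.s 2 (.l 26)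
      (.l 16)) (.s 2 (.l 50) (.l 32))) (.l 73))) (.s 2 (.s 3 (.s 0 (.s 2 (.l 13) (.l 22)) (.s 2
      (.l 30) (.l 47))) (.l 70)) (.l 115))))))) = true := by
  decide +kernel

theorem vm_bRRLLRL : check 26 18 128 86 8 8 [7, 6, 6, 0] [8, 8, 7, 6, 6, 16] [8, 0, 7, 6, 6, 16] 0
  0
    [(36, 39, 64), (2, 3, 2), (0, 1, 2), (-1, 1, 1), (-1, 1, 1), (1, 1, 1)] pVA pCA
    (.s 0 (.s 2 (.s 2 (.s 2 (.s 3 (.s 3 (.l 80) (.s 2 (.l 45) (.l 29))) (.s 3 (.s 1 (.l 14) (.s 2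
      (.l 56) (.l 40))) (.l 101))) (.s 3 (.s 3 (.s 3 (.l 52) (.s 2 (.l 30) (.l 17))) (.s 2 (.l 13)
      (.l 1))) (.s 3 (.s 1 .z (.s 1 (.l 4) (.s 2 (.s 3 (.l 9) (.l 26)) (.s 2 (.l 11) (.l 4)))))
      (.s 3 (.s 3 (.s 2 (.l 37) (.l 24)) (.l 48)) (.l 76))))) (.s 3 (.s 3 (.s 3 (.l 29) (.l 4))
      .z) (.s 3 .z (.s 3 (.s 2 (.s 3 (.l 11) (.s 2 (.l 26) (.l 16))) (.l 7)) (.s 3 (.l 40) (.l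
      55)))))) (.s 2 (.s 3 (.s 3 (.s 3 (.l 32) .z) .z) (.s 3 .z (.s 3 (.s 2 .z (.l 10)) (.s 2 (.l
      34) (.l 42))))) (.s 2 (.s 3 (.s 3 (.s 3 (.l 50) (.l 22)) .z) (.s 3 .z (.s 3 (.l 26) (.l
      56)))) (.s 3 (.s 3 (.l 70) (.l 26)) (.s 3 (.l 22) (.l 75)))))) (.s 3 (.s 3 (.s 3 (.s 2 (.s 2
      (.l 130) (.l 60)) (.s 2 (.l 67) (.l 128))) (.s 2 (.s 2 (.s 2 (.l 100) (.l 53)) (.l 4)) (.s 2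
      .z (.s 2 (.s 2 (.l 16) (.l 54)) (.l 98))))) (.s 2 (.s 2 (.s 2 (.l 73) (.l 13)) .z) (.s 2 .z
      (.s 2 .z (.l 64))))) (.s 3 (.s 2 (.s 2 (.s 2 (.s 2 (.l 95) (.l 70)) (.s 2 (.s 2 (.l 44) (.l
      29)) (.l 12))) .z) (.s 2 .z (.s 2 (.l 5) (.l 59)))) (.s 3 (.s 2 (.s 2 (.s 2 (.l 125) (.s 3
      (.s 2 (.l 66) (.l 42)) (.l 87))) (.s 3 (.l 14) (.s 3 (.l 33) (.l 49)))) (.s 2 (.s 3 .z (.l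
      28)) (.s 2 (.s 2 (.l 46) (.l 63)) (.l 99)))) (.s 2 (.s 2 (.l 155) (.s 2 (.l 102) (.l 81)))
      (.s 2 (.s 2 (.l 74) (.l 89)) (.l 137))))))) = true := by
  decide +kernel

theorem vm_aLLRL : check 26 18 92 60 8 8 [7, 6, 6, 0] [8, 8, 7, 6, 6, 16] [8, 0, 7, 6, 6, 16] 0 0
    [(0, 3, 4), (0, 1, 1), (-1, 0, 2), (-1, 0, 1), (-2, -1, 2), (1, 1, 1)] pVA pCA
    (.s 5 (.s 0 (.l 3) (.s 0 (.l 6) (.l 13))) (.s 2 (.s 3 (.s 5 (.s 0 (.l 19) (.l 70)) (.l 121))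
      (.s 2 (.s 5 (.l 40) (.l 92)) (.s 5 (.s 3 (.l 9) (.l 5)) (.s 3 (.s 5 (.l 38) (.l 65)) (.s 5
      (.s 0 (.l 11) (.l 17)) (.s 2 (.l 48) (.s 5 (.l 19) (.l 32)))))))) (.s 5 (.s 3 (.s 5 (.l 6)
      (.s 3 (.l 23) (.s 3 (.l 12) (.l 9)))) (.s 3 (.s 0 (.l 4) (.l 3)) .z)) (.s 3 (.s 5 (.s 3 (.l
      56) (.s 3 (.l 32) (.s 0 (.l 15) (.l 20)))) (.l 86)) (.s 5 (.s 3 (.s 0 (.s 1 (.s 3 (.l 13)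
      (.s 2 (.l 10) (.l 7))) (.l 7)) (.s 3 (.l 14) (.l 10))) (.s 0 (.s 3 (.s 0 (.l 2) (.l 6)) (.l
      4)) (.l 6))) (.s 3 (.s 3 (.s 5 (.s 0 (.l 17) (.l 24)) (.l 42)) (.s 0 (.s 1 (.s 5 (.l 14) (.l
      18)) (.s 2 (.l 13) (.l 7))) (.s 5 (.s 5 (.l 13) (.s 2 (.l 17) (.l 16))) (.s 0 (.s 5 (.s 3
      (.l 20) (.l 17)) (.s 2 (.l 24) (.l 24))) (.l 29))))) (.s 0 (.s 0 (.l 6) (.s 1 (.s 5 (.s 2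
      (.s 3 (.l 11) (.l 8)) (.s 3 (.l 8) (.l 3))) (.s 3 (.s 2 (.l 15) (.l 13)) (.s 2 (.l 12) (.l
      9)))) (.s 2 (.s 2 (.l 10) (.l 7)) .z))) (.s 0 (.s 5 (.s 3 (.s 2 (.l 12) (.l 9)) (.l 8)) (.s
      3 (.s 2 (.s 3 (.l 18) (.l 16)) (.s 1 (.s 3 (.l 17) (.l 14)) (.l 5))) (.s 2 (.s 2 (.l 14) (.s
      2 (.l 12) (.l 11))) (.s 3 (.l 10) (.l 8))))) (.s 2 (.l 18) (.l 15)))))))))) = true := by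
  decide +kernel

theorem vm_bLL : check 26 18 93 62 8 8 [7, 6, 6, 0] [8, 8, 7, 6, 6, 16] [8, 0, 7, 6, 6, 16] 0 0
    [(0, 3, 8), (0, 1, 1), (0, 1, 2), (-1, 1, 1), (-1, 1, 1), (1, 1, 1)] pVA pCA
    (.s 0 (.s 1 (.s 2 (.s 2 (.s 2 (.s 2 (.s 2 (.l 12) (.l 9)) (.l 7)) (.l 1)) .z) (.l 1)) (.s 3
      (.l 3) (.s 3 (.s 2 (.s 2 (.s 2 (.s 2 (.l 15) (.l 6)) .z) .z) .z) (.s 2 (.s 2 (.s 3 (.s 2 (.l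
      26) (.s 2 (.l 14) (.l 5))) (.s 2 (.l 38) (.l 28))) (.s 3 .z (.s 3 (.l 9) (.l 18)))) (.s 3
      (.l 3) (.s 2 (.l 4) (.l 14))))))) (.s 1 (.s 5 .z (.s 2 (.s 2 (.s 2 (.s 0 (.s 2 (.s 2 (.l 29)
      (.l 23)) (.l 17)) (.s 2 (.s 2 (.l 62) (.l 51)) (.l 38))) (.l 8)) .z) (.s 2 .z (.s 2 .z (.s 0
      (.l 7) (.l 28)))))) (.s 3 (.s 2 (.s 2 (.s 2 (.s 3 (.s 2 (.l 74) (.l 48)) (.l 21)) (.s 2 (.l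
      18) .z)) .z) .z) (.s 3 (.s 2 (.s 2 (.s 2 (.s 1 (.l 20) (.s 2 (.l 79) (.s 2 (.l 42) (.l
      12)))) .z) .z) .z) (.s 2 (.s 2 (.s 3 (.s 2 (.s 0 (.l 62) (.l 114)) (.s 1 .z (.s 3 (.s 2 (.l
      32) .z) (.s 2 (.l 71) (.l 37))))) (.s 2 (.l 144) (.s 0 (.l 64) (.l 118)))) (.s 3 .z (.s 1
      (.l 20) (.s 3 (.s 0 (.l 26) (.l 55)) (.s 2 (.l 90) (.l 61)))))) (.s 3 (.s 0 (.l 13) (.s 2 .z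
      (.l 43))) (.s 2 (.s 3 .z (.l 51)) (.s 1 (.l 62) (.l 95))))))))) = true := by
  decide +kernel

theorem vm_aLRL : check 26 18 90 59 8 8 [7, 6, 6, 0] [8, 8, 7, 6, 6, 16] [8, 0, 7, 6, 6, 16] 0 0
    [(0, 3, 4), (0, 1, 1), (-1, 0, 1), (-2, -1, 2), (-1, 0, 2), (1, 1, 1)] pVA pCA
    (.s 5 (.l 3) (.s 5 (.s 5 (.s 2 (.l 8) (.l 6)) (.s 2 (.s 2 (.l 21) (.l 14)) (.s 1 (.l 13) (.l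
      2)))) (.s 2 (.s 5 (.s 2 (.l 67) (.s 2 (.l 36) (.l 24))) (.l 102)) (.s 3 (.s 1 (.s 3 (.l 34)
      (.l 25)) (.s 5 (.s 2 (.l 14) (.l 10)) (.s 2 (.s 3 (.l 52) (.s 2 (.l 34) (.l 22))) (.s 3 (.s
      0 (.s 2 (.l 21) (.l 19)) (.s 2 (.l 27) (.l 20))) (.s 2 (.l 15) (.l 13)))))) (.s 1 (.l 17)
      (.s 0 (.l 8) (.l 12))))))) = true := by
  decide +kernel

theorem vm_cLR : check 26 18 129 98 8 8 [7, 6, 6, 0] [8, 8, 7, 6, 6, 16] [8, 0, 7, 6, 6, 16] 0 0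
    [(3, 4, 4), (0, 1, 1), (1, 4, 8), (-3, 3, 4), (3, 6, 8), (1, 1, 1)] pVA pCA
    (.s 2 (.s 2 (.s 2 (.l 133) (.s 3 (.s 1 (.s 2 (.l 32) (.l 14)) (.s 2 (.l 65) (.s 2 (.l 42) (.l
      30)))) (.l 92))) (.s 3 (.s 3 (.s 2 (.l 12) .z) (.s 2 (.l 18) (.l 2))) (.s 1 (.l 6) (.l
      56)))) (.s 2 (.s 3 .z (.l 17)) (.s 2 (.s 3 (.l 10) (.l 44)) (.l 77)))) = true := by
  decide +kernel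

theorem vm_j : check 26 18 137 91 8 8 [7, 6, 6, 0] [8, 8, 7, 6, 6, 16] [8, 0, 7, 6, 6, 16] 0 0
    [(3, 4, 4), (3, 5, 4), (-2, 1, 8), (-1, 1, 4), (1, 3, 4), (1, 1, 1)] pVA pCA
    .z = true := by
  decide +kernel

theorem xm_i : check 32 24 76 57 6 3 [3, 3, 6, 0] [6, 3, 3, 3, 6, 9] [6, 0, 3, 3, 6, 9] 0 0
    [(-1, 1, 8), (-8, -1, 8), (3, 5, 8), (3, 5, 8), (-1, 1, 8), (1, 1, 1)] pXA pDA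
    (.s 1 (.s 0 (.l 234) (.s 2 (.s 0 (.l 233) (.s 3 (.s 5 (.l 233) (.l 223)) (.s 5 (.l 223) (.l
      233)))) (.s 1 (.l 235) (.s 2 (.s 0 (.l 235) (.s 5 (.s 3 (.l 236) (.l 236)) (.s 3 (.l 236)
      (.l 236)))) (.l 236))))) (.s 0 (.l 234) (.s 2 (.s 2 (.l 235) (.s 1 (.s 0 (.l 235) (.s 3 (.s
      5 (.l 236) (.l 236)) (.s 5 (.l 236) (.l 236)))) (.l 236))) (.s 0 (.l 235) (.s 1 (.s 2 (.s 1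
      (.s 2 (.s 1 (.s 2 (.s 1 (.s 2 (.s 3 (.s 5 (.l 236) (.l 235)) (.s 5 (.l 235) (.l 236))) (.l
      246)) (.l 246)) (.l 239)) (.l 239)) (.l 237)) (.l 237)) (.l 236)) (.l 236)))))) = true := by
  decide +kernel

theorem xb_u0 : check 32 24 79 0 6 3 [3, 3, 0, 7] [6, 3, 3, 3, 6, 7] [6, 0, 3, 3, 6, 7] 2 0
    [(-1, 1, 8), (-1, 1, 8), (-1, 1, 8), (-1, 1, 8), (-1, -1, 8), (0, 1, 1)] pQA Po.o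
    (.s 2 (.s 1 .z (.s 1 .z .z)) (.s 1 (.s 1 .z .z) .z)) = true := by
  decide +kernel

theorem xb_x0 : check 32 24 86 0 6 3 [0, 3, 6, 7] [6, 3, 3, 3, 6, 7] [6, 0, 3, 3, 6, 7] 2 0
    [(-1, 1, 8), (-1, 1, 8), (-1, -1, 8), (-1, 1, 8), (-1, 1, 8), (0, 1, 1)] pQA Po.o
    .z = true := by
  decide +kernel

end Pool.Agent.MP_90395b_gt.Bn
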