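import Pool.Agent.MP_90395b_gt.BnLinkX
import Pool.Agent.MP_90395b_gt.BnC0
import Pool.Agent.MP_90395b_gt.BnC1
import Pool.Agent.MP_90395b_gt.BnC2
import Pool.Agent.MP_90395b_gt.BnC3

namespace Pool.Agent.MP_90395b_gt.Bn

open Pool.Agent.MP_90395b_gt.As

theorem list_max (a : ℝ) (l : List ℝ) : ∃ s ∈ a :: l, ∀ q ∈ a :: l, q ≤ s := by
  induction l generalizing a with
  | nil => exact ⟨a, by simp, by simp⟩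
  | cons b l ih =>
    obtain ⟨s, h1, h2⟩ := ih b
    rcases le_total a s with h | h
    · exact ⟨s, List.mem_cons_of_mem _ h1, List.forall_mem_cons.2 ⟨h, h2⟩⟩
    · exact ⟨a, List.mem_cons_self, List.forall_mem_cons.2 ⟨le_rfl, fun q hq => (h2 q hq).trans h⟩⟩

theorem slx_a {t c x y u : ℝ} (hc : P5 pDA t c x y u ≤ 0)
    (a0 : (-8 : ℝ) ≤ 8 * t) (b0 : 8 * t ≤ (8 : ℝ))
    (a1 : (-1 : ℝ) ≤ 1 * c) (b1 : 1 * c ≤ (1 : ℝ))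
    (a2 : (0 : ℝ) ≤ 8 * x) (b2 : 8 * x ≤ (3 : ℝ))
    (a3 : (0 : ℝ) ≤ 1 * y) (b3 : 1 * y ≤ (1 : ℝ))
    (a4 : (-1 : ℝ) ≤ 1 * u) (b4 : 1 * u ≤ (1 : ℝ)) :
    0 ≤ P5 pXA t c x y u := by
  refine sound6 xm_a 1 one_pos hc ?_ ?_ ?_ ?_ ?_ ?_ ?_ ?_ ?_ ?_ ?_ ?_ <;>
    clear hc <;> push_cast <;> linarith

theorem slx_b {t c x y u : ℝ} (hc : P5 pDA t c x y u ≤ 0)
    (a0 : (-8 : ℝ) ≤ 8 * t) (b0 : 8 * t ≤ (8 : ℝ))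
    (a1 : (-1 : ℝ) ≤ 1 * c) (b1 : 1 * c ≤ (1 : ℝ))
    (a2 : (5 : ℝ) ≤ 8 * x) (b2 : 8 * x ≤ (8 : ℝ))
    (a3 : (0 : ℝ) ≤ 8 * y) (b3 : 8 * y ≤ (3 : ℝ))
    (a4 : (-1 : ℝ) ≤ 1 * u) (b4 : 1 * u ≤ (1 : ℝ)) :
    0 ≤ P5 pXA t c x y u := by
  refine sound6 xm_b 1 one_pos hc ?_ ?_ ?_ ?_ ?_ ?_ ?_ ?_ ?_ ?_ ?_ ?_ <;>
    clear hc <;> push_cast <;> linarith

theorem slx_c {t c x y u : ℝ} (hc : P5 pDA t c x y u ≤ 0)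
    (a0 : (-8 : ℝ) ≤ 8 * t) (b0 : 8 * t ≤ (8 : ℝ))
    (a1 : (-1 : ℝ) ≤ 1 * c) (b1 : 1 * c ≤ (1 : ℝ))
    (a2 : (3 : ℝ) ≤ 8 * x) (b2 : 8 * x ≤ (5 : ℝ))
    (a3 : (0 : ℝ) ≤ 8 * y) (b3 : 8 * y ≤ (3 : ℝ))
    (a4 : (-1 : ℝ) ≤ 1 * u) (b4 : 1 * u ≤ (1 : ℝ)) :
    0 ≤ P5 pXA t c x y u := by
  refine sound6 xm_c 1 one_pos hc ?_ ?_ ?_ ?_ ?_ ?_ ?_ ?_ ?_ ?_ ?_ ?_ <;>
    clear hc <;> push_cast <;> linarith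

theorem slx_e {t c x y u : ℝ} (hc : P5 pDA t c x y u ≤ 0)
    (a0 : (-8 : ℝ) ≤ 8 * t) (b0 : 8 * t ≤ (-1 : ℝ))
    (a1 : (-1 : ℝ) ≤ 1 * c) (b1 : 1 * c ≤ (1 : ℝ))
    (a2 : (3 : ℝ) ≤ 8 * x) (b2 : 8 * x ≤ (5 : ℝ))
    (a3 : (3 : ℝ) ≤ 8 * y) (b3 : 8 * y ≤ (5 : ℝ))
    (a4 : (-1 : ℝ) ≤ 1 * u) (b4 : 1 * u ≤ (1 : ℝ)) :
    0 ≤ P5 pXA t c x y u := by
  refine sound6 xm_e 1 one_pos hc ?_ ?_ ?_ ?_ ?_ ?_ ?_ ?_ ?_ ?_ ?_ ?_ <;>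
    clear hc <;> push_cast <;> linarith

theorem slx_f {t c x y u : ℝ} (hc : P5 pDA t c x y u ≤ 0)
    (a0 : (1 : ℝ) ≤ 8 * t) (b0 : 8 * t ≤ (8 : ℝ))
    (a1 : (-1 : ℝ) ≤ 1 * c) (b1 : 1 * c ≤ (1 : ℝ))
    (a2 : (3 : ℝ) ≤ 8 * x) (b2 : 8 * x ≤ (5 : ℝ))
    (a3 : (3 : ℝ) ≤ 8 * y) (b3 : 8 * y ≤ (5 : ℝ))
    (a4 : (-1 : ℝ) ≤ 1 * u) (b4 : 1 * u ≤ (1 : ℝ)) :
    0 ≤ P5 pXA t c x y u := by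
  refine sound6 xm_f 1 one_pos hc ?_ ?_ ?_ ?_ ?_ ?_ ?_ ?_ ?_ ?_ ?_ ?_ <;>
    clear hc <;> push_cast <;> linarith

theorem slx_g {t c x y u : ℝ} (hc : P5 pDA t c x y u ≤ 0)
    (a0 : (-1 : ℝ) ≤ 8 * t) (b0 : 8 * t ≤ (1 : ℝ))
    (a1 : (-1 : ℝ) ≤ 1 * c) (b1 : 1 * c ≤ (1 : ℝ))
    (a2 : (3 : ℝ) ≤ 8 * x) (b2 : 8 * x ≤ (5 : ℝ))
    (a3 : (3 : ℝ) ≤ 8 * y) (b3 : 8 * y ≤ (5 : ℝ))
    (a4 : (-8 : ℝ) ≤ 8 * u) (b4 : 8 * u ≤ (-1 : ℝ)) :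
    0 ≤ P5 pXA t c x y u := by
  refine sound6 xm_g 1 one_pos hc ?_ ?_ ?_ ?_ ?_ ?_ ?_ ?_ ?_ ?_ ?_ ?_ <;>
    clear hc <;> push_cast <;> linarith

theorem slx_h {t c x y u : ℝ} (hc : P5 pDA t c x y u ≤ 0)
    (a0 : (-1 : ℝ) ≤ 8 * t) (b0 : 8 * t ≤ (1 : ℝ))
    (a1 : (-1 : ℝ) ≤ 1 * c) (b1 : 1 * c ≤ (1 : ℝ))
    (a2 : (3 : ℝ) ≤ 8 * x) (b2 : 8 * x ≤ (5 : ℝ))
    (a3 : (3 : ℝ) ≤ 8 * y) (b3 : 8 * y ≤ (5 : ℝ))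
    (a4 : (1 : ℝ) ≤ 8 * u) (b4 : 8 * u ≤ (8 : ℝ)) :
    0 ≤ P5 pXA t c x y u := by
  refine sound6 xm_h 1 one_pos hc ?_ ?_ ?_ ?_ ?_ ?_ ?_ ?_ ?_ ?_ ?_ ?_ <;>
    clear hc <;> push_cast <;> linarith

theorem slx_i {t c x y u : ℝ} (hc : P5 pDA t c x y u ≤ 0)
    (a0 : (-1 : ℝ) ≤ 8 * t) (b0 : 8 * t ≤ (1 : ℝ))
    (a1 : (-8 : ℝ) ≤ 8 * c) (b1 : 8 * c ≤ (-1 : ℝ))
    (a2 : (3 : ℝ) ≤ 8 * x) (b2 : 8 * x ≤ (5 : ℝ))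
    (a3 : (3 : ℝ) ≤ 8 * y) (b3 : 8 * y ≤ (5 : ℝ))
    (a4 : (-1 : ℝ) ≤ 8 * u) (b4 : 8 * u ≤ (1 : ℝ)) :
    0 ≤ P5 pXA t c x y u := by
  refine sound6 xm_i 1 one_pos hc ?_ ?_ ?_ ?_ ?_ ?_ ?_ ?_ ?_ ?_ ?_ ?_ <;>
    clear hc <;> push_cast <;> linarith

theorem slx_j {t c x y u : ℝ} (hc : P5 pDA t c x y u ≤ 0)
    (a0 : (-1 : ℝ) ≤ 8 * t) (b0 : 8 * t ≤ (1 : ℝ))
    (a1 : (1 : ℝ) ≤ 8 * c) (b1 : 8 * c ≤ (8 : ℝ))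
    (a2 : (3 : ℝ) ≤ 8 * x) (b2 : 8 * x ≤ (5 : ℝ))
    (a3 : (3 : ℝ) ≤ 8 * y) (b3 : 8 * y ≤ (5 : ℝ))
    (a4 : (-1 : ℝ) ≤ 8 * u) (b4 : 8 * u ≤ (1 : ℝ)) :
    0 ≤ P5 pXA t c x y u := by
  refine sound6 xm_j 1 one_pos hc ?_ ?_ ?_ ?_ ?_ ?_ ?_ ?_ ?_ ?_ ?_ ?_ <;>
    clear hc <;> push_cast <;> linarith

theorem locX {t c x y u : ℝ} (a0 : -1 ≤ 8 * t) (b0 : 8 * t ≤ 1) (a1 : -1 ≤ 8 * c)
    (b1 : 8 * c ≤ 1) (a2 : -1 ≤ 8 * x) (b2 : 8 * x ≤ 1) (a3 : -1 ≤ 8 * y) (b3 : 8 * y ≤ 1)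
    (a4 : -1 ≤ 8 * u) (b4 : 8 * u ≤ 1) : 0 ≤ P5 pQA t c x y u := by
  obtain ⟨r, h1, h2⟩ := list_max (-8 * c)
    [8 * c, -8 * x, 8 * x, -8 * y, 8 * y, -8 * u, 8 * u, -8 * t, 8 * t]
  simp only [List.mem_cons, List.not_mem_nil, or_false, forall_eq_or_imp, forall_eq] at h1 h2
  obtain ⟨q0, q1, q2, q3, q4, q5, q6, q7, q8, q9⟩ := h2
  rcases le_or_gt r 0 with hr | hr
  · obtain rfl : t = 0 := by linarith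
    obtain rfl : c = 0 := by linarith
    obtain rfl : x = 0 := by linarith
    obtain rfl : y = 0 := by linarith
    obtain rfl : u = 0 := by linarith
    have := P5_QA (1 / 2) (1 / 2) 0 0 0
    rw [sub_self] at this
    rw [this]
    norm_num [Jt, Jl0, Jm0]
  have gB : 0 ≤ P5 pQB u c x y t → 0 ≤ P5 pQA t c x y u := fun h => P5_QB x y t u c ▸ h
  rcases h1 with e | e | e | e | e | e | e | e | e | e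
  · refine id (sound6 xb_c0 r hr (P5_o ..) ?_ ?_ ?_ ?_ ?_ ?_ ?_ ?_ ?_ ?_ ?_ ?_) <;>
      clear gB <;> push_cast <;> linarith
  · refine id (sound6 xb_c1 r hr (P5_o ..) ?_ ?_ ?_ ?_ ?_ ?_ ?_ ?_ ?_ ?_ ?_ ?_) <;>
      clear gB <;> push_cast <;> linarith
  · refine id (sound6 xb_x0 r hr (P5_o ..) ?_ ?_ ?_ ?_ ?_ ?_ ?_ ?_ ?_ ?_ ?_ ?_) <;>
      clear gB <;> push_cast <;> linarith
  · refine id (sound6 xb_x1 r hr (P5_o ..) ?_ ?_ ?_ ?_ ?_ ?_ ?_ ?_ ?_ ?_ ?_ ?_) <;>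
      clear gB <;> push_cast <;> linarith
  · refine id (sound6 xb_y0 r hr (P5_o ..) ?_ ?_ ?_ ?_ ?_ ?_ ?_ ?_ ?_ ?_ ?_ ?_) <;>
      clear gB <;> push_cast <;> linarith
  · refine id (sound6 xb_y1 r hr (P5_o ..) ?_ ?_ ?_ ?_ ?_ ?_ ?_ ?_ ?_ ?_ ?_ ?_) <;>
      clear gB <;> push_cast <;> linarith
  · refine id (sound6 xb_u0 r hr (P5_o ..) ?_ ?_ ?_ ?_ ?_ ?_ ?_ ?_ ?_ ?_ ?_ ?_) <;>
      clear gB <;> push_cast <;> linarith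
  · refine id (sound6 xb_u1 r hr (P5_o ..) ?_ ?_ ?_ ?_ ?_ ?_ ?_ ?_ ?_ ?_ ?_ ?_) <;>
      clear gB <;> push_cast <;> linarith
  · refine gB (sound6 xb_t0 r hr (P5_o ..) ?_ ?_ ?_ ?_ ?_ ?_ ?_ ?_ ?_ ?_ ?_ ?_) <;>
      clear gB <;> push_cast <;> linarith
  · refine gB (sound6 xb_t1 r hr (P5_o ..) ?_ ?_ ?_ ?_ ?_ ?_ ?_ ?_ ?_ ?_ ?_ ?_) <;>
      clear gB <;> push_cast <;> linarith

theorem boxX : BoxX := by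
  intro x y t u c hx hy c0 c1 hb
  have hc : P5 pDA t c x y u ≤ 0 := by rw [P5_DA]; linarith
  have g : 0 ≤ P5 pXA t c x y u → 1 ≤ Jt x y t u c 1 1 0 := fun h => by
    rw [P5_XA] at h; linarith
  have t2 := sq_nonneg t
  have u2 := sq_nonneg u
  obtain ⟨t0, t1⟩ := abs_le_of_sq_le_sq' (a := t) (b := 1) (by linarith) zero_le_one
  obtain ⟨u0, u1⟩ := abs_le_of_sq_le_sq' (a := u) (b := 1) (by linarith) zero_le_one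
  have hxy : x + y ≤ 1 := by linarith
  rcases le_total x (3 / 8) with h1 | h1
  · refine g (slx_a hc ?_ ?_ ?_ ?_ ?_ ?_ ?_ ?_ ?_ ?_) <;>
      clear g hc hb t2 u2 <;> linarith
  rcases le_total (5 / 8) x with h2 | h2
  · refine g (slx_b hc ?_ ?_ ?_ ?_ ?_ ?_ ?_ ?_ ?_ ?_) <;>
      clear g hc hb t2 u2 <;> linarith
  rcases le_total y (3 / 8) with h3 | h3
  · refine g (slx_c hc ?_ ?_ ?_ ?_ ?_ ?_ ?_ ?_ ?_ ?_) <;>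
      clear g hc hb t2 u2 <;> linarith
  rcases le_total t (-1 / 8) with h4 | h4
  · refine g (slx_e hc ?_ ?_ ?_ ?_ ?_ ?_ ?_ ?_ ?_ ?_) <;>
      clear g hc hb t2 u2 <;> linarith
  rcases le_total (1 / 8) t with h5 | h5
  · refine g (slx_f hc ?_ ?_ ?_ ?_ ?_ ?_ ?_ ?_ ?_ ?_) <;>
      clear g hc hb t2 u2 <;> linarith
  rcases le_total u (-1 / 8) with h6 | h6
  · refine g (slx_g hc ?_ ?_ ?_ ?_ ?_ ?_ ?_ ?_ ?_ ?_) <;>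
      clear g hc hb t2 u2 <;> linarith
  rcases le_total (1 / 8) u with h7 | h7
  · refine g (slx_h hc ?_ ?_ ?_ ?_ ?_ ?_ ?_ ?_ ?_ ?_) <;>
      clear g hc hb t2 u2 <;> linarith
  rcases le_total c (-1 / 8) with h8 | h8
  · refine g (slx_i hc ?_ ?_ ?_ ?_ ?_ ?_ ?_ ?_ ?_ ?_) <;>
      clear g hc hb t2 u2 <;> linarith
  rcases le_total (1 / 8) c with h9 | h9
  · refine g (slx_j hc ?_ ?_ ?_ ?_ ?_ ?_ ?_ ?_ ?_ ?_) <;>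
      clear g hc hb t2 u2 <;> linarith
  have k := locX (t := t) (c := c) (x := x - 1 / 2) (y := y - 1 / 2) (u := u) (by linarith)
    (by linarith) (by linarith) (by linarith) (by linarith) (by linarith) (by linarith)
    (by linarith) (by linarith) (by linarith)
  rw [P5_QA] at k
  have : 0 ≤ (1 - x - y - t ^ 2 - u ^ 2) * (1 - (1 - x - y - t ^ 2 - u ^ 2)) :=
    mul_nonneg (by linarith) (by linarith)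
  linarith

end Pool.Agent.MP_90395b_gt.Bn
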