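import Pool.Agent.MP_90395b_gt.BnLinkX

namespace Pool.Agent.MP_90395b_gt.Bn

set_option maxRecDepth 100000 in
theorem P5_VB (h s k u v : ℝ) : P5 pVB k s h u v = P5 pVA h s k u v := by
  simp only [P5, pVA, pVB, H, List.getD_cons_zero, List.getD_cons_succ]
  push_cast
  ring

end Pool.Agent.MP_90395b_gt.Bn
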