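import Pool.Agent.MP_90395b_gt.BnLinkX
import Pool.Agent.MP_90395b_gt.BnC0
import Pool.Agent.MP_90395b_gt.BnC1
import Pool.Agent.MP_90395b_gt.BnC2
import Pool.Agent.MP_90395b_gt.BnC3

namespace Pool.Agent.MP_90395b_gt.Bn

open Pool.Agent.MP_90395b_gt.As

theorem slv_a {h s k u v : ℝ} (hc : P5 pCA h s k u v ≤ 0)
    (a0 : (0 : ℝ) ≤ 4 * h) (b0 : 4 * h ≤ (3 : ℝ))
    (a1 : (0 : ℝ) ≤ 1 * s) (b1 : 1 * s ≤ (1 : ℝ))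
    (a2 : (-1 : ℝ) ≤ 1 * k) (b2 : 1 * k ≤ (0 : ℝ))
    (a3 : (-1 : ℝ) ≤ 1 * u) (b3 : 1 * u ≤ (1 : ℝ))
    (a4 : (-1 : ℝ) ≤ 1 * v) (b4 : 1 * v ≤ (1 : ℝ)) :
    0 ≤ P5 pVA h s k u v := by
  rcases le_total (1 * v) (0) with c | c
  · rcases le_total (2 * v) (-1) with cL | cL
    · rcases le_total (2 * k) (-1) with cLL | cLL
      · refine sound6 vm_aLLL 1 one_pos hc ?_ ?_ ?_ ?_ ?_ ?_ ?_ ?_ ?_ ?_ ?_ ?_ <;>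
          clear hc <;> push_cast <;> linarith
      · rcases le_total (1 * u) (0) with cLLR | cLLR
        · refine sound6 vm_aLLRL 1 one_pos hc ?_ ?_ ?_ ?_ ?_ ?_ ?_ ?_ ?_ ?_ ?_ ?_ <;>
            clear hc <;> push_cast <;> linarith
        · refine sound6 vm_aLLRR 1 one_pos hc ?_ ?_ ?_ ?_ ?_ ?_ ?_ ?_ ?_ ?_ ?_ ?_ <;>
            clear hc <;> push_cast <;> linarith
    · rcases le_total (2 * u) (-1) with cLR | cLR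
      · refine sound6 vm_aLRL 1 one_pos hc ?_ ?_ ?_ ?_ ?_ ?_ ?_ ?_ ?_ ?_ ?_ ?_ <;>
          clear hc <;> push_cast <;> linarith
      · refine sound6 vm_aLRR 1 one_pos hc ?_ ?_ ?_ ?_ ?_ ?_ ?_ ?_ ?_ ?_ ?_ ?_ <;>
          clear hc <;> push_cast <;> linarith
  · refine sound6 vm_aR 1 one_pos hc ?_ ?_ ?_ ?_ ?_ ?_ ?_ ?_ ?_ ?_ ?_ ?_ <;>
      clear hc <;> push_cast <;> linarith

theorem slv_b {h s k u v : ℝ} (hc : P5 pCA h s k u v ≤ 0)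
    (a0 : (0 : ℝ) ≤ 4 * h) (b0 : 4 * h ≤ (3 : ℝ))
    (a1 : (0 : ℝ) ≤ 1 * s) (b1 : 1 * s ≤ (2 : ℝ))
    (a2 : (0 : ℝ) ≤ 2 * k) (b2 : 2 * k ≤ (1 : ℝ))
    (a3 : (-1 : ℝ) ≤ 1 * u) (b3 : 1 * u ≤ (1 : ℝ))
    (a4 : (-1 : ℝ) ≤ 1 * v) (b4 : 1 * v ≤ (1 : ℝ)) :
    0 ≤ P5 pVA h s k u v := by
  rcases le_total (8 * h) (3) with c | c
  · rcases le_total (1 * s) (1) with cL | cL
    · refine sound6 vm_bLL 1 one_pos hc ?_ ?_ ?_ ?_ ?_ ?_ ?_ ?_ ?_ ?_ ?_ ?_ <;>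
        clear hc <;> push_cast <;> linarith
    · refine sound6 vm_bLR 1 one_pos hc ?_ ?_ ?_ ?_ ?_ ?_ ?_ ?_ ?_ ?_ ?_ ?_ <;>
        clear hc <;> push_cast <;> linarith
  · rcases le_total (16 * h) (9) with cR | cR
    · rcases le_total (1 * s) (1) with cRL | cRL
      · refine sound6 vm_bRLL 1 one_pos hc ?_ ?_ ?_ ?_ ?_ ?_ ?_ ?_ ?_ ?_ ?_ ?_ <;>
          clear hc <;> push_cast <;> linarith
      · rcases le_total (1 * v) (0) with cRLR | cRLR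
        · refine sound6 vm_bRLRL 1 one_pos hc ?_ ?_ ?_ ?_ ?_ ?_ ?_ ?_ ?_ ?_ ?_ ?_ <;>
            clear hc <;> push_cast <;> linarith
        · refine sound6 vm_bRLRR 1 one_pos hc ?_ ?_ ?_ ?_ ?_ ?_ ?_ ?_ ?_ ?_ ?_ ?_ <;>
            clear hc <;> push_cast <;> linarith
    · rcases le_total (32 * h) (21) with cRR | cRR
      · rcases le_total (64 * h) (39) with cRRL | cRRL
        · rcases le_total (1 * s) (1) with cRRLL | cRRLL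
          · refine sound6 vm_bRRLLL 1 one_pos hc ?_ ?_ ?_ ?_ ?_ ?_ ?_ ?_ ?_ ?_ ?_ ?_ <;>
              clear hc <;> push_cast <;> linarith
          · rcases le_total (2 * s) (3) with cRRLLR | cRRLLR
            · refine sound6 vm_bRRLLRL 1 one_pos hc ?_ ?_ ?_ ?_ ?_ ?_ ?_ ?_ ?_ ?_ ?_ ?_ <;>
                clear hc <;> push_cast <;> linarith
            · refine sound6 vm_bRRLLRR 1 one_pos hc ?_ ?_ ?_ ?_ ?_ ?_ ?_ ?_ ?_ ?_ ?_ ?_ <;>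
                clear hc <;> push_cast <;> linarith
        · rcases le_total (1 * s) (1) with cRRLR | cRRLR
          · refine sound6 vm_bRRLRL 1 one_pos hc ?_ ?_ ?_ ?_ ?_ ?_ ?_ ?_ ?_ ?_ ?_ ?_ <;>
              clear hc <;> push_cast <;> linarith
          · rcases le_total (2 * s) (3) with cRRLRR | cRRLRR
            · refine sound6 vm_bRRLRRL 1 one_pos hc ?_ ?_ ?_ ?_ ?_ ?_ ?_ ?_ ?_ ?_ ?_ ?_ <;>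
                clear hc <;> push_cast <;> linarith
            · refine sound6 vm_bRRLRRR 1 one_pos hc ?_ ?_ ?_ ?_ ?_ ?_ ?_ ?_ ?_ ?_ ?_ ?_ <;>
                clear hc <;> push_cast <;> linarith
      · rcases le_total (1 * s) (1) with cRRR | cRRR
        · rcases le_total (2 * u) (1) with cRRRL | cRRRL
          · refine sound6 vm_bRRRLL 1 one_pos hc ?_ ?_ ?_ ?_ ?_ ?_ ?_ ?_ ?_ ?_ ?_ ?_ <;>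
              clear hc <;> push_cast <;> linarith
          · refine sound6 vm_bRRRLR 1 one_pos hc ?_ ?_ ?_ ?_ ?_ ?_ ?_ ?_ ?_ ?_ ?_ ?_ <;>
              clear hc <;> push_cast <;> linarith
        · rcases le_total (2 * s) (3) with cRRRR | cRRRR
          · refine sound6 vm_bRRRRL 1 one_pos hc ?_ ?_ ?_ ?_ ?_ ?_ ?_ ?_ ?_ ?_ ?_ ?_ <;>
              clear hc <;> push_cast <;> linarith
          · refine sound6 vm_bRRRRR 1 one_pos hc ?_ ?_ ?_ ?_ ?_ ?_ ?_ ?_ ?_ ?_ ?_ ?_ <;>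
              clear hc <;> push_cast <;> linarith

theorem slv_c {h s k u v : ℝ} (hc : P5 pCA h s k u v ≤ 0)
    (a0 : (3 : ℝ) ≤ 4 * h) (b0 : 4 * h ≤ (4 : ℝ))
    (a1 : (0 : ℝ) ≤ 1 * s) (b1 : 1 * s ≤ (2 : ℝ))
    (a2 : (1 : ℝ) ≤ 8 * k) (b2 : 8 * k ≤ (4 : ℝ))
    (a3 : (-3 : ℝ) ≤ 4 * u) (b3 : 4 * u ≤ (3 : ℝ))
    (a4 : (-3 : ℝ) ≤ 4 * v) (b4 : 4 * v ≤ (3 : ℝ)) :
    0 ≤ P5 pVA h s k u v := by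
  rcases le_total (1 * s) (1) with c | c
  · rcases le_total (8 * v) (3) with cL | cL
    · refine sound6 vm_cLL 1 one_pos hc ?_ ?_ ?_ ?_ ?_ ?_ ?_ ?_ ?_ ?_ ?_ ?_ <;>
        clear hc <;> push_cast <;> linarith
    · refine sound6 vm_cLR 1 one_pos hc ?_ ?_ ?_ ?_ ?_ ?_ ?_ ?_ ?_ ?_ ?_ ?_ <;>
        clear hc <;> push_cast <;> linarith
  · rcases le_total (2 * s) (3) with cR | cR
    · refine sound6 vm_cRL 1 one_pos hc ?_ ?_ ?_ ?_ ?_ ?_ ?_ ?_ ?_ ?_ ?_ ?_ <;>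
        clear hc <;> push_cast <;> linarith
    · rcases le_total (8 * u) (-3) with cRR | cRR
      · refine sound6 vm_cRRL 1 one_pos hc ?_ ?_ ?_ ?_ ?_ ?_ ?_ ?_ ?_ ?_ ?_ ?_ <;>
          clear hc <;> push_cast <;> linarith
      · refine sound6 vm_cRRR 1 one_pos hc ?_ ?_ ?_ ?_ ?_ ?_ ?_ ?_ ?_ ?_ ?_ ?_ <;>
          clear hc <;> push_cast <;> linarith

theorem slv_d {h s k u v : ℝ} (hc : P5 pCA h s k u v ≤ 0)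
    (a0 : (3 : ℝ) ≤ 4 * h) (b0 : 4 * h ≤ (4 : ℝ))
    (a1 : (0 : ℝ) ≤ 1 * s) (b1 : 1 * s ≤ (1 : ℝ))
    (a2 : (-3 : ℝ) ≤ 4 * k) (b2 : 4 * k ≤ (-1 : ℝ))
    (a3 : (-3 : ℝ) ≤ 4 * u) (b3 : 4 * u ≤ (3 : ℝ))
    (a4 : (-3 : ℝ) ≤ 4 * v) (b4 : 4 * v ≤ (3 : ℝ)) :
    0 ≤ P5 pVA h s k u v := by
  rcases le_total (16 * h) (13) with c | c
  · refine sound6 vm_dL 1 one_pos hc ?_ ?_ ?_ ?_ ?_ ?_ ?_ ?_ ?_ ?_ ?_ ?_ <;>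
      clear hc <;> push_cast <;> linarith
  · rcases le_total (1 * u) (0) with cR | cR
    · refine sound6 vm_dRL 1 one_pos hc ?_ ?_ ?_ ?_ ?_ ?_ ?_ ?_ ?_ ?_ ?_ ?_ <;>
        clear hc <;> push_cast <;> linarith
    · refine sound6 vm_dRR 1 one_pos hc ?_ ?_ ?_ ?_ ?_ ?_ ?_ ?_ ?_ ?_ ?_ ?_ <;>
        clear hc <;> push_cast <;> linarith

theorem slv_e {h s k u v : ℝ} (hc : P5 pCA h s k u v ≤ 0)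
    (a0 : (3 : ℝ) ≤ 4 * h) (b0 : 4 * h ≤ (4 : ℝ))
    (a1 : (0 : ℝ) ≤ 4 * s) (b1 : 4 * s ≤ (3 : ℝ))
    (a2 : (-2 : ℝ) ≤ 8 * k) (b2 : 8 * k ≤ (1 : ℝ))
    (a3 : (-3 : ℝ) ≤ 4 * u) (b3 : 4 * u ≤ (3 : ℝ))
    (a4 : (-3 : ℝ) ≤ 4 * v) (b4 : 4 * v ≤ (3 : ℝ)) :
    0 ≤ P5 pVA h s k u v := by
  rcases le_total (1 * u) (0) with c | c
  · refine sound6 vm_eL 1 one_pos hc ?_ ?_ ?_ ?_ ?_ ?_ ?_ ?_ ?_ ?_ ?_ ?_ <;>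
      clear hc <;> push_cast <;> linarith
  · refine sound6 vm_eR 1 one_pos hc ?_ ?_ ?_ ?_ ?_ ?_ ?_ ?_ ?_ ?_ ?_ ?_ <;>
      clear hc <;> push_cast <;> linarith

theorem slv_f {h s k u v : ℝ} (hc : P5 pCA h s k u v ≤ 0)
    (a0 : (3 : ℝ) ≤ 4 * h) (b0 : 4 * h ≤ (4 : ℝ))
    (a1 : (5 : ℝ) ≤ 4 * s) (b1 : 4 * s ≤ (6 : ℝ))
    (a2 : (0 : ℝ) ≤ 8 * k) (b2 : 8 * k ≤ (1 : ℝ))
    (a3 : (-3 : ℝ) ≤ 4 * u) (b3 : 4 * u ≤ (3 : ℝ))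
    (a4 : (-3 : ℝ) ≤ 4 * v) (b4 : 4 * v ≤ (3 : ℝ)) :
    0 ≤ P5 pVA h s k u v := by
  refine sound6 vm_f 1 one_pos hc ?_ ?_ ?_ ?_ ?_ ?_ ?_ ?_ ?_ ?_ ?_ ?_ <;>
    clear hc <;> push_cast <;> linarith

theorem slv_g {h s k u v : ℝ} (hc : P5 pCA h s k u v ≤ 0)
    (a0 : (3 : ℝ) ≤ 4 * h) (b0 : 4 * h ≤ (4 : ℝ))
    (a1 : (3 : ℝ) ≤ 4 * s) (b1 : 4 * s ≤ (5 : ℝ))
    (a2 : (-2 : ℝ) ≤ 8 * k) (b2 : 8 * k ≤ (1 : ℝ))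
    (a3 : (-3 : ℝ) ≤ 4 * u) (b3 : 4 * u ≤ (-1 : ℝ))
    (a4 : (-3 : ℝ) ≤ 4 * v) (b4 : 4 * v ≤ (3 : ℝ)) :
    0 ≤ P5 pVA h s k u v := by
  refine sound6 vm_g 1 one_pos hc ?_ ?_ ?_ ?_ ?_ ?_ ?_ ?_ ?_ ?_ ?_ ?_ <;>
    clear hc <;> push_cast <;> linarith

theorem slv_h {h s k u v : ℝ} (hc : P5 pCA h s k u v ≤ 0)
    (a0 : (3 : ℝ) ≤ 4 * h) (b0 : 4 * h ≤ (4 : ℝ))
    (a1 : (3 : ℝ) ≤ 4 * s) (b1 : 4 * s ≤ (5 : ℝ))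
    (a2 : (-2 : ℝ) ≤ 8 * k) (b2 : 8 * k ≤ (1 : ℝ))
    (a3 : (1 : ℝ) ≤ 4 * u) (b3 : 4 * u ≤ (3 : ℝ))
    (a4 : (-3 : ℝ) ≤ 4 * v) (b4 : 4 * v ≤ (3 : ℝ)) :
    0 ≤ P5 pVA h s k u v := by
  rcases le_total (8 * u) (3) with c | c
  · rcases le_total (16 * h) (13) with cL | cL
    · refine sound6 vm_hLL 1 one_pos hc ?_ ?_ ?_ ?_ ?_ ?_ ?_ ?_ ?_ ?_ ?_ ?_ <;>
        clear hc <;> push_cast <;> linarith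
    · refine sound6 vm_hLR 1 one_pos hc ?_ ?_ ?_ ?_ ?_ ?_ ?_ ?_ ?_ ?_ ?_ ?_ <;>
        clear hc <;> push_cast <;> linarith
  · refine sound6 vm_hR 1 one_pos hc ?_ ?_ ?_ ?_ ?_ ?_ ?_ ?_ ?_ ?_ ?_ ?_ <;>
      clear hc <;> push_cast <;> linarith

theorem slv_i {h s k u v : ℝ} (hc : P5 pCA h s k u v ≤ 0)
    (a0 : (3 : ℝ) ≤ 4 * h) (b0 : 4 * h ≤ (4 : ℝ))
    (a1 : (3 : ℝ) ≤ 4 * s) (b1 : 4 * s ≤ (5 : ℝ))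
    (a2 : (-2 : ℝ) ≤ 8 * k) (b2 : 8 * k ≤ (1 : ℝ))
    (a3 : (-1 : ℝ) ≤ 4 * u) (b3 : 4 * u ≤ (1 : ℝ))
    (a4 : (-3 : ℝ) ≤ 4 * v) (b4 : 4 * v ≤ (-1 : ℝ)) :
    0 ≤ P5 pVA h s k u v := by
  rcases le_total (2 * v) (-1) with c | c
  · refine sound6 vm_iL 1 one_pos hc ?_ ?_ ?_ ?_ ?_ ?_ ?_ ?_ ?_ ?_ ?_ ?_ <;>
      clear hc <;> push_cast <;> linarith
  · refine sound6 vm_iR 1 one_pos hc ?_ ?_ ?_ ?_ ?_ ?_ ?_ ?_ ?_ ?_ ?_ ?_ <;>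
      clear hc <;> push_cast <;> linarith

theorem slv_j {h s k u v : ℝ} (hc : P5 pCA h s k u v ≤ 0)
    (a0 : (3 : ℝ) ≤ 4 * h) (b0 : 4 * h ≤ (4 : ℝ))
    (a1 : (3 : ℝ) ≤ 4 * s) (b1 : 4 * s ≤ (5 : ℝ))
    (a2 : (-2 : ℝ) ≤ 8 * k) (b2 : 8 * k ≤ (1 : ℝ))
    (a3 : (-1 : ℝ) ≤ 4 * u) (b3 : 4 * u ≤ (1 : ℝ))
    (a4 : (1 : ℝ) ≤ 4 * v) (b4 : 4 * v ≤ (3 : ℝ)) :
    0 ≤ P5 pVA h s k u v := by
  refine sound6 vm_j 1 one_pos hc ?_ ?_ ?_ ?_ ?_ ?_ ?_ ?_ ?_ ?_ ?_ ?_ <;>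
    clear hc <;> push_cast <;> linarith

end Pool.Agent.MP_90395b_gt.Bn
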