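import Pool.Agent.MP_90395b_gt.BnLinkV
import Pool.Agent.MP_90395b_gt.BnLinkB
import Pool.Agent.MP_90395b_gt.BnBoxX
import Pool.Agent.MP_90395b_gt.BnSlabV

namespace Pool.Agent.MP_90395b_gt.Bn

open Pool.Agent.MP_90395b_gt.As

theorem locV {h s k u v : ℝ} (hb : h ^ 2 + k ^ 2 + u ^ 2 + v ^ 2 ≤ 1) (a0 : 3 ≤ 4 * h)
    (b0 : h ≤ 1) (a1 : 3 ≤ 4 * s) (b1 : 4 * s ≤ 5) (a2 : -1 ≤ 4 * k) (b2 : 8 * k ≤ 1)
    (a3 : -1 ≤ 4 * u) (b3 : 4 * u ≤ 1) (a4 : -1 ≤ 4 * v) (b4 : 4 * v ≤ 1) :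
    0 ≤ P5 pVA h s k u v := by
  obtain ⟨r, h1, h2⟩ := list_max (-7 / 2 * (s - 1)) [7 / 2 * (s - 1), -7 / 2 * k, 7 * k,
    -7 / 2 * u, 7 / 2 * u, -7 / 2 * v, 7 / 2 * v, -7 / 2 * (h - 1)]
  simp only [List.mem_cons, List.not_mem_nil, or_false, forall_eq_or_imp, forall_eq] at h1 h2
  obtain ⟨q0, q1, q2, q3, q4, q5, q6, q7, q8⟩ := h2
  rcases le_or_gt r 0 with hr | hr
  · obtain rfl : h = 1 := by linarith
    obtain rfl : s = 1 := by linarith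
    obtain rfl : k = 0 := by linarith
    obtain rfl : u = 0 := by linarith
    obtain rfl : v = 0 := by linarith
    rw [P5_VA]
    norm_num [P1s, cH, gh]
  have gA : 0 ≤ P5 (shAt 1 (shAt 0 pVA)) (h - 1) (s - 1) k u v → 0 ≤ P5 pVA h s k u v := by
    rw [P5_sh01, sub_add_cancel, sub_add_cancel]; exact id
  have gB : 0 ≤ P5 (shAt 1 (shAt 2 pVB)) k (s - 1) (h - 1) u v → 0 ≤ P5 pVA h s k u v := by
    rw [P5_sh12, sub_add_cancel, sub_add_cancel, P5_VB]; exact id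
  have cA : P5 (shAt 1 (shAt 0 pCA)) (h - 1) (s - 1) k u v ≤ 0 := by
    rw [P5_sh01, sub_add_cancel, sub_add_cancel, P5_CA]; linarith
  have cB : P5 (shAt 1 (shAt 2 pCB)) k (s - 1) (h - 1) u v ≤ 0 := by
    rw [P5_sh12, sub_add_cancel, sub_add_cancel, P5_CB]; linarith
  clear hb
  rcases h1 with e | e | e | e | e | e | e | e | e
  · refine gA (sound6 vb_s0 r hr cA ?_ ?_ ?_ ?_ ?_ ?_ ?_ ?_ ?_ ?_ ?_ ?_) <;>
      clear gA gB cA cB <;> push_cast <;> linarith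
  · refine gA (sound6 vb_s1 r hr cA ?_ ?_ ?_ ?_ ?_ ?_ ?_ ?_ ?_ ?_ ?_ ?_) <;>
      clear gA gB cA cB <;> push_cast <;> linarith
  · refine gA (sound6 vb_k0 r hr cA ?_ ?_ ?_ ?_ ?_ ?_ ?_ ?_ ?_ ?_ ?_ ?_) <;>
      clear gA gB cA cB <;> push_cast <;> linarith
  · refine gA (sound6 vb_k1 r hr cA ?_ ?_ ?_ ?_ ?_ ?_ ?_ ?_ ?_ ?_ ?_ ?_) <;>
      clear gA gB cA cB <;> push_cast <;> linarith
  · refine gA (sound6 vb_u0 r hr cA ?_ ?_ ?_ ?_ ?_ ?_ ?_ ?_ ?_ ?_ ?_ ?_) <;>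
      clear gA gB cA cB <;> push_cast <;> linarith
  · refine gA (sound6 vb_u1 r hr cA ?_ ?_ ?_ ?_ ?_ ?_ ?_ ?_ ?_ ?_ ?_ ?_) <;>
      clear gA gB cA cB <;> push_cast <;> linarith
  · refine gA (sound6 vb_v0 r hr cA ?_ ?_ ?_ ?_ ?_ ?_ ?_ ?_ ?_ ?_ ?_ ?_) <;>
      clear gA gB cA cB <;> push_cast <;> linarith
  · refine gA (sound6 vb_v1 r hr cA ?_ ?_ ?_ ?_ ?_ ?_ ?_ ?_ ?_ ?_ ?_ ?_) <;>
      clear gA gB cA cB <;> push_cast <;> linarith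
  · refine gB (sound6 vb_h0 r hr cB ?_ ?_ ?_ ?_ ?_ ?_ ?_ ?_ ?_ ?_ ?_ ?_) <;>
      clear gA gB cA cB <;> push_cast <;> linarith

theorem boxV0 {h s k u v : ℝ} (h0 : 0 ≤ h) (k1 : k ≤ 1 / 2) (s0 : 0 ≤ s) (s2 : s ≤ 2)
    (c1 : k ≤ 0 → s ≤ 1) (c2 : 3 / 4 ≤ h → k ≤ 1 / 8 → s ≤ 3 / 2)
    (hb : h ^ 2 + k ^ 2 + u ^ 2 + v ^ 2 ≤ 1) : 0 ≤ P5 pVA h s k u v := by
  have hc : P5 pCA h s k u v ≤ 0 := by rw [P5_CA]; linarith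
  have h2 := sq_nonneg h
  have k2 := sq_nonneg k
  have u2 := sq_nonneg u
  have v2 := sq_nonneg v
  obtain ⟨-, h1⟩ := abs_le_of_sq_le_sq' (a := h) (b := 1) (by linarith) zero_le_one
  rcases le_total h (3 / 4) with d1 | d1
  · obtain ⟨k0, -⟩ := abs_le_of_sq_le_sq' (a := k) (b := 1) (by linarith) zero_le_one
    obtain ⟨u0, u1⟩ := abs_le_of_sq_le_sq' (a := u) (b := 1) (by linarith) zero_le_one
    obtain ⟨v0, v1⟩ := abs_le_of_sq_le_sq' (a := v) (b := 1) (by linarith) zero_le_one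
    rcases le_total k 0 with d2 | d2
    · have := c1 d2
      refine slv_a hc ?_ ?_ ?_ ?_ ?_ ?_ ?_ ?_ ?_ ?_ <;>
      clear hc hb h2 k2 u2 v2 <;> linarith
    · refine slv_b hc ?_ ?_ ?_ ?_ ?_ ?_ ?_ ?_ ?_ ?_ <;>
      clear hc hb h2 k2 u2 v2 <;> linarith
  have h3 : (3 / 4) ^ 2 ≤ h ^ 2 := pow_le_pow_left₀ (by norm_num) d1 2
  obtain ⟨k0, -⟩ := abs_le_of_sq_le_sq' (a := k) (b := 3 / 4) (by linarith) (by norm_num)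
  obtain ⟨u0, u1⟩ := abs_le_of_sq_le_sq' (a := u) (b := 3 / 4) (by linarith) (by norm_num)
  obtain ⟨v0, v1⟩ := abs_le_of_sq_le_sq' (a := v) (b := 3 / 4) (by linarith) (by norm_num)
  rcases le_total (1 / 8) k with d2 | d2
  · refine slv_c hc ?_ ?_ ?_ ?_ ?_ ?_ ?_ ?_ ?_ ?_ <;>
      clear hc hb h2 k2 u2 v2 <;> linarith
  have s3 := c2 d1 d2
  rcases le_total k (-1 / 4) with d3 | d3
  · have := c1 (by linarith)
    refine slv_d hc ?_ ?_ ?_ ?_ ?_ ?_ ?_ ?_ ?_ ?_ <;>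
      clear hc hb h2 k2 u2 v2 <;> linarith
  rcases le_total s (3 / 4) with d4 | d4
  · refine slv_e hc ?_ ?_ ?_ ?_ ?_ ?_ ?_ ?_ ?_ ?_ <;>
      clear hc hb h2 k2 u2 v2 <;> linarith
  rcases le_total (5 / 4) s with d5 | d5
  · have : 0 ≤ k := by
      by_contra hk
      linarith [c1 (le_of_not_ge hk)]
    refine slv_f hc ?_ ?_ ?_ ?_ ?_ ?_ ?_ ?_ ?_ ?_ <;>
      clear hc hb h2 k2 u2 v2 <;> linarith
  rcases le_total u (-1 / 4) with d6 | d6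
  · refine slv_g hc ?_ ?_ ?_ ?_ ?_ ?_ ?_ ?_ ?_ ?_ <;>
      clear hc hb h2 k2 u2 v2 <;> linarith
  rcases le_total (1 / 4) u with d7 | d7
  · refine slv_h hc ?_ ?_ ?_ ?_ ?_ ?_ ?_ ?_ ?_ ?_ <;>
      clear hc hb h2 k2 u2 v2 <;> linarith
  rcases le_total v (-1 / 4) with d8 | d8
  · refine slv_i hc ?_ ?_ ?_ ?_ ?_ ?_ ?_ ?_ ?_ ?_ <;>
      clear hc hb h2 k2 u2 v2 <;> linarith
  rcases le_total (1 / 4) v with d9 | d9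
  · refine slv_j hc ?_ ?_ ?_ ?_ ?_ ?_ ?_ ?_ ?_ ?_ <;>
      clear hc hb h2 k2 u2 v2 <;> linarith
  refine locV hb ?_ ?_ ?_ ?_ ?_ ?_ ?_ ?_ ?_ ?_ <;> clear hc hb h2 k2 u2 v2 <;> linarith

theorem boxV : BoxV := by
  intro h k u v s h0 k1 s0 s2 c1 c2 hb
  have key := boxV0 h0 k1 s0 s2 c1 c2 hb
  rw [P5_VA, P1s_eq] at key
  have := (mul_nonneg_iff_of_pos_left (by positivity)).1 key
  linarith

end Pool.Agent.MP_90395b_gt.Bn
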