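import Pool.Agent.MP_90395b_gt.BnSpl

namespace Pool.Agent.MP_90395b_gt.Bn

open Finset

theorem hb_spec {B b N : ℕ} (hb' : b < B) {f : ℕ → ℕ} (hf : Bd N (2 ^ B) f)
    (h : hb B b N (pk B N f) = true) : ∀ i < N, 2 ^ b ≤ f i := by
  have h1 : pk B N f &&& (geo B N <<< b) = geo B N <<< b := Nat.eq_of_beq_eq_true h
  rw [Nat.shiftLeft_eq, mul_comm] at h1
  exact high_pk hb' hf h1

theorem ck_rep {B n : ℕ} (hB : 0 < B) (hn : 0 < n) (m : ℕ) (f : ℕ → ℕ) :
    pk B n f * geo (B * n) m = pk B (m * n) (fun i => f (i % n)) := by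
  rw [geo_eq (by positivity), pk, pk, pk, sum_range_mul', mul_sum]
  refine sum_congr rfl fun a _ => ?_
  rw [sum_mul]
  refine sum_congr rfl fun b hb => ?_
  rw [add_comm, Nat.add_mul_mod_self_right, Nat.mod_eq_of_lt (mem_range.1 hb), one_mul,
    mul_assoc, ← pow_add]
  congr 2
  ring

theorem ck_low {ds : List ℕ} {x : ℕ → ℝ} (hx : Cube x) {f : ℕ → ℕ} {k : ℕ}
    (h : ∀ i < sz ds, 2 ^ k ≤ f i) : (2 : ℝ) ^ k ≤ bv ds x f := by
  rw [← val_const ds x (2 ^ k)]
  exact val_mono ds (fun j a => bb_nonneg _ (hx j).1 (hx j).2 a) fun i hi => by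
    exact_mod_cast h i hi

theorem ck_cube {x : ℕ → ℝ} (hx : Cube x) (j : ℕ) {y : ℝ} (h0 : 0 ≤ y) (h1 : y ≤ 1) :
    Cube (Function.update x j y) := fun i => by
  by_cases h : i = j
  · rw [h, Function.update_self]
    exact ⟨h0, h1⟩
  · rw [Function.update_of_ne h]
    exact hx i

theorem ck_leaf {B w d p : ℕ} {t : List ℕ} (h0 : 0 < w) (hw : w < B) {f1 f2 : ℕ → ℕ}
    (h1 : Bd (sz (d :: t)) (2 ^ w) f1) (h2 : Bd (sz (0 :: t)) (2 ^ w) f2) (hp : p < 2 ^ (B - w))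
    (h : hb B (B - 1) (sz (d :: t)) ((2 ^ (B - w) - p) * pk B (sz (d :: t)) f1 +
      p * pk B (sz (0 :: t)) f2 * geo (B * sz t) (d + 1)) = true) :
    Imp (d :: t) (0 :: t) (2 ^ (w - 1)) f1 f2 := by
  have e0 : sz (0 :: t) = sz t := by rw [sz, zero_add, one_mul]
  have hn := sz_pos t
  obtain ⟨q, hq⟩ := Nat.exists_eq_add_of_lt hp
  have hq' : 2 ^ (B - w) - p = q + 1 := by omega
  rw [e0] at h h2
  rw [hq', mul_assoc, ck_rep (by omega) hn, show (d + 1) * sz t = sz (d :: t) from rfl,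
    ← pk_mul, ← pk_mul, ← pk_add] at h
  have hB : 2 ^ B = (p + q + 1) * 2 ^ w := by
    rw [← hq, ← pow_add]
    congr 1
    omega
  have hB' : (2 : ℝ) ^ (B - 1) = ((p : ℝ) + q + 1) * 2 ^ (w - 1) := by
    have : (2 : ℝ) ^ (B - w) = (p : ℝ) + q + 1 := by exact_mod_cast hq
    rw [← this, ← pow_add]
    congr 1
    omega
  have h3 := hb_spec (by omega) (fun i hi => by
    have a1 := Nat.mul_lt_mul_of_pos_left (k := q + 1) (h1 i hi) (by omega)
    have a2 := Nat.mul_le_mul_left p (h2 _ (Nat.mod_lt i hn)).le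
    rw [hB]
    linarith) h
  intro x hx hK
  have h4 := ck_low hx h3
  have e : bv (d :: t) x (fun i => (q + 1) * f1 i + p * f2 (i % sz t)) =
      ((q : ℝ) + 1) * bv (d :: t) x f1 + p * bv (0 :: t) x f2 := by
    rw [← bv_rep d t x f2]
    unfold bv
    rw [← val_smul, ← val_smul, ← val_add]
    exact val_congr _ _ fun i _ => by push_cast; rfl
  rw [e, hB'] at h4
  have h5 := mul_le_mul_of_nonneg_left hK (Nat.cast_nonneg (α := ℝ) p)
  exact le_of_mul_le_mul_left (a := (q : ℝ) + 1) (by linarith) (by positivity)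

theorem chk_sound {B w d : ℕ} {t : List ℕ} (h0 : 0 < w) (hw : w < B) (tr : Tr) :
    ∀ f1 f2 : ℕ → ℕ, Bd (sz (d :: t)) (2 ^ w) f1 → Bd (sz (0 :: t)) (2 ^ w) f2 →
      chk B w d t tr (pk B (sz (d :: t)) f1) (pk B (sz (0 :: t)) f2) = true →
      Imp (d :: t) (0 :: t) (2 ^ (w - 1)) f1 f2 := by
  induction tr with
  | z =>
    intro f1 f2 h1 _ h x hx _
    exact ck_low hx (hb_spec (B := B) (b := w - 1) (by omega)
      (h1.mono (Nat.pow_le_pow_right two_pos hw.le)) h)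
  | l p =>
    intro f1 f2 h1 h2 h
    obtain ⟨a, b⟩ := (an_eq _ _).1 h
    have a' : p < 1 <<< (B - w) := Nat.blt_eq.mp a
    rw [Nat.one_shiftLeft] at a'
    refine ck_leaf h0 hw h1 h2 a' ?_
    rw [← Nat.one_shiftLeft]
    exact b
  | s j ta tb iha ihb =>
    intro f1 f2 h1 h2 h
    obtain ⟨a, h⟩ := (an_eq _ _).1 h
    obtain ⟨b, h⟩ := (an_eq _ _).1 h
    have a' : j ≤ t.length := Nat.ble_eq.mp a
    have b' : w + (d :: t).getD j 0 ≤ B := Nat.ble_eq.mp b
    have b'' : w + (0 :: t).getD j 0 ≤ B := by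
      refine le_trans ?_ b'
      rcases j with _ | j <;> simp
    obtain ⟨l, r, hl, hr, e, sl, sr⟩ := spl_spec (B := B) (j := j) (ds := d :: t) (by omega)
      (Nat.lt_succ_of_le a') b' h1
    obtain ⟨l', r', hl', hr', e', sl', sr'⟩ := spl_spec (B := B) (j := j) (ds := 0 :: t)
      (by omega) (Nat.lt_succ_of_le a') b'' h2
    rw [e, e', an_eq] at h
    intro x hx hK
    have := hx j
    rcases le_total (x j) (1 / 2) with c | c
    · exact (iha l l' hl hl' h.1 _ (ck_cube hx j (by linarith) (by linarith))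
        ((sl' x hx c).trans hK)).trans (sl x hx c)
    · exact (ihb r r' hr hr' h.2 _ (ck_cube hx j (by linarith) (by linarith))
        ((sr' x hx c).trans hK)).trans (sr x hx c)

end Pool.Agent.MP_90395b_gt.Bn
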