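import Pool.Agent.MP_90395b_gt.BnDefs

namespace Pool.Agent.MP_90395b_gt.Bn

set_option maxRecDepth 4000 in
def pVA : Po :=
  (.n (.n (.n (.n (.n (.c 1000) .o) .o) .o) (.n .o (.n (.n (.n (.n (.c 4000) .o) .o) .o) (.n .o (.n
  (.n (.n (.n (.c 6000) .o) .o) .o) (.n .o (.n (.n (.n (.n (.c 4000) .o) .o) .o) (.n .o (.n (.n (.n
  (.n (.c 1000) .o) .o) .o) .o))))))))) (.n (.n .o (.n .o (.n (.n .o (.n (.n (.n (.c (-5572)) (.n
  .o (.n (.c 4876) (.n .o (.n (.c 444) (.n .o (.n (.c (-2112)) .o))))))) (.n .o (.n (.n (.c 4876)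
  (.n .o (.n (.c 888) (.n .o (.n (.c (-6336)) .o))))) (.n .o (.n (.n (.c 444) (.n .o (.n (.c
  (-6336)) .o))) (.n .o (.n (.n (.c (-2112)) .o) .o))))))) (.n (.n (.n .o (.n (.c (-2211)) (.n .o
  (.n (.c 9898) (.n .o (.n (.c (-14916)) .o)))))) (.n .o (.n (.n .o (.n (.c 8244) (.n .o (.n (.c
  (-29334)) .o)))) (.n .o (.n (.n .o (.n (.c (-14418)) .o)) .o))))) (.n (.n (.n (.c (-7087)) (.n .o
  (.n (.c 27030) (.n .o (.n (.c (-42900)) .o))))) (.n .o (.n (.n (.c 7356) (.n .o (.n (.c (-49986))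
  .o))) (.n .o (.n (.n (.c (-8082)) .o) .o))))) (.n (.n (.n .o (.n (.c 26142) (.n .o (.n (.c
  (-64680)) .o)))) (.n .o (.n (.n .o (.n (.c (-37314)) .o)) .o))) (.n (.n (.n (.c 8566) (.n .o (.n
  (.c (-54120)) .o))) (.n .o (.n (.n (.c (-10326)) .o) .o))) (.n (.n (.n .o (.n (.c (-23892)) .o))
  .o) (.n (.n (.n (.c (-4356)) .o) .o) .o)))))))) (.n (.n .o (.n .o (.n (.n .o (.n (.n (.c 1474)
  (.n .o (.n (.c (-8804)) (.n .o (.n (.c 10608) .o))))) (.n .o (.n (.n (.c (-5496)) (.n .o (.n (.c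
  20220) .o))) (.n .o (.n (.n (.c 9612) .o) .o)))))) (.n (.n .o (.n (.n .o (.n (.c (-26232)) (.n .o
  (.n (.c 47752) .o)))) (.n .o (.n (.n .o (.n (.c 45096) .o)) .o)))) (.n (.n .o (.n (.n (.c
  (-17428)) (.n .o (.n (.c 79608) .o))) (.n .o (.n (.n (.c 24876) .o) .o)))) (.n (.n .o (.n (.n .o
  (.n (.c 58392) .o)) .o)) (.n (.n .o (.n (.n (.c 15928) .o) .o)) .o))))))) (.n (.n .o (.n (.n (.n
  (.c (-16716)) (.n .o (.n (.c 14628) (.n .o (.n (.c 1332) (.n .o (.n (.c (-6336)) .o))))))) (.n .o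
  (.n (.n (.c 14628) (.n .o (.n (.c 2664) (.n .o (.n (.c (-19008)) .o))))) (.n .o (.n (.n (.c 1332)
  (.n .o (.n (.c (-19008)) .o))) (.n .o (.n (.n (.c (-6336)) .o) .o))))))) (.n (.n (.n .o (.n (.c
  (-5159)) (.n .o (.n (.c 22544) (.n .o (.n (.c (-34638)) .o)))))) (.n .o (.n (.n .o (.n (.c 20890)
  (.n .o (.n (.c (-68778)) .o)))) (.n .o (.n (.n .o (.n (.c (-34140)) .o)) .o))))) (.n (.n (.n (.c
  (-8561)) (.n .o (.n (.c 39676) (.n .o (.n (.c (-72234)) .o))))) (.n .o (.n (.n (.c 20002) (.n .o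
  (.n (.c (-110646)) .o))) (.n .o (.n (.n (.c (-37416)) .o) .o))))) (.n (.n (.n .o (.n (.c 31458)
  (.n .o (.n (.c (-78678)) .o)))) (.n .o (.n (.n .o (.n (.c (-104002)) .o)) .o))) (.n (.n (.n (.c
  12994) (.n .o (.n (.c (-53970)) .o))) (.n .o (.n (.n (.c (-43126)) .o) .o))) (.n (.n (.n .o (.n
  (.c (-25668)) .o)) .o) (.n (.n (.n (.c (-6444)) .o) .o) .o)))))))) (.n (.n .o (.n .o (.n (.n .o
  (.n (.n (.c 2948) (.n .o (.n (.c (-17608)) (.n .o (.n (.c 21216) .o))))) (.n .o (.n (.n (.c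
  (-10992)) (.n .o (.n (.c 40440) .o))) (.n .o (.n (.n (.c 19224) .o) .o)))))) (.n (.n .o (.n (.n
  .o (.n (.c (-26232)) (.n .o (.n (.c 47752) .o)))) (.n .o (.n (.n .o (.n (.c 45096) .o)) .o))))
  (.n (.n .o (.n (.n (.c (-11224)) (.n .o (.n (.c 24416) .o))) (.n .o (.n (.n (.c 41408) .o) .o))))
  (.n (.n .o (.n (.n .o (.n (.c 5672) .o)) .o)) (.n (.n .o (.n (.n (.c 7792) .o) .o)) .o))))))) (.n
  (.n .o (.n (.n (.n (.c (-16716)) (.n .o (.n (.c 14628) (.n .o (.n (.c 1332) (.n .o (.n (.c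
  (-6336)) .o))))))) (.n .o (.n (.n (.c 14628) (.n .o (.n (.c 2664) (.n .o (.n (.c (-19008))
  .o))))) (.n .o (.n (.n (.c 1332) (.n .o (.n (.c (-19008)) .o))) (.n .o (.n (.n (.c (-6336)) .o)
  .o))))))) (.n (.n (.n .o (.n (.c (-3685)) (.n .o (.n (.c 15394) (.n .o (.n (.c (-24528)) .o))))))
  (.n .o (.n (.n .o (.n (.c 17048) (.n .o (.n (.c (-49554)) .o)))) (.n .o (.n (.n .o (.n (.c
  (-25026)) .o)) .o))))) (.n (.n (.n (.c 4139) (.n .o (.n (.c 11378) (.n .o (.n (.c (-39312))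
  .o))))) (.n .o (.n (.n (.c 4820) (.n .o (.n (.c (-69342)) .o))) (.n .o (.n (.n (.c (-27706)) .o)
  .o))))) (.n (.n (.n .o (.n (.c 8122) (.n .o (.n (.c (-45426)) .o)))) (.n .o (.n (.n .o (.n (.c
  (-9564)) .o)) .o))) (.n (.n (.n (.c 2066) (.n .o (.n (.c (-30642)) .o))) (.n .o (.n (.n (.c
  (-2864)) .o) .o))) (.n (.n (.n .o (.n (.c (-4424)) .o)) .o) (.n (.n (.n (.c 1912) .o) .o)
  .o)))))))) (.n (.n .o (.n .o (.n (.n .o (.n (.n (.c 1474) (.n .o (.n (.c (-8804)) (.n .o (.n (.c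
  10608) .o))))) (.n .o (.n (.n (.c (-5496)) (.n .o (.n (.c 20220) .o))) (.n .o (.n (.n (.c 9612)
  .o) .o)))))) (.n .o (.n (.n .o (.n (.n (.c 6204) (.n .o (.n (.c 8036) .o))) (.n .o (.n (.n (.c
  (-4544)) .o) .o)))) (.n .o (.n (.n .o (.n (.n (.c (-7536)) .o) .o)) .o))))))) (.n (.n .o (.n (.n
  (.n (.c (-5572)) (.n .o (.n (.c 4876) (.n .o (.n (.c 444) (.n .o (.n (.c (-2112)) .o))))))) (.n
  .o (.n (.n (.c 4876) (.n .o (.n (.c 888) (.n .o (.n (.c (-6336)) .o))))) (.n .o (.n (.n (.c 444)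
  (.n .o (.n (.c (-6336)) .o))) (.n .o (.n (.n (.c (-2112)) .o) .o))))))) (.n (.n (.n .o (.n (.c
  (-737)) (.n .o (.n (.c 2748) (.n .o (.n (.c (-4806)) .o)))))) (.n .o (.n (.n .o (.n (.c 4402) (.n
  .o (.n (.c (-10110)) .o)))) (.n .o (.n (.n .o (.n (.c (-5304)) .o)) .o))))) (.n (.n (.n (.c 5613)
  (.n .o (.n (.c (-1268)) (.n .o (.n (.c (-9978)) .o))))) (.n .o (.n (.n (.c (-7826)) (.n .o (.n
  (.c (-8682)) .o))) (.n .o (.n (.n (.c 1628) .o) .o))))) (.n (.n (.n .o (.n (.c 2806) (.n .o (.n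
  (.c (-10352)) .o)))) (.n .o (.n (.n .o (.n (.c (-6104)) .o)) .o))) (.n (.n (.n (.c (-2362)) (.n
  .o (.n (.c (-4432)) .o))) (.n .o (.n (.n (.c 3576) .o) .o))) (.n (.n (.n .o (.n (.c (-2048)) .o))
  .o) (.n (.n (.n (.c (-64)) .o) .o) .o)))))))) .o))))))))) (.n (.n .o (.n (.n (.n (.n (.c (-5572))
  (.n .o (.n (.c 4876) (.n .o (.n (.c 444) (.n .o (.n (.c (-2112)) .o))))))) (.n .o (.n (.n (.c
  4876) (.n .o (.n (.c 888) (.n .o (.n (.c (-6336)) .o))))) (.n .o (.n (.n (.c 444) (.n .o (.n (.c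
  (-6336)) .o))) (.n .o (.n (.n (.c (-2112)) .o) .o))))))) (.n (.n (.n .o (.n (.c (-2211)) (.n .o
  (.n (.c 9898) (.n .o (.n (.c (-14916)) .o)))))) (.n .o (.n (.n .o (.n (.c 8244) (.n .o (.n (.c
  (-29334)) .o)))) (.n .o (.n (.n .o (.n (.c (-14418)) .o)) .o))))) (.n (.n (.n (.c (-7087)) (.n .o
  (.n (.c 27030) (.n .o (.n (.c (-42900)) .o))))) (.n .o (.n (.n (.c 7356) (.n .o (.n (.c (-49986))
  .o))) (.n .o (.n (.n (.c (-8082)) .o) .o))))) (.n (.n (.n .o (.n (.c 26142) (.n .o (.n (.c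
  (-64680)) .o)))) (.n .o (.n (.n .o (.n (.c (-37314)) .o)) .o))) (.n (.n (.n (.c 8566) (.n .o (.n
  (.c (-54120)) .o))) (.n .o (.n (.n (.c (-10326)) .o) .o))) (.n (.n (.n .o (.n (.c (-23892)) .o))
  .o) (.n (.n (.n (.c (-4356)) .o) .o) .o))))))) (.n (.n .o (.n (.n .o (.n (.n (.c 2211) (.n .o (.n
  (.c (-13206)) (.n .o (.n (.c 15912) .o))))) (.n .o (.n (.n (.c (-8244)) (.n .o (.n (.c 30330)
  .o))) (.n .o (.n (.n (.c 14418) .o) .o)))))) (.n (.n .o (.n (.n .o (.n (.c (-39348)) (.n .o (.n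
  (.c 71628) .o)))) (.n .o (.n (.n .o (.n (.c 67644) .o)) .o)))) (.n (.n .o (.n (.n (.c (-26142))
  (.n .o (.n (.c 119412) .o))) (.n .o (.n (.n (.c 37314) .o) .o)))) (.n (.n .o (.n (.n .o (.n (.c
  87588) .o)) .o)) (.n (.n .o (.n (.n (.c 23892) .o) .o)) .o)))))) (.n (.n (.n (.n (.c (-16716))
  (.n .o (.n (.c 14628) (.n .o (.n (.c 1332) (.n .o (.n (.c (-6336)) .o))))))) (.n .o (.n (.n (.c
  14628) (.n .o (.n (.c 2664) (.n .o (.n (.c (-19008)) .o))))) (.n .o (.n (.n (.c 1332) (.n .o (.n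
  (.c (-19008)) .o))) (.n .o (.n (.n (.c (-6336)) .o) .o))))))) (.n (.n (.n .o (.n (.c (-3685)) (.n
  .o (.n (.c 15394) (.n .o (.n (.c (-24528)) .o)))))) (.n .o (.n (.n .o (.n (.c 17048) (.n .o (.n
  (.c (-49554)) .o)))) (.n .o (.n (.n .o (.n (.c (-25026)) .o)) .o))))) (.n (.n (.n (.c 4139) (.n
  .o (.n (.c (-1738)) (.n .o (.n (.c (-15768)) .o))))) (.n .o (.n (.n (.c 17936) (.n .o (.n (.c
  (-71334)) .o))) (.n .o (.n (.n (.c (-50586)) .o) .o))))) (.n (.n (.n .o (.n (.c (-15510)) (.n .o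
  (.n (.c 36684) .o)))) (.n .o (.n (.n .o (.n (.c (-96062)) .o)) .o))) (.n (.n (.n (.c 290) (.n .o
  (.n (.c 54420) .o))) (.n .o (.n (.n (.c (-55274)) .o) .o))) (.n (.n (.n .o (.n (.c 20340) .o))
  .o) (.n (.n (.n (.c 180) .o) .o) .o))))))) (.n (.n .o (.n (.n .o (.n (.n (.c 3685) (.n .o (.n (.c
  (-22010)) (.n .o (.n (.c 26520) .o))))) (.n .o (.n (.n (.c (-13740)) (.n .o (.n (.c 50550) .o)))
  (.n .o (.n (.n (.c 24030) .o) .o)))))) (.n .o (.n (.n .o (.n (.n (.c 15510) (.n .o (.n (.c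
  (-137980)) .o))) (.n .o (.n (.n (.c 41330) .o) .o)))) (.n (.n .o (.n (.n .o (.n (.c (-131800))
  .o)) .o)) (.n (.n .o (.n (.n (.c (-20340)) .o) .o)) .o)))))) (.n (.n (.n (.n (.c (-16716)) (.n .o
  (.n (.c 14628) (.n .o (.n (.c 1332) (.n .o (.n (.c (-6336)) .o))))))) (.n .o (.n (.n (.c 14628)
  (.n .o (.n (.c 2664) (.n .o (.n (.c (-19008)) .o))))) (.n .o (.n (.n (.c 1332) (.n .o (.n (.c
  (-19008)) .o))) (.n .o (.n (.n (.c (-6336)) .o) .o))))))) (.n (.n (.n .o (.n (.c (-737)) (.n .o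
  (.n (.c 1094) (.n .o (.n (.c (-4308)) .o)))))) (.n .o (.n (.n .o (.n (.c 9364) (.n .o (.n (.c
  (-11106)) .o)))) (.n .o (.n (.n .o (.n (.c (-6798)) .o)) .o))))) (.n (.n (.n (.c 29539) (.n .o
  (.n (.c (-45218)) (.n .o (.n (.c 26532) .o))))) (.n .o (.n (.n (.c (-25544)) (.n .o (.n (.c
  13266) .o))) (.n .o (.n (.n (.c (-8286)) .o) .o))))) (.n (.n (.n .o (.n (.c (-38550)) (.n .o (.n
  (.c 21078) .o)))) (.n .o (.n (.n .o (.n (.c 179312) .o)) .o))) (.n (.n (.n (.c (-19790)) (.n .o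
  (.n (.c 16014) .o))) (.n .o (.n (.n (.c 77660) .o) .o))) (.n (.n (.n .o (.n (.c 38064) .o)) .o)
  (.n (.n (.n (.c 18624) .o) .o) .o))))))) (.n (.n .o (.n (.n .o (.n (.n (.c 737) (.n .o (.n (.c
  (-4402)) (.n .o (.n (.c 5304) .o))))) (.n .o (.n (.n (.c (-2748)) (.n .o (.n (.c 10110) .o))) (.n
  .o (.n (.n (.c 4806) .o) .o)))))) (.n (.n .o (.n (.n .o (.n (.c 39348) (.n .o (.n (.c (-71628))
  .o)))) (.n .o (.n (.n .o (.n (.c (-67644)) .o)) .o)))) (.n (.n .o (.n (.n (.c 38550) (.n .o (.n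
  (.c (-8498)) .o))) (.n .o (.n (.n (.c (-78016)) .o) .o)))) (.n (.n .o (.n (.n .o (.n (.c (-8508))
  .o)) .o)) (.n (.n .o (.n (.n (.c (-38064)) .o) .o)) .o)))))) (.n (.n (.n (.n (.c (-5572)) (.n .o
  (.n (.c 4876) (.n .o (.n (.c 444) (.n .o (.n (.c (-2112)) .o))))))) (.n .o (.n (.n (.c 4876) (.n
  .o (.n (.c 888) (.n .o (.n (.c (-6336)) .o))))) (.n .o (.n (.n (.c 444) (.n .o (.n (.c (-6336))
  .o))) (.n .o (.n (.n (.c (-2112)) .o) .o))))))) (.n (.n (.n .o (.n (.c 737) (.n .o (.n (.c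
  (-4402)) (.n .o (.n (.c 5304) .o)))))) (.n .o (.n (.n .o (.n (.c 560) (.n .o (.n (.c 9114) .o))))
  (.n .o (.n (.n .o (.n (.c 3810) .o)) .o))))) (.n (.n (.n (.c 18313) (.n .o (.n (.c (-16450)) (.n
  .o (.n (.c (-600)) .o))))) (.n .o (.n (.n (.c (-36124)) (.n .o (.n (.c 34614) .o))) (.n .o (.n
  (.n (.c 34218) .o) .o))))) (.n (.n (.n .o (.n (.c 3102) (.n .o (.n (.c 4018) .o)))) (.n .o (.n
  (.n .o (.n (.c (-14852)) .o)) .o))) (.n (.n (.n (.c (-11514)) (.n .o (.n (.c 12914) .o))) (.n .o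
  (.n (.n (.c 17168) .o) .o))) (.n (.n (.n .o (.n (.c (-3768)) .o)) .o) (.n (.n (.n (.c (-2168))
  .o) .o) .o))))))) (.n (.n .o (.n (.n .o (.n (.n (.c (-737)) (.n .o (.n (.c 4402) (.n .o (.n (.c
  (-5304)) .o))))) (.n .o (.n (.n (.c 2748) (.n .o (.n (.c (-10110)) .o))) (.n .o (.n (.n (.c
  (-4806)) .o) .o)))))) (.n .o (.n (.n .o (.n (.n (.c (-3102)) (.n .o (.n (.c (-4018)) .o))) (.n .o
  (.n (.n (.c 2272) .o) .o)))) (.n .o (.n (.n .o (.n (.n (.c 3768) .o) .o)) .o)))))) .o)))))))))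
  (.n (.n .o (.n (.n (.n .o (.n (.n (.c 737) (.n .o (.n (.c (-4402)) (.n .o (.n (.c 5304) .o)))))
  (.n .o (.n (.n (.c (-2748)) (.n .o (.n (.c 10110) .o))) (.n .o (.n (.n (.c 4806) .o) .o)))))) (.n
  (.n .o (.n (.n .o (.n (.c (-13116)) (.n .o (.n (.c 23876) .o)))) (.n .o (.n (.n .o (.n (.c 22548)
  .o)) .o)))) (.n (.n .o (.n (.n (.c (-8714)) (.n .o (.n (.c 39804) .o))) (.n .o (.n (.n (.c 12438)
  .o) .o)))) (.n (.n .o (.n (.n .o (.n (.c 29196) .o)) .o)) (.n (.n .o (.n (.n (.c 7964) .o) .o))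
  .o))))) (.n (.n (.n (.n .o (.n (.c 1474) (.n .o (.n (.c (-7150)) (.n .o (.n (.c 10110) .o))))))
  (.n .o (.n (.n .o (.n (.c (-3842)) (.n .o (.n (.c 19224) .o)))) (.n .o (.n (.n .o (.n (.c 9114)
  .o)) .o))))) (.n (.n (.n (.c 18313) (.n .o (.n (.c (-49240)) (.n .o (.n (.c 58094) .o))))) (.n .o
  (.n (.n (.c (-3334)) (.n .o (.n (.c 30630) .o))) (.n .o (.n (.n (.c (-23148)) .o) .o))))) (.n (.n
  (.n .o (.n (.c (-50366)) (.n .o (.n (.c 113802) .o)))) (.n .o (.n (.n .o (.n (.c (-18944)) .o))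
  .o))) (.n (.n (.n (.c (-8276)) (.n .o (.n (.c 93942) .o))) (.n .o (.n (.n (.c (-30350)) .o) .o)))
  (.n (.n (.n .o (.n (.c 28304) .o)) .o) (.n (.n (.n (.c 180) .o) .o) .o)))))) (.n (.n (.n .o (.n
  (.n (.c 737) (.n .o (.n (.c (-4402)) (.n .o (.n (.c 5304) .o))))) (.n .o (.n (.n (.c (-2748)) (.n
  .o (.n (.c 10110) .o))) (.n .o (.n (.n (.c 4806) .o) .o)))))) (.n (.n .o (.n (.n .o (.n (.c
  39348) (.n .o (.n (.c (-71628)) .o)))) (.n .o (.n (.n .o (.n (.c (-67644)) .o)) .o)))) (.n (.n .o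
  (.n (.n (.c 32938) (.n .o (.n (.c (-217588)) .o))) (.n .o (.n (.n (.c 16454) .o) .o)))) (.n (.n
  .o (.n (.n .o (.n (.c (-160996)) .o)) .o)) (.n (.n .o (.n (.n (.c (-20340)) .o) .o)) .o))))) (.n
  (.n (.n (.n .o (.n (.c 2948) (.n .o (.n (.c (-14300)) (.n .o (.n (.c 20220) .o)))))) (.n .o (.n
  (.n .o (.n (.c (-7684)) (.n .o (.n (.c 38448) .o)))) (.n .o (.n (.n .o (.n (.c 18228) .o))
  .o))))) (.n (.n (.n (.c 42239) (.n .o (.n (.c (-66958)) (.n .o (.n (.c 47184) .o))))) (.n .o (.n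
  (.n (.c (-47284)) (.n .o (.n (.c 58554) .o))) (.n .o (.n (.n (.c 12366) .o) .o))))) (.n (.n (.n
  .o (.n (.c (-32938)) (.n .o (.n (.c (-16454)) .o)))) (.n .o (.n (.n .o (.n (.c 217588) .o)) .o)))
  (.n (.n (.n (.c (-15948)) (.n .o (.n (.c (-52142)) .o))) (.n .o (.n (.n (.c 79658) .o) .o))) (.n
  (.n (.n .o (.n (.c 7100) .o)) .o) (.n (.n (.n (.c 15824) .o) .o) .o)))))) (.n (.n (.n .o (.n (.n
  (.c (-737)) (.n .o (.n (.c 4402) (.n .o (.n (.c (-5304)) .o))))) (.n .o (.n (.n (.c 2748) (.n .o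
  (.n (.c (-10110)) .o))) (.n .o (.n (.n (.c (-4806)) .o) .o)))))) (.n (.n .o (.n (.n .o (.n (.c
  39348) (.n .o (.n (.c (-71628)) .o)))) (.n .o (.n (.n .o (.n (.c (-67644)) .o)) .o)))) (.n (.n .o
  (.n (.n (.c 21122) (.n .o (.n (.c 134338) .o))) (.n .o (.n (.n (.c (-74216)) .o) .o)))) (.n (.n
  .o (.n (.n .o (.n (.c 128964) .o)) .o)) (.n (.n .o (.n (.n (.c (-12944)) .o) .o)) .o))))) (.n (.n
  (.n (.n .o (.n (.c 1474) (.n .o (.n (.c (-7150)) (.n .o (.n (.c 10110) .o)))))) (.n .o (.n (.n .o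
  (.n (.c (-3842)) (.n .o (.n (.c 19224) .o)))) (.n .o (.n (.n .o (.n (.c 9114) .o)) .o))))) (.n
  (.n (.n (.c 29539) (.n .o (.n (.c (-25544)) (.n .o (.n (.c (-9282)) .o))))) (.n .o (.n (.n (.c
  (-45218)) (.n .o (.n (.c 19242) .o))) (.n .o (.n (.n (.c 25536) .o) .o))))) (.n (.n (.n .o (.n
  (.c 14326) (.n .o (.n (.c (-1528)) .o)))) (.n .o (.n (.n .o (.n (.c (-146854)) .o)) .o))) (.n (.n
  (.n (.c (-12988)) (.n .o (.n (.c 16662) .o))) (.n .o (.n (.n (.c (-43566)) .o) .o))) (.n (.n (.n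
  .o (.n (.c (-15584)) .o)) .o) (.n (.n (.n (.c (-10864)) .o) .o) .o)))))) (.n (.n (.n .o (.n (.n
  (.c (-737)) (.n .o (.n (.c 4402) (.n .o (.n (.c (-5304)) .o))))) (.n .o (.n (.n (.c 2748) (.n .o
  (.n (.c (-10110)) .o))) (.n .o (.n (.n (.c (-4806)) .o) .o)))))) (.n (.n .o (.n (.n .o (.n (.c
  (-13116)) (.n .o (.n (.c 23876) .o)))) (.n .o (.n (.n .o (.n (.c 22548) .o)) .o)))) (.n (.n .o
  (.n (.n (.c (-20530)) (.n .o (.n (.c 12362) .o))) (.n .o (.n (.n (.c 48224) .o) .o)))) (.n (.n .o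
  (.n (.n .o (.n (.c 2836) .o)) .o)) (.n (.n .o (.n (.n (.c 11560) .o) .o)) .o))))) (.n (.n .o (.n
  (.n (.n (.c 5613) (.n .o (.n (.c (-7826)) (.n .o (.n (.c 1628) .o))))) (.n .o (.n (.n (.c
  (-1268)) (.n .o (.n (.c (-8682)) .o))) (.n .o (.n (.n (.c (-9978)) .o) .o))))) (.n (.n (.n .o (.n
  (.c (-3102)) (.n .o (.n (.c 2272) .o)))) (.n .o (.n (.n .o (.n (.c (-4018)) .o)) .o))) (.n (.n
  (.n (.c (-5316)) (.n .o (.n (.c 4586) .o))) (.n .o (.n (.n (.c 4586) .o) .o))) (.n (.n (.n .o (.n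
  (.c 1820) .o)) .o) (.n (.n (.n (.c 1940) .o) .o) .o)))))) .o))))))))) (.n (.n .o (.n (.n (.n (.n
  (.c 5613) (.n .o (.n (.c (-7826)) (.n .o (.n (.c 1628) .o))))) (.n .o (.n (.n (.c (-1268)) (.n .o
  (.n (.c (-8682)) .o))) (.n .o (.n (.n (.c (-9978)) .o) .o))))) (.n (.n (.n .o (.n (.c (-3398))
  (.n .o (.n (.c (-1560)) .o)))) (.n .o (.n (.n .o (.n (.c (-26884)) .o)) .o))) (.n (.n (.n (.c
  4428) (.n .o (.n (.c (-14448)) .o))) (.n .o (.n (.n (.c (-18202)) .o) .o))) (.n (.n (.n .o (.n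
  (.c (-17704)) .o)) .o) (.n (.n (.n (.c (-6444)) .o) .o) .o))))) (.n (.n (.n .o (.n (.n .o (.n (.c
  13116) (.n .o (.n (.c (-23876)) .o)))) (.n .o (.n (.n .o (.n (.c (-22548)) .o)) .o)))) (.n (.n .o
  (.n (.n (.c 3398) (.n .o (.n (.c (-49088)) .o))) (.n .o (.n (.n (.c 26884) .o) .o)))) (.n (.n .o
  (.n (.n .o (.n (.c (-7508)) .o)) .o)) (.n (.n .o (.n (.n (.c 17704) .o) .o)) .o)))) (.n (.n (.n
  (.n (.c 16839) (.n .o (.n (.c (-10362)) (.n .o (.n (.c (-18660)) .o))))) (.n .o (.n (.n (.c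
  (-16920)) (.n .o (.n (.c (-24054)) .o))) (.n .o (.n (.n (.c (-7054)) .o) .o))))) (.n (.n (.n .o
  (.n (.c 14030) (.n .o (.n (.c (-79126)) .o)))) (.n .o (.n (.n .o (.n (.c 51578) .o)) .o))) (.n
  (.n (.n (.c (-3244)) (.n .o (.n (.c (-69190)) .o))) (.n .o (.n (.n (.c 464) .o) .o))) (.n (.n (.n
  .o (.n (.c 7100) .o)) .o) (.n (.n (.n (.c 15824) .o) .o) .o))))) (.n (.n .o (.n (.n .o (.n (.n
  (.c (-14030)) (.n .o (.n (.c 188590) .o))) (.n .o (.n (.n (.c (-930)) .o) .o)))) (.n (.n .o (.n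
  (.n .o (.n (.c 131800) .o)) .o)) (.n (.n .o (.n (.n (.c (-7100)) .o) .o)) .o)))) (.n (.n (.n (.n
  (.c 16839) (.n .o (.n (.c (-10362)) (.n .o (.n (.c (-18660)) .o))))) (.n .o (.n (.n (.c (-16920))
  (.n .o (.n (.c (-24054)) .o))) (.n .o (.n (.n (.c (-7054)) .o) .o))))) (.n (.n (.n .o (.n (.c
  14622) (.n .o (.n (.c 12842) .o)))) (.n .o (.n (.n .o (.n (.c (-155602)) .o)) .o))) (.n (.n (.n
  (.c (-23324)) (.n .o (.n (.c 63744) .o))) (.n .o (.n (.n (.c (-37942)) .o) .o))) (.n (.n (.n .o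
  (.n (.c 26184) .o)) .o) (.n (.n (.n (.c (-4184)) .o) .o) .o))))) (.n (.n (.n .o (.n (.n .o (.n
  (.c (-13116)) (.n .o (.n (.c 23876) .o)))) (.n .o (.n (.n .o (.n (.c 22548) .o)) .o)))) (.n (.n
  .o (.n (.n (.c (-14622)) (.n .o (.n (.c (-21338)) .o))) (.n .o (.n (.n (.c 46138) .o) .o)))) (.n
  (.n .o (.n (.n .o (.n (.c (-71572)) .o)) .o)) (.n (.n .o (.n (.n (.c (-26184)) .o) .o)) .o))))
  (.n (.n (.n (.n (.c 5613) (.n .o (.n (.c (-7826)) (.n .o (.n (.c 1628) .o))))) (.n .o (.n (.n (.c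
  (-1268)) (.n .o (.n (.c (-8682)) .o))) (.n .o (.n (.n (.c (-9978)) .o) .o))))) (.n (.n (.n .o (.n
  (.c (-2806)) (.n .o (.n (.c 6104) .o)))) (.n .o (.n (.n .o (.n (.c 18848) .o)) .o))) (.n (.n (.n
  (.c (-15652)) (.n .o (.n (.c 13046) .o))) (.n .o (.n (.n (.c 48832) .o) .o))) (.n (.n (.n .o (.n
  (.c (-1820)) .o)) .o) (.n (.n (.n (.c 6060) .o) .o) .o))))) (.n (.n .o (.n (.n .o (.n (.n (.c
  2806) (.n .o (.n (.c (-6104)) .o))) (.n .o (.n (.n (.c (-10352)) .o) .o)))) (.n .o (.n (.n .o (.n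
  (.n (.c 1820) .o) .o)) .o)))) .o))))))))) (.n (.n .o (.n (.n (.n .o (.n (.n (.c (-2806)) (.n .o
  (.n (.c 6104) .o))) (.n .o (.n (.n (.c 10352) .o) .o)))) (.n (.n .o (.n (.n .o (.n (.c 16016)
  .o)) .o)) (.n (.n .o (.n (.n (.c 9912) .o) .o)) .o))) (.n (.n (.n (.n .o (.n (.c 296) (.n .o (.n
  (.c 3832) .o)))) (.n .o (.n (.n .o (.n (.c 22866) .o)) .o))) (.n (.n (.n (.c (-11514)) (.n .o (.n
  (.c 33184) .o))) (.n .o (.n (.n (.c (-3102)) .o) .o))) (.n (.n (.n .o (.n (.c 47976) .o)) .o) (.n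
  (.n (.n (.c 18624) .o) .o) .o)))) (.n (.n (.n .o (.n (.n (.c (-2806)) (.n .o (.n (.c 37718) .o)))
  (.n .o (.n (.n (.c (-186)) .o) .o)))) (.n (.n .o (.n (.n .o (.n (.c (-21688)) .o)) .o)) (.n (.n
  .o (.n (.n (.c (-32220)) .o) .o)) .o))) (.n (.n (.n (.n .o (.n (.c 592) (.n .o (.n (.c 28740)
  .o)))) (.n .o (.n (.n .o (.n (.c (-17496)) .o)) .o))) (.n (.n (.n (.c (-27166)) (.n .o (.n (.c
  64582) .o))) (.n .o (.n (.n (.c 27378) .o) .o))) (.n (.n (.n .o (.n (.c 32028) .o)) .o) (.n (.n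
  (.n (.c (-4184)) .o) .o) .o)))) (.n (.n (.n .o (.n (.n (.c 2806) (.n .o (.n (.c (-37718)) .o)))
  (.n .o (.n (.n (.c 186) .o) .o)))) (.n (.n .o (.n (.n .o (.n (.c (-74408)) .o)) .o)) (.n (.n .o
  (.n (.n (.c (-26184)) .o) .o)) .o))) (.n (.n (.n (.n .o (.n (.c 296) (.n .o (.n (.c 3832) .o))))
  (.n .o (.n (.n .o (.n (.c 22866) .o)) .o))) (.n (.n (.n (.c (-18014)) (.n .o (.n (.c 8614) .o)))
  (.n .o (.n (.n (.c 52408) .o) .o))) (.n (.n (.n .o (.n (.c (-13980)) .o)) .o) (.n (.n (.n (.c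
  7580) .o) .o) .o)))) (.n (.n (.n .o (.n (.n (.c 2806) (.n .o (.n (.c (-6104)) .o))) (.n .o (.n
  (.n (.c (-10352)) .o) .o)))) (.n (.n .o (.n (.n .o (.n (.c 16016) .o)) .o)) (.n (.n .o (.n (.n
  (.c 17748) .o) .o)) .o))) (.n (.n .o (.n (.n (.n (.c (-2362)) (.n .o (.n (.c 3576) .o))) (.n .o
  (.n (.n (.c (-4432)) .o) .o))) (.n (.n (.n .o (.n (.c 3768) .o)) .o) (.n (.n (.n (.c 1940) .o)
  .o) .o)))) .o))))))))) (.n (.n .o (.n (.n (.n (.n (.c (-2362)) (.n .o (.n (.c 3576) .o))) (.n .o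
  (.n (.n (.c (-4432)) .o) .o))) (.n (.n (.n .o (.n (.c 5488) .o)) .o) (.n (.n (.n (.c 1912) .o)
  .o) .o))) (.n (.n (.n .o (.n (.n .o (.n (.c (-16016)) .o)) .o)) (.n (.n .o (.n (.n (.c (-5488))
  .o) .o)) .o)) (.n (.n (.n (.n (.c (-7678)) (.n .o (.n (.c 154) .o))) (.n .o (.n (.n (.c 8162) .o)
  .o))) (.n (.n (.n .o (.n (.c (-9740)) .o)) .o) (.n (.n (.n (.c (-10864)) .o) .o) .o))) (.n (.n .o
  (.n (.n .o (.n (.n (.c 9740) .o) .o)) .o)) (.n (.n (.n (.n (.c (-7678)) (.n .o (.n (.c 154) .o)))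
  (.n .o (.n (.n (.c 8162) .o) .o))) (.n (.n (.n .o (.n (.c (-13980)) .o)) .o) (.n (.n (.n (.c
  7580) .o) .o) .o))) (.n (.n (.n .o (.n (.n .o (.n (.c 16016) .o)) .o)) (.n (.n .o (.n (.n (.c
  13980) .o) .o)) .o)) (.n (.n (.n (.n (.c (-2362)) (.n .o (.n (.c 3576) .o))) (.n .o (.n (.n (.c
  (-4432)) .o) .o))) (.n (.n (.n .o (.n (.c 2048) .o)) .o) (.n (.n (.n (.c 4100) .o) .o) .o))) (.n
  (.n .o (.n (.n .o (.n (.n (.c (-2048)) .o) .o)) .o)) .o))))))))) (.n (.n .o (.n (.n (.n .o (.n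
  (.n (.c 2048) .o) .o)) .o) (.n (.n (.n (.n .o (.n (.c (-1720)) .o)) .o) (.n (.n (.n (.c (-2168))
  .o) .o) .o)) (.n (.n (.n .o (.n (.n (.c 1948) .o) .o)) .o) (.n (.n (.n (.n .o (.n (.c (-3640))
  .o)) .o) (.n (.n (.n (.c 6060) .o) .o) .o)) (.n (.n (.n .o (.n (.n (.c (-1948)) .o) .o)) .o) (.n
  (.n (.n (.n .o (.n (.c (-1720)) .o)) .o) (.n (.n (.n (.c 4100) .o) .o) .o)) (.n (.n (.n .o (.n
  (.n (.c (-2048)) .o) .o)) .o) (.n (.n .o (.n (.n (.n (.c (-64)) .o) .o) .o)) .o))))))))) (.n (.n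
  .o (.n (.n (.n (.n (.c (-64)) .o) .o) .o) (.n .o (.n (.n (.n (.n (.c 1940) .o) .o) .o) (.n .o (.n
  (.n (.n (.n (.c 1940) .o) .o) .o) (.n .o (.n (.n (.n (.n (.c (-64)) .o) .o) .o) .o))))))))
  .o)))))))))

set_option maxRecDepth 4000 in
def pVB : Po :=
  (.n (.n (.n (.n (.n (.c 1000) .o) .o) .o) (.n (.n .o (.n .o (.n (.n (.n (.c (-5572)) (.n .o (.n
  (.c 4876) (.n .o (.n (.c 444) (.n .o (.n (.c (-2112)) .o))))))) (.n .o (.n (.n (.c 4876) (.n .o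
  (.n (.c 888) (.n .o (.n (.c (-6336)) .o))))) (.n .o (.n (.n (.c 444) (.n .o (.n (.c (-6336))
  .o))) (.n .o (.n (.n (.c (-2112)) .o) .o))))))) (.n (.n .o (.n (.n (.c 737) (.n .o (.n (.c
  (-4402)) (.n .o (.n (.c 5304) .o))))) (.n .o (.n (.n (.c (-2748)) (.n .o (.n (.c 10110) .o))) (.n
  .o (.n (.n (.c 4806) .o) .o)))))) (.n (.n (.n (.c 5613) (.n .o (.n (.c (-7826)) (.n .o (.n (.c
  1628) .o))))) (.n .o (.n (.n (.c (-1268)) (.n .o (.n (.c (-8682)) .o))) (.n .o (.n (.n (.c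
  (-9978)) .o) .o))))) (.n (.n .o (.n (.n (.c (-2806)) (.n .o (.n (.c 6104) .o))) (.n .o (.n (.n
  (.c 10352) .o) .o)))) (.n (.n (.n (.c (-2362)) (.n .o (.n (.c 3576) .o))) (.n .o (.n (.n (.c
  (-4432)) .o) .o))) (.n (.n .o (.n (.n (.c 2048) .o) .o)) (.n (.n (.n (.c (-64)) .o) .o)
  .o))))))))) (.n (.n (.n (.n (.c 4000) .o) .o) (.n .o (.n .o (.n (.n (.n .o (.n (.c 1474) (.n .o
  (.n (.c (-7150)) (.n .o (.n (.c 10110) .o)))))) (.n .o (.n (.n .o (.n (.c (-3842)) (.n .o (.n (.c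
  19224) .o)))) (.n .o (.n (.n .o (.n (.c 9114) .o)) .o))))) (.n (.n .o (.n (.n .o (.n (.c 13116)
  (.n .o (.n (.c (-23876)) .o)))) (.n .o (.n (.n .o (.n (.c (-22548)) .o)) .o)))) (.n (.n (.n .o
  (.n (.c 296) (.n .o (.n (.c 3832) .o)))) (.n .o (.n (.n .o (.n (.c 22866) .o)) .o))) (.n (.n .o
  (.n (.n .o (.n (.c (-16016)) .o)) .o)) (.n (.n (.n .o (.n (.c (-1720)) .o)) .o) .o)))))))) (.n
  (.n .o (.n .o (.n (.n (.n (.c (-16716)) (.n .o (.n (.c 14628) (.n .o (.n (.c 1332) (.n .o (.n (.c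
  (-6336)) .o))))))) (.n .o (.n (.n (.c 14628) (.n .o (.n (.c 2664) (.n .o (.n (.c (-19008))
  .o))))) (.n .o (.n (.n (.c 1332) (.n .o (.n (.c (-19008)) .o))) (.n .o (.n (.n (.c (-6336)) .o)
  .o))))))) (.n (.n .o (.n (.n (.c 737) (.n .o (.n (.c (-4402)) (.n .o (.n (.c 5304) .o))))) (.n .o
  (.n (.n (.c (-2748)) (.n .o (.n (.c 10110) .o))) (.n .o (.n (.n (.c 4806) .o) .o)))))) (.n (.n
  (.n (.c 16839) (.n .o (.n (.c (-10362)) (.n .o (.n (.c (-18660)) .o))))) (.n .o (.n (.n (.c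
  (-16920)) (.n .o (.n (.c (-24054)) .o))) (.n .o (.n (.n (.c (-7054)) .o) .o))))) (.n (.n .o (.n
  (.n (.c (-2806)) (.n .o (.n (.c 37718) .o))) (.n .o (.n (.n (.c (-186)) .o) .o)))) (.n (.n (.n
  (.c (-7678)) (.n .o (.n (.c 154) .o))) (.n .o (.n (.n (.c 8162) .o) .o))) (.n (.n .o (.n (.n (.c
  1948) .o) .o)) (.n (.n (.n (.c 1940) .o) .o) .o))))))))) (.n (.n (.n (.n (.c 6000) .o) .o) (.n .o
  (.n .o (.n (.n (.n .o (.n (.c 2948) (.n .o (.n (.c (-14300)) (.n .o (.n (.c 20220) .o)))))) (.n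
  .o (.n (.n .o (.n (.c (-7684)) (.n .o (.n (.c 38448) .o)))) (.n .o (.n (.n .o (.n (.c 18228) .o))
  .o))))) (.n .o (.n (.n (.n .o (.n (.c 592) (.n .o (.n (.c 28740) .o)))) (.n .o (.n (.n .o (.n (.c
  (-17496)) .o)) .o))) (.n .o (.n (.n (.n .o (.n (.c (-3640)) .o)) .o) .o)))))))) (.n (.n .o (.n .o
  (.n (.n (.n (.c (-16716)) (.n .o (.n (.c 14628) (.n .o (.n (.c 1332) (.n .o (.n (.c (-6336))
  .o))))))) (.n .o (.n (.n (.c 14628) (.n .o (.n (.c 2664) (.n .o (.n (.c (-19008)) .o))))) (.n .o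
  (.n (.n (.c 1332) (.n .o (.n (.c (-19008)) .o))) (.n .o (.n (.n (.c (-6336)) .o) .o))))))) (.n
  (.n .o (.n (.n (.c (-737)) (.n .o (.n (.c 4402) (.n .o (.n (.c (-5304)) .o))))) (.n .o (.n (.n
  (.c 2748) (.n .o (.n (.c (-10110)) .o))) (.n .o (.n (.n (.c (-4806)) .o) .o)))))) (.n (.n (.n (.c
  16839) (.n .o (.n (.c (-10362)) (.n .o (.n (.c (-18660)) .o))))) (.n .o (.n (.n (.c (-16920)) (.n
  .o (.n (.c (-24054)) .o))) (.n .o (.n (.n (.c (-7054)) .o) .o))))) (.n (.n .o (.n (.n (.c 2806)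
  (.n .o (.n (.c (-37718)) .o))) (.n .o (.n (.n (.c 186) .o) .o)))) (.n (.n (.n (.c (-7678)) (.n .o
  (.n (.c 154) .o))) (.n .o (.n (.n (.c 8162) .o) .o))) (.n (.n .o (.n (.n (.c (-1948)) .o) .o))
  (.n (.n (.n (.c 1940) .o) .o) .o))))))))) (.n (.n (.n (.n (.c 4000) .o) .o) (.n .o (.n .o (.n (.n
  (.n .o (.n (.c 1474) (.n .o (.n (.c (-7150)) (.n .o (.n (.c 10110) .o)))))) (.n .o (.n (.n .o (.n
  (.c (-3842)) (.n .o (.n (.c 19224) .o)))) (.n .o (.n (.n .o (.n (.c 9114) .o)) .o))))) (.n (.n .o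
  (.n (.n .o (.n (.c (-13116)) (.n .o (.n (.c 23876) .o)))) (.n .o (.n (.n .o (.n (.c 22548) .o))
  .o)))) (.n (.n (.n .o (.n (.c 296) (.n .o (.n (.c 3832) .o)))) (.n .o (.n (.n .o (.n (.c 22866)
  .o)) .o))) (.n (.n .o (.n (.n .o (.n (.c 16016) .o)) .o)) (.n (.n (.n .o (.n (.c (-1720)) .o))
  .o) .o)))))))) (.n (.n .o (.n .o (.n (.n (.n (.c (-5572)) (.n .o (.n (.c 4876) (.n .o (.n (.c
  444) (.n .o (.n (.c (-2112)) .o))))))) (.n .o (.n (.n (.c 4876) (.n .o (.n (.c 888) (.n .o (.n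
  (.c (-6336)) .o))))) (.n .o (.n (.n (.c 444) (.n .o (.n (.c (-6336)) .o))) (.n .o (.n (.n (.c
  (-2112)) .o) .o))))))) (.n (.n .o (.n (.n (.c (-737)) (.n .o (.n (.c 4402) (.n .o (.n (.c
  (-5304)) .o))))) (.n .o (.n (.n (.c 2748) (.n .o (.n (.c (-10110)) .o))) (.n .o (.n (.n (.c
  (-4806)) .o) .o)))))) (.n (.n (.n (.c 5613) (.n .o (.n (.c (-7826)) (.n .o (.n (.c 1628) .o)))))
  (.n .o (.n (.n (.c (-1268)) (.n .o (.n (.c (-8682)) .o))) (.n .o (.n (.n (.c (-9978)) .o) .o)))))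
  (.n (.n .o (.n (.n (.c 2806) (.n .o (.n (.c (-6104)) .o))) (.n .o (.n (.n (.c (-10352)) .o)
  .o)))) (.n (.n (.n (.c (-2362)) (.n .o (.n (.c 3576) .o))) (.n .o (.n (.n (.c (-4432)) .o) .o)))
  (.n (.n .o (.n (.n (.c (-2048)) .o) .o)) (.n (.n (.n (.c (-64)) .o) .o) .o))))))))) (.n (.n (.n
  (.n (.c 1000) .o) .o) .o) .o))))))))) (.n (.n .o (.n (.n .o (.n .o (.n (.n (.n .o (.n (.c
  (-2211)) (.n .o (.n (.c 9898) (.n .o (.n (.c (-14916)) .o)))))) (.n .o (.n (.n .o (.n (.c 8244)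
  (.n .o (.n (.c (-29334)) .o)))) (.n .o (.n (.n .o (.n (.c (-14418)) .o)) .o))))) (.n (.n .o (.n
  (.n .o (.n (.c (-13116)) (.n .o (.n (.c 23876) .o)))) (.n .o (.n (.n .o (.n (.c 22548) .o))
  .o)))) (.n (.n (.n .o (.n (.c (-3398)) (.n .o (.n (.c (-1560)) .o)))) (.n .o (.n (.n .o (.n (.c
  (-26884)) .o)) .o))) (.n (.n .o (.n (.n .o (.n (.c 16016) .o)) .o)) (.n (.n (.n .o (.n (.c 5488)
  .o)) .o) .o))))))) (.n (.n .o (.n (.n (.n (.c (-5572)) (.n .o (.n (.c 4876) (.n .o (.n (.c 444)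
  (.n .o (.n (.c (-2112)) .o))))))) (.n .o (.n (.n (.c 4876) (.n .o (.n (.c 888) (.n .o (.n (.c
  (-6336)) .o))))) (.n .o (.n (.n (.c 444) (.n .o (.n (.c (-6336)) .o))) (.n .o (.n (.n (.c
  (-2112)) .o) .o))))))) (.n (.n .o (.n (.n (.c 2211) (.n .o (.n (.c (-13206)) (.n .o (.n (.c
  15912) .o))))) (.n .o (.n (.n (.c (-8244)) (.n .o (.n (.c 30330) .o))) (.n .o (.n (.n (.c 14418)
  .o) .o)))))) (.n (.n (.n (.c 18313) (.n .o (.n (.c (-49240)) (.n .o (.n (.c 58094) .o))))) (.n .o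
  (.n (.n (.c (-3334)) (.n .o (.n (.c 30630) .o))) (.n .o (.n (.n (.c (-23148)) .o) .o))))) (.n (.n
  .o (.n (.n (.c 3398) (.n .o (.n (.c (-49088)) .o))) (.n .o (.n (.n (.c 26884) .o) .o)))) (.n (.n
  (.n (.c (-11514)) (.n .o (.n (.c 33184) .o))) (.n .o (.n (.n (.c (-3102)) .o) .o))) (.n (.n .o
  (.n (.n (.c (-5488)) .o) .o)) (.n (.n (.n (.c (-2168)) .o) .o) .o)))))))) (.n (.n .o (.n .o (.n
  (.n (.n .o (.n (.c (-3685)) (.n .o (.n (.c 15394) (.n .o (.n (.c (-24528)) .o)))))) (.n .o (.n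
  (.n .o (.n (.c 17048) (.n .o (.n (.c (-49554)) .o)))) (.n .o (.n (.n .o (.n (.c (-25026)) .o))
  .o))))) (.n (.n .o (.n (.n .o (.n (.c 39348) (.n .o (.n (.c (-71628)) .o)))) (.n .o (.n (.n .o
  (.n (.c (-67644)) .o)) .o)))) (.n (.n (.n .o (.n (.c 14030) (.n .o (.n (.c (-79126)) .o)))) (.n
  .o (.n (.n .o (.n (.c 51578) .o)) .o))) (.n (.n .o (.n (.n .o (.n (.c (-21688)) .o)) .o)) (.n (.n
  (.n .o (.n (.c (-9740)) .o)) .o) .o))))))) (.n (.n .o (.n (.n (.n (.c (-16716)) (.n .o (.n (.c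
  14628) (.n .o (.n (.c 1332) (.n .o (.n (.c (-6336)) .o))))))) (.n .o (.n (.n (.c 14628) (.n .o
  (.n (.c 2664) (.n .o (.n (.c (-19008)) .o))))) (.n .o (.n (.n (.c 1332) (.n .o (.n (.c (-19008))
  .o))) (.n .o (.n (.n (.c (-6336)) .o) .o))))))) (.n (.n .o (.n (.n (.c 3685) (.n .o (.n (.c
  (-22010)) (.n .o (.n (.c 26520) .o))))) (.n .o (.n (.n (.c (-13740)) (.n .o (.n (.c 50550) .o)))
  (.n .o (.n (.n (.c 24030) .o) .o)))))) (.n (.n (.n (.c 42239) (.n .o (.n (.c (-66958)) (.n .o (.n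
  (.c 47184) .o))))) (.n .o (.n (.n (.c (-47284)) (.n .o (.n (.c 58554) .o))) (.n .o (.n (.n (.c
  12366) .o) .o))))) (.n (.n .o (.n (.n (.c (-14030)) (.n .o (.n (.c 188590) .o))) (.n .o (.n (.n
  (.c (-930)) .o) .o)))) (.n (.n (.n (.c (-27166)) (.n .o (.n (.c 64582) .o))) (.n .o (.n (.n (.c
  27378) .o) .o))) (.n (.n .o (.n (.n (.c 9740) .o) .o)) (.n (.n (.n (.c 6060) .o) .o) .o))))))))
  (.n (.n .o (.n .o (.n (.n (.n .o (.n (.c (-737)) (.n .o (.n (.c 1094) (.n .o (.n (.c (-4308))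
  .o)))))) (.n .o (.n (.n .o (.n (.c 9364) (.n .o (.n (.c (-11106)) .o)))) (.n .o (.n (.n .o (.n
  (.c (-6798)) .o)) .o))))) (.n (.n .o (.n (.n .o (.n (.c 39348) (.n .o (.n (.c (-71628)) .o))))
  (.n .o (.n (.n .o (.n (.c (-67644)) .o)) .o)))) (.n (.n (.n .o (.n (.c 14622) (.n .o (.n (.c
  12842) .o)))) (.n .o (.n (.n .o (.n (.c (-155602)) .o)) .o))) (.n (.n .o (.n (.n .o (.n (.c
  (-74408)) .o)) .o)) (.n (.n (.n .o (.n (.c (-13980)) .o)) .o) .o))))))) (.n (.n .o (.n (.n (.n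
  (.c (-16716)) (.n .o (.n (.c 14628) (.n .o (.n (.c 1332) (.n .o (.n (.c (-6336)) .o))))))) (.n .o
  (.n (.n (.c 14628) (.n .o (.n (.c 2664) (.n .o (.n (.c (-19008)) .o))))) (.n .o (.n (.n (.c 1332)
  (.n .o (.n (.c (-19008)) .o))) (.n .o (.n (.n (.c (-6336)) .o) .o))))))) (.n (.n .o (.n (.n (.c
  737) (.n .o (.n (.c (-4402)) (.n .o (.n (.c 5304) .o))))) (.n .o (.n (.n (.c (-2748)) (.n .o (.n
  (.c 10110) .o))) (.n .o (.n (.n (.c 4806) .o) .o)))))) (.n (.n (.n (.c 29539) (.n .o (.n (.c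
  (-25544)) (.n .o (.n (.c (-9282)) .o))))) (.n .o (.n (.n (.c (-45218)) (.n .o (.n (.c 19242)
  .o))) (.n .o (.n (.n (.c 25536) .o) .o))))) (.n (.n .o (.n (.n (.c (-14622)) (.n .o (.n (.c
  (-21338)) .o))) (.n .o (.n (.n (.c 46138) .o) .o)))) (.n (.n (.n (.c (-18014)) (.n .o (.n (.c
  8614) .o))) (.n .o (.n (.n (.c 52408) .o) .o))) (.n (.n .o (.n (.n (.c 13980) .o) .o)) (.n (.n
  (.n (.c 4100) .o) .o) .o)))))))) (.n (.n .o (.n .o (.n (.n (.n .o (.n (.c 737) (.n .o (.n (.c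
  (-4402)) (.n .o (.n (.c 5304) .o)))))) (.n .o (.n (.n .o (.n (.c 560) (.n .o (.n (.c 9114) .o))))
  (.n .o (.n (.n .o (.n (.c 3810) .o)) .o))))) (.n (.n .o (.n (.n .o (.n (.c (-13116)) (.n .o (.n
  (.c 23876) .o)))) (.n .o (.n (.n .o (.n (.c 22548) .o)) .o)))) (.n (.n (.n .o (.n (.c (-2806))
  (.n .o (.n (.c 6104) .o)))) (.n .o (.n (.n .o (.n (.c 18848) .o)) .o))) (.n (.n .o (.n (.n .o (.n
  (.c 16016) .o)) .o)) (.n (.n (.n .o (.n (.c 2048) .o)) .o) .o))))))) (.n (.n .o (.n (.n (.n (.c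
  (-5572)) (.n .o (.n (.c 4876) (.n .o (.n (.c 444) (.n .o (.n (.c (-2112)) .o))))))) (.n .o (.n
  (.n (.c 4876) (.n .o (.n (.c 888) (.n .o (.n (.c (-6336)) .o))))) (.n .o (.n (.n (.c 444) (.n .o
  (.n (.c (-6336)) .o))) (.n .o (.n (.n (.c (-2112)) .o) .o))))))) (.n (.n .o (.n (.n (.c (-737))
  (.n .o (.n (.c 4402) (.n .o (.n (.c (-5304)) .o))))) (.n .o (.n (.n (.c 2748) (.n .o (.n (.c
  (-10110)) .o))) (.n .o (.n (.n (.c (-4806)) .o) .o)))))) (.n (.n (.n (.c 5613) (.n .o (.n (.c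
  (-7826)) (.n .o (.n (.c 1628) .o))))) (.n .o (.n (.n (.c (-1268)) (.n .o (.n (.c (-8682)) .o)))
  (.n .o (.n (.n (.c (-9978)) .o) .o))))) (.n (.n .o (.n (.n (.c 2806) (.n .o (.n (.c (-6104))
  .o))) (.n .o (.n (.n (.c (-10352)) .o) .o)))) (.n (.n (.n (.c (-2362)) (.n .o (.n (.c 3576) .o)))
  (.n .o (.n (.n (.c (-4432)) .o) .o))) (.n (.n .o (.n (.n (.c (-2048)) .o) .o)) (.n (.n (.n (.c
  (-64)) .o) .o) .o)))))))) .o))))))))) (.n (.n .o (.n (.n .o (.n .o (.n (.n (.n (.c (-7087)) (.n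
  .o (.n (.c 27030) (.n .o (.n (.c (-42900)) .o))))) (.n .o (.n (.n (.c 7356) (.n .o (.n (.c
  (-49986)) .o))) (.n .o (.n (.n (.c (-8082)) .o) .o))))) (.n (.n .o (.n (.n (.c (-8714)) (.n .o
  (.n (.c 39804) .o))) (.n .o (.n (.n (.c 12438) .o) .o)))) (.n (.n (.n (.c 4428) (.n .o (.n (.c
  (-14448)) .o))) (.n .o (.n (.n (.c (-18202)) .o) .o))) (.n (.n .o (.n (.n (.c 9912) .o) .o)) (.n
  (.n (.n (.c 1912) .o) .o) .o))))))) (.n (.n .o (.n (.n (.n .o (.n (.c (-2211)) (.n .o (.n (.c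
  9898) (.n .o (.n (.c (-14916)) .o)))))) (.n .o (.n (.n .o (.n (.c 8244) (.n .o (.n (.c (-29334))
  .o)))) (.n .o (.n (.n .o (.n (.c (-14418)) .o)) .o))))) (.n (.n .o (.n (.n .o (.n (.c (-39348))
  (.n .o (.n (.c 71628) .o)))) (.n .o (.n (.n .o (.n (.c 67644) .o)) .o)))) (.n (.n (.n .o (.n (.c
  (-50366)) (.n .o (.n (.c 113802) .o)))) (.n .o (.n (.n .o (.n (.c (-18944)) .o)) .o))) (.n (.n .o
  (.n (.n .o (.n (.c (-7508)) .o)) .o)) (.n (.n (.n .o (.n (.c 47976) .o)) .o) .o)))))) (.n (.n .o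
  (.n (.n .o (.n (.n (.c 1474) (.n .o (.n (.c (-8804)) (.n .o (.n (.c 10608) .o))))) (.n .o (.n (.n
  (.c (-5496)) (.n .o (.n (.c 20220) .o))) (.n .o (.n (.n (.c 9612) .o) .o)))))) (.n (.n (.n (.c
  4139) (.n .o (.n (.c (-1738)) (.n .o (.n (.c (-15768)) .o))))) (.n .o (.n (.n (.c 17936) (.n .o
  (.n (.c (-71334)) .o))) (.n .o (.n (.n (.c (-50586)) .o) .o))))) (.n (.n .o (.n (.n (.c 32938)
  (.n .o (.n (.c (-217588)) .o))) (.n .o (.n (.n (.c 16454) .o) .o)))) (.n (.n (.n (.c (-3244)) (.n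
  .o (.n (.c (-69190)) .o))) (.n .o (.n (.n (.c 464) .o) .o))) (.n (.n .o (.n (.n (.c (-32220)) .o)
  .o)) (.n (.n (.n (.c (-10864)) .o) .o) .o))))))) (.n (.n .o (.n (.n (.n .o (.n (.c (-5159)) (.n
  .o (.n (.c 22544) (.n .o (.n (.c (-34638)) .o)))))) (.n .o (.n (.n .o (.n (.c 20890) (.n .o (.n
  (.c (-68778)) .o)))) (.n .o (.n (.n .o (.n (.c (-34140)) .o)) .o))))) (.n .o (.n (.n (.n .o (.n
  (.c (-32938)) (.n .o (.n (.c (-16454)) .o)))) (.n .o (.n (.n .o (.n (.c 217588) .o)) .o))) (.n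
  (.n .o (.n (.n .o (.n (.c 131800) .o)) .o)) (.n (.n (.n .o (.n (.c 32028) .o)) .o) .o)))))) (.n
  (.n .o (.n (.n .o (.n (.n (.c 2948) (.n .o (.n (.c (-17608)) (.n .o (.n (.c 21216) .o))))) (.n .o
  (.n (.n (.c (-10992)) (.n .o (.n (.c 40440) .o))) (.n .o (.n (.n (.c 19224) .o) .o)))))) (.n (.n
  (.n (.c 29539) (.n .o (.n (.c (-45218)) (.n .o (.n (.c 26532) .o))))) (.n .o (.n (.n (.c
  (-25544)) (.n .o (.n (.c 13266) .o))) (.n .o (.n (.n (.c (-8286)) .o) .o))))) (.n (.n .o (.n (.n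
  (.c 21122) (.n .o (.n (.c 134338) .o))) (.n .o (.n (.n (.c (-74216)) .o) .o)))) (.n (.n (.n (.c
  (-23324)) (.n .o (.n (.c 63744) .o))) (.n .o (.n (.n (.c (-37942)) .o) .o))) (.n (.n .o (.n (.n
  (.c (-26184)) .o) .o)) (.n (.n (.n (.c 7580) .o) .o) .o))))))) (.n (.n .o (.n (.n (.n .o (.n (.c
  (-3685)) (.n .o (.n (.c 15394) (.n .o (.n (.c (-24528)) .o)))))) (.n .o (.n (.n .o (.n (.c 17048)
  (.n .o (.n (.c (-49554)) .o)))) (.n .o (.n (.n .o (.n (.c (-25026)) .o)) .o))))) (.n (.n .o (.n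
  (.n .o (.n (.c 39348) (.n .o (.n (.c (-71628)) .o)))) (.n .o (.n (.n .o (.n (.c (-67644)) .o))
  .o)))) (.n (.n (.n .o (.n (.c 14326) (.n .o (.n (.c (-1528)) .o)))) (.n .o (.n (.n .o (.n (.c
  (-146854)) .o)) .o))) (.n (.n .o (.n (.n .o (.n (.c (-71572)) .o)) .o)) (.n (.n (.n .o (.n (.c
  (-13980)) .o)) .o) .o)))))) (.n (.n .o (.n (.n .o (.n (.n (.c 1474) (.n .o (.n (.c (-8804)) (.n
  .o (.n (.c 10608) .o))))) (.n .o (.n (.n (.c (-5496)) (.n .o (.n (.c 20220) .o))) (.n .o (.n (.n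
  (.c 9612) .o) .o)))))) (.n (.n (.n (.c 18313) (.n .o (.n (.c (-16450)) (.n .o (.n (.c (-600))
  .o))))) (.n .o (.n (.n (.c (-36124)) (.n .o (.n (.c 34614) .o))) (.n .o (.n (.n (.c 34218) .o)
  .o))))) (.n (.n .o (.n (.n (.c (-20530)) (.n .o (.n (.c 12362) .o))) (.n .o (.n (.n (.c 48224)
  .o) .o)))) (.n (.n (.n (.c (-15652)) (.n .o (.n (.c 13046) .o))) (.n .o (.n (.n (.c 48832) .o)
  .o))) (.n (.n .o (.n (.n (.c 17748) .o) .o)) (.n (.n (.n (.c 4100) .o) .o) .o))))))) (.n (.n .o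
  (.n (.n (.n .o (.n (.c (-737)) (.n .o (.n (.c 2748) (.n .o (.n (.c (-4806)) .o)))))) (.n .o (.n
  (.n .o (.n (.c 4402) (.n .o (.n (.c (-10110)) .o)))) (.n .o (.n (.n .o (.n (.c (-5304)) .o))
  .o))))) (.n .o (.n (.n (.n .o (.n (.c (-3102)) (.n .o (.n (.c 2272) .o)))) (.n .o (.n (.n .o (.n
  (.c (-4018)) .o)) .o))) (.n .o (.n (.n (.n .o (.n (.c 3768) .o)) .o) .o)))))) .o))))))))) (.n (.n
  .o (.n (.n .o (.n .o (.n (.n (.n .o (.n (.c 26142) (.n .o (.n (.c (-64680)) .o)))) (.n .o (.n (.n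
  .o (.n (.c (-37314)) .o)) .o))) (.n (.n .o (.n (.n .o (.n (.c 29196) .o)) .o)) (.n (.n (.n .o (.n
  (.c (-17704)) .o)) .o) .o))))) (.n (.n .o (.n (.n (.n (.c (-7087)) (.n .o (.n (.c 27030) (.n .o
  (.n (.c (-42900)) .o))))) (.n .o (.n (.n (.c 7356) (.n .o (.n (.c (-49986)) .o))) (.n .o (.n (.n
  (.c (-8082)) .o) .o))))) (.n (.n .o (.n (.n (.c (-26142)) (.n .o (.n (.c 119412) .o))) (.n .o (.n
  (.n (.c 37314) .o) .o)))) (.n (.n (.n (.c (-8276)) (.n .o (.n (.c 93942) .o))) (.n .o (.n (.n (.c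
  (-30350)) .o) .o))) (.n (.n .o (.n (.n (.c 17704) .o) .o)) (.n (.n (.n (.c 18624) .o) .o)
  .o)))))) (.n (.n .o (.n (.n .o (.n (.n .o (.n (.c (-26232)) (.n .o (.n (.c 47752) .o)))) (.n .o
  (.n (.n .o (.n (.c 45096) .o)) .o)))) (.n (.n (.n .o (.n (.c (-15510)) (.n .o (.n (.c 36684)
  .o)))) (.n .o (.n (.n .o (.n (.c (-96062)) .o)) .o))) (.n (.n .o (.n (.n .o (.n (.c (-160996))
  .o)) .o)) (.n (.n (.n .o (.n (.c 7100) .o)) .o) .o))))) (.n (.n .o (.n (.n (.n (.c (-8561)) (.n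
  .o (.n (.c 39676) (.n .o (.n (.c (-72234)) .o))))) (.n .o (.n (.n (.c 20002) (.n .o (.n (.c
  (-110646)) .o))) (.n .o (.n (.n (.c (-37416)) .o) .o))))) (.n (.n .o (.n (.n (.c 15510) (.n .o
  (.n (.c (-137980)) .o))) (.n .o (.n (.n (.c 41330) .o) .o)))) (.n (.n (.n (.c (-15948)) (.n .o
  (.n (.c (-52142)) .o))) (.n .o (.n (.n (.c 79658) .o) .o))) (.n (.n .o (.n (.n (.c (-7100)) .o)
  .o)) (.n (.n (.n (.c (-4184)) .o) .o) .o)))))) (.n (.n .o (.n (.n .o (.n (.n .o (.n (.c (-26232))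
  (.n .o (.n (.c 47752) .o)))) (.n .o (.n (.n .o (.n (.c 45096) .o)) .o)))) (.n (.n (.n .o (.n (.c
  (-38550)) (.n .o (.n (.c 21078) .o)))) (.n .o (.n (.n .o (.n (.c 179312) .o)) .o))) (.n (.n .o
  (.n (.n .o (.n (.c 128964) .o)) .o)) (.n (.n (.n .o (.n (.c 26184) .o)) .o) .o))))) (.n (.n .o
  (.n (.n (.n (.c 4139) (.n .o (.n (.c 11378) (.n .o (.n (.c (-39312)) .o))))) (.n .o (.n (.n (.c
  4820) (.n .o (.n (.c (-69342)) .o))) (.n .o (.n (.n (.c (-27706)) .o) .o))))) (.n (.n .o (.n (.n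
  (.c 38550) (.n .o (.n (.c (-8498)) .o))) (.n .o (.n (.n (.c (-78016)) .o) .o)))) (.n (.n (.n (.c
  (-12988)) (.n .o (.n (.c 16662) .o))) (.n .o (.n (.n (.c (-43566)) .o) .o))) (.n (.n .o (.n (.n
  (.c (-26184)) .o) .o)) (.n (.n (.n (.c 7580) .o) .o) .o)))))) (.n (.n .o (.n .o (.n (.n (.n .o
  (.n (.c 3102) (.n .o (.n (.c 4018) .o)))) (.n .o (.n (.n .o (.n (.c (-14852)) .o)) .o))) (.n (.n
  .o (.n (.n .o (.n (.c 2836) .o)) .o)) (.n (.n (.n .o (.n (.c (-1820)) .o)) .o) .o))))) (.n (.n .o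
  (.n (.n (.n (.c 5613) (.n .o (.n (.c (-1268)) (.n .o (.n (.c (-9978)) .o))))) (.n .o (.n (.n (.c
  (-7826)) (.n .o (.n (.c (-8682)) .o))) (.n .o (.n (.n (.c 1628) .o) .o))))) (.n (.n .o (.n (.n
  (.c (-3102)) (.n .o (.n (.c (-4018)) .o))) (.n .o (.n (.n (.c 2272) .o) .o)))) (.n (.n (.n (.c
  (-5316)) (.n .o (.n (.c 4586) .o))) (.n .o (.n (.n (.c 4586) .o) .o))) (.n (.n .o (.n (.n (.c
  1820) .o) .o)) (.n (.n (.n (.c 1940) .o) .o) .o)))))) .o))))))))) (.n (.n .o (.n (.n .o (.n .o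
  (.n (.n (.n (.c 8566) (.n .o (.n (.c (-54120)) .o))) (.n .o (.n (.n (.c (-10326)) .o) .o))) (.n
  (.n .o (.n (.n (.c 7964) .o) .o)) (.n (.n (.n (.c (-6444)) .o) .o) .o))))) (.n (.n .o (.n (.n (.n
  .o (.n (.c 26142) (.n .o (.n (.c (-64680)) .o)))) (.n .o (.n (.n .o (.n (.c (-37314)) .o)) .o)))
  (.n (.n .o (.n (.n .o (.n (.c 87588) .o)) .o)) (.n (.n (.n .o (.n (.c 28304) .o)) .o) .o)))) (.n
  (.n .o (.n (.n .o (.n (.n (.c (-17428)) (.n .o (.n (.c 79608) .o))) (.n .o (.n (.n (.c 24876) .o)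
  .o)))) (.n (.n (.n (.c 290) (.n .o (.n (.c 54420) .o))) (.n .o (.n (.n (.c (-55274)) .o) .o)))
  (.n (.n .o (.n (.n (.c (-20340)) .o) .o)) (.n (.n (.n (.c 15824) .o) .o) .o))))) (.n (.n .o (.n
  (.n (.n .o (.n (.c 31458) (.n .o (.n (.c (-78678)) .o)))) (.n .o (.n (.n .o (.n (.c (-104002))
  .o)) .o))) (.n (.n .o (.n (.n .o (.n (.c (-131800)) .o)) .o)) (.n (.n (.n .o (.n (.c 7100) .o))
  .o) .o)))) (.n (.n .o (.n (.n .o (.n (.n (.c (-11224)) (.n .o (.n (.c 24416) .o))) (.n .o (.n (.n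
  (.c 41408) .o) .o)))) (.n (.n (.n (.c (-19790)) (.n .o (.n (.c 16014) .o))) (.n .o (.n (.n (.c
  77660) .o) .o))) (.n (.n .o (.n (.n (.c (-12944)) .o) .o)) (.n (.n (.n (.c (-4184)) .o) .o)
  .o))))) (.n (.n .o (.n (.n (.n .o (.n (.c 8122) (.n .o (.n (.c (-45426)) .o)))) (.n .o (.n (.n .o
  (.n (.c (-9564)) .o)) .o))) (.n (.n .o (.n (.n .o (.n (.c (-8508)) .o)) .o)) (.n (.n (.n .o (.n
  (.c (-15584)) .o)) .o) .o)))) (.n (.n .o (.n (.n .o (.n (.n (.c 6204) (.n .o (.n (.c 8036) .o)))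
  (.n .o (.n (.n (.c (-4544)) .o) .o)))) (.n (.n (.n (.c (-11514)) (.n .o (.n (.c 12914) .o))) (.n
  .o (.n (.n (.c 17168) .o) .o))) (.n (.n .o (.n (.n (.c 11560) .o) .o)) (.n (.n (.n (.c 6060) .o)
  .o) .o))))) (.n (.n .o (.n (.n (.n .o (.n (.c 2806) (.n .o (.n (.c (-10352)) .o)))) (.n .o (.n
  (.n .o (.n (.c (-6104)) .o)) .o))) (.n .o (.n (.n (.n .o (.n (.c 1820) .o)) .o) .o))))
  .o))))))))) (.n (.n .o (.n (.n .o (.n .o (.n (.n (.n .o (.n (.c (-23892)) .o)) .o) .o))) (.n (.n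
  .o (.n (.n (.n (.c 8566) (.n .o (.n (.c (-54120)) .o))) (.n .o (.n (.n (.c (-10326)) .o) .o)))
  (.n (.n .o (.n (.n (.c 23892) .o) .o)) (.n (.n (.n (.c 180) .o) .o) .o)))) (.n (.n .o (.n (.n .o
  (.n (.n .o (.n (.c 58392) .o)) .o)) (.n (.n (.n .o (.n (.c 20340) .o)) .o) .o))) (.n (.n .o (.n
  (.n (.n (.c 12994) (.n .o (.n (.c (-53970)) .o))) (.n .o (.n (.n (.c (-43126)) .o) .o))) (.n (.n
  .o (.n (.n (.c (-20340)) .o) .o)) (.n (.n (.n (.c 15824) .o) .o) .o)))) (.n (.n .o (.n (.n .o (.n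
  (.n .o (.n (.c 5672) .o)) .o)) (.n (.n (.n .o (.n (.c 38064) .o)) .o) .o))) (.n (.n .o (.n (.n
  (.n (.c 2066) (.n .o (.n (.c (-30642)) .o))) (.n .o (.n (.n (.c (-2864)) .o) .o))) (.n (.n .o (.n
  (.n (.c (-38064)) .o) .o)) (.n (.n (.n (.c (-10864)) .o) .o) .o)))) (.n (.n .o (.n .o (.n (.n (.n
  .o (.n (.c (-3768)) .o)) .o) .o))) (.n (.n .o (.n (.n (.n (.c (-2362)) (.n .o (.n (.c (-4432))
  .o))) (.n .o (.n (.n (.c 3576) .o) .o))) (.n (.n .o (.n (.n (.c 3768) .o) .o)) (.n (.n (.n (.c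
  1940) .o) .o) .o)))) .o))))))))) (.n (.n .o (.n (.n .o (.n .o (.n (.n (.n (.c (-4356)) .o) .o)
  .o))) (.n (.n .o (.n (.n (.n .o (.n (.c (-23892)) .o)) .o) .o)) (.n (.n .o (.n (.n .o (.n (.n (.c
  15928) .o) .o)) (.n (.n (.n (.c 180) .o) .o) .o))) (.n (.n .o (.n (.n (.n .o (.n (.c (-25668))
  .o)) .o) .o)) (.n (.n .o (.n (.n .o (.n (.n (.c 7792) .o) .o)) (.n (.n (.n (.c 18624) .o) .o)
  .o))) (.n (.n .o (.n (.n (.n .o (.n (.c (-4424)) .o)) .o) .o)) (.n (.n .o (.n (.n .o (.n (.n (.c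
  (-7536)) .o) .o)) (.n (.n (.n (.c (-2168)) .o) .o) .o))) (.n (.n .o (.n (.n (.n .o (.n (.c
  (-2048)) .o)) .o) .o)) .o))))))))) (.n (.n .o (.n .o (.n (.n .o (.n (.n (.n (.c (-4356)) .o) .o)
  .o)) (.n .o (.n (.n .o (.n (.n (.n (.c (-6444)) .o) .o) .o)) (.n .o (.n (.n .o (.n (.n (.n (.c
  1912) .o) .o) .o)) (.n .o (.n (.n .o (.n (.n (.n (.c (-64)) .o) .o) .o)) .o))))))))) .o))))))))

set_option maxRecDepth 4000 in
def pCA : Po :=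
  (.n (.n (.n (.n (.n (.c (-1)) (.n .o (.n (.c 1) .o))) (.n .o (.n (.n (.c 1) .o) .o))) (.n .o (.n
  (.n (.n (.c 1) .o) .o) .o))) .o) (.n .o (.n (.n (.n (.n (.n (.c 1) .o) .o) .o) .o) .o)))

set_option maxRecDepth 4000 in
def pCB : Po :=
  (.n (.n (.n (.n (.n (.c (-1)) (.n .o (.n (.c 1) .o))) (.n .o (.n (.n (.c 1) .o) .o))) (.n .o (.n
  (.n (.n (.c 1) .o) .o) .o))) .o) (.n .o (.n (.n (.n (.n (.n (.c 1) .o) .o) .o) .o) .o)))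

set_option maxRecDepth 4000 in
def pXA : Po :=
  (.n (.n (.n (.n (.n (.c 3572) (.n .o (.n (.c (-4876)) (.n .o (.n (.c (-444)) (.n .o (.n (.c 2112)
  .o))))))) (.n (.n (.c (-5613)) (.n .o (.n (.c 7826) (.n .o (.n (.c (-1628)) .o))))) (.n (.n (.c
  2362) (.n .o (.n (.c (-3576)) .o))) (.n (.n (.c 64) .o) .o)))) (.n (.n (.n (.c (-5613)) (.n .o
  (.n (.c 1268) (.n .o (.n (.c 9978) .o))))) (.n (.n (.c 5316) (.n .o (.n (.c (-4586)) .o))) (.n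
  (.n (.c (-1940)) .o) .o))) (.n (.n (.n (.c 2362) (.n .o (.n (.c 4432) .o))) (.n (.n (.c (-1940))
  .o) .o)) (.n (.n (.n (.c 64) .o) .o) .o)))) (.n .o (.n (.n .o (.n (.n (.n .o (.n .o (.n (.c 2246)
  (.n .o (.n (.c (-8946)) .o))))) (.n (.n (.c (-1300)) (.n .o (.n (.c 3158) .o))) (.n (.n (.c 1566)
  .o) .o))) (.n (.n (.n .o (.n .o (.n (.c (-4200)) .o))) (.n (.n (.c 1566) .o) .o)) .o))) .o))) (.n
  (.n .o (.n (.n (.n (.n .o (.n (.c 9752) (.n .o (.n (.c 1776) (.n .o (.n (.c (-12672)) .o))))))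
  (.n (.n .o (.n (.c (-11340)) (.n .o (.n (.c 3852) .o)))) (.n (.n .o (.n (.c 3344) .o)) .o))) (.n
  (.n (.n .o (.n (.c (-11340)) (.n .o (.n (.c (-19692)) .o)))) (.n (.n .o (.n (.c 22408) .o)) .o))
  (.n (.n (.n .o (.n (.c 3344) .o)) .o) .o))) (.n .o (.n (.n .o (.n (.n (.n .o (.n .o (.n .o (.n
  (.c 18224) .o)))) (.n (.n .o (.n (.c (-19552)) .o)) .o)) .o)) .o)))) (.n (.n (.n (.n (.n (.c
  (-4876)) (.n .o (.n (.c (-888)) (.n .o (.n (.c 6336) .o))))) (.n (.n (.c 1268) (.n .o (.n (.c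
  8682) .o))) (.n (.n (.c 4432) .o) .o))) (.n (.n (.n (.c 7826) (.n .o (.n (.c 8682) .o))) (.n (.n
  (.c (-4586)) .o) .o)) (.n (.n (.n (.c (-3576)) .o) .o) .o))) (.n .o (.n (.n (.n (.n .o (.n .o (.n
  (.c (-1776)) (.n .o (.n (.c 25344) .o))))) (.n (.n (.c 2246) (.n .o (.n (.c (-10470)) .o))) (.n
  (.n (.c (-4200)) .o) .o))) (.n (.n (.n .o (.n .o (.n (.c (-10470)) .o))) (.n (.n (.c 3158) .o)
  .o)) .o)) .o))) (.n (.n .o (.n (.n (.n (.n .o (.n (.c 1776) (.n .o (.n (.c (-25344)) .o)))) (.n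
  (.n .o (.n (.c (-19692)) .o)) .o)) (.n (.n (.n .o (.n (.c 3852) .o)) .o) .o)) (.n .o (.n (.n (.n
  (.n .o (.n .o (.n .o (.n (.c (-16896)) .o)))) (.n (.n .o (.n (.c 18224) .o)) .o)) .o) .o)))) (.n
  (.n (.n (.n (.n (.c (-444)) (.n .o (.n (.c 6336) .o))) (.n (.n (.c 9978) .o) .o)) (.n (.n (.n (.c
  (-1628)) .o) .o) .o)) (.n .o (.n (.n (.n (.n .o (.n .o (.n (.c 25344) .o))) (.n (.n (.c (-8946))
  .o) .o)) .o) .o))) (.n (.n .o (.n (.n (.n (.n .o (.n (.c (-12672)) .o)) .o) .o) .o)) (.n (.n (.n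
  (.n (.n (.c 2112) .o) .o) .o) .o) .o)))))))

set_option maxRecDepth 4000 in
def pDA : Po :=
  (.n (.n (.n (.n (.n (.c (-1)) (.n .o (.n (.c 1) .o))) (.n (.n (.c 1) .o) .o)) (.n (.n (.n (.c 1)
  .o) .o) .o)) .o) (.n .o (.n (.n (.n (.n (.n (.c 1) .o) .o) .o) .o) .o)))

set_option maxRecDepth 4000 in
def pQA : Po :=
  (.n (.n (.n (.n (.n .o (.n .o (.n (.c 1477) (.n .o (.n (.c 11462) (.n .o (.n (.c 4224) .o)))))))
  (.n (.n .o (.n .o (.n (.c 11914) (.n .o (.n (.c (-3256)) .o))))) (.n (.n (.c 6976) (.n .o (.n (.c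
  (-7152)) .o))) (.n (.n (.c 128) .o) .o)))) (.n (.n (.n .o (.n .o (.n (.c 14814) (.n .o (.n (.c
  19956) .o))))) (.n (.n (.c 10872) (.n .o (.n (.c (-9172)) .o))) (.n (.n (.c (-3880)) .o) .o)))
  (.n (.n (.n (.c 6976) (.n .o (.n (.c 8864) .o))) (.n (.n (.c (-3880)) .o) .o)) (.n (.n (.n (.c
  128) .o) .o) .o)))) (.n .o (.n (.n (.n (.n (.c 133) (.n .o (.n (.c 1725) (.n .o (.n (.c (-8946))
  .o))))) (.n (.n (.c 1049) (.n .o (.n (.c 3158) .o))) (.n (.n (.c 1566) .o) .o))) (.n (.n (.n (.c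
  1049) (.n .o (.n (.c (-750)) (.n .o (.n (.c (-17892)) .o))))) (.n (.n (.c 3664) (.n .o (.n (.c
  6316) .o))) (.n (.n (.c 3132) .o) .o))) (.n (.n (.n (.c 1566) (.n .o (.n (.c (-8400)) .o))) (.n
  (.n (.c 3132) .o) .o)) .o))) .o))) (.n (.n .o (.n (.n (.n (.n .o (.n (.c 11372) (.n .o (.n (.c
  (-12288)) (.n .o (.n (.c (-25344)) .o)))))) (.n (.n .o (.n (.c 6416) (.n .o (.n (.c 7704) .o))))
  (.n (.n .o (.n (.c 6688) .o)) .o))) (.n (.n (.n .o (.n (.c 6416) (.n .o (.n (.c (-39384)) .o))))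
  (.n (.n .o (.n (.c 44816) .o)) .o)) (.n (.n (.n .o (.n (.c 6688) .o)) .o) .o))) (.n .o (.n (.n
  (.n (.n .o (.n (.c (-9776)) (.n .o (.n (.c 18224) .o)))) (.n (.n .o (.n (.c (-19552)) .o)) .o))
  (.n (.n (.n .o (.n (.c (-19552)) (.n .o (.n (.c 36448) .o)))) (.n (.n .o (.n (.c (-39104)) .o))
  .o)) .o)) .o)))) (.n (.n (.n (.n (.n (.c 1477) (.n .o (.n (.c 23588) (.n .o (.n (.c 12672)
  .o))))) (.n (.n (.c 14814) (.n .o (.n (.c 17364) .o))) (.n (.n (.c 8864) .o) .o))) (.n (.n (.n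
  (.c 11914) (.n .o (.n (.c 17364) .o))) (.n (.n (.c (-9172)) .o) .o)) (.n (.n (.n (.c (-7152)) .o)
  .o) .o))) (.n .o (.n (.n (.n (.n (.c 1725) (.n .o (.n (.c (-24492)) (.n .o (.n (.c 50688) .o)))))
  (.n (.n (.c (-750)) (.n .o (.n (.c (-20940)) .o))) (.n (.n (.c (-8400)) .o) .o))) (.n (.n (.n (.c
  3158) (.n .o (.n (.c (-20940)) .o))) (.n (.n (.c 6316) .o) .o)) .o)) .o))) (.n (.n .o (.n (.n (.n
  (.n .o (.n (.c (-12288)) (.n .o (.n (.c (-50688)) .o)))) (.n (.n .o (.n (.c (-39384)) .o)) .o))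
  (.n (.n (.n .o (.n (.c 7704) .o)) .o) .o)) (.n .o (.n (.n (.n (.n .o (.n (.c 18224) (.n .o (.n
  (.c (-33792)) .o)))) (.n (.n .o (.n (.c 36448) .o)) .o)) .o) .o)))) (.n (.n (.n (.n (.n (.c
  11462) (.n .o (.n (.c 12672) .o))) (.n (.n (.c 19956) .o) .o)) (.n (.n (.n (.c (-3256)) .o) .o)
  .o)) (.n .o (.n (.n (.n (.n (.c (-8946)) (.n .o (.n (.c 50688) .o))) (.n (.n (.c (-17892)) .o)
  .o)) .o) .o))) (.n (.n .o (.n (.n (.n (.n .o (.n (.c (-25344)) .o)) .o) .o) .o)) (.n (.n (.n (.n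
  (.n (.c 4224) .o) .o) .o) .o) .o)))))))

set_option maxRecDepth 4000 in
def pQB : Po :=
  (.n (.n (.n (.n (.n .o (.n .o (.n (.c 1477) (.n .o (.n (.c 11462) (.n .o (.n (.c 4224) .o)))))))
  (.n (.n .o (.n .o (.n (.c 14814) (.n .o (.n (.c 19956) .o))))) (.n (.n (.c 6976) (.n .o (.n (.c
  8864) .o))) (.n (.n (.c 128) .o) .o)))) (.n (.n (.n .o (.n .o (.n (.c 11914) (.n .o (.n (.c
  (-3256)) .o))))) (.n (.n (.c 10872) (.n .o (.n (.c (-9172)) .o))) (.n (.n (.c (-3880)) .o) .o)))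
  (.n (.n (.n (.c 6976) (.n .o (.n (.c (-7152)) .o))) (.n (.n (.c (-3880)) .o) .o)) (.n (.n (.n (.c
  128) .o) .o) .o)))) (.n .o (.n (.n (.n (.n (.c 133) (.n .o (.n (.c 1725) (.n .o (.n (.c (-8946))
  .o))))) (.n (.n (.c 1049) (.n .o (.n (.c (-750)) (.n .o (.n (.c (-17892)) .o))))) (.n (.n (.c
  1566) (.n .o (.n (.c (-8400)) .o))) .o))) (.n (.n (.n (.c 1049) (.n .o (.n (.c 3158) .o))) (.n
  (.n (.c 3664) (.n .o (.n (.c 6316) .o))) (.n (.n (.c 3132) .o) .o))) (.n (.n (.n (.c 1566) .o)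
  (.n (.n (.c 3132) .o) .o)) .o))) .o))) (.n (.n .o (.n (.n (.n (.n .o (.n (.c 11372) (.n .o (.n
  (.c (-12288)) (.n .o (.n (.c (-25344)) .o)))))) (.n (.n .o (.n (.c 6416) (.n .o (.n (.c (-39384))
  .o)))) (.n (.n .o (.n (.c 6688) .o)) .o))) (.n (.n (.n .o (.n (.c 6416) (.n .o (.n (.c 7704)
  .o)))) (.n (.n .o (.n (.c 44816) .o)) .o)) (.n (.n (.n .o (.n (.c 6688) .o)) .o) .o))) (.n .o (.n
  (.n (.n (.n .o (.n (.c (-9776)) (.n .o (.n (.c 18224) .o)))) (.n (.n .o (.n (.c (-19552)) (.n .o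
  (.n (.c 36448) .o)))) .o)) (.n (.n (.n .o (.n (.c (-19552)) .o)) (.n (.n .o (.n (.c (-39104))
  .o)) .o)) .o)) .o)))) (.n (.n (.n (.n (.n (.c 1477) (.n .o (.n (.c 23588) (.n .o (.n (.c 12672)
  .o))))) (.n (.n (.c 11914) (.n .o (.n (.c 17364) .o))) (.n (.n (.c (-7152)) .o) .o))) (.n (.n (.n
  (.c 14814) (.n .o (.n (.c 17364) .o))) (.n (.n (.c (-9172)) .o) .o)) (.n (.n (.n (.c 8864) .o)
  .o) .o))) (.n .o (.n (.n (.n (.n (.c 1725) (.n .o (.n (.c (-24492)) (.n .o (.n (.c 50688) .o)))))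
  (.n (.n (.c 3158) (.n .o (.n (.c (-20940)) .o))) .o)) (.n (.n (.n (.c (-750)) (.n .o (.n (.c
  (-20940)) .o))) (.n (.n (.c 6316) .o) .o)) (.n (.n (.n (.c (-8400)) .o) .o) .o))) .o))) (.n (.n
  .o (.n (.n (.n (.n .o (.n (.c (-12288)) (.n .o (.n (.c (-50688)) .o)))) (.n (.n .o (.n (.c 7704)
  .o)) .o)) (.n (.n (.n .o (.n (.c (-39384)) .o)) .o) .o)) (.n .o (.n (.n (.n (.n .o (.n (.c 18224)
  (.n .o (.n (.c (-33792)) .o)))) .o) (.n (.n (.n .o (.n (.c 36448) .o)) .o) .o)) .o)))) (.n (.n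
  (.n (.n (.n (.c 11462) (.n .o (.n (.c 12672) .o))) (.n (.n (.c (-3256)) .o) .o)) (.n (.n (.n (.c
  19956) .o) .o) .o)) (.n .o (.n (.n (.n (.n (.c (-8946)) (.n .o (.n (.c 50688) .o))) .o) (.n (.n
  (.n (.c (-17892)) .o) .o) .o)) .o))) (.n (.n .o (.n (.n (.n (.n .o (.n (.c (-25344)) .o)) .o) .o)
  .o)) (.n (.n (.n (.n (.n (.c 4224) .o) .o) .o) .o) .o)))))))

end Pool.Agent.MP_90395b_gt.Bn
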