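import Pool.Agent.MP_90395b_gt.BnDig

/-! Definitions of a Bernstein subdivision checker on packed tensors. -/

namespace Pool.Agent.MP_90395b_gt.Bn

open Finset

/-- number of entries of a tensor with the given degrees -/
def sz : List ℕ → ℕ
  | [] => 1
  | d :: t => (d + 1) * sz t

/-- contraction of a flat tensor with one weight sequence per level, outermost level first -/
def val {R : Type} [CommRing R] : List ℕ → (ℕ → ℕ → R) → (ℕ → R) → R
  | [], _, f => f 0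
  | d :: t, W, f =>
    ∑ a ∈ range (d + 1), W 0 a * val t (fun j => W (j + 1)) (fun i => f (a * sz t + i))

noncomputable def bb (d : ℕ) (x : ℝ) (a : ℕ) : ℝ := (d.choose a : ℝ) * x ^ a * (1 - x) ^ (d - a)

noncomputable def bw (ds : List ℕ) (x : ℕ → ℝ) (j : ℕ) : ℕ → ℝ := bb (ds.getD j 0) (x j)

def Cube (x : ℕ → ℝ) : Prop := ∀ j, 0 ≤ x j ∧ x j ≤ 1

/-- Bernstein value of a tensor of naturals -/
noncomputable def bv (ds : List ℕ) (x : ℕ → ℝ) (f : ℕ → ℕ) : ℝ :=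
  val ds (bw ds x) (fun i => (f i : ℝ))

def Imp (d1 d2 : List ℕ) (K : ℝ) (f1 f2 : ℕ → ℕ) : Prop :=
  ∀ x, Cube x → bv d2 x f2 ≤ K → K ≤ bv d1 x f1

/-- iterated sums of neighbours -/
def st {M : Type} [Add M] (G : ℕ → M) : ℕ → ℕ → M
  | 0, a => G a
  | k + 1, a => st G k a + st G k (a + 1)

noncomputable def an (a b : Bool) : Bool := @Bool.rec (fun _ => Bool) false b a

theorem an_eq (a b : Bool) : an a b = true ↔ a = true ∧ b = true := by
  cases a <;> simp [an]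

/-- evaluate `x` first, then continue -/
noncomputable def frc {α : Type} (x : ℕ) (k : ℕ → α) : α :=
  @Nat.rec (fun _ => α) (k 0) (fun c _ => k c) (Nat.succ x)

theorem frc_eq {α : Type} (x : ℕ) (k : ℕ → α) : frc x k = k x := rfl

/-- the loop of the subdivision step -/
noncomputable def lp (S m d r : ℕ) : ℕ → ℕ → ℕ → (ℕ → ℕ → Bool) → Bool :=
  @Nat.rec (fun _ => ℕ → ℕ → ℕ → (ℕ → ℕ → Bool) → Bool) (fun _ L R c => c L R)
    (fun r ih T L R c => ih (Nat.add T (Nat.shiftRight T S))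
      (Nat.add L (Nat.shiftLeft (Nat.land (Nat.add T (Nat.shiftRight T S)) m)
        (Nat.add (Nat.mul S (Nat.sub d r)) r)))
      (Nat.add (Nat.shiftLeft R 1)
        (Nat.land (Nat.add T (Nat.shiftRight T S)) (Nat.shiftLeft m (Nat.mul S r)))) c) r

/-- entrywise shift by `e` and truncation to `w` bits -/
def flo (B w N e T : ℕ) : ℕ :=
  Nat.land (Nat.shiftRight T e) (Nat.mul (Nat.sub (Nat.shiftLeft 1 w) 1) (geo B N))

noncomputable def spl0 (B w N S m d T : ℕ) (c : ℕ → ℕ → Bool) : Bool :=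
  lp S m d d T (Nat.shiftLeft (Nat.land T m) d) (Nat.land T (Nat.shiftLeft m (Nat.mul S d)))
    (fun L R => c (flo B w N d L) (flo B w N d R))

/-- both halves along level `j` -/
noncomputable def spl (B w : ℕ) (ds : List ℕ) (j T : ℕ) (c : ℕ → ℕ → Bool) : Bool :=
  spl0 B w (sz ds) (Nat.mul B (sz (ds.drop (j + 1))))
    (mk B (sz (ds.drop (j + 1))) (ds.getD j 0) (sz (ds.take j))) (ds.getD j 0) T c

/-- bit `b` is set in every slot -/
def hb (B b N T : ℕ) : Bool :=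
  Nat.beq (Nat.land T (Nat.shiftLeft (geo B N) b)) (Nat.shiftLeft (geo B N) b)

inductive Tr where
  | z : Tr
  | l : ℕ → Tr
  | s : ℕ → Tr → Tr → Tr

noncomputable def chk (B w d : ℕ) (t : List ℕ) (tr : Tr) : ℕ → ℕ → Bool :=
  @Tr.rec (fun _ => ℕ → ℕ → Bool) (fun T _ => hb B (Nat.sub w 1) (sz (d :: t)) T)
    (fun p T U => an (Nat.blt p (Nat.shiftLeft 1 (Nat.sub B w)))
      (hb B (Nat.sub B 1) (sz (d :: t))
        (Nat.add (Nat.mul (Nat.sub (Nat.shiftLeft 1 (Nat.sub B w)) p) T)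
          (Nat.mul (Nat.mul p U) (geo (Nat.mul B (sz t)) (Nat.succ d))))))
    (fun j _ _ ca cb T U => an (Nat.ble j t.length) (an (Nat.ble (Nat.add w ((d :: t).getD j 0)) B)
      (spl B w (d :: t) j T fun L R => spl B w (0 :: t) j U fun L' R' =>
        an (ca L L') (cb R R')))) tr

/-- nested polynomials: a constant, zero, or a coefficient plus the variable times the rest -/
inductive Po where
  | c : ℤ → Po
  | o : Po
  | n : Po → Po → Po

/-- Horner value -/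
noncomputable def H : Po → (ℕ → ℝ) → ℝ
  | .c z, _ => z
  | .o, _ => 0
  | .n p r, y => H p (fun j => y (j + 1)) + y 0 * H r y

/-- value with one table per level; the last table is read at the total degree -/
def ev {R : Type} [CommRing R] : Po → (ℕ → ℕ → R) → ℕ → ℕ → R
  | .c z, b, _, n => (z : R) * b 0 n
  | .o, _, _, _ => 0
  | .n p r, b, a, n => b 0 a * ev p (fun j => b (j + 1)) 0 (n + a) + ev r b (a + 1) n

noncomputable def evZ (p : Po) : (ℕ → ℕ → ℤ) → ℕ → ℕ → ℤ :=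
  @Po.rec (fun _ => (ℕ → ℕ → ℤ) → ℕ → ℕ → ℤ)
    (fun z b _ n => frc n fun n' => Int.mul z (b 0 n')) (fun _ _ _ => Int.ofNat 0)
    (fun _ _ ip ir b a n => Int.add (Int.mul (b 0 a) (ip (fun j => b (Nat.succ j)) 0 (Nat.add n a)))
      (ir b (Nat.succ a) n)) p

noncomputable def evA (p : Po) : (ℕ → ℕ → ℕ) → ℕ → ℕ → ℕ :=
  @Po.rec (fun _ => (ℕ → ℕ → ℕ) → ℕ → ℕ → ℕ)
    (fun z b _ n => frc n fun n' => Nat.mul (Int.natAbs z) (b 0 n')) (fun _ _ _ => 0)
    (fun _ _ ip ir b a n => Nat.add (Nat.mul (b 0 a) (ip (fun j => b (Nat.succ j)) 0 (Nat.add n a)))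
      (ir b (Nat.succ a) n)) p

/-- leaves sit at depth `k` and all exponents are admissible -/
noncomputable def wf (p : Po) : (ℕ → ℕ → Bool) → ℕ → ℕ → ℕ → Bool :=
  @Po.rec (fun _ => (ℕ → ℕ → Bool) → ℕ → ℕ → ℕ → Bool)
    (fun _ ok k _ n => an (Nat.beq k 0) (ok 0 n)) (fun _ _ _ _ => true)
    (fun _ _ ip ir ok k a n => an (Nat.ble 1 k) (an (ok 0 a)
      (an (ip (fun j => ok (Nat.succ j)) (Nat.pred k) 0 (Nat.add n a)) (ir ok k (Nat.succ a) n)))) p

/-- the coefficient tensor -/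
def ten : Po → List ℕ → (ℕ → ℕ → ℕ → ℤ) → ℕ → ℕ → ℕ → ℤ
  | .c z, _, g, _, n, i => z * g 0 n i
  | .o, _, _, _, _, _ => 0
  | .n p r, ds, g, a, n, i => g 0 a (i / sz ds.tail) *
      ten p ds.tail (fun j => g (j + 1)) 0 (n + a) (i % sz ds.tail) + ten r ds g (a + 1) n i

structure Sp where
  d : ℕ
  D : ℕ
  o : ℕ
  lo : ℤ
  hi : ℤ
  om : ℤ

def ch (n k : ℕ) : ℕ := n.descFactorial k / k.factorial

/-- scaled Bernstein coefficients of a power -/
noncomputable def gam (s : Sp) (a m : ℕ) : ℤ :=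
  frc (a - s.o) fun a' => frc (s.D - a') fun b => frc (s.d - m) fun m' =>
    Int.mul (Int.mul (Int.ofNat (Nat.mul m.factorial m'.factorial)) (Int.pow s.om b))
      (∑ i ∈ range (m + 1), frc (m - i) fun j => frc (a' - i) fun k =>
        Int.mul (Int.mul (Int.ofNat (Nat.mul (ch a' i) (ch b j))) (Int.pow s.hi i)) (Int.pow s.lo k))

theorem gam_eq (s : Sp) (a m : ℕ) : gam s a m =
    ((m.factorial * (s.d - m).factorial : ℕ) : ℤ) * s.om ^ (s.D - (a - s.o)) *
      ∑ i ∈ range (m + 1), ((ch (a - s.o) i * ch (s.D - (a - s.o)) (m - i) : ℕ) : ℤ) * s.hi ^ i *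
        s.lo ^ (a - s.o - i) := rfl

def Sp.ok (s : Sp) (a : ℕ) : Bool := Nat.ble s.o a && Nat.ble a (s.D + s.o)

def Sp.gd (s : Sp) : Bool :=
  decide (0 < s.om) && (Nat.beq s.d s.D || (Nat.beq s.d 0 && decide (s.lo = s.hi)))

/-- data of level `j` -/
def sp (ds Ds : List ℕ) (o : ℕ) (bx : List (ℤ × ℤ × ℤ)) (j : ℕ) : Sp :=
  ⟨ds.getD j 0, Ds.getD j 0, if j + 1 = ds.length then o else 0, (bx.getD j (0, 0, 1)).1,
    (bx.getD j (0, 0, 1)).2.1, (bx.getD j (0, 0, 1)).2.2⟩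

noncomputable def tb (s : Sp) (S a : ℕ) : ℤ :=
  ∑ m ∈ range (s.d + 1), gam s a m * ((Nat.shiftLeft 1 (S * m) : ℕ) : ℤ)

noncomputable def tA (s : Sp) (a : ℕ) : ℕ := ∑ m ∈ range (s.d + 1), (gam s a m).natAbs

/-- packed exact coefficients with an offset -/
noncomputable def rz (C w e : ℕ) (ds : List ℕ) (G : ℕ → Sp) (p : Po) : ℕ :=
  Int.toNat (Int.add (evZ p (fun j a => tb (G j) (C * sz (ds.drop (j + 1))) a) 0 0)
    (Int.ofNat (Nat.mul (Nat.add (Nat.shiftLeft 1 (C - 1)) (Nat.shiftLeft 1 (w - 1 + e)))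
      (geo C (sz ds)))))

/-- the outermost level becomes the innermost one -/
def mv (B d n F : ℕ) : ℕ :=
  ∑ a ∈ range (d + 1), Nat.shiftLeft (Nat.land (Nat.shiftRight F ((d + 1) * B * n * a))
    (Nat.sub (Nat.shiftLeft 1 ((d + 1) * B * n)) 1)) (B * a)

noncomputable def root (B w e d : ℕ) (t : List ℕ) (G : ℕ → Sp) (p : Po) : ℕ :=
  mv B d (sz t) (flo ((d + 1) * B) w (sz (d :: t)) e (rz ((d + 1) * B) w e (d :: t) G p))

noncomputable def rootOk (B w e d : ℕ) (t : List ℕ) (G : ℕ → Sp) (p : Po) : Bool :=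
  an ((List.range (t.length + 1)).all fun j => (G j).gd) <|
  an (wf p (fun j a => (G j).ok a) t.length 0 0) <|
  an (Nat.blt (e + w) ((d + 1) * B)) <|
  an (Nat.blt (evA p (fun j a => tA (G j) a) 0 0 + Nat.shiftLeft 1 (w - 1 + e))
    (Nat.shiftLeft 1 ((d + 1) * B - 1))) <|
  hb ((d + 1) * B) ((d + 1) * B - 1) (sz (d :: t)) (rz ((d + 1) * B) w e (d :: t) G p)

noncomputable def check (B w e1 e2 d0 d1 : ℕ) (t D1 D2 : List ℕ) (o1 o2 : ℕ)
    (bx : List (ℤ × ℤ × ℤ)) (p1 p2 : Po) (tr : Tr) : Bool :=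
  an (Nat.blt 0 w) <| an (Nat.blt w B) <|
  an (rootOk B w e1 d0 (d1 :: t) (sp (d0 :: d1 :: t) D1 o1 bx) p1) <|
  an (rootOk B w e2 d0 (0 :: t) (sp (d0 :: 0 :: t) D2 o2 bx) p2) <|
  chk B w d1 (t ++ [d0]) tr (root B w e1 d0 (d1 :: t) (sp (d0 :: d1 :: t) D1 o1 bx) p1)
    (root B w e2 d0 (0 :: t) (sp (d0 :: 0 :: t) D2 o2 bx) p2)

noncomputable def addc (z : ℤ) (q : Po) : Po :=
  @Po.rec (fun _ => Po) (fun y => if z + y = 0 then Po.o else Po.c (z + y)) (Po.c z)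
    (fun _ r ip _ => Po.n ip r) q

noncomputable def add (p : Po) : Po → Po :=
  @Po.rec (fun _ => Po → Po) (fun z q => addc z q) (fun q => q)
    (fun a r ia ir q => @Po.rec (fun _ => Po) (fun y => Po.n (addc y a) r) (Po.n a r)
      (fun b s _ _ => Po.n (ia b) (ir s)) q) p

/-- shift of the outermost variable by one -/
noncomputable def sh (p : Po) : Po :=
  @Po.rec (fun _ => Po) (fun z => Po.c z) Po.o (fun a _ _ ir => add (Po.n a ir) ir) p

noncomputable def mapc (f : Po → Po) (p : Po) : Po :=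
  @Po.rec (fun _ => Po) (fun z => Po.c z) Po.o (fun a _ _ ir => Po.n (f a) ir) p

/-- shift of the variable of level `j` by one -/
noncomputable def shAt (j : ℕ) : Po → Po :=
  @Nat.rec (fun _ => Po → Po) sh (fun _ f => mapc f) j

end Pool.Agent.MP_90395b_gt.Bn
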