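import Mathlib

/-! Packed sequences of natural numbers with slots of `B` bits. -/

namespace Pool.Agent.MP_90395b_gt.Bn

open Finset

def dig (B C i : ℕ) : ℕ := C / 2 ^ (B * i) % 2 ^ B

theorem dig_zero (B C : ℕ) : dig B C 0 = C % 2 ^ B := by
  simp only [dig, mul_zero, pow_zero, Nat.div_one]

theorem dig_shift (B C j i : ℕ) : dig B (C / 2 ^ (B * j)) i = dig B C (i + j) := by
  unfold dig
  rw [Nat.div_div_eq_div_mul, ← pow_add, ← mul_add, add_comm j]

theorem dig_succ (B C i : ℕ) : dig B C (i + 1) = dig B (C / 2 ^ B) i := by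
  rw [← dig_shift, mul_one]

theorem dig_lt (B C i : ℕ) : dig B C i < 2 ^ B := Nat.mod_lt _ (by positivity)

theorem dig_land (B A C i : ℕ) : dig B (A &&& C) i = dig B A i &&& dig B C i := by
  unfold dig
  rw [Nat.and_div_two_pow, Nat.and_mod_two_pow]

def pk (B n : ℕ) (f : ℕ → ℕ) : ℕ := ∑ i ∈ range n, f i * 2 ^ (B * i)

def Bd (n M : ℕ) (f : ℕ → ℕ) : Prop := ∀ i < n, f i < M

theorem Bd.mono {n M M' : ℕ} {f : ℕ → ℕ} (hf : Bd n M f) (h : M ≤ M') : Bd n M' f :=
  fun i hi => lt_of_lt_of_le (hf i hi) h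

theorem pk_congr {B n : ℕ} {f g : ℕ → ℕ} (h : ∀ i < n, f i = g i) : pk B n f = pk B n g :=
  sum_congr rfl fun i hi => by rw [h i (mem_range.1 hi)]

theorem pk_succ (B n : ℕ) (f : ℕ → ℕ) :
    pk B (n + 1) f = f 0 + 2 ^ B * pk B n (fun i => f (i + 1)) := by
  unfold pk
  rw [sum_range_succ', mul_sum, add_comm]
  simp only [mul_zero, pow_zero, mul_one]
  refine congrArg (fun t => f 0 + t) (sum_congr rfl fun i _ => ?_)
  rw [mul_add, mul_one, pow_add, ← mul_assoc, mul_comm _ (2 ^ B)]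

theorem dig_pk (B n : ℕ) : ∀ f : ℕ → ℕ, Bd n (2 ^ B) f →
    (∀ i, dig B (pk B n f) i = if i < n then f i else 0) ∧ pk B n f < 2 ^ (B * n) := by
  induction n with
  | zero => intro f _; exact ⟨fun i => by simp [pk, dig], by simp [pk]⟩
  | succ n ih =>
    intro f h
    have h0 := h 0 (by omega)
    obtain ⟨h1, h2⟩ := ih (fun i => f (i + 1)) (fun i hi => h _ (by omega))
    rw [pk_succ]
    constructor
    · intro i
      rcases i with _ | i
      · rw [dig_zero, Nat.add_mul_mod_self_left, Nat.mod_eq_of_lt h0, if_pos (by omega)]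
      · rw [dig_succ, Nat.add_mul_div_left _ _ (by positivity), Nat.div_eq_of_lt h0, zero_add, h1 i]
        simp only [Nat.add_lt_add_iff_right]
    · rw [mul_add, mul_one, pow_add, mul_comm (2 ^ (B * n))]
      generalize (2 : ℕ) ^ B = X at *
      calc f 0 + X * pk B n (fun i => f (i + 1)) < X * (pk B n (fun i => f (i + 1)) + 1) := by
            rw [mul_add, mul_one]; omega
        _ ≤ X * 2 ^ (B * n) := Nat.mul_le_mul_left _ h2

theorem pk_dig (B n : ℕ) : ∀ C : ℕ, C < 2 ^ (B * n) → C = pk B n (dig B C) := by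
  induction n with
  | zero => intro C h; simp at h; simp [pk, h]
  | succ n ih =>
    intro C h
    rw [pk_succ, dig_zero]
    have h1 : C / 2 ^ B < 2 ^ (B * n) := by
      rw [Nat.div_lt_iff_lt_mul (by positivity), ← pow_add]
      exact h
    have h2 := ih _ h1
    have h3 : (fun i => dig B C (i + 1)) = dig B (C / 2 ^ B) := funext fun i => dig_succ B C i
    rw [h3, ← h2, Nat.mod_add_div]

theorem pk_add (B n : ℕ) (f g : ℕ → ℕ) : pk B n (fun i => f i + g i) = pk B n f + pk B n g := by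
  simp only [pk, add_mul, sum_add_distrib]

theorem pk_mul (B n k : ℕ) (f : ℕ → ℕ) : pk B n (fun i => k * f i) = k * pk B n f := by
  simp only [pk, mul_sum, mul_assoc]

theorem pk_sum (B n : ℕ) (F : ℕ → ℕ → ℕ) (m : ℕ) :
    pk B n (fun i => ∑ j ∈ range m, F j i) = ∑ j ∈ range m, pk B n (F j) := by
  induction m with
  | zero => simp [pk]
  | succ m ih => simp only [sum_range_succ, pk_add, ih]

theorem land_pk {B n : ℕ} (A : ℕ) {m : ℕ → ℕ} (hm : Bd n (2 ^ B) m) :
    A &&& pk B n m = pk B n (fun i => dig B A i &&& m i) := by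
  obtain ⟨h1, h2⟩ := dig_pk B n m hm
  rw [pk_dig B n _ (lt_of_le_of_lt (Nat.and_le_right (n := A)) h2)]
  refine pk_congr fun i hi => ?_
  rw [dig_land, h1 i, if_pos hi]

theorem shr_pk {B n : ℕ} {f : ℕ → ℕ} (hf : Bd n (2 ^ B) f) (s : ℕ) :
    pk B n f >>> (B * s) = pk B n (fun i => if i + s < n then f (i + s) else 0) := by
  obtain ⟨h1, h2⟩ := dig_pk B n f hf
  rw [Nat.shiftRight_eq_div_pow, pk_dig B n _ (lt_of_le_of_lt (Nat.div_le_self _ _) h2)]
  refine pk_congr fun i _ => ?_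
  rw [dig_shift, h1]

theorem and_full {B x : ℕ} (h : x < 2 ^ B) : x &&& (2 ^ B - 1) = x := by
  rw [Nat.and_two_pow_sub_one_eq_mod, Nat.mod_eq_of_lt h]

theorem sum_range_mul' {M : Type} [AddCommMonoid M] (m n : ℕ) (F : ℕ → M) :
    ∑ i ∈ range (m * n), F i = ∑ a ∈ range m, ∑ b ∈ range n, F (a * n + b) := by
  induction m with
  | zero => simp
  | succ m ih => rw [Nat.succ_mul, sum_range_add, ih, sum_range_succ]

/-- geometric sums, in closed form -/
def geo (B n : ℕ) : ℕ :=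
  Nat.div (Nat.sub (Nat.shiftLeft 1 (Nat.mul B n)) 1) (Nat.sub (Nat.shiftLeft 1 B) 1)

theorem geo_def (B n : ℕ) : geo B n = (2 ^ (B * n) - 1) / (2 ^ B - 1) := by
  change (1 <<< (B * n) - 1) / (1 <<< B - 1) = _
  rw [Nat.one_shiftLeft, Nat.one_shiftLeft]

theorem geo_eq {B : ℕ} (hB : 0 < B) (n : ℕ) : geo B n = pk B n (fun _ => 1) := by
  have h2 : 2 ≤ 2 ^ B := by
    calc 2 = 2 ^ 1 := by norm_num
      _ ≤ 2 ^ B := Nat.pow_le_pow_right (by norm_num) hB
  unfold pk
  rw [geo_def, pow_mul, ← Nat.geomSum_eq h2]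
  simp only [one_mul, pow_mul]

theorem const_pk {B : ℕ} (hB : 0 < B) (n c : ℕ) : c * geo B n = pk B n (fun _ => c) := by
  rw [geo_eq hB, ← pk_mul]; simp only [mul_one]

/-- digit of a flat index -/
def dg (s d i : ℕ) : ℕ := i / s % (d + 1)

theorem dg_eq {s d a lo : ℕ} (hi : ℕ) (ha : a ≤ d) (hlo : lo < s) :
    dg s d ((hi * (d + 1) + a) * s + lo) = a := by
  unfold dg
  have hs : 0 < s := by omega
  rw [add_comm, Nat.add_mul_div_right _ _ hs, Nat.div_eq_of_lt hlo, zero_add, add_comm,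
    Nat.add_mul_mod_self_right, Nat.mod_eq_of_lt (by omega)]

theorem dg_le (s d i : ℕ) : dg s d i ≤ d := Nat.lt_succ_iff.1 (Nat.mod_lt _ (by omega))

theorem idx_dec {s d M i : ℕ} (h : i < M * (d + 1) * s) :
    ∃ hi lo, hi < M ∧ lo < s ∧ i = (hi * (d + 1) + dg s d i) * s + lo := by
  have hs : 0 < s := by
    rcases Nat.eq_zero_or_pos s with h0 | h0
    · rw [h0] at h; omega
    · exact h0
  refine ⟨i / s / (d + 1), i % s, ?_, Nat.mod_lt _ hs, ?_⟩
  · rw [Nat.div_lt_iff_lt_mul (by omega), Nat.div_lt_iff_lt_mul hs]; exact h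
  · unfold dg
    rw [Nat.div_add_mod', Nat.div_add_mod']

theorem idx_lt {s d M hi a lo : ℕ} (h1 : hi < M) (ha : a ≤ d) (hlo : lo < s) :
    (hi * (d + 1) + a) * s + lo < M * (d + 1) * s := by
  have : hi * (d + 1) + a + 1 ≤ M * (d + 1) := by
    have := Nat.mul_le_mul_right (d + 1) (Nat.succ_le_of_lt h1)
    rw [Nat.succ_mul] at this; omega
  have := Nat.mul_le_mul_right s this
  rw [add_mul _ 1, one_mul] at this; omega

theorem pk_three (B s d M : ℕ) (f : ℕ → ℕ) : pk B (M * (d + 1) * s) f =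
    ∑ hi ∈ range M, ∑ a ∈ range (d + 1), ∑ lo ∈ range s,
      f ((hi * (d + 1) + a) * s + lo) * 2 ^ (B * ((hi * (d + 1) + a) * s + lo)) := by
  unfold pk
  rw [sum_range_mul', sum_range_mul']

/-- mask of row zero -/
def mk (B s d M : ℕ) : ℕ :=
  Nat.mul (Nat.sub (Nat.shiftLeft 1 (Nat.mul B s)) 1) (geo (Nat.mul B (Nat.mul (Nat.succ d) s)) M)

theorem mk_def (B s d M : ℕ) : mk B s d M = (2 ^ (B * s) - 1) * geo (B * ((d + 1) * s)) M := by
  change (1 <<< (B * s) - 1) * _ = _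
  rw [Nat.one_shiftLeft]
  rfl

theorem mk_eq {B s : ℕ} (hB : 0 < B) (hs : 0 < s) (d M : ℕ) : mk B s d M =
    pk B (M * (d + 1) * s) (fun i => if dg s d i = 0 then 2 ^ B - 1 else 0) := by
  have e1 : 2 ^ (B * s) - 1 = pk B s (fun _ => 2 ^ B - 1) := by
    rw [← const_pk hB, geo_def, Nat.mul_div_cancel']
    rw [pow_mul]
    exact Nat.sub_one_dvd_pow_sub_one _ _
  rw [mk_def, geo_eq (by positivity), e1, pk_three, pk, pk, mul_sum]
  refine sum_congr rfl fun hi _ => ?_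
  rw [sum_eq_single_of_mem (s := range (d + 1)) 0 (by simp), sum_mul]
  · refine sum_congr rfl fun lo hlo => ?_
    rw [dg_eq hi (Nat.zero_le _) (mem_range.1 hlo), if_pos rfl, one_mul, mul_assoc, ← pow_add]
    congr 2; ring
  · intro a ha h0
    refine sum_eq_zero fun lo hlo => ?_
    rw [dg_eq hi (Nat.lt_succ_iff.1 (mem_range.1 ha)) (mem_range.1 hlo), if_neg h0, zero_mul]

theorem row_pk {B s d M : ℕ} (hB : 0 < B) (hs : 0 < s) {f : ℕ → ℕ}
    (hf : Bd (M * (d + 1) * s) (2 ^ B) f) {j : ℕ} (hj : j ≤ d) :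
    (pk B (M * (d + 1) * s) f >>> (B * s * j)) &&& mk B s d M =
      pk B (M * (d + 1) * s) (fun i => if dg s d i = 0 then f (i + j * s) else 0) := by
  have hp : 0 < 2 ^ B := by positivity
  rw [mk_eq hB hs, land_pk _ (fun i _ => by split_ifs <;> omega), Nat.shiftRight_eq_div_pow,
    show B * s * j = B * (j * s) by ring]
  refine pk_congr fun i hi => ?_
  split_ifs with h0
  · rw [and_full (dig_lt _ _ _), dig_shift, (dig_pk B _ f hf).1, if_pos]
    obtain ⟨a, lo, h1, h2, h3⟩ := idx_dec hi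
    have := idx_lt h1 hj h2
    rw [h0] at h3
    rw [h3]; convert this using 1; ring
  · exact Nat.and_zero _

theorem put_pk (B s d M : ℕ) (G : ℕ → ℕ) {k : ℕ} (hk : k ≤ d) :
    pk B (M * (d + 1) * s) (fun i => if dg s d i = 0 then G i else 0) * 2 ^ (B * s * k) =
      pk B (M * (d + 1) * s) (fun i => if dg s d i = k then G (i - k * s) else 0) := by
  rw [pk_three, pk_three, sum_mul]
  refine sum_congr rfl fun hi _ => ?_
  rw [sum_eq_single_of_mem (s := range (d + 1)) 0 (by simp),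
    sum_eq_single_of_mem (s := range (d + 1)) k (mem_range.2 (by omega)), sum_mul]
  · refine sum_congr rfl fun lo hlo => ?_
    rw [dg_eq hi (Nat.zero_le _) (mem_range.1 hlo), dg_eq hi hk (mem_range.1 hlo), if_pos rfl,
      if_pos rfl, mul_assoc, ← pow_add]
    congr 2
    · rw [show (hi * (d + 1) + k) * s + lo = (hi * (d + 1) + 0) * s + lo + k * s by ring,
        Nat.add_sub_cancel]
    · ring
  · intro a ha h0
    refine sum_eq_zero fun lo hlo => ?_
    rw [dg_eq hi (Nat.lt_succ_iff.1 (mem_range.1 ha)) (mem_range.1 hlo), if_neg h0, zero_mul]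
  · intro a ha h0
    refine sum_eq_zero fun lo hlo => ?_
    rw [dg_eq hi (Nat.lt_succ_iff.1 (mem_range.1 ha)) (mem_range.1 hlo), if_neg h0, zero_mul]

/-- entrywise shift and truncation -/
theorem flo_pk {B n : ℕ} (hB : 0 < B) {f : ℕ → ℕ} (hf : Bd n (2 ^ B) f) {e w : ℕ}
    (hw : e + w ≤ B) :
    (pk B n f >>> e) &&& ((2 ^ w - 1) * geo B n) = pk B n (fun i => f i / 2 ^ e % 2 ^ w) := by
  have hp : 0 < 2 ^ w := by positivity
  have hle : 2 ^ w ≤ 2 ^ B := Nat.pow_le_pow_right (by norm_num) (by omega)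
  rw [const_pk hB, land_pk _ (fun _ _ => by omega)]
  refine pk_congr fun i hi => ?_
  have h1 := (dig_pk B n f hf).1 i
  rw [if_pos hi] at h1
  rw [← h1, Nat.and_two_pow_sub_one_eq_mod, Nat.shiftRight_eq_div_pow]
  unfold dig
  obtain ⟨c, rfl⟩ : ∃ c, B = e + (w + c) := ⟨B - e - w, by omega⟩
  rw [Nat.mod_mod_of_dvd _ (pow_dvd_pow 2 (by omega)), Nat.div_div_eq_div_mul, mul_comm (2 ^ e),
    ← Nat.div_div_eq_div_mul, pow_add 2 e, Nat.mod_mul_right_div_self,
    Nat.mod_mod_of_dvd _ (pow_dvd_pow 2 (by omega))]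

/-- one bit set in every slot -/
theorem high_pk {B b n : ℕ} (hb : b < B) {f : ℕ → ℕ} (hf : Bd n (2 ^ B) f)
    (h : pk B n f &&& (2 ^ b * geo B n) = 2 ^ b * geo B n) : ∀ i < n, 2 ^ b ≤ f i := by
  intro i hi
  have b1 : Bd n (2 ^ B) (fun _ => 2 ^ b) := fun _ _ => Nat.pow_lt_pow_right (by norm_num) hb
  have h2 := congrArg (fun x => dig B x i) h
  simp only [dig_land] at h2
  rw [const_pk (by omega), (dig_pk _ _ _ b1).1, (dig_pk _ _ _ hf).1, if_pos hi, if_pos hi] at h2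
  have h3 := Nat.and_le_left (n := f i) (m := 2 ^ b)
  rwa [h2] at h3

end Pool.Agent.MP_90395b_gt.Bn
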