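import Pool.Agent.MP_90395b_gt.BnVal

namespace Pool.Agent.MP_90395b_gt.Bn

open Finset

theorem gm_addc (z : ℤ) (q : Po) (y : ℕ → ℝ) : H (addc z q) y = z + H q y := by
  induction q generalizing y with
  | c w =>
    change H (if z + w = 0 then Po.o else Po.c (z + w)) y = _
    split_ifs with h
    · have h' : (z : ℝ) + w = 0 := by exact_mod_cast h
      simp only [H]
      linarith
    · simp only [H]
      push_cast
      ring
  | o =>
    change H (Po.c z) y = _
    simp only [H]
    ring
  | n p r ip _ =>
    change H (Po.n (addc z p) r) y = _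
    simp only [H]
    rw [ip]
    ring

theorem gm_add (p q : Po) (y : ℕ → ℝ) : H (add p q) y = H p y + H q y := by
  induction p generalizing q y with
  | c z =>
    change H (addc z q) y = _
    rw [gm_addc]
    simp only [H]
  | o =>
    change H q y = _
    simp only [H]
    ring
  | n a r ia ir =>
    cases q with
    | c w =>
      change H (Po.n (addc w a) r) y = _
      simp only [H]
      rw [gm_addc]
      ring
    | o =>
      change H (Po.n a r) y = _
      simp only [H]
      ring
    | n b s =>
      change H (Po.n (add a b) (add r s)) y = _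
      simp only [H]
      rw [ia, ir]
      ring

theorem gm_sh (p : Po) (y : ℕ → ℝ) : H (sh p) y = H p (Function.update y 0 (y 0 + 1)) := by
  induction p generalizing y with
  | c z =>
    change H (Po.c z) y = _
    simp only [H]
  | o =>
    change H Po.o y = _
    simp only [H]
  | n a r _ ir =>
    change H (add (Po.n a (sh r)) (sh r)) y = _
    rw [gm_add]
    simp only [H]
    rw [ir]
    have h1 : (fun j => Function.update y 0 (y 0 + 1) (j + 1)) = fun j => y (j + 1) := by
      funext j
      rw [Function.update_of_ne (by omega)]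
    rw [h1, Function.update_self]
    ring

theorem gm_mapc (f : Po → Po) (j : ℕ)
    (hf : ∀ (p : Po) (y : ℕ → ℝ), H (f p) y = H p (Function.update y j (y j + 1)))
    (p : Po) (y : ℕ → ℝ) :
    H (mapc f p) y = H p (Function.update y (j + 1) (y (j + 1) + 1)) := by
  induction p generalizing y with
  | c z =>
    change H (Po.c z) y = _
    simp only [H]
  | o =>
    change H Po.o y = _
    simp only [H]
  | n a r _ ir =>
    change H (Po.n (f a) (mapc f r)) y = _
    simp only [H]
    rw [ir, hf]
    have h1 : (fun i => Function.update y (j + 1) (y (j + 1) + 1) (i + 1)) =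
        Function.update (fun i => y (i + 1)) j (y (j + 1) + 1) := by
      funext i
      by_cases h : i = j
      · subst h
        simp
      · rw [Function.update_of_ne (by omega), Function.update_of_ne h]
    rw [h1, Function.update_of_ne (by omega : (0 : ℕ) ≠ j + 1)]

theorem H_shAt (j : ℕ) (p : Po) (y : ℕ → ℝ) :
    H (shAt j p) y = H p (Function.update y j (y j + 1)) := by
  induction j generalizing p y with
  | zero => exact gm_sh p y
  | succ j ih => exact gm_mapc (shAt j) j ih p y

theorem gm_ch (n k : ℕ) : ch n k = n.choose k := by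
  unfold ch
  rw [Nat.choose_eq_descFactorial_div_factorial]

theorem gm_conv (a b : ℕ) (f g : ℕ → ℝ) (hf : ∀ i, a < i → f i = 0) (hg : ∀ j, b < j → g j = 0) :
    ∑ m ∈ range (a + b + 1), ∑ i ∈ range (m + 1), f i * g (m - i) =
      (∑ i ∈ range (a + 1), f i) * ∑ j ∈ range (b + 1), g j := by
  rw [Finset.sum_range_diag_flip (a + b + 1) (fun i k => f i * g k)]
  have h1 : ∑ i ∈ range (a + 1), f i = ∑ i ∈ range (a + b + 1), f i := by
    apply Finset.sum_subset
    · intro i hi
      simp only [mem_range] at hi ⊢
      omega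
    · intro i _ hi
      simp only [mem_range] at hi
      exact hf i (by omega)
  rw [h1, Finset.sum_mul]
  refine Finset.sum_congr rfl fun i hi => ?_
  rw [← Finset.mul_sum]
  by_cases hia : a < i
  · rw [hf i hia]
    ring
  · congr 1
    symm
    apply Finset.sum_subset
    · intro k hk
      simp only [mem_range] at hk ⊢
      omega
    · intro k _ hk
      simp only [mem_range] at hk
      exact hg k (by omega)

theorem gm_id (a b : ℕ) (hi lo x z : ℝ) :
    ∑ m ∈ range (a + b + 1), (∑ i ∈ range (m + 1),
      ((a.choose i : ℝ) * (b.choose (m - i) : ℝ)) * hi ^ i * lo ^ (a - i)) *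
        (x ^ m * z ^ (a + b - m)) = (hi * x + lo * z) ^ a * (x + z) ^ b := by
  have h := gm_conv a b (fun i => (hi * x) ^ i * (lo * z) ^ (a - i) * (a.choose i : ℝ))
    (fun j => x ^ j * z ^ (b - j) * (b.choose j : ℝ))
    (fun i h => by simp [Nat.choose_eq_zero_of_lt h])
    (fun i h => by simp [Nat.choose_eq_zero_of_lt h])
  rw [add_pow, add_pow, ← h]
  refine Finset.sum_congr rfl fun m hm => ?_
  rw [Finset.sum_mul]
  refine Finset.sum_congr rfl fun i hi => ?_
  simp only [mem_range] at hm hi
  by_cases h1 : a < i
  · simp [Nat.choose_eq_zero_of_lt h1]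
  by_cases h2 : b < m - i
  · simp [Nat.choose_eq_zero_of_lt h2]
  have e1 : x ^ m = x ^ i * x ^ (m - i) := by
    rw [← pow_add]
    congr 1
    omega
  have e2 : z ^ (a + b - m) = z ^ (a - i) * z ^ (b - (m - i)) := by
    rw [← pow_add]
    congr 1
    omega
  rw [e1, e2, mul_pow, mul_pow]
  ring

theorem gam_spec (s : Sp) (hg : s.gd = true) (a : ℕ) (ha : s.ok a = true) (x y : ℝ)
    (hy : (s.om : ℝ) * y = s.lo * (1 - x) + s.hi * x) :
    ∑ m ∈ range (s.d + 1), (gam s a m : ℝ) * bb s.d x m =
      (s.d.factorial * (s.om : ℝ) ^ s.D) * y ^ (a - s.o) := by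
  simp only [Sp.ok, Bool.and_eq_true, Nat.ble_eq] at ha
  simp only [Sp.gd, Bool.and_eq_true, Bool.or_eq_true, Nat.beq_eq, decide_eq_true_eq] at hg
  obtain ⟨h1, h2⟩ := ha
  obtain ⟨b, hb⟩ : ∃ b, s.D = (a - s.o) + b := ⟨s.D - (a - s.o), by omega⟩
  have hb' : s.D - (a - s.o) = b := by omega
  simp only [gam_eq, hb', gm_ch]
  generalize a - s.o = a' at hb
  rcases hg.2 with hd | ⟨hd, hl⟩
  · have key := gm_id a' b s.hi s.lo x (1 - x)
    have e1 : (s.hi : ℝ) * x + s.lo * (1 - x) = s.om * y := by linarith
    have e2 : x + (1 - x) = 1 := by ring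
    rw [e1, e2, one_pow, mul_one] at key
    rw [hd, hb]
    have e3 : ((a' + b).factorial * (s.om : ℝ) ^ (a' + b)) * y ^ a' =
        ((a' + b).factorial * (s.om : ℝ) ^ b) * ((s.om : ℝ) * y) ^ a' := by
      rw [mul_pow, pow_add]
      ring
    rw [e3, ← key, Finset.mul_sum]
    refine Finset.sum_congr rfl fun m hm => ?_
    simp only [mem_range] at hm
    have e4 : ((a' + b).factorial : ℝ) =
        ((a' + b).choose m : ℝ) * (m.factorial : ℝ) * ((a' + b - m).factorial : ℝ) := by
      exact_mod_cast (Nat.choose_mul_factorial_mul_factorial (by omega : m ≤ a' + b)).symm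
    rw [e4]
    unfold bb
    push_cast
    ring
  · rw [hd, hb]
    have hl' : (s.lo : ℝ) = s.hi := by exact_mod_cast hl
    have e1 : (s.lo : ℝ) = s.om * y := by
      rw [hy, ← hl']
      ring
    simp only [zero_add, range_one, sum_singleton, bb]
    push_cast
    rw [e1, mul_pow, pow_add]
    simp
    ring

end Pool.Agent.MP_90395b_gt.Bn
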