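import Pool.Agent.MP_90395b_gt.BnLinkX

namespace Pool.Agent.MP_90395b_gt.Bn

open Pool.Agent.MP_90395b_gt.As

noncomputable def gh (x m q w : ℝ) : ℝ :=
  1173 * w ^ 3 - 2108 * (x - w / 2) * w ^ 2 - 254 * m * w ^ 2 + 2136 * (x - w / 2) ^ 2 * w
    + 1202 * (x - w / 2) * m * w - 316 * m ^ 2 * w - 478 * q * w - 200 * (x - w / 2) ^ 3
    - 1456 * (x - w / 2) ^ 2 * m - 484 * (x - w / 2) * m ^ 2 + 264 * m ^ 3
    + 344 * (x - w / 2) * q + 1222 * m * q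

theorem gh_eq (x m q w : ℝ) : gh (x * w) (m * w) (q * w ^ 2) w = 2000 * w ^ 3 * g x m q := by
  unfold gh g; ring

noncomputable def cH (D x r r' w : ℝ) : ℝ := D / 2 * gh x ((r + r') / 2 - x) ((r - r') ^ 2 / 16) w

theorem cH_eq (D x r r' w : ℝ) : cH (D * w) (x * w) (r * w) (r' * w) w = 2000 * w ^ 4 * c2 D x r r' := by
  unfold cH c2
  rw [show (r * w + r' * w) / 2 - x * w = ((r + r') / 2 - x) * w by ring,
    show (r * w - r' * w) ^ 2 / 16 = (r - r') ^ 2 / 16 * w ^ 2 by ring, gh_eq]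
  ring

noncomputable def P1s (h k u v s : ℝ) : ℝ := 1000 * (1 + s ^ 2) ^ 4 -
  (cH (((-h - u) * (-k - v) - (-k - v) * (h - u)) * (1 + s ^ 2)) (h ^ 2 * (1 + s ^ 2))
      (((-h - u) ^ 2 + (-k - v) ^ 2) * (1 + s ^ 2)) (((h - u) ^ 2 + (-k - v) ^ 2) * (1 + s ^ 2)) (1 + s ^ 2)
  + cH ((h - u) * ((2 * h * s - k * (1 - s ^ 2)) - v * (1 + s ^ 2)) - (-k - v) * ((h * (1 - s ^ 2) + 2 * k * s) - u * (1 + s ^ 2)))
      ((h ^ 2 + k ^ 2) * s ^ 2) (((h - u) ^ 2 + (-k - v) ^ 2) * (1 + s ^ 2))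
      ((h ^ 2 + k ^ 2 + u ^ 2 + v ^ 2) * (1 + s ^ 2) - 2 * ((h * (1 - s ^ 2) + 2 * k * s) * u + (2 * h * s - k * (1 - s ^ 2)) * v)) (1 + s ^ 2)
  + cH (((h * (1 - s ^ 2) + 2 * k * s) - u * (1 + s ^ 2)) * (-k - v) - ((2 * h * s - k * (1 - s ^ 2)) - v * (1 + s ^ 2)) * (-h - u))
      (((h ^ 2 + k ^ 2) * (1 + s ^ 2) + ((h * (1 - s ^ 2) + 2 * k * s) * h + (2 * h * s - k * (1 - s ^ 2)) * k)) / 2)
      ((h ^ 2 + k ^ 2 + u ^ 2 + v ^ 2) * (1 + s ^ 2) - 2 * ((h * (1 - s ^ 2) + 2 * k * s) * u + (2 * h * s - k * (1 - s ^ 2)) * v))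
      (((-h - u) ^ 2 + (-k - v) ^ 2) * (1 + s ^ 2)) (1 + s ^ 2))

theorem P1s_eq (h k u v s : ℝ) : P1s h k u v s = 2000 * (1 + s ^ 2) ^ 4 *
    (1 / 2 - Vp (-h) (-k) h (-k) ((h * (1 - s ^ 2) + 2 * k * s) / (1 + s ^ 2))
      ((2 * h * s - k * (1 - s ^ 2)) / (1 + s ^ 2)) u v) := by
  have hw : (1 + s ^ 2) ≠ 0 := by positivity
  have key : ∀ D x r r' D' x' q q' : ℝ, D' = D * (1 + s ^ 2) → x' = x * (1 + s ^ 2) →
      q = r * (1 + s ^ 2) → q' = r' * (1 + s ^ 2) →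
      cH D' x' q q' (1 + s ^ 2) = 2000 * (1 + s ^ 2) ^ 4 * c2 D x r r' := by
    rintro D x r r' _ _ _ _ rfl rfl rfl rfl
    exact cH_eq D x r r' _
  unfold P1s Vp cp
  rw [mul_sub (2000 * (1 + s ^ 2) ^ 4), mul_add (2000 * (1 + s ^ 2) ^ 4),
    mul_add (2000 * (1 + s ^ 2) ^ 4), ← key _ _ _ _ _ _ _ _ rfl rfl rfl rfl,
    ← key _ _ _ _ _ _ _ _ rfl rfl rfl rfl, ← key _ _ _ _ _ _ _ _ rfl rfl rfl rfl]
  congr 1
  · ring
  · congr 1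
    · congr 1
      · congr 1
        ring
      · congr 1 <;> field_simp <;> ring
    · congr 1 <;> field_simp <;> ring

set_option maxRecDepth 100000 in
theorem P5_VA (h s k u v : ℝ) : P5 pVA h s k u v = P1s h k u v s := by
  simp only [P5, pVA, H, List.getD_cons_zero, List.getD_cons_succ, P1s, cH, gh]
  push_cast
  ring

end Pool.Agent.MP_90395b_gt.Bn
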