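import Pool.Agent.MP_90395b_gt.BnSound
import Pool.Agent.MP_90395b_gt.BnData
import Pool.Agent.MP_90395b_gt.AsDefs

namespace Pool.Agent.MP_90395b_gt.Bn

open Pool.Agent.MP_90395b_gt.As

theorem sound6 {B w e1 e2 d0 d1 d2 d3 d4 d5 : ℕ} {D1 D2 : List ℕ} {o1 o2 : ℕ}
    {l0 h0 m0 l1 h1 m1 l2 h2 m2 l3 h3 m3 l4 h4 m4 l5 h5 m5 : ℤ} {p1 p2 : Po} {tr : Tr}
    (h : check B w e1 e2 d0 d1 [d2, d3, d4, d5] D1 D2 o1 o2
      [(l0, h0, m0), (l1, h1, m1), (l2, h2, m2), (l3, h3, m3), (l4, h4, m4), (l5, h5, m5)]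
      p1 p2 tr = true) (s : ℝ) {z0 z1 z2 z3 z4 : ℝ} (hs : 0 < s) (hc : P5 p2 z0 z1 z2 z3 z4 ≤ 0)
    (a0 : l0 * s ≤ m0 * z0) (b0 : m0 * z0 ≤ h0 * s) (a1 : l1 * s ≤ m1 * z1)
    (b1 : m1 * z1 ≤ h1 * s) (a2 : l2 * s ≤ m2 * z2) (b2 : m2 * z2 ≤ h2 * s)
    (a3 : l3 * s ≤ m3 * z3) (b3 : m3 * z3 ≤ h3 * s) (a4 : l4 * s ≤ m4 * z4)
    (b4 : m4 * z4 ≤ h4 * s) (a5 : (l5 : ℝ) ≤ m5 * s) (b5 : m5 * s ≤ (h5 : ℝ)) :
    0 ≤ P5 p1 z0 z1 z2 z3 z4 := by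
  have e : ∀ z : ℝ, s * (z / s) = z := fun z => mul_div_cancel₀ z hs.ne'
  have lo : ∀ {l m z : ℝ}, l * s ≤ m * z → l ≤ m * (z / s) := fun h => by
    rw [← mul_div_assoc, le_div_iff₀ hs]; exact h
  have hi : ∀ {l m z : ℝ}, m * z ≤ l * s → m * (z / s) ≤ l := fun h => by
    rw [← mul_div_assoc, div_le_iff₀ hs]; exact h
  have := sound5 h s (z0 / s) (z1 / s) (z2 / s) (z3 / s) (z4 / s) (lo a0) (hi b0) (lo a1) (hi b1)
    (lo a2) (hi b2) (lo a3) (hi b3) (lo a4) (hi b4) a5 b5 hs (by simpa only [e] using hc)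
  simpa only [e] using this

theorem P5_sh01 (p : Po) (a b c d e : ℝ) :
    P5 (shAt 1 (shAt 0 p)) a b c d e = P5 p (a + 1) (b + 1) c d e := by
  unfold P5
  rw [H_shAt, H_shAt]
  congr 1
  funext j
  rcases j with _ | _ | j <;> simp [Function.update]

theorem P5_sh12 (p : Po) (a b c d e : ℝ) :
    P5 (shAt 1 (shAt 2 p)) a b c d e = P5 p a (b + 1) (c + 1) d e := by
  unfold P5
  rw [H_shAt, H_shAt]
  congr 1
  funext j
  rcases j with _ | _ | _ | j <;> simp [Function.update]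

theorem P5_o (a b c d e : ℝ) : P5 Po.o a b c d e ≤ 0 := le_of_eq rfl

theorem P5_CA (h s k u v : ℝ) : P5 pCA h s k u v = h ^ 2 + k ^ 2 + u ^ 2 + v ^ 2 - 1 := by
  simp only [P5, pCA, H, List.getD_cons_zero, List.getD_cons_succ]
  push_cast
  ring

theorem P5_CB (h s k u v : ℝ) : P5 pCB k s h u v = h ^ 2 + k ^ 2 + u ^ 2 + v ^ 2 - 1 := by
  simp only [P5, pCB, H, List.getD_cons_zero, List.getD_cons_succ]
  push_cast
  ring

theorem P5_DA (x y t u c : ℝ) : P5 pDA t c x y u = x + y + t ^ 2 + u ^ 2 - 1 := by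
  simp only [P5, pDA, H, List.getD_cons_zero, List.getD_cons_succ]
  push_cast
  ring

theorem P5_XA (x y t u c : ℝ) : P5 pXA t c x y u = 2000 * (Jt x y t u c 1 1 0 - 1) := by
  simp only [P5, pXA, H, List.getD_cons_zero, List.getD_cons_succ, Jt, Jl0, Jm0]
  push_cast
  ring

theorem P5_QA (x y t u c : ℝ) : P5 pQA t c (x - 1 / 2) (y - 1 / 2) u =
    4000 * (Jt x y t u c 1 1 0 - 1 - (1 - x - y - t ^ 2 - u ^ 2)
      + (1 - x - y - t ^ 2 - u ^ 2) ^ 2) := by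
  simp only [P5, pQA, H, List.getD_cons_zero, List.getD_cons_succ, Jt, Jl0, Jm0]
  push_cast
  ring

theorem P5_QB (x y t u c : ℝ) : P5 pQB u c x y t = P5 pQA t c x y u := by
  simp only [P5, pQA, pQB, H, List.getD_cons_zero, List.getD_cons_succ]
  push_cast
  ring

end Pool.Agent.MP_90395b_gt.Bn
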