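import Pool.Agent.MP_90395b_gt.BnVal

namespace Pool.Agent.MP_90395b_gt.Bn

open Finset

theorem po_wf_c {z : ℤ} {ok : ℕ → ℕ → Bool} {k a n : ℕ} (h : wf (.c z) ok k a n = true) :
    k = 0 ∧ ok 0 n = true := by
  change an (Nat.beq k 0) (ok 0 n) = true at h
  rw [an_eq, Nat.beq_eq] at h
  exact h

theorem po_wf_n {p r : Po} {ok : ℕ → ℕ → Bool} {k a n : ℕ} (h : wf (.n p r) ok k a n = true) :
    ∃ k', k = k' + 1 ∧ ok 0 a = true ∧ wf p (fun j => ok (j + 1)) k' 0 (n + a) = true ∧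
      wf r ok k (a + 1) n = true := by
  change an (Nat.ble 1 k) (an (ok 0 a)
    (an (wf p (fun j => ok (j + 1)) (Nat.pred k) 0 (n + a)) (wf r ok k (a + 1) n))) = true at h
  rw [an_eq, an_eq, an_eq, Nat.ble_eq] at h
  obtain ⟨h1, h2, h3, h4⟩ := h
  obtain ⟨k', rfl⟩ : ∃ k', k = k' + 1 := ⟨k - 1, by omega⟩
  exact ⟨k', rfl, h2, h3, h4⟩

theorem po_div {s i : ℕ} (m : ℕ) (hi : i < s) : (m * s + i) / s = m ∧ (m * s + i) % s = i := by
  have hs : 0 < s := by omega
  constructor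
  · rw [add_comm, Nat.add_mul_div_right _ _ hs, Nat.div_eq_of_lt hi, zero_add]
  · rw [add_comm, Nat.add_mul_mod_self_right, Nat.mod_eq_of_lt hi]

theorem evZ_eq (p : Po) (b : ℕ → ℕ → ℤ) (a n : ℕ) : evZ p b a n = ev p b a n := by
  induction p generalizing b a n with
  | c z => rfl
  | o => rfl
  | n p r ip ir =>
    change b 0 a * evZ p (fun j => b (j + 1)) 0 (n + a) + evZ r b (a + 1) n = _
    rw [ip, ir, ev]

theorem ev_val {R : Type} [CommRing R] (p : Po) (ok : ℕ → ℕ → Bool) (ds : List ℕ)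
    (g : ℕ → ℕ → ℕ → ℤ) (W : ℕ → ℕ → R) (k a n : ℕ) (hk : ds.length = k + 1)
    (h : wf p ok k a n = true) :
    ev p (fun j a => ∑ m ∈ range (ds.getD j 0 + 1), (g j a m : R) * W j m) a n =
      val ds W (fun i => (ten p ds g a n i : R)) := by
  induction p generalizing ok ds g W k a n with
  | c z =>
    obtain ⟨rfl, -⟩ := po_wf_c h
    obtain ⟨d, rfl⟩ := List.length_eq_one_iff.1 hk
    simp only [ev, val, ten, sz, List.getD_cons_zero, mul_sum, mul_one, add_zero, Int.cast_mul]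
    exact sum_congr rfl fun m _ => by ring
  | o =>
    have := val_smul ds W 0 (fun _ => 0)
    simp only [zero_mul] at this
    simp only [ev, ten, Int.cast_zero, this]
  | n p r ip ir =>
    obtain ⟨k', rfl, -, h1, h2⟩ := po_wf_n h
    obtain ⟨d, t, rfl⟩ : ∃ d t, ds = d :: t := by
      cases ds with
      | nil => simp at hk
      | cons d t => exact ⟨d, t, rfl⟩
    have e1 := ip (fun j => ok (j + 1)) t (fun j => g (j + 1)) (fun j => W (j + 1)) k' 0 (n + a)
      (by simpa using hk) h1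
    have e2 := ir ok (d :: t) g W (k' + 1) (a + 1) n hk h2
    simp only [ev, ten, List.tail_cons, Int.cast_add, Int.cast_mul, List.getD_cons_succ,
      List.getD_cons_zero]
    rw [val_add, ← e2, e1, val, sum_mul]
    congr 1
    refine sum_congr rfl fun m _ => ?_
    rw [mul_comm (g 0 a m : R), mul_assoc, ← val_smul t _ (g 0 a m : R)]
    congr 1
    exact val_congr t _ fun i hi => by rw [(po_div m hi).1, (po_div m hi).2]

theorem ten_bound (p : Po) (ok : ℕ → ℕ → Bool) (ds : List ℕ) (g : ℕ → ℕ → ℕ → ℤ) (k a n : ℕ)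
    (hk : ds.length = k + 1) (h : wf p ok k a n = true) : ∀ i < sz ds, (ten p ds g a n i).natAbs ≤
      evA p (fun j a => ∑ m ∈ range (ds.getD j 0 + 1), (g j a m).natAbs) a n := by
  induction p generalizing ok ds g k a n with
  | c z =>
    obtain ⟨rfl, -⟩ := po_wf_c h
    obtain ⟨d, rfl⟩ := List.length_eq_one_iff.1 hk
    intro i hi
    change (z * g 0 n i).natAbs ≤ z.natAbs * ∑ m ∈ range (d + 1), (g 0 n m).natAbs
    rw [Int.natAbs_mul]
    refine Nat.mul_le_mul_left _ (single_le_sum (f := fun m => (g 0 n m).natAbs)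
      (fun _ _ => Nat.zero_le _) (mem_range.2 ?_))
    simpa [sz] using hi
  | o => intro i _; exact Nat.le_refl 0
  | n p r ip ir =>
    obtain ⟨k', rfl, -, h1, h2⟩ := po_wf_n h
    obtain ⟨d, t, rfl⟩ : ∃ d t, ds = d :: t := by
      cases ds with
      | nil => simp at hk
      | cons d t => exact ⟨d, t, rfl⟩
    intro i hi
    have hs := sz_pos t
    have e1 := ip (fun j => ok (j + 1)) t (fun j => g (j + 1)) k' 0 (n + a)
      (by simpa using hk) h1 (i % sz t) (Nat.mod_lt _ hs)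
    have e2 := ir ok (d :: t) g (k' + 1) (a + 1) n hk h2 i hi
    change (g 0 a (i / sz t) * ten p t (fun j => g (j + 1)) 0 (n + a) (i % sz t) +
        ten r (d :: t) g (a + 1) n i).natAbs ≤
      (∑ m ∈ range (d + 1), (g 0 a m).natAbs) *
        evA p (fun j a => ∑ m ∈ range (t.getD j 0 + 1), (g (j + 1) a m).natAbs) 0 (n + a) +
      evA r (fun j a => ∑ m ∈ range ((d :: t).getD j 0 + 1), (g j a m).natAbs) (a + 1) n
    refine (Int.natAbs_add_le _ _).trans (Nat.add_le_add ?_ e2)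
    rw [Int.natAbs_mul]
    refine Nat.mul_le_mul (single_le_sum (f := fun m => (g 0 a m).natAbs)
      (fun _ _ => Nat.zero_le _) (mem_range.2 ?_)) e1
    rw [Nat.div_lt_iff_lt_mul hs]
    exact hi

theorem ev_scale (p : Po) (ok : ℕ → ℕ → Bool) (b b' : ℕ → ℕ → ℝ) (l : ℕ → ℝ) (k a n : ℕ)
    (hb : ∀ j ≤ k, ∀ a, ok j a = true → b j a = l j * b' j a) (h : wf p ok k a n = true) :
    ev p b a n = (∏ j ∈ range (k + 1), l j) * ev p b' a n := by
  induction p generalizing ok b b' l k a n with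
  | c z =>
    obtain ⟨rfl, h1⟩ := po_wf_c h
    rw [ev, ev, hb 0 le_rfl n h1, zero_add, prod_range_one]
    ring
  | o => rw [ev, ev, mul_zero]
  | n p r ip ir =>
    obtain ⟨k', rfl, h0, h1, h2⟩ := po_wf_n h
    have e1 := ip (fun j => ok (j + 1)) (fun j => b (j + 1)) (fun j => b' (j + 1))
      (fun j => l (j + 1)) k' 0 (n + a) (fun j hj => hb (j + 1) (by omega)) h1
    have e2 := ir ok b b' l (k' + 1) (a + 1) n hb h2
    rw [ev, ev, e1, e2, hb 0 (Nat.zero_le _) a h0, prod_range_succ' l (k' + 1)]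
    ring

theorem ev_H (p : Po) (ok : ℕ → ℕ → Bool) (y z : ℕ → ℝ) (os : ℕ → ℕ) (s : ℝ) (k a n : ℕ)
    (hs : y k = s) (hz : ∀ j < k, z j = s * y j) (h0 : ∀ j < k, os j = 0)
    (ho : ∀ a, ok k a = true → os k ≤ a) (ha : k = 0 → a = 0) (h : wf p ok k a n = true) :
    s ^ os k * ev p (fun j a => y j ^ (a - os j)) a n = s ^ n * z 0 ^ a * H p z := by
  induction p generalizing ok y z os k a n with
  | c c =>
    obtain ⟨rfl, h1⟩ := po_wf_c h
    obtain ⟨m, rfl⟩ := Nat.exists_eq_add_of_le (ho n h1)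
    rw [ev, H, ha rfl, hs, Nat.add_sub_cancel_left]
    ring
  | o => rw [ev, H, mul_zero, mul_zero]
  | n p r ip ir =>
    obtain ⟨k', rfl, -, h1, h2⟩ := po_wf_n h
    have e1 := ip (fun j => ok (j + 1)) (fun j => y (j + 1)) (fun j => z (j + 1))
      (fun j => os (j + 1)) k' 0 (n + a) hs (fun j hj => hz (j + 1) (by omega))
      (fun j hj => h0 (j + 1) (by omega)) ho (fun _ => rfl) h1
    have e2 := ir ok y z os (k' + 1) (a + 1) n hs hz h0 ho (fun e => by omega) h2
    rw [ev, H, mul_add, e2, mul_left_comm, e1, h0 0 (by omega), hz 0 (by omega), Nat.sub_zero]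
    ring

end Pool.Agent.MP_90395b_gt.Bn
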