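import Pool.Agent.MP_90395b_gt.BnChk
import Pool.Agent.MP_90395b_gt.BnPo
import Pool.Agent.MP_90395b_gt.BnGam

namespace Pool.Agent.MP_90395b_gt.Bn

open Finset

theorem rt_group (C m n : ℕ) (f : ℕ → ℕ) :
    pk C (m * n) f = pk (C * n) m (fun a => pk C n (fun j => f (a * n + j))) := by
  unfold pk
  rw [sum_range_mul']
  refine sum_congr rfl fun a _ => ?_
  rw [sum_mul]
  refine sum_congr rfl fun j _ => ?_
  rw [mul_assoc, ← pow_add]
  congr 2
  ring

theorem rt_mv (B d n F : ℕ) :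
    mv B d n F = ∑ a ∈ range (d + 1), dig ((d + 1) * B * n) F a * 2 ^ (B * a) := by
  unfold mv
  refine sum_congr rfl fun a _ => ?_
  change ((F >>> ((d + 1) * B * n * a)) &&& (1 <<< ((d + 1) * B * n) - 1)) <<< (B * a) = _
  rw [Nat.one_shiftLeft, Nat.and_two_pow_sub_one_eq_mod, Nat.shiftRight_eq_div_pow,
    Nat.shiftLeft_eq]
  rfl

theorem mv_pk {B d n : ℕ} (hB : 0 < B) {f : ℕ → ℕ} (hf : Bd ((d + 1) * n) (2 ^ B) f) :
    mv B d n (pk ((d + 1) * B) ((d + 1) * n) f) =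
      pk B ((d + 1) * n) (fun i => f (i % (d + 1) * n + i / (d + 1))) := by
  have _ := hB
  have hle : 2 ^ B ≤ 2 ^ ((d + 1) * B) :=
    Nat.pow_le_pow_right (by norm_num) (Nat.le_mul_of_pos_left _ (by omega))
  have hb : Bd (d + 1) (2 ^ ((d + 1) * B * n))
      (fun a => pk ((d + 1) * B) n (fun j => f (a * n + j))) := by
    intro a ha
    refine (dig_pk _ _ _ fun j hj => lt_of_lt_of_le (hf _ ?_) hle).2
    have := Nat.mul_le_mul_right n (Nat.succ_le_of_lt ha)
    rw [Nat.succ_mul] at this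
    omega
  rw [rt_mv, rt_group, mul_comm (d + 1) n]
  conv_rhs => unfold pk
  rw [sum_range_mul', sum_comm]
  refine sum_congr rfl fun a ha => ?_
  have ha' := mem_range.1 ha
  rw [(dig_pk _ _ _ hb).1, if_pos ha', pk, sum_mul]
  refine sum_congr rfl fun j _ => ?_
  beta_reduce
  rw [add_comm (j * (d + 1)) a, Nat.add_mul_mod_self_right, Nat.mod_eq_of_lt ha',
    Nat.add_mul_div_right _ _ (by omega : 0 < d + 1), Nat.div_eq_of_lt ha', zero_add, mul_assoc,
    ← pow_add]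
  congr 2
  ring

theorem rt_flo (B w N e T : ℕ) : flo B w N e T = (T >>> e) &&& ((2 ^ w - 1) * geo B N) := by
  change (T >>> e) &&& ((1 <<< w - 1) * geo B N) = _
  rw [Nat.one_shiftLeft]

theorem rt_trunc {C e w r : ℕ} (h : e + w ≤ C) : (2 ^ C + r) / 2 ^ e % 2 ^ w * 2 ^ e ≤ r := by
  obtain ⟨c, rfl⟩ : ∃ c, C = e + (w + c) := ⟨C - e - w, by omega⟩
  rw [pow_add, pow_add, add_comm, Nat.add_mul_div_left _ _ (by positivity),
    Nat.add_mul_mod_self_left]
  exact (Nat.mul_le_mul_right _ (Nat.mod_le _ _)).trans (Nat.div_mul_le_self _ _)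

theorem rt_rz {C w e k : ℕ} {ds : List ℕ} {G : ℕ → Sp} {p : Po} {ok : ℕ → ℕ → Bool} (hC : 0 < C)
    (hG : ∀ j, (G j).d = ds.getD j 0) (hk : ds.length = k + 1) (h : wf p ok k 0 0 = true)
    {g : ℕ → ℕ} (hg : ∀ i < sz ds, (g i : ℤ) =
      ten p ds (fun j => gam (G j)) 0 0 i + (2 ^ (C - 1) + 2 ^ (w - 1 + e) : ℕ)) :
    rz C w e ds G p = pk C (sz ds) g := by
  have e1 : evZ p (fun j a => tb (G j) (C * sz (ds.drop (j + 1))) a) 0 0 =
      ∑ i ∈ range (sz ds), ten p ds (fun j => gam (G j)) 0 0 i * 2 ^ (C * i) := by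
    rw [evZ_eq, ← val_pack]
    have := ev_val (R := ℤ) p ok ds (fun j => gam (G j))
      (fun j a => (2 : ℤ) ^ (C * sz (ds.drop (j + 1)) * a)) k 0 0 hk h
    simp only [Int.cast_id] at this
    rw [← this]
    congr 1
    funext j a
    unfold tb
    rw [hG]
    refine sum_congr rfl fun m _ => ?_
    congr 1
    change (((1 <<< (C * sz (ds.drop (j + 1)) * m) : ℕ)) : ℤ) = _
    rw [Nat.one_shiftLeft]
    push_cast
    rfl
  change Int.toNat (evZ p (fun j a => tb (G j) (C * sz (ds.drop (j + 1))) a) 0 0 +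
    (((1 <<< (C - 1) + 1 <<< (w - 1 + e)) * geo C (sz ds) : ℕ) : ℤ)) = _
  rw [e1, Nat.one_shiftLeft, Nat.one_shiftLeft, const_pk hC, ← Int.toNat_natCast (pk C (sz ds) g)]
  congr 1
  unfold pk
  rw [Nat.cast_sum, Nat.cast_sum, ← sum_add_distrib]
  refine sum_congr rfl fun i hi => ?_
  rw [Nat.cast_mul, Nat.cast_mul, hg i (mem_range.1 hi), add_mul]
  push_cast
  rfl

theorem root_spec {B w e d : ℕ} {t : List ℕ} {G : ℕ → Sp} {p : Po} (h0 : 0 < w) (hw : w < B)
    (hG : ∀ j, (G j).d = (d :: t).getD j 0) (h : rootOk B w e d t G p = true) :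
    ∃ f : ℕ → ℕ, Bd (sz (t ++ [d])) (2 ^ w) f ∧ root B w e d t G p = pk B (sz (t ++ [d])) f ∧
      ∃ L : ℝ, 0 < L ∧ ∀ x y : ℕ → ℝ, Cube x →
        (∀ j ≤ t.length, ((G j).om : ℝ) * y j = (G j).lo * (1 - x j) + (G j).hi * x j) →
        bv (t ++ [d]) (fun j => if j = t.length then x 0 else x (j + 1)) f - 2 ^ (w - 1) ≤
          L * ev p (fun j a => y j ^ (a - (G j).o)) 0 0 := by
  have _ := h0
  unfold rootOk at h
  simp only [an_eq, List.all_eq_true, List.mem_range, Nat.blt_eq] at h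
  obtain ⟨hgd, hwf, hew, hA, hhb⟩ := h
  set C := (d + 1) * B with hC
  set c : ℕ → ℤ := ten p (d :: t) (fun j => gam (G j)) 0 0 with hc
  have hA' : evA p (fun j a => tA (G j) a) 0 0 + 2 ^ (w - 1 + e) < 2 ^ (C - 1) := by
    rw [← Nat.one_shiftLeft, ← Nat.one_shiftLeft]
    exact hA
  have hcb : ∀ i < sz (d :: t), (c i).natAbs + 2 ^ (w - 1 + e) < 2 ^ (C - 1) := by
    intro i hi
    have := ten_bound p _ (d :: t) (fun j => gam (G j)) t.length 0 0 rfl hwf i hi
    simp only [← hG] at this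
    exact lt_of_le_of_lt (Nat.add_le_add_right this _) hA'
  have hC0 : 0 < C := by omega
  have h2C : 2 ^ C = 2 * 2 ^ (C - 1) := by
    rw [← pow_succ']
    congr 1
    omega
  set g : ℕ → ℕ := fun i => (c i + (2 ^ (C - 1) + 2 ^ (w - 1 + e) : ℕ)).toNat with hgdef
  have hg : ∀ i < sz (d :: t), (g i : ℤ) = c i + (2 ^ (C - 1) + 2 ^ (w - 1 + e) : ℕ) := by
    intro i hi
    have := hcb i hi
    refine Int.toNat_of_nonneg ?_
    generalize 2 ^ (w - 1 + e) = X at this ⊢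
    generalize 2 ^ (C - 1) = Y at this ⊢
    omega
  have hgb : Bd (sz (d :: t)) (2 ^ C) g := by
    intro i hi
    have h1 := hcb i hi
    have h2 := hg i hi
    omega
  have hrz : rz C w e (d :: t) G p = pk C (sz (d :: t)) g := rt_rz hC0 hG rfl hwf hg
  rw [hrz] at hhb
  have hhi := hb_spec (by omega) hgb hhb
  set f0 : ℕ → ℕ := fun i => g i / 2 ^ e % 2 ^ w with hf0
  have hf0b : ∀ i, f0 i < 2 ^ w := fun i => Nat.mod_lt _ (by positivity)
  have hf0le : ∀ i < sz (d :: t), (f0 i : ℝ) ≤ (2 ^ e)⁻¹ * (c i : ℝ) + 2 ^ (w - 1) := by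
    intro i hi
    obtain ⟨r, hr⟩ := Nat.exists_eq_add_of_le (hhi i hi)
    have h1 : f0 i * 2 ^ e ≤ r := by
      change g i / 2 ^ e % 2 ^ w * 2 ^ e ≤ r
      rw [hr]
      exact rt_trunc (by omega)
    have h2 : (r : ℤ) = c i + (2 ^ (w - 1 + e) : ℕ) := by
      have := hg i hi
      omega
    have h3 : (f0 i : ℝ) * 2 ^ e ≤ c i + 2 ^ (w - 1) * 2 ^ e := by
      have h4 : ((f0 i * 2 ^ e : ℕ) : ℤ) ≤ c i + (2 ^ (w - 1 + e) : ℕ) := by
        rw [← h2]
        exact_mod_cast h1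
      rw [← pow_add]
      exact_mod_cast h4
    have hp : (0 : ℝ) < 2 ^ e := by positivity
    rw [← le_div_iff₀ hp] at h3
    refine h3.trans_eq ?_
    field_simp
  have hsz : sz (t ++ [d]) = (d + 1) * sz t := by
    rw [sz_append, mul_comm]
    simp [sz]
  have hom : ∀ j ≤ t.length, 0 < (G j).om := by
    intro j hj
    have := hgd j (by omega)
    unfold Sp.gd at this
    rw [Bool.and_eq_true, decide_eq_true_eq] at this
    exact this.1
  refine ⟨fun i => f0 (i % (d + 1) * sz t + i / (d + 1)), fun i _ => hf0b _, ?_,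
    (2 ^ e)⁻¹ * ∏ j ∈ range (t.length + 1), (((G j).d.factorial : ℝ) * ((G j).om : ℝ) ^ (G j).D),
    ?_, fun x y hx hy => ?_⟩
  · unfold root
    rw [← hC, hrz, rt_flo, flo_pk hC0 hgb hew.le, hsz]
    exact mv_pk (by omega) fun i _ =>
      lt_of_lt_of_le (hf0b i) (Nat.pow_le_pow_right (by norm_num) hw.le)
  · refine mul_pos (by positivity) (prod_pos fun j hj => ?_)
    have : (0 : ℝ) < (G j).om := by exact_mod_cast hom j (Nat.lt_succ_iff.1 (mem_range.1 hj))
    positivity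
  · rw [bv_move, sub_le_iff_le_add]
    unfold bv
    refine (val_mono (W := bw (d :: t) x) _ (fun j a => bb_nonneg _ (hx j).1 (hx j).2 a)
      hf0le).trans_eq ?_
    rw [val_add, val_smul, val_const, mul_assoc]
    congr 2
    rw [← ev_val p _ (d :: t) (fun j => gam (G j)) (bw (d :: t) x) t.length 0 0 rfl hwf]
    refine ev_scale p _ _ _ _ t.length 0 0 (fun j hj a ha => ?_) hwf
    have := gam_spec (G j) (hgd j (by omega)) a ha (x j) (y j) (hy j hj)
    rw [← this]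
    unfold bw
    rw [← hG]

end Pool.Agent.MP_90395b_gt.Bn
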