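import Pool.Agent.MP_90395b_gt.BnRoot

namespace Pool.Agent.MP_90395b_gt.Bn

open Finset

theorem sd_par {l u v : ℝ} (h1 : l ≤ v) (h2 : v ≤ u) :
    ∃ x : ℝ, (0 ≤ x ∧ x ≤ 1) ∧ v = l * (1 - x) + u * x := by
  rcases eq_or_lt_of_le (h1.trans h2) with h | h
  · exact ⟨0, ⟨le_rfl, zero_le_one⟩, by linarith⟩
  · have h3 : 0 < u - l := sub_pos.2 h
    refine ⟨(v - l) / (u - l), ⟨div_nonneg (sub_nonneg.2 h1) h3.le, ?_⟩, ?_⟩
    · rw [div_le_one h3]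
      linarith
    · field_simp
      ring

theorem sd_ev {B w e d0 d1 o : ℕ} {t D : List ℕ} {bx : List (ℤ × ℤ × ℤ)} {p : Po}
    (h : rootOk B w e d0 (d1 :: t) (sp (d0 :: d1 :: t) D o bx) p = true) (y z : ℕ → ℝ)
    (hz : ∀ j ≤ t.length, z j = y (t.length + 1) * y j) :
    y (t.length + 1) ^ (sp (d0 :: d1 :: t) D o bx (t.length + 1)).o *
      ev p (fun j a => y j ^ (a - (sp (d0 :: d1 :: t) D o bx j).o)) 0 0 = H p z := by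
  have h1 : wf p (fun j a => (sp (d0 :: d1 :: t) D o bx j).ok a) (t.length + 1) 0 0 = true :=
    ((an_eq _ _).1 ((an_eq _ _).1 h).2).1
  have h2 := ev_H p (fun j a => (sp (d0 :: d1 :: t) D o bx j).ok a) y z
    (fun j => (sp (d0 :: d1 :: t) D o bx j).o) (y (t.length + 1)) (t.length + 1) 0 0 rfl
    (fun j hj => hz j (by omega))
    (fun j hj => by
      show (if j + 1 = (d0 :: d1 :: t).length then o else 0) = 0
      rw [if_neg (by simp only [List.length_cons]; omega)])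
    (fun a ha => by
      simp only [Sp.ok, Bool.and_eq_true, Nat.ble_eq] at ha
      exact ha.1)
    (fun _ => rfl) h1
  simpa using h2

theorem sound {B w e1 e2 d0 d1 : ℕ} {t D1 D2 : List ℕ} {o1 o2 : ℕ} {bx : List (ℤ × ℤ × ℤ)}
    {p1 p2 : Po} {tr : Tr} (h : check B w e1 e2 d0 d1 t D1 D2 o1 o2 bx p1 p2 tr = true)
    (y z : ℕ → ℝ) (hy : ∀ j < t.length + 2,
      ((bx.getD j (0, 0, 1)).1 : ℝ) ≤ (bx.getD j (0, 0, 1)).2.2 * y j ∧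
        (bx.getD j (0, 0, 1)).2.2 * y j ≤ ((bx.getD j (0, 0, 1)).2.1 : ℝ))
    (hs : 0 < y (t.length + 1)) (hz : ∀ j ≤ t.length, z j = y (t.length + 1) * y j)
    (h2 : H p2 z ≤ 0) : 0 ≤ H p1 z := by
  obtain ⟨h0, h⟩ := (an_eq _ _).1 h
  obtain ⟨hw, h⟩ := (an_eq _ _).1 h
  obtain ⟨r1, h⟩ := (an_eq _ _).1 h
  obtain ⟨r2, h⟩ := (an_eq _ _).1 h
  rw [Nat.blt_eq] at h0 hw
  obtain ⟨f1, b1, q1, L1, hL1, s1⟩ := root_spec h0 hw (fun _ => rfl) r1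
  obtain ⟨f2, b2, q2, L2, hL2, s2⟩ := root_spec h0 hw (fun _ => rfl) r2
  rw [q1, q2] at h
  have hI := chk_sound (d := d1) (t := t ++ [d0]) h0 hw tr f1 f2 b1 b2 h
  have hx : ∀ j, ∃ x : ℝ, (0 ≤ x ∧ x ≤ 1) ∧ (j < t.length + 2 →
      ((bx.getD j (0, 0, 1)).2.2 : ℝ) * y j =
        (bx.getD j (0, 0, 1)).1 * (1 - x) + (bx.getD j (0, 0, 1)).2.1 * x) := by
    intro j
    by_cases hj : j < t.length + 2
    · obtain ⟨x, hx1, hx2⟩ := sd_par (hy j hj).1 (hy j hj).2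
      exact ⟨x, hx1, fun _ => hx2⟩
    · exact ⟨0, ⟨le_rfl, zero_le_one⟩, fun q => absurd q hj⟩
  choose x hx1 hx2 using hx
  have u1 := s1 x y hx1 fun j hj => hx2 j (Nat.lt_succ_of_le hj)
  have u2 := s2 x y hx1 fun j hj => hx2 j (Nat.lt_succ_of_le hj)
  have v1 := sd_ev r1 y z hz
  have v2 := sd_ev r2 y z hz
  have hc : Cube fun j => if j = t.length + 1 then x 0 else x (j + 1) := fun j => by
    show 0 ≤ (if j = t.length + 1 then x 0 else x (j + 1)) ∧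
      (if j = t.length + 1 then x 0 else x (j + 1)) ≤ 1
    split_ifs
    · exact hx1 _
    · exact hx1 _
  have w2 : ev p2 (fun j a => y j ^ (a - (sp (d0 :: 0 :: t) D2 o2 bx j).o)) 0 0 ≤ 0 := by
    rw [← v2] at h2
    exact le_of_mul_le_mul_left (by rwa [mul_zero]) (pow_pos hs _)
  have w3 := hI _ hc (sub_nonpos.1 (u2.trans (mul_nonpos_of_nonneg_of_nonpos hL2.le w2)))
  have w4 : 0 ≤ L1 * ev p1 (fun j a => y j ^ (a - (sp (d0 :: d1 :: t) D1 o1 bx j).o)) 0 0 :=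
    (sub_nonneg.2 w3).trans u1
  rw [← v1]
  exact mul_nonneg (pow_pos hs _).le (nonneg_of_mul_nonneg_right w4 hL1)

/-- value at five given coordinates -/
noncomputable def P5 (p : Po) (a b c d e : ℝ) : ℝ := H p (fun j => [a, b, c, d, e].getD j 0)

theorem sound5 {B w e1 e2 d0 d1 d2 d3 d4 d5 : ℕ} {D1 D2 : List ℕ} {o1 o2 : ℕ}
    {l0 h0 m0 l1 h1 m1 l2 h2 m2 l3 h3 m3 l4 h4 m4 l5 h5 m5 : ℤ} {p1 p2 : Po} {tr : Tr}
    (h : check B w e1 e2 d0 d1 [d2, d3, d4, d5] D1 D2 o1 o2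
      [(l0, h0, m0), (l1, h1, m1), (l2, h2, m2), (l3, h3, m3), (l4, h4, m4), (l5, h5, m5)]
      p1 p2 tr = true) (s y0 y1 y2 y3 y4 : ℝ)
    (a0 : (l0 : ℝ) ≤ m0 * y0) (b0 : m0 * y0 ≤ (h0 : ℝ)) (a1 : (l1 : ℝ) ≤ m1 * y1)
    (b1 : m1 * y1 ≤ (h1 : ℝ)) (a2 : (l2 : ℝ) ≤ m2 * y2) (b2 : m2 * y2 ≤ (h2 : ℝ))
    (a3 : (l3 : ℝ) ≤ m3 * y3) (b3 : m3 * y3 ≤ (h3 : ℝ)) (a4 : (l4 : ℝ) ≤ m4 * y4)
    (b4 : m4 * y4 ≤ (h4 : ℝ)) (a5 : (l5 : ℝ) ≤ m5 * s) (b5 : m5 * s ≤ (h5 : ℝ)) (hs : 0 < s)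
    (hc : P5 p2 (s * y0) (s * y1) (s * y2) (s * y3) (s * y4) ≤ 0) :
    0 ≤ P5 p1 (s * y0) (s * y1) (s * y2) (s * y3) (s * y4) := by
  refine sound h (fun j => [y0, y1, y2, y3, y4, s].getD j 0) _ (fun j hj => ?_) hs
    (fun j hj => ?_) hc
  · have hj' : j < 6 := hj
    interval_cases j
    exacts [⟨a0, b0⟩, ⟨a1, b1⟩, ⟨a2, b2⟩, ⟨a3, b3⟩, ⟨a4, b4⟩, ⟨a5, b5⟩]
  · have hj' : j ≤ 4 := hj
    interval_cases j <;> rfl

end Pool.Agent.MP_90395b_gt.Bn
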