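import Pool.Agent.MP_90395b_gt.BnVal

namespace Pool.Agent.MP_90395b_gt.Bn

open Finset

/-- iterated sums with step `s` -/
def sp_t (s : ℕ) (F : ℕ → ℕ) : ℕ → ℕ → ℕ
  | 0, i => F i
  | k + 1, i => sp_t s F k i + sp_t s F k (i + s)

theorem sp_t_st (s : ℕ) (F : ℕ → ℕ) (i k : ℕ) : ∀ a, (sp_t s F k (i + a * s) : ℝ) =
    st (fun b => (F (i + b * s) : ℝ)) k a := by
  induction k with
  | zero => intro a; rfl
  | succ k ih =>
    intro a
    rw [sp_t, st, ← ih, ← ih, Nat.cast_add, add_mul a, one_mul, add_assoc]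

theorem sp_t_lt {s w : ℕ} {F : ℕ → ℕ} (hF : ∀ i, F i < 2 ^ w) (k : ℕ) :
    ∀ i, sp_t s F k i < 2 ^ (w + k) := by
  induction k with
  | zero => exact hF
  | succ k ih =>
    intro i
    have h1 := ih i
    have h2 := ih (i + s)
    rw [sp_t, ← add_assoc, pow_succ]
    omega

theorem sp_t_zero {s N : ℕ} {F : ℕ → ℕ} (hF : ∀ i, N ≤ i → F i = 0) (k : ℕ) :
    ∀ i, N ≤ i → sp_t s F k i = 0 := by
  induction k with
  | zero => exact hF
  | succ k ih => intro i hi; rw [sp_t, ih i hi, ih (i + s) (by omega)]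

/-- the left half after `k` steps -/
def sp_L (s d : ℕ) (F : ℕ → ℕ) (k i : ℕ) : ℕ :=
  if dg s d i ≤ k then 2 ^ (d - dg s d i) * sp_t s F (dg s d i) (i - dg s d i * s) else 0

/-- the right half after `k` steps -/
def sp_R (s d : ℕ) (F : ℕ → ℕ) (k i : ℕ) : ℕ :=
  if d - k ≤ dg s d i then 2 ^ (k - (d - dg s d i)) * sp_t s F (d - dg s d i) i else 0

theorem sp_row0 {B s d M : ℕ} (hB : 0 < B) (hs : 0 < s) {g : ℕ → ℕ}
    (hg : Bd (M * (d + 1) * s) (2 ^ B) g) {k : ℕ} (hk : k ≤ d) (r : ℕ) :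
    (pk B (M * (d + 1) * s) g &&& mk B s d M) <<< (B * s * k + r) =
      pk B (M * (d + 1) * s) fun i => if dg s d i = k then 2 ^ r * g (i - k * s) else 0 := by
  have h := row_pk hB hs hg (Nat.zero_le d)
  simp only [mul_zero, Nat.shiftRight_zero, zero_mul, add_zero] at h
  rw [h, Nat.shiftLeft_eq, pow_add, ← mul_assoc, put_pk B s d M g hk, mul_comm, ← pk_mul]
  refine pk_congr fun i _ => ?_
  split_ifs <;> simp

theorem sp_rowk {B s d M : ℕ} (hB : 0 < B) (hs : 0 < s) {g : ℕ → ℕ}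
    (hg : Bd (M * (d + 1) * s) (2 ^ B) g) {r : ℕ} (hr : r ≤ d) :
    pk B (M * (d + 1) * s) g &&& (mk B s d M <<< (B * s * r)) =
      pk B (M * (d + 1) * s) fun i => if dg s d i = r then g i else 0 := by
  have hp : 0 < 2 ^ B := by positivity
  rw [mk_eq hB hs, Nat.shiftLeft_eq, put_pk B s d M (fun _ => 2 ^ B - 1) hr,
    land_pk _ (fun i _ => by split_ifs <;> omega)]
  refine pk_congr fun i hi => ?_
  split_ifs
  · rw [and_full (dig_lt _ _ _), (dig_pk B _ g hg).1, if_pos hi]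
  · exact Nat.and_zero _

theorem sp_lp_succ (S m d r T L R : ℕ) (c : ℕ → ℕ → Bool) : lp S m d (r + 1) T L R c =
    lp S m d r (T + T >>> S) (L + ((T + T >>> S) &&& m) <<< (S * (d - r) + r))
      (R <<< 1 + ((T + T >>> S) &&& (m <<< (S * r)))) c := rfl

theorem sp_loop {B w s d M : ℕ} (hB : 0 < B) (hs : 0 < s) (hw : w + d ≤ B) {F : ℕ → ℕ}
    (hF : ∀ i, F i < 2 ^ w) (hF0 : ∀ i, M * (d + 1) * s ≤ i → F i = 0) (c : ℕ → ℕ → Bool)
    (r : ℕ) : ∀ k, k + r = d →
    lp (B * s) (mk B s d M) d r (pk B (M * (d + 1) * s) (sp_t s F k))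
      (pk B (M * (d + 1) * s) (sp_L s d F k)) (pk B (M * (d + 1) * s) (sp_R s d F k)) c =
      c (pk B (M * (d + 1) * s) (sp_L s d F d)) (pk B (M * (d + 1) * s) (sp_R s d F d)) := by
  have hb : ∀ k ≤ d, Bd (M * (d + 1) * s) (2 ^ B) (sp_t s F k) := fun k hk i _ =>
    (sp_t_lt hF k i).trans_le (Nat.pow_le_pow_right (by norm_num) (by omega))
  induction r with
  | zero =>
    intro k hk
    obtain rfl : k = d := hk
    rfl
  | succ r ih =>
    intro k hk
    have e1 : pk B (M * (d + 1) * s) (sp_t s F k) +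
        pk B (M * (d + 1) * s) (sp_t s F k) >>> (B * s) =
        pk B (M * (d + 1) * s) (sp_t s F (k + 1)) := by
      rw [shr_pk (hb k (by omega)), ← pk_add]
      refine pk_congr fun i _ => ?_
      rw [sp_t]
      split_ifs with h
      · rfl
      · rw [sp_t_zero hF0 k (i + s) (by omega)]
    have e2 : d - r = k + 1 := by omega
    rw [sp_lp_succ, e1, e2, sp_row0 hB hs (hb (k + 1) (by omega)) (by omega),
      sp_rowk hB hs (hb (k + 1) (by omega)) (by omega), Nat.shiftLeft_eq, mul_comm _ (2 ^ 1),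
      ← pk_mul, ← pk_add, ← pk_add, ← ih (k + 1) (by omega)]
    congr 1
    · refine pk_congr fun i _ => ?_
      unfold sp_L
      by_cases h : dg s d i = k + 1
      · rw [if_pos h, if_neg (by omega), if_pos h.le, h, zero_add, show d - (k + 1) = r by omega]
      · rw [if_neg h, add_zero]
        by_cases h' : dg s d i ≤ k
        · rw [if_pos h', if_pos (by omega)]
        · rw [if_neg h', if_neg (by omega)]
    · refine pk_congr fun i _ => ?_
      have hd := dg_le s d i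
      unfold sp_R
      by_cases h : dg s d i = r
      · rw [if_pos h, if_neg (by omega), if_pos (by omega), h, e2, Nat.sub_self, pow_zero, one_mul,
          mul_zero, zero_add]
      · rw [if_neg h, add_zero]
        by_cases h' : d - k ≤ dg s d i
        · rw [if_pos h', if_pos (by omega), ← mul_assoc, ← pow_add]
          congr 2
          omega
        · rw [if_neg h', if_neg (by omega), mul_zero]

theorem sp_flo {B w N e : ℕ} (hB : 0 < B) (hw : e + w ≤ B) {g : ℕ → ℕ} (hg : Bd N (2 ^ B) g) :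
    flo B w N e (pk B N g) = pk B N fun i => g i / 2 ^ e % 2 ^ w := by
  rw [← flo_pk hB hg hw, ← Nat.one_shiftLeft w]
  rfl

theorem sp_spl0 {B w s d M : ℕ} (hB : 0 < B) (hs : 0 < s) (hw : w + d ≤ B) {F : ℕ → ℕ}
    (hF : ∀ i, F i < 2 ^ w) (hF0 : ∀ i, M * (d + 1) * s ≤ i → F i = 0) (c : ℕ → ℕ → Bool) :
    spl0 B w (M * (d + 1) * s) (B * s) (mk B s d M) d (pk B (M * (d + 1) * s) F) c =
      c (pk B (M * (d + 1) * s) fun i => sp_L s d F d i / 2 ^ d % 2 ^ w)
        (pk B (M * (d + 1) * s) fun i => sp_R s d F d i / 2 ^ d % 2 ^ w) := by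
  have hb : Bd (M * (d + 1) * s) (2 ^ B) F := fun i _ =>
    (hF i).trans_le (Nat.pow_le_pow_right (by norm_num) (by omega))
  have key : ∀ p k i, p + k ≤ d → 2 ^ p * sp_t s F k i < 2 ^ B := fun p k i h =>
    calc 2 ^ p * sp_t s F k i < 2 ^ p * 2 ^ (w + k) :=
          Nat.mul_lt_mul_of_pos_left (sp_t_lt hF k i) (by positivity)
      _ ≤ 2 ^ B := by
          rw [← pow_add]
          exact Nat.pow_le_pow_right (by norm_num) (by omega)
  have hL : Bd (M * (d + 1) * s) (2 ^ B) (sp_L s d F d) := fun i _ => by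
    have hd := dg_le s d i
    rw [sp_L, if_pos hd]
    exact key _ _ _ (by omega)
  have hR : Bd (M * (d + 1) * s) (2 ^ B) (sp_R s d F d) := fun i _ => by
    rw [sp_R, if_pos (by omega)]
    exact key _ _ _ (by omega)
  have e1 : (pk B (M * (d + 1) * s) F &&& mk B s d M) <<< d =
      pk B (M * (d + 1) * s) (sp_L s d F 0) := by
    have h := sp_row0 hB hs hb (Nat.zero_le d) d
    rw [mul_zero, zero_add] at h
    rw [h]
    refine pk_congr fun i _ => ?_
    unfold sp_L
    by_cases h : dg s d i = 0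
    · rw [if_pos h, if_pos h.le, h]
      rfl
    · rw [if_neg h, if_neg (by omega)]
  have e2 : pk B (M * (d + 1) * s) F &&& (mk B s d M <<< (B * s * d)) =
      pk B (M * (d + 1) * s) (sp_R s d F 0) := by
    rw [sp_rowk hB hs hb le_rfl]
    refine pk_congr fun i _ => ?_
    have hd := dg_le s d i
    unfold sp_R
    by_cases h : dg s d i = d
    · rw [if_pos h, if_pos (by omega), h, Nat.sub_self, pow_zero, one_mul]
      rfl
    · rw [if_neg h, if_neg (by omega)]
  rw [← sp_flo hB (by omega) hL, ← sp_flo hB (by omega) hR]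
  refine Eq.trans ?_ (sp_loop hB hs hw hF hF0 (fun L R => c (flo B w (M * (d + 1) * s) d L)
    (flo B w (M * (d + 1) * s) d R)) d 0 (zero_add d))
  rw [← e1, ← e2]
  rfl

theorem sp_real {p q d : ℕ} (h : p + q = d) (y w : ℕ) :
    ((2 ^ p * y / 2 ^ d % 2 ^ w : ℕ) : ℝ) ≤ (y : ℝ) / 2 ^ q := by
  subst h
  rw [pow_add, Nat.mul_div_mul_left _ _ (by positivity)]
  calc ((y / 2 ^ q % 2 ^ w : ℕ) : ℝ) ≤ ((y / 2 ^ q : ℕ) : ℝ) := Nat.cast_le.2 (Nat.mod_le _ _)
    _ ≤ (y : ℝ) / ((2 ^ q : ℕ) : ℝ) := Nat.cast_div_le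
    _ = _ := by rw [Nat.cast_pow, Nat.cast_ofNat]

theorem spl_spec {B w j : ℕ} {ds : List ℕ} (hB : 0 < B) (hj : j < ds.length)
    (hw : w + ds.getD j 0 ≤ B) {f : ℕ → ℕ} (hf : Bd (sz ds) (2 ^ w) f) :
    ∃ l r : ℕ → ℕ, Bd (sz ds) (2 ^ w) l ∧ Bd (sz ds) (2 ^ w) r ∧
      (∀ c, spl B w ds j (pk B (sz ds) f) c = c (pk B (sz ds) l) (pk B (sz ds) r)) ∧
      (∀ x, Cube x → x j ≤ 1 / 2 → bv ds (Function.update x j (2 * x j)) l ≤ bv ds x f) ∧
      (∀ x, Cube x → 1 / 2 ≤ x j → bv ds (Function.update x j (2 * x j - 1)) r ≤ bv ds x f) := by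
  obtain ⟨pre, d, post, rfl, rfl⟩ : ∃ pre d post, ds = pre ++ d :: post ∧ j = pre.length :=
    ⟨ds.take j, ds[j], ds.drop (j + 1), by simp, by simp [hj.le]⟩
  have e1 : (pre ++ d :: post).getD pre.length 0 = d := by simp
  have e2 : (pre ++ d :: post).take pre.length = pre := by simp
  have e3 : (pre ++ d :: post).drop (pre.length + 1) = post := by simp
  have eN : sz (pre ++ d :: post) = sz pre * (d + 1) * sz post := by
    rw [sz_append, sz, mul_assoc]
  rw [e1] at hw
  rw [eN] at hf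
  have hs := sz_pos post
  set F : ℕ → ℕ := fun i => if i < sz pre * (d + 1) * sz post then f i else 0 with hFd
  have hF : ∀ i, F i < 2 ^ w := fun i => by
    simp only [hFd]
    split_ifs with h
    · exact hf i h
    · positivity
  have hF0 : ∀ i, sz pre * (d + 1) * sz post ≤ i → F i = 0 := fun i hi => if_neg (by omega)
  have hW : ∀ x, Cube x → ∀ j a, 0 ≤ bw (pre ++ d :: post) x j a := fun x hx j a =>
    bb_nonneg _ (hx j).1 (hx j).2 a
  have hW' : ∀ (x : ℕ → ℝ) (v : ℝ) j, j ≠ pre.length →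
      bw (pre ++ d :: post) (Function.update x pre.length v) j = bw (pre ++ d :: post) x j := by
    intro x v j hj
    rw [bw, bw, Function.update_of_ne hj]
  have hWj : ∀ x : ℕ → ℝ, bw (pre ++ d :: post) x pre.length = bb d (x pre.length) := fun x => by
    rw [bw, e1]
  have hidx : ∀ hi lo a, (hi * (d + 1) + a) * sz post + lo =
      hi * (d + 1) * sz post + lo + a * sz post := fun hi lo a => by ring
  have hG : ∀ hi < sz pre, ∀ lo < sz post, ∀ x : ℝ,
      ∑ a ∈ range (d + 1), bb d x a * (F (hi * (d + 1) * sz post + lo + a * sz post) : ℝ) =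
      ∑ a ∈ range (d + 1), bb d x a * (f ((hi * (d + 1) + a) * sz post + lo) : ℝ) := by
    intro hi h1 lo h2 x
    refine sum_congr rfl fun a ha => ?_
    rw [← hidx, hFd]
    simp only [if_pos (idx_lt h1 (Nat.lt_succ_iff.1 (mem_range.1 ha)) h2)]
  refine ⟨fun i => sp_L (sz post) d F d i / 2 ^ d % 2 ^ w,
    fun i => sp_R (sz post) d F d i / 2 ^ d % 2 ^ w, fun i _ => Nat.mod_lt _ (by positivity),
    fun i _ => Nat.mod_lt _ (by positivity), fun c => ?_, fun x hx h => ?_, fun x hx h => ?_⟩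
  · rw [spl, e1, e2, e3, eN, ← sp_spl0 hB hs hw hF hF0 c,
      pk_congr (f := f) (g := F) fun i hi => (if_pos hi).symm]
    rfl
  · refine val_fiber pre post d (hW x hx) (hW' x _) fun hi h1 lo h2 => ?_
    rw [hWj, hWj, Function.update_self]
    refine le_of_le_of_eq ?_ ((st_left d _ _).trans (hG hi h1 lo h2 _))
    refine sum_le_sum fun a ha => mul_le_mul_of_nonneg_left ?_
      (bb_nonneg _ (by linarith [(hx pre.length).1]) (by linarith) a)
    have ha' := Nat.lt_succ_iff.1 (mem_range.1 ha)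
    beta_reduce
    rw [sp_L, dg_eq hi ha' h2, if_pos ha', hidx, Nat.add_sub_cancel, ← sp_t_st, zero_mul, add_zero]
    exact sp_real (by omega) _ _
  · refine val_fiber pre post d (hW x hx) (hW' x _) fun hi h1 lo h2 => ?_
    rw [hWj, hWj, Function.update_self]
    refine le_of_le_of_eq ?_ ((st_right d _ _).trans (hG hi h1 lo h2 _))
    refine sum_le_sum fun a ha => mul_le_mul_of_nonneg_left ?_
      (bb_nonneg _ (by linarith) (by linarith [(hx pre.length).2]) a)
    have ha' := Nat.lt_succ_iff.1 (mem_range.1 ha)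
    beta_reduce
    rw [sp_R, dg_eq hi ha' h2, if_pos (by omega), hidx, ← sp_t_st]
    exact sp_real (by omega) _ _

end Pool.Agent.MP_90395b_gt.Bn
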