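import Pool.Agent.MP_90395b_gt.BnDefs

namespace Pool.Agent.MP_90395b_gt.Bn

open Finset

theorem sz_pos (ds : List ℕ) : 0 < sz ds := by
  induction ds with
  | nil => exact Nat.one_pos
  | cons d t ih => exact Nat.mul_pos (Nat.succ_pos d) ih

theorem sz_append (p q : List ℕ) : sz (p ++ q) = sz p * sz q := by
  induction p with
  | nil => simp [sz]
  | cons d t ih => simp only [List.cons_append, sz, ih, mul_assoc]

theorem vl_idx {d s a i : ℕ} (ha : a ∈ range (d + 1)) (hi : i < s) : a * s + i < (d + 1) * s := by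
  have h1 : a + 1 ≤ d + 1 := mem_range.1 ha
  have h2 := Nat.mul_le_mul_right s h1
  rw [add_mul a, one_mul] at h2
  omega

section
variable {R : Type} [CommRing R]

theorem val_congr (ds : List ℕ) (W : ℕ → ℕ → R) {f g : ℕ → R} (h : ∀ i < sz ds, f i = g i) :
    val ds W f = val ds W g := by
  induction ds generalizing W f g with
  | nil => exact h 0 Nat.one_pos
  | cons d t ih =>
    simp only [val]
    refine sum_congr rfl fun a ha => ?_
    rw [ih _ fun i hi => h _ (vl_idx ha hi)]

theorem val_congrW (ds : List ℕ) {W W' : ℕ → ℕ → R} (h : ∀ j < ds.length, W j = W' j)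
    (f : ℕ → R) : val ds W f = val ds W' f := by
  induction ds generalizing W W' f with
  | nil => rfl
  | cons d t ih =>
    simp only [val]
    refine sum_congr rfl fun a _ => ?_
    rw [h 0 (by simp), ih (W := fun j => W (j + 1)) (W' := fun j => W' (j + 1))
      fun j hj => h _ (by simpa using hj)]

theorem val_add (ds : List ℕ) (W : ℕ → ℕ → R) (f g : ℕ → R) :
    val ds W (fun i => f i + g i) = val ds W f + val ds W g := by
  induction ds generalizing W f g with
  | nil => rfl
  | cons d t ih => simp only [val, ih, mul_add, sum_add_distrib]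

theorem val_smul (ds : List ℕ) (W : ℕ → ℕ → R) (c : R) (f : ℕ → R) :
    val ds W (fun i => c * f i) = c * val ds W f := by
  induction ds generalizing W f with
  | nil => rfl
  | cons d t ih => simp only [val, ih, mul_sum, mul_left_comm]

theorem val_sum (ds : List ℕ) (W : ℕ → ℕ → R) (n : ℕ) (f : ℕ → ℕ → R) :
    val ds W (fun i => ∑ a ∈ range n, f a i) = ∑ a ∈ range n, val ds W (f a) := by
  induction n with
  | zero => simpa using val_smul ds W 0 (fun _ => 0)
  | succ n ih => simp only [sum_range_succ, val_add, ih]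

theorem val_append (t : List ℕ) (d : ℕ) (W : ℕ → ℕ → R) (g : ℕ → R) : val (t ++ [d]) W g =
    ∑ a ∈ range (d + 1), W t.length a * val t W (fun i => g (i * (d + 1) + a)) := by
  induction t generalizing W g with
  | nil => simp [val, sz]
  | cons e t ih =>
    simp only [List.cons_append, val, ih, mul_sum, List.length_cons]
    rw [sum_comm]
    refine sum_congr rfl fun a _ => sum_congr rfl fun b _ => ?_
    rw [mul_left_comm]
    congr 3
    funext i
    rw [sz_append]
    congr 1
    simp only [sz]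
    ring

end

theorem val_pack (C : ℕ) (ds : List ℕ) (c : ℕ → ℤ) :
    val ds (fun j a => (2 : ℤ) ^ (C * sz (ds.drop (j + 1)) * a)) c =
      ∑ i ∈ range (sz ds), c i * 2 ^ (C * i) := by
  induction ds generalizing c with
  | nil => simp [val, sz]
  | cons d t ih =>
    simp only [val, sz, List.drop_succ_cons, List.drop_zero, zero_add, ih]
    rw [sum_range_mul']
    refine sum_congr rfl fun a _ => ?_
    rw [mul_sum]
    refine sum_congr rfl fun i _ => ?_
    rw [mul_left_comm, ← pow_add]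
    congr 2
    ring

theorem val_mono (ds : List ℕ) {W : ℕ → ℕ → ℝ} (hW : ∀ j a, 0 ≤ W j a) {f g : ℕ → ℝ}
    (h : ∀ i < sz ds, f i ≤ g i) : val ds W f ≤ val ds W g := by
  induction ds generalizing W f g with
  | nil => exact h 0 Nat.one_pos
  | cons d t ih =>
    simp only [val]
    refine sum_le_sum fun a ha => mul_le_mul_of_nonneg_left ?_ (hW 0 a)
    exact ih (fun j a => hW _ a) fun i hi => h _ (vl_idx ha hi)

theorem bb_nonneg (d : ℕ) {x : ℝ} (h0 : 0 ≤ x) (h1 : x ≤ 1) (a : ℕ) : 0 ≤ bb d x a := by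
  have : 0 ≤ 1 - x := sub_nonneg.2 h1
  unfold bb
  positivity

theorem bb_sum (d : ℕ) (x : ℝ) : ∑ a ∈ range (d + 1), bb d x a = 1 := by
  have := add_pow x (1 - x) d
  rw [add_sub_cancel, one_pow] at this
  rw [this]
  refine sum_congr rfl fun a _ => ?_
  unfold bb
  ring

theorem vl_bw (d : ℕ) (t : List ℕ) (x : ℕ → ℝ) :
    (fun j => bw (d :: t) x (j + 1)) = bw t (fun j => x (j + 1)) := by
  funext j
  simp only [bw, List.getD_cons_succ]

theorem vl_bw0 (d : ℕ) (t : List ℕ) (x : ℕ → ℝ) : bw (d :: t) x 0 = bb d (x 0) := by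
  simp only [bw, List.getD_cons_zero]

theorem val_const (ds : List ℕ) (x : ℕ → ℝ) (c : ℝ) : val ds (bw ds x) (fun _ => c) = c := by
  induction ds generalizing x with
  | nil => rfl
  | cons d t ih =>
    simp only [val]
    rw [vl_bw, ih, ← sum_mul, vl_bw0, bb_sum, one_mul]

theorem val_fiber (pre post : List ℕ) (d : ℕ) {W W' : ℕ → ℕ → ℝ} (hW : ∀ j a, 0 ≤ W j a)
    (hW' : ∀ j, j ≠ pre.length → W' j = W j) {f g : ℕ → ℝ}
    (h : ∀ hi < sz pre, ∀ lo < sz post,
      ∑ a ∈ range (d + 1), W' pre.length a * g ((hi * (d + 1) + a) * sz post + lo) ≤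
        ∑ a ∈ range (d + 1), W pre.length a * f ((hi * (d + 1) + a) * sz post + lo)) :
    val (pre ++ d :: post) W' g ≤ val (pre ++ d :: post) W f := by
  induction pre generalizing W W' f g with
  | nil =>
    simp only [List.nil_append, val]
    have e : (fun j => W' (j + 1)) = fun j => W (j + 1) := funext fun j => hW' _ (by simp)
    rw [e]
    simp only [← val_smul, ← val_sum]
    refine val_mono post (fun j a => hW _ a) fun i hi => ?_
    simpa using h 0 Nat.one_pos i hi
  | cons e t ih =>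
    simp only [List.cons_append, val]
    rw [hW' 0 (by simp)]
    refine sum_le_sum fun a ha => mul_le_mul_of_nonneg_left ?_ (hW 0 a)
    refine ih (fun j a => hW _ a) (fun j hj => hW' _ (by simpa using hj)) fun hi h1 lo h2 => ?_
    have e1 : ∀ b, a * sz (t ++ d :: post) + ((hi * (d + 1) + b) * sz post + lo) =
        ((a * sz t + hi) * (d + 1) + b) * sz post + lo := by
      intro b
      rw [sz_append]
      simp only [sz]
      ring
    simp only [e1]
    exact h (a * sz t + hi) (vl_idx ha h1) lo h2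

theorem bv_rep (d : ℕ) (t : List ℕ) (x : ℕ → ℝ) (f : ℕ → ℕ) :
    bv (d :: t) x (fun i => f (i % sz t)) = bv (0 :: t) x f := by
  simp only [bv, val]
  rw [vl_bw, vl_bw, vl_bw0, vl_bw0]
  have e : ∀ a, val t (bw t fun j => x (j + 1)) (fun i => (f ((a * sz t + i) % sz t) : ℝ)) =
      val t (bw t fun j => x (j + 1)) (fun i => (f i : ℝ)) := fun a =>
    val_congr t _ fun i hi => by rw [Nat.mul_add_mod_self_right, Nat.mod_eq_of_lt hi]
  simp only [e]
  rw [← sum_mul, bb_sum]
  simp [bb]

theorem bv_move (d : ℕ) (t : List ℕ) (x : ℕ → ℝ) (f : ℕ → ℕ) :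
    bv (t ++ [d]) (fun j => if j = t.length then x 0 else x (j + 1))
      (fun i => f (i % (d + 1) * sz t + i / (d + 1))) = bv (d :: t) x f := by
  simp only [bv, val]
  rw [val_append, vl_bw, vl_bw0]
  refine sum_congr rfl fun a ha => ?_
  have ha' : a < d + 1 := mem_range.1 ha
  congr 1
  · simp [bw]
  · rw [val_congrW t (W' := bw t fun j => x (j + 1))]
    · congr 1
      funext i
      rw [Nat.mul_add_mod_self_right, Nat.mod_eq_of_lt ha', add_comm (i * (d + 1)),
        Nat.add_mul_div_right _ _ (Nat.succ_pos d), Nat.div_eq_of_lt ha', zero_add]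
    · intro j hj
      simp only [bw, if_neg hj.ne, List.getD_append _ _ _ _ hj]

open Polynomial in
theorem vl_phi (G : ℕ → ℝ) : ∃ φ : ℝ[X] →ₗ[ℝ] ℝ, ∀ k a, φ ((1 + X) ^ k * X ^ a) = st G k a := by
  refine ⟨(basisMonomials ℝ).constr ℝ G, fun k => ?_⟩
  induction k with
  | zero =>
    intro a
    have := (basisMonomials ℝ).constr_basis ℝ G a
    rw [coe_basisMonomials] at this
    rw [pow_zero, one_mul, ← monomial_one_right_eq_X_pow]
    exact this
  | succ k ih =>
    intro a
    rw [st, ← ih, ← ih, ← map_add]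
    congr 1
    ring

open Polynomial in
theorem vl_pow (φ : ℝ[X] →ₗ[ℝ] ℝ) (u v : ℝ) (p q : ℝ[X]) (d : ℕ) :
    φ ((u • p + v • q) ^ d) =
      ∑ a ∈ range (d + 1), (d.choose a : ℝ) * u ^ a * v ^ (d - a) * φ (q ^ (d - a) * p ^ a) := by
  rw [add_pow, map_sum]
  refine sum_congr rfl fun a _ => ?_
  rw [← smul_eq_mul (_ * _ * _ : ℝ), ← map_smul]
  congr 1
  simp only [smul_eq_C_mul, map_mul, map_pow, map_natCast]
  ring

open Polynomial in
theorem vl_base (φ : ℝ[X] →ₗ[ℝ] ℝ) {G : ℕ → ℝ} (h : ∀ k a, φ ((1 + X) ^ k * X ^ a) = st G k a)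
    (d : ℕ) (x : ℝ) :
    ∑ a ∈ range (d + 1), bb d x a * G a = φ ((x • X + (1 - x) • (1 : ℝ[X])) ^ d) := by
  rw [vl_pow]
  refine sum_congr rfl fun a _ => ?_
  have := h 0 a
  rw [pow_zero] at this
  rw [one_pow, this]
  rfl

theorem st_left (d : ℕ) (G : ℕ → ℝ) (x : ℝ) :
    ∑ a ∈ range (d + 1), bb d (2 * x) a * (st G a 0 / 2 ^ a) =
      ∑ a ∈ range (d + 1), bb d x a * G a := by
  obtain ⟨φ, h⟩ := vl_phi G
  have e : (x • Polynomial.X + (1 - x) • (1 : Polynomial ℝ)) =
      x • (1 + Polynomial.X) + (1 - 2 * x) • 1 := by module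
  rw [vl_base φ h, e, vl_pow]
  refine sum_congr rfl fun a _ => ?_
  have := h a 0
  rw [pow_zero, mul_one] at this
  rw [one_pow, one_mul, this, bb, mul_pow]
  field_simp

theorem st_right (d : ℕ) (G : ℕ → ℝ) (x : ℝ) :
    ∑ a ∈ range (d + 1), bb d (2 * x - 1) a * (st G (d - a) a / 2 ^ (d - a)) =
      ∑ a ∈ range (d + 1), bb d x a * G a := by
  obtain ⟨φ, h⟩ := vl_phi G
  have e : (x • Polynomial.X + (1 - x) • (1 : Polynomial ℝ)) =
      (2 * x - 1) • Polynomial.X + (1 - x) • (1 + Polynomial.X) := by module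
  rw [vl_base φ h, e, vl_pow]
  refine sum_congr rfl fun a _ => ?_
  rw [h, bb, show 1 - (2 * x - 1) = 2 * (1 - x) by ring, mul_pow]
  field_simp

end Pool.Agent.MP_90395b_gt.Bn
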