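import Mathlib

namespace Pool.Agent.MP_90395b_gt.W5

abbrev V3 := Fin 3 → ℝ

def ip (a b : V3) : ℝ := a 0 * b 0 + a 1 * b 1 + a 2 * b 2

def dt (a b c : V3) : ℝ :=
  a 0 * (b 1 * c 2 - b 2 * c 1) - a 1 * (b 0 * c 2 - b 2 * c 0) + a 2 * (b 0 * c 1 - b 1 * c 0)

lemma ip_nonneg (a : V3) : 0 ≤ ip a a := by
  unfold ip; nlinarith [sq_nonneg (a 0), sq_nonneg (a 1), sq_nonneg (a 2)]

lemma ip_cs (a b : V3) : ip a b ^ 2 ≤ ip a a * ip b b := by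
  unfold ip
  nlinarith [sq_nonneg (a 0 * b 1 - a 1 * b 0), sq_nonneg (a 0 * b 2 - a 2 * b 0),
    sq_nonneg (a 1 * b 2 - a 2 * b 1)]

lemma dt_mul (a b c p q r : V3) : dt a b c * dt p q r =
    ip a p * (ip b q * ip c r - ip b r * ip c q) - ip a q * (ip b p * ip c r - ip b r * ip c p)
      + ip a r * (ip b p * ip c q - ip b q * ip c p) := by
  unfold dt ip; ring

lemma dt_had (a b c : V3) : dt a b c ^ 2 ≤ ip a a * ip b b * ip c c := by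
  have h1 := ip_cs a ![b 1 * c 2 - b 2 * c 1, b 2 * c 0 - b 0 * c 2, b 0 * c 1 - b 1 * c 0]
  have h2 : ip ![b 1 * c 2 - b 2 * c 1, b 2 * c 0 - b 0 * c 2, b 0 * c 1 - b 1 * c 0]
      ![b 1 * c 2 - b 2 * c 1, b 2 * c 0 - b 0 * c 2, b 0 * c 1 - b 1 * c 0]
      = ip b b * ip c c - ip b c ^ 2 := by
    simp [ip]; ring
  have h3 : ip a ![b 1 * c 2 - b 2 * c 1, b 2 * c 0 - b 0 * c 2, b 0 * c 1 - b 1 * c 0]
      = dt a b c := by
    simp [ip, dt]; ring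
  rw [h2, h3] at h1
  nlinarith [mul_nonneg (ip_nonneg a) (sq_nonneg (ip b c))]

lemma amgm3 (a b c : ℝ) (ha : 0 ≤ a) (hb : 0 ≤ b) (hc : 0 ≤ c) :
    27 * (a * b * c) ≤ (a + b + c) ^ 3 := by
  nlinarith [mul_nonneg ha (sq_nonneg (b - c)), mul_nonneg hb (sq_nonneg (a - c)),
    mul_nonneg hc (sq_nonneg (a - b)), mul_nonneg ha (sq_nonneg (a - b)),
    mul_nonneg ha (sq_nonneg (a - c)), mul_nonneg hb (sq_nonneg (b - c)),
    mul_nonneg hb (sq_nonneg (a - b)), mul_nonneg hc (sq_nonneg (a - c)),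
    mul_nonneg hc (sq_nonneg (b - c))]

/-- determinant / trace inequality for four weighted vectors -/
lemma L3 (p q r s : V3) (cp cq cr cs : ℝ) (hp : 0 ≤ cp) (hq : 0 ≤ cq) (hr : 0 ≤ cr)
    (hs : 0 ≤ cs) :
    27 * (cp * cq * cr * dt p q r ^ 2 + cp * cq * cs * dt p q s ^ 2
      + cp * cr * cs * dt p r s ^ 2 + cq * cr * cs * dt q r s ^ 2)
      ≤ (cp * ip p p + cq * ip q q + cr * ip r r + cs * ip s s) ^ 3 := by
  obtain ⟨a, ha⟩ : ∃ a, a = cp * p 0 ^ 2 + cq * q 0 ^ 2 + cr * r 0 ^ 2 + cs * s 0 ^ 2 := ⟨_, rfl⟩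
  obtain ⟨b, hb⟩ : ∃ a, a = cp * p 1 ^ 2 + cq * q 1 ^ 2 + cr * r 1 ^ 2 + cs * s 1 ^ 2 := ⟨_, rfl⟩
  obtain ⟨c, hc⟩ : ∃ a, a = cp * p 2 ^ 2 + cq * q 2 ^ 2 + cr * r 2 ^ 2 + cs * s 2 ^ 2 := ⟨_, rfl⟩
  obtain ⟨d, hd⟩ : ∃ a, a = cp * (p 0 * p 1) + cq * (q 0 * q 1) + cr * (r 0 * r 1)
    + cs * (s 0 * s 1) := ⟨_, rfl⟩
  obtain ⟨e, he⟩ : ∃ a, a = cp * (p 0 * p 2) + cq * (q 0 * q 2) + cr * (r 0 * r 2)
    + cs * (s 0 * s 2) := ⟨_, rfl⟩
  obtain ⟨f, hf⟩ : ∃ a, a = cp * (p 1 * p 2) + cq * (q 1 * q 2) + cr * (r 1 * r 2)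
    + cs * (s 1 * s 2) := ⟨_, rfl⟩
  have ha0 : 0 ≤ a := by rw [ha]; positivity
  have hb0 : 0 ≤ b := by rw [hb]; positivity
  have hc0 : 0 ≤ c := by rw [hc]; positivity
  have h1 : cp * cq * cr * dt p q r ^ 2 + cp * cq * cs * dt p q s ^ 2
      + cp * cr * cs * dt p r s ^ 2 + cq * cr * cs * dt q r s ^ 2
      = a * b * c + 2 * d * e * f - a * f ^ 2 - b * e ^ 2 - c * d ^ 2 := by
    rw [ha, hb, hc, hd, he, hf]; unfold dt; ring
  have h2 : cp * ip p p + cq * ip q q + cr * ip r r + cs * ip s s = a + b + c := by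
    rw [ha, hb, hc]; unfold ip; ring
  have h3 : a * f ^ 2 - 2 * d * e * f + b * e ^ 2 =
      cp * (p 0 * f - p 1 * e) ^ 2 + cq * (q 0 * f - q 1 * e) ^ 2 + cr * (r 0 * f - r 1 * e) ^ 2
        + cs * (s 0 * f - s 1 * e) ^ 2 := by
    rw [ha, hb, hd]; ring
  have h4 : 0 ≤ a * f ^ 2 - 2 * d * e * f + b * e ^ 2 := by rw [h3]; positivity
  rw [h1, h2]
  nlinarith [amgm3 a b c ha0 hb0 hc0, mul_nonneg hc0 (sq_nonneg d)]

lemma exU (e1 e2 d : V3) (h : dt e1 e2 d ≠ 0) (a b s : ℝ) :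
    ∃ u : V3, ip u e1 = a ∧ ip u e2 = b ∧ ip u d = s := by
  refine ⟨![(a * (e2 1 * d 2 - e2 2 * d 1) + b * (d 1 * e1 2 - d 2 * e1 1)
      + s * (e1 1 * e2 2 - e1 2 * e2 1)) / dt e1 e2 d,
    (a * (e2 2 * d 0 - e2 0 * d 2) + b * (d 2 * e1 0 - d 0 * e1 2)
      + s * (e1 2 * e2 0 - e1 0 * e2 2)) / dt e1 e2 d,
    (a * (e2 0 * d 1 - e2 1 * d 0) + b * (d 0 * e1 1 - d 1 * e1 0)
      + s * (e1 0 * e2 1 - e1 1 * e2 0)) / dt e1 e2 d], ?_, ?_, ?_⟩ <;>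
  · simp only [ip, Matrix.cons_val_zero, Matrix.cons_val_one, Matrix.cons_val]
    field_simp
    unfold dt; ring

lemma exZ (e1 e2 d : V3) (h : dt e1 e2 d = 0) :
    ∃ u : V3, 0 < ip u u ∧ ip u e1 = 0 ∧ ip u e2 = 0 ∧ ip u d = 0 := by
  have hdet : (Matrix.of ![e1, e2, d]).det = 0 := by
    rw [Matrix.det_fin_three]; simp; unfold dt at h; linarith
  obtain ⟨v, hv, hv0⟩ := Matrix.exists_mulVec_eq_zero_iff.mpr hdet
  have h0 := congrFun hv0 0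
  have h1 := congrFun hv0 1
  have h2 := congrFun hv0 2
  simp [Matrix.mulVec, dotProduct, Fin.sum_univ_three] at h0 h1 h2
  refine ⟨v, ?_, ?_, ?_, ?_⟩
  · rcases (ip_nonneg v).lt_or_eq with h3 | h3
    · exact h3
    · exfalso; apply hv
      unfold ip at h3
      ext i; fin_cases i <;> simp <;> nlinarith [sq_nonneg (v 0), sq_nonneg (v 1), sq_nonneg (v 2)]
  all_goals unfold ip; linarith

lemma exT (a b : ℝ) (h0 : 0 ≤ a) (h1 : a ≤ b) : ∃ t, 0 ≤ t ∧ t ≤ 1 ∧ b * t = a := by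
  rcases (h0.trans h1).lt_or_eq with hb | hb
  · exact ⟨a / b, by positivity, (div_le_one hb).mpr h1, by field_simp⟩
  · exact ⟨0, le_rfl, zero_le_one, by linarith⟩

lemma pos_of_ip (u d : V3) (h : ip u d ≠ 0) : 0 < ip d d ∧ 0 < ip u u := by
  have h1 := ip_cs u d
  have h2 : 0 < ip u d ^ 2 := by positivity
  have h3 := ip_nonneg u
  have h4 := ip_nonneg d
  constructor
  · rcases h4.lt_or_eq with h5 | h5
    · exact h5
    · rw [← h5] at h1; linarith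
  · rcases h3.lt_or_eq with h5 | h5
    · exact h5
    · rw [← h5] at h1; linarith

/-- parallelogram law on the top face -/
lemma pair (u u' d : V3) (W : ℝ) (h1 : ip u d = 1) (h2 : ip u' d = 1) (hu : ip u u ≤ W)
    (hu' : ip u' u' ≤ W) : ip (u - u') (u - u') ≤ 4 * (W - 1 / ip d d) := by
  have hD : 0 < ip d d := (pos_of_ip u d (by rw [h1]; norm_num)).1
  have h3 := ip_cs (u + u') d
  have h4 : ip (u + u') d = 2 := by
    have : ip (u + u') d = ip u d + ip u' d := by simp [ip]; ring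
    rw [this, h1, h2]; norm_num
  have h5 : ip (u - u') (u - u') + ip (u + u') (u + u') = 2 * ip u u + 2 * ip u' u' := by
    simp [ip]; ring
  have h6 : 4 * (1 / ip d d) ≤ ip (u + u') (u + u') := by
    rw [mul_one_div, div_le_iff₀ hD]; rw [h4] at h3; linarith
  linarith

lemma quart (a e : ℝ) (ha : 0 ≤ a) (he : 0 ≤ e) :
    11 * (a ^ 2 * (1 + e) ^ 2) ≤ 2 * ((a + e) ^ 2 + 3 * a ^ 2) * (2 + e ^ 2 - 2 * a + 3 * a ^ 2) := by
  have h : 2 * ((a + e) ^ 2 + 3 * a ^ 2) * (2 + e ^ 2 - 2 * a + 3 * a ^ 2)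
      - 11 * (a ^ 2 * (1 + e) ^ 2) =
      5 * (a + 3 / 10 * e - 8 / 5 * a ^ 2 - 3 / 5 * (a * e) + 1 / 5 * e ^ 2) ^ 2
      + 71 / 20 * (e - 72 / 71 * a ^ 2 - 22 / 71 * (a * e) - 6 / 71 * e ^ 2) ^ 2
      + 536 / 71 * (a ^ 2 - 105 / 134 * (a * e) - 121 / 536 * e ^ 2) ^ 2
      + 283 / 67 * (a * e - 111 / 566 * e ^ 2) ^ 2 + 2779 / 2264 * (e ^ 2) ^ 2
      + a * e * (5 * (1 - 6 / 5 * a - 1 / 5 * e) ^ 2 + 24 / 5 * (a - 11 / 24 * e) ^ 2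
        + 67 / 24 * e ^ 2) := by ring
  have : 0 ≤ 2 * ((a + e) ^ 2 + 3 * a ^ 2) * (2 + e ^ 2 - 2 * a + 3 * a ^ 2)
      - 11 * (a ^ 2 * (1 + e) ^ 2) := by rw [h]; positivity
  linarith

lemma ip_sub (u a b : V3) : ip u (a - b) = ip u a - ip u b := by simp [ip]; ring
lemma ip_add (u a b : V3) : ip u (a + b) = ip u a + ip u b := by simp [ip]; ring
lemma ip_smul (u a : V3) (t : ℝ) : ip u (t • a) = t * ip u a := by simp [ip]; ring
lemma sub_ip (u a b : V3) : ip (a - b) u = ip a u - ip b u := by simp [ip]; ring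
lemma add_ip (u a b : V3) : ip (a + b) u = ip a u + ip b u := by simp [ip]; ring
lemma smul_ip (u a : V3) (t : ℝ) : ip (t • a) u = t * ip a u := by simp [ip]; ring
lemma ip_comm (a b : V3) : ip a b = ip b a := by simp [ip]; ring

/-- projection along `d` -/
noncomputable def pr (d x : V3) : V3 := x - (ip x d / ip d d) • d

lemma pr_sq (d x : V3) (hD : 0 < ip d d) :
    ip (pr d x) (pr d x) = ip x x - ip x d ^ 2 / ip d d := by
  unfold pr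
  rw [ip_sub, sub_ip, sub_ip, ip_smul, smul_ip, smul_ip, ip_smul, ip_comm d x]
  field_simp
  ring

lemma dt_shift (a b d : V3) (s t : ℝ) : dt (a - s • d) (b - t • d) d = dt a b d := by
  simp [dt]; ring

lemma mul_ge_of_sq (A B c : ℝ) (hA : 0 ≤ A) (hB : 0 ≤ B) (h : c ^ 2 ≤ A ^ 2 * B ^ 2) :
    c ≤ A * B := by
  have : c ^ 2 ≤ (A * B) ^ 2 := by rw [mul_pow]; exact h
  exact le_trans (le_abs_self c) (abs_le_of_sq_le_sq' this (mul_nonneg hA hB) |> fun h => abs_le.mpr h)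

end Pool.Agent.MP_90395b_gt.W5
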