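import Pool.Agent.MP_90395b_gt.W5Reg

namespace Pool.Agent.MP_90395b_gt.W5

def Hw (x1 x2 x3 y1 y2 : V3) (W : ℝ) : Prop :=
  ∀ (u : V3) (c : ℝ), (c ≤ ip u x1 ∧ ip u x1 ≤ c + 1) → (c ≤ ip u x2 ∧ ip u x2 ≤ c + 1) →
    (c ≤ ip u x3 ∧ ip u x3 ≤ c + 1) → (c ≤ ip u y1 ∧ ip u y1 ≤ c + 1) →
    (c ≤ ip u y2 ∧ ip u y2 ≤ c + 1) → ip u u ≤ W

lemma rel_ip {x1 x2 x3 y1 y2 : V3} {a1 a2 a3 b1 b2 : ℝ}
    (rel : ∀ i, a1 * x1 i + a2 * x2 i + a3 * x3 i = b1 * y1 i + b2 * y2 i) (u : V3) :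
    a1 * ip u x1 + a2 * ip u x2 + a3 * ip u x3 = b1 * ip u y1 + b2 * ip u y2 := by
  unfold ip
  linear_combination u 0 * rel 0 + u 1 * rel 1 + u 2 * rel 2

lemma vals {x1 x2 x3 y1 y2 : V3} {a1 a2 a3 b1 b2 : ℝ} (hs : a1 + a2 + a3 = 1) (ht : b1 + b2 = 1)
    (rel : ∀ i, a1 * x1 i + a2 * x2 i + a3 * x3 i = b1 * y1 i + b2 * y2 i) (u : V3)
    (f1 f2 f3 g1 g2 : ℝ) (hr : a1 * f1 + a2 * f2 + a3 * f3 = b1 * g1 + b2 * g2)
    (h1 : ip u (x1 - x3) = f1 - f3) (h2 : ip u (x2 - x3) = f2 - f3)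
    (h3 : ip u (y1 - y2) = g1 - g2) :
    ∃ c, ip u x1 = c + f1 ∧ ip u x2 = c + f2 ∧ ip u x3 = c + f3 ∧ ip u y1 = c + g1
      ∧ ip u y2 = c + g2 := by
  have h := rel_ip rel u
  rw [ip_sub] at h1 h2 h3
  have ha : a3 = 1 - a1 - a2 := by linarith
  have hb : b2 = 1 - b1 := by linarith
  subst ha hb
  refine ⟨ip u x3 - f3, by linarith, by linarith, by linarith, ?_, ?_⟩
  · linear_combination (-1) * h + hr + a1 * h1 + a2 * h2 + (1 - b1) * h3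
  · linear_combination (-1) * h + hr + a1 * h1 + a2 * h2 + (- b1) * h3

lemma ip_zero (a : V3) (h : ip a a = 0) : a = 0 := by
  unfold ip at h
  ext i; fin_cases i <;> simp <;> nlinarith [sq_nonneg (a 0), sq_nonneg (a 1), sq_nonneg (a 2)]

theorem core (x1 x2 x3 y1 y2 : V3) (a1 a2 a3 b1 b2 W : ℝ) (hs : a1 + a2 + a3 = 1)
    (ht : b1 + b2 = 1) (h12 : a2 ≤ a1) (h23 : a3 ≤ a2) (h3 : 0 ≤ a3) (hb : b2 ≤ b1)
    (_hb2 : 0 ≤ b2)
    (hx1 : ip x1 x1 = 1) (hx2 : ip x2 x2 = 1) (hx3 : ip x3 x3 = 1) (hy1 : ip y1 y1 = 1)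
    (hy2 : ip y2 y2 = 1)
    (rel : ∀ i, a1 * x1 i + a2 * x2 i + a3 * x3 i = b1 * y1 i + b2 * y2 i)
    (hW : Hw x1 x2 x3 y1 y2 W) :
    7 / 12 ≤ W ∧ (W = 7 / 12 → y2 = -y1 ∧ ip y1 x1 = 0 ∧ ip y1 x2 = 0 ∧ ip y1 x3 = 0 ∧
      ip x1 x2 = -1 / 2 ∧ ip x1 x3 = -1 / 2 ∧ ip x2 x3 = -1 / 2) := by
  by_cases hV : dt (x1 - x3) (x2 - x3) (y1 - y2) = 0
  · exfalso
    obtain ⟨u, hu, k1, k2, k3⟩ := exZ _ _ _ hV
    have hW0 : 0 ≤ W := by
      have := hW 0 0 (by simp [ip]) (by simp [ip]) (by simp [ip]) (by simp [ip]) (by simp [ip])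
      simpa [ip] using this
    obtain ⟨t, ht'⟩ : ∃ t, t = W / ip u u + 1 := ⟨_, rfl⟩
    have ht1 : 1 ≤ t := by rw [ht']; have : 0 ≤ W / ip u u := by positivity
                           linarith
    have ht2 : t * ip u u = W + ip u u := by rw [ht']; field_simp
    obtain ⟨c, v1, v2, v3, v4, v5⟩ := vals hs ht rel (t • u) 0 0 0 0 0 (by ring)
      (by rw [smul_ip, k1]; ring) (by rw [smul_ip, k2]; ring) (by rw [smul_ip, k3]; ring)
    have := hW (t • u) c (by rw [v1]; constructor <;> linarith)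
      (by rw [v2]; constructor <;> linarith) (by rw [v3]; constructor <;> linarith)
      (by rw [v4]; constructor <;> linarith) (by rw [v5]; constructor <;> linarith)
    rw [smul_ip, ip_smul, ht2] at this
    nlinarith
  have F : ∀ f1 f2 f3 g1 g2 : ℝ, 0 ≤ f1 → f1 ≤ 1 → 0 ≤ f2 → f2 ≤ 1 → 0 ≤ f3 → f3 ≤ 1 →
      0 ≤ g1 → g1 ≤ 1 → 0 ≤ g2 → g2 ≤ 1 → a1 * f1 + a2 * f2 + a3 * f3 = b1 * g1 + b2 * g2 →
      ∃ u c, ip u u ≤ W ∧ ip u x1 = c + f1 ∧ ip u x2 = c + f2 ∧ ip u x3 = c + f3 ∧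
        ip u y1 = c + g1 ∧ ip u y2 = c + g2 := by
    intro f1 f2 f3 g1 g2 _ _ _ _ _ _ _ _ _ _ hr
    obtain ⟨u, k1, k2, k3⟩ := exU _ _ _ hV (f1 - f3) (f2 - f3) (g1 - g2)
    obtain ⟨c, v1, v2, v3, v4, v5⟩ := vals hs ht rel u f1 f2 f3 g1 g2 hr k1 k2 k3
    exact ⟨u, c, hW u c (by rw [v1]; constructor <;> linarith)
      (by rw [v2]; constructor <;> linarith) (by rw [v3]; constructor <;> linarith)
      (by rw [v4]; constructor <;> linarith) (by rw [v5]; constructor <;> linarith),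
      v1, v2, v3, v4, v5⟩
  have z := le_refl (0 : ℝ)
  have o := le_refl (1 : ℝ)
  have zo := zero_le_one (α := ℝ)
  have fin : 7 / 12 < W → 7 / 12 ≤ W ∧ (W = 7 / 12 → y2 = -y1 ∧ ip y1 x1 = 0 ∧ ip y1 x2 = 0 ∧
      ip y1 x3 = 0 ∧ ip x1 x2 = -1 / 2 ∧ ip x1 x3 = -1 / 2 ∧ ip x2 x3 = -1 / 2) :=
    fun h => ⟨h.le, fun h' => absurd h' h.ne'⟩
  by_cases c1 : b1 ≤ a1
  · apply fin
    obtain ⟨t00, l00, m00, e00⟩ := exT b1 a1 (by linarith) (by linarith)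
    obtain ⟨t01, l01, m01, e01⟩ := exT (b1 - a3) a1 (by linarith) (by linarith)
    obtain ⟨t10, l10, m10, e10⟩ := exT (b1 - a2) a1 (by linarith) (by linarith)
    obtain ⟨t11, l11, m11, e11⟩ := exT (b1 - a2 - a3) a1 (by linarith) (by linarith)
    obtain ⟨u00, c00, n00, _, _, _, _, _⟩ := F t00 0 0 1 0 l00 m00 z zo z zo zo o z zo (by linarith)
    obtain ⟨u01, c01, n01, _, _, _, _, _⟩ := F t01 0 1 1 0 l01 m01 z zo zo o zo o z zo (by linarith)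
    obtain ⟨u10, c10, n10, _, _, _, _, _⟩ := F t10 1 0 1 0 l10 m10 zo o z zo zo o z zo (by linarith)
    obtain ⟨u11, c11, n11, _, _, _, _, _⟩ := F t11 1 1 1 0 l11 m11 zo o zo o zo o z zo (by linarith)
    refine tetra y1 y2 x2 x3 hy1.le hy2.le hx2.le hx3.le W u00 u01 u10 u11 n00 n01 n10 n11
      ?_ ?_ ?_ ?_ ?_ ?_ ?_ ?_ ?_ ?_ ?_ ?_ <;> rw [ip_sub] <;> linarith
  by_cases c2 : b2 ≤ a2
  · apply fin
    obtain ⟨t00, l00, m00, e00⟩ := exT a1 b1 (by linarith) (by linarith)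
    obtain ⟨t01, l01, m01, e01⟩ := exT (a1 - b2) b1 (by linarith) (by linarith)
    obtain ⟨t10, l10, m10, e10⟩ := exT (a1 + a3) b1 (by linarith) (by linarith)
    obtain ⟨t11, l11, m11, e11⟩ := exT (a1 + a3 - b2) b1 (by linarith) (by linarith)
    obtain ⟨u00, c00, n00, _, _, _, _, _⟩ := F 1 0 0 t00 0 zo o z zo z zo l00 m00 z zo (by linarith)
    obtain ⟨u01, c01, n01, _, _, _, _, _⟩ := F 1 0 0 t01 1 zo o z zo z zo l01 m01 zo o (by linarith)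
    obtain ⟨u10, c10, n10, _, _, _, _, _⟩ := F 1 0 1 t10 0 zo o z zo zo o l10 m10 z zo (by linarith)
    obtain ⟨u11, c11, n11, _, _, _, _, _⟩ := F 1 0 1 t11 1 zo o z zo zo o l11 m11 zo o (by linarith)
    refine tetra x1 x2 x3 y2 hx1.le hx2.le hx3.le hy2.le W u00 u01 u10 u11 n00 n01 n10 n11
      ?_ ?_ ?_ ?_ ?_ ?_ ?_ ?_ ?_ ?_ ?_ ?_ <;> rw [ip_sub] <;> linarith
  push Not at c1 c2
  by_cases c3 : b2 ≤ a1
  · apply fin
    obtain ⟨a, la, ma, ea⟩ := exT (b1 - a2) a1 (by linarith) (by linarith)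
    obtain ⟨b, lb, mb, eb⟩ := exT (b1 - a3) a1 (by linarith) (by linarith)
    obtain ⟨g, lg, mg, eg⟩ := exT (1 - a1) b1 (by linarith) (by linarith)
    obtain ⟨h, lh, mh, eh⟩ := exT a1 b1 (by linarith) (by linarith)
    obtain ⟨uA, cA, nA, _, _, _, _, _⟩ := F a 1 0 1 0 la ma zo o z zo zo o z zo (by linarith)
    obtain ⟨uB, cB, nB, _, _, _, _, _⟩ := F b 0 1 1 0 lb mb z zo zo o zo o z zo (by linarith)
    obtain ⟨uC, cC, nC, _, _, _, _, _⟩ := F 0 1 1 g 0 z zo zo o zo o lg mg z zo (by linarith)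
    obtain ⟨uD, cD, nD, _, _, _, _, _⟩ := F 1 0 0 h 0 zo o z zo z zo lh mh z zo (by linarith)
    refine regP x1 x2 x3 y1 y2 a1 a2 a3 b1 b2 W hs ht (by linarith) hb hx1.le hx2.le hx3.le
      hy1.le hy2.le rel uA uB uC uD nA nB nC nD a b g h ea eb eg eh
      ?_ ?_ ?_ ?_ ?_ ?_ ?_ ?_ ?_ ?_ ?_ ?_ <;> rw [ip_sub] <;> linarith
  push Not at c3
  obtain ⟨t23, l23, m23, e23⟩ := exT (b1 - a2) a1 (by linarith) (by linarith)
  obtain ⟨t32, l32, m32, e32⟩ := exT (b1 - a3) a1 (by linarith) (by linarith)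
  obtain ⟨t31, l31, m31, e31⟩ := exT (b1 - a3) a2 (by linarith) (by linarith)
  obtain ⟨t13, l13, m13, e13⟩ := exT (b1 - a1) a2 (by linarith) (by linarith)
  obtain ⟨t12, l12, m12, e12⟩ := exT (b1 - a1) a3 (by linarith) (by linarith)
  obtain ⟨t21, l21, m21, e21⟩ := exT (b1 - a2) a3 (by linarith) (by linarith)
  obtain ⟨u23, c23, n23, p23, q23, r23, s23, w23⟩ :=
    F t23 1 0 1 0 l23 m23 zo o z zo zo o z zo (by linarith)
  obtain ⟨u32, c32, n32, p32, q32, r32, s32, w32⟩ :=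
    F t32 0 1 1 0 l32 m32 z zo zo o zo o z zo (by linarith)
  obtain ⟨u31, c31, n31, p31, q31, r31, s31, w31⟩ :=
    F 0 t31 1 1 0 z zo l31 m31 zo o zo o z zo (by linarith)
  obtain ⟨u13, c13, n13, p13, q13, r13, s13, w13⟩ :=
    F 1 t13 0 1 0 zo o l13 m13 z zo zo o z zo (by linarith)
  obtain ⟨u12, c12, n12, p12, q12, r12, s12, w12⟩ :=
    F 1 0 t12 1 0 zo o z zo l12 m12 zo o z zo (by linarith)
  obtain ⟨u21, c21, n21, p21, q21, r21, s21, w21⟩ :=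
    F 0 1 t21 1 0 z zo zo o l21 m21 zo o z zo (by linarith)
  have d23 : ip u23 (y1 - y2) = 1 := by rw [ip_sub]; linarith
  have d32 : ip u32 (y1 - y2) = 1 := by rw [ip_sub]; linarith
  have d31 : ip u31 (y1 - y2) = 1 := by rw [ip_sub]; linarith
  have d13 : ip u13 (y1 - y2) = 1 := by rw [ip_sub]; linarith
  have d12 : ip u12 (y1 - y2) = 1 := by rw [ip_sub]; linarith
  have d21 : ip u21 (y1 - y2) = 1 := by rw [ip_sub]; linarith
  have hD : 0 < ip (y1 - y2) (y1 - y2) := (pos_of_ip u23 _ (by rw [d23]; norm_num)).1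
  have k1 := pair u23 u32 _ W d23 d32 n23 n32
  have k2 := pair u31 u13 _ W d31 d13 n31 n13
  have k3 := pair u12 u21 _ W d12 d21 n12 n21
  obtain ⟨A, hA⟩ : ∃ A, A = W - 1 / ip (y1 - y2) (y1 - y2) := ⟨_, rfl⟩
  rw [← hA] at k1 k2 k3
  have hA0 : 0 < A := by
    have : ip (u23 - u32) (x2 - x3) = 2 := by rw [sub_ip, ip_sub, ip_sub]; linarith
    have := (pos_of_ip (u23 - u32) (x2 - x3) (by rw [this]; norm_num)).2
    linarith
  have hR := regA x1 x2 x3 (y1 - y2) (a1 • (u23 - u32)) (a2 • (u31 - u13)) (a3 • (u12 - u21))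
    a1 a2 a3 A hs (by linarith) (by linarith) h3 hA0 hD
    (by rw [smul_ip, ip_smul]; linarith [mul_le_mul_of_nonneg_left k1 (sq_nonneg a1)])
    (by rw [smul_ip, ip_smul]; linarith [mul_le_mul_of_nonneg_left k2 (sq_nonneg a2)])
    (by rw [smul_ip, ip_smul]; linarith [mul_le_mul_of_nonneg_left k3 (sq_nonneg a3)])
    (by rw [smul_ip, sub_ip, d23, d32]; ring) (by rw [smul_ip, sub_ip, d31, d13]; ring)
    (by rw [smul_ip, sub_ip, d12, d21]; ring)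
    (by rw [smul_ip, sub_ip, ip_sub, ip_sub, p23, r23, p32, r32]; linear_combination e23 - e32)
    (by rw [smul_ip, sub_ip, ip_sub, ip_sub, q23, r23, q32, r32]; ring)
    (by rw [smul_ip, sub_ip, ip_sub, ip_sub, p31, r31, p13, r13]; ring)
    (by rw [smul_ip, sub_ip, ip_sub, ip_sub, q31, r31, q13, r13]; linear_combination e31 - e13)
    (by rw [smul_ip, sub_ip, ip_sub, ip_sub, p12, r12, p21, r21]; linear_combination e21 - e12)
    (by rw [smul_ip, sub_ip, ip_sub, ip_sub, q12, r12, q21, r21]; linear_combination e21 - e12)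
  rw [pr_sq _ _ hD, pr_sq _ _ hD, pr_sq _ _ hD, hx1, hx2, hx3] at hR
  have hpar : ip (y1 - y2) (y1 - y2) + ip (y1 + y2) (y1 + y2) = 4 := by
    have : ip (y1 - y2) (y1 - y2) + ip (y1 + y2) (y1 + y2) = 2 * ip y1 y1 + 2 * ip y2 y2 := by
      simp [ip]; ring
    rw [this, hy1, hy2]; norm_num
  have hp0 := ip_nonneg (y1 + y2)
  have hD4 : 1 / 4 ≤ 1 / ip (y1 - y2) (y1 - y2) :=
    one_div_le_one_div_of_le hD (by linarith)
  have j1 : 0 ≤ ip x1 (y1 - y2) ^ 2 / ip (y1 - y2) (y1 - y2) := by positivity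
  have j2 : 0 ≤ ip x2 (y1 - y2) ^ 2 / ip (y1 - y2) (y1 - y2) := by positivity
  have j3 : 0 ≤ ip x3 (y1 - y2) ^ 2 / ip (y1 - y2) (y1 - y2) := by positivity
  have j4 := ip_nonneg (pr (y1 - y2) x1 + pr (y1 - y2) x2 + pr (y1 - y2) x3)
  obtain ⟨S, hS⟩ : ∃ S, S = 1 - ip x1 (y1 - y2) ^ 2 / ip (y1 - y2) (y1 - y2)
    + (1 - ip x2 (y1 - y2) ^ 2 / ip (y1 - y2) (y1 - y2))
    + (1 - ip x3 (y1 - y2) ^ 2 / ip (y1 - y2) (y1 - y2))
    - ip (pr (y1 - y2) x1 + pr (y1 - y2) x2 + pr (y1 - y2) x3)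
      (pr (y1 - y2) x1 + pr (y1 - y2) x2 + pr (y1 - y2) x3) / 3 := ⟨_, rfl⟩
  rw [← hS] at hR
  have hS3 : S ≤ 3 := by linarith
  have hA3 : 1 / 3 ≤ A := by linarith [mul_le_mul_of_nonneg_left hS3 hA0.le]
  refine ⟨by linarith, fun hE => ?_⟩
  have hAe : A = 1 / 3 := by linarith
  have hDe : 1 / ip (y1 - y2) (y1 - y2) = 1 / 4 := by linarith
  have hD' : ip (y1 - y2) (y1 - y2) = 4 := by
    rw [div_eq_div_iff hD.ne' (by norm_num)] at hDe; linarith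
  have hy : y2 = -y1 := by
    have := ip_zero (y1 + y2) (by linarith)
    exact (neg_eq_of_add_eq_zero_right this).symm
  rw [hAe] at hR
  have i1 : ip x1 (y1 - y2) = 0 := by
    have : ip x1 (y1 - y2) ^ 2 / ip (y1 - y2) (y1 - y2) = 0 := by linarith
    rw [hD', div_eq_zero_iff] at this; simpa using this
  have i2 : ip x2 (y1 - y2) = 0 := by
    have : ip x2 (y1 - y2) ^ 2 / ip (y1 - y2) (y1 - y2) = 0 := by linarith
    rw [hD', div_eq_zero_iff] at this; simpa using this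
  have i3 : ip x3 (y1 - y2) = 0 := by
    have : ip x3 (y1 - y2) ^ 2 / ip (y1 - y2) (y1 - y2) = 0 := by linarith
    rw [hD', div_eq_zero_iff] at this; simpa using this
  have i4 : pr (y1 - y2) x1 + pr (y1 - y2) x2 + pr (y1 - y2) x3 = 0 := ip_zero _ (by linarith)
  have i5 : x1 + x2 + x3 = 0 := by simpa [pr, i1, i2, i3] using i4
  have g : ∀ v, ip v x1 + ip v x2 + ip v x3 = 0 := by
    intro v; rw [← ip_add, ← ip_add, i5]; simp [ip]
  have g1 := g x1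
  have g2 := g x2
  have g3 := g x3
  rw [ip_comm x2 x1] at g2
  rw [ip_comm x3 x1, ip_comm x3 x2] at g3
  have hyy : ∀ v, ip v (y1 - y2) = 2 * ip y1 v := by
    intro v; rw [hy]; simp [ip]; ring
  rw [hyy] at i1 i2 i3
  exact ⟨hy, by linarith, by linarith, by linarith, by linarith, by linarith, by linarith⟩

end Pool.Agent.MP_90395b_gt.W5
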