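import Pool.Agent.MP_90395b_gt.W5Core

namespace Pool.Agent.MP_90395b_gt.W5

lemma ip_lt_one (p q : V3) (hp : ip p p = 1) (hq : ip q q = 1) (h : p ≠ q) : ip p q < 1 := by
  have h1 := ip_nonneg (p - q)
  have h2 : ip (p - q) (p - q) = ip p p + ip q q - 2 * ip p q := by simp [ip]; ring
  rcases h1.lt_or_eq with h3 | h3
  · linarith
  · exact absurd (sub_eq_zero.mp (ip_zero _ h3.symm)) h

lemma ip_le_one (p q : V3) (hp : ip p p = 1) (hq : ip q q = 1) : ip p q ≤ 1 := by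
  have h1 := ip_nonneg (p - q)
  have h2 : ip (p - q) (p - q) = ip p p + ip q q - 2 * ip p q := by simp [ip]; ring
  linarith

lemma lab (p0 p1 p2 p3 p4 : V3) (l0 l1 l2 l3 l4 W : ℝ) (h01 : l0 ≤ l1) (h12 : l1 ≤ l2)
    (h23 : l2 ≤ l3) (h34 : l3 ≤ l4) (hsum : l0 + l1 + l2 + l3 + l4 = 0) (hne : l0 < l4)
    (h2 : 0 ≤ l2) (rel : ∀ i, l0 * p0 i + l1 * p1 i + l2 * p2 i + l3 * p3 i + l4 * p4 i = 0)
    (n0 : ip p0 p0 = 1) (n1 : ip p1 p1 = 1) (n2 : ip p2 p2 = 1) (n3 : ip p3 p3 = 1)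
    (n4 : ip p4 p4 = 1) (hd : p0 ≠ p1) (hW : Hw p4 p3 p2 p0 p1 W) :
    7 / 12 ≤ W ∧ (W = 7 / 12 → p1 = -p0 ∧ ip p0 p4 = 0 ∧ ip p0 p3 = 0 ∧ ip p0 p2 = 0 ∧
      ip p4 p3 = -1 / 2 ∧ ip p4 p2 = -1 / 2 ∧ ip p3 p2 = -1 / 2) := by
  have hl1 : l1 ≤ 0 := by
    by_contra hc
    push Not at hc
    have e : l0 * ip p0 p0 + l1 * ip p0 p1 + l2 * ip p0 p2 + l3 * ip p0 p3 + l4 * ip p0 p4 = 0 := by
      unfold ip; linear_combination p0 0 * rel 0 + p0 1 * rel 1 + p0 2 * rel 2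
    rw [n0] at e
    have e1 := mul_lt_mul_of_pos_left (ip_lt_one p0 p1 n0 n1 hd) hc
    have e2 := mul_le_mul_of_nonneg_left (ip_le_one p0 p2 n0 n2) h2
    have e3 := mul_le_mul_of_nonneg_left (ip_le_one p0 p3 n0 n3) (by linarith : 0 ≤ l3)
    have e4 := mul_le_mul_of_nonneg_left (ip_le_one p0 p4 n0 n4) (by linarith : 0 ≤ l4)
    linarith
  obtain ⟨s, hs⟩ : ∃ s, s = l2 + l3 + l4 := ⟨_, rfl⟩
  have hs0 : 0 < s := by
    by_contra hc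
    push Not at hc
    linarith
  refine core p4 p3 p2 p0 p1 (l4 / s) (l3 / s) (l2 / s) (-l0 / s) (-l1 / s) W ?_ ?_ ?_ ?_ ?_ ?_ ?_
    n4 n3 n2 n0 n1 ?_ hW
  · field_simp; linarith
  · field_simp; linarith
  · exact div_le_div_of_nonneg_right h34 hs0.le
  · exact div_le_div_of_nonneg_right h23 hs0.le
  · positivity
  · exact div_le_div_of_nonneg_right (by linarith) hs0.le
  · exact div_nonneg (by linarith) hs0.le
  · intro i; field_simp; linarith [rel i]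

theorem five (x : Fin 5 → V3) (hinj : Function.Injective x) (hn : ∀ i, ip (x i) (x i) = 1)
    (W : ℝ) (hW : ∀ (u : V3) (c : ℝ), (∀ i, c ≤ ip u (x i) ∧ ip u (x i) ≤ c + 1) → ip u u ≤ W) :
    7 / 12 ≤ W ∧ (W = 7 / 12 → ∃ σ : Equiv.Perm (Fin 5), x (σ 1) = -x (σ 0) ∧
      ip (x (σ 0)) (x (σ 2)) = 0 ∧ ip (x (σ 0)) (x (σ 3)) = 0 ∧ ip (x (σ 0)) (x (σ 4)) = 0 ∧
      ip (x (σ 2)) (x (σ 3)) = -1 / 2 ∧ ip (x (σ 2)) (x (σ 4)) = -1 / 2 ∧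
      ip (x (σ 3)) (x (σ 4)) = -1 / 2) := by
  have hdep : ¬ LinearIndependent ℝ (fun i => ((x i, (1 : ℝ)) : V3 × ℝ)) := by
    intro h
    have := h.fintype_card_le_finrank
    simp at this
  obtain ⟨g, hg, i0, hi0⟩ := Fintype.not_linearIndependent_iff.mp hdep
  have key : ∀ (τ : Equiv.Perm (Fin 5)) (l : Fin 5 → ℝ), Monotone (l ∘ τ) →
      ∑ i, l i • ((x i, (1 : ℝ)) : V3 × ℝ) = 0 → l i0 ≠ 0 → 0 ≤ l (τ 2) →
      7 / 12 ≤ W ∧ (W = 7 / 12 → ∃ σ : Equiv.Perm (Fin 5), x (σ 1) = -x (σ 0) ∧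
      ip (x (σ 0)) (x (σ 2)) = 0 ∧ ip (x (σ 0)) (x (σ 3)) = 0 ∧ ip (x (σ 0)) (x (σ 4)) = 0 ∧
      ip (x (σ 2)) (x (σ 3)) = -1 / 2 ∧ ip (x (σ 2)) (x (σ 4)) = -1 / 2 ∧
      ip (x (σ 3)) (x (σ 4)) = -1 / 2) := by
    intro τ l hm hl hl0 h2
    rw [← Equiv.sum_comp τ, Fin.sum_univ_five] at hl
    have s1 := congrArg Prod.snd hl
    have s2 := congrArg Prod.fst hl
    simp only [Prod.snd_add, Prod.smul_snd, smul_eq_mul, mul_one, Prod.snd_zero] at s1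
    simp only [Prod.fst_add, Prod.smul_fst, Prod.fst_zero] at s2
    have m01 : l (τ 0) ≤ l (τ 1) := hm (by decide : (0 : Fin 5) ≤ 1)
    have m12 : l (τ 1) ≤ l (τ 2) := hm (by decide : (1 : Fin 5) ≤ 2)
    have m23 : l (τ 2) ≤ l (τ 3) := hm (by decide : (2 : Fin 5) ≤ 3)
    have m34 : l (τ 3) ≤ l (τ 4) := hm (by decide : (3 : Fin 5) ≤ 4)
    have hne : l (τ 0) < l (τ 4) := by
      by_contra hc
      push Not at hc
      apply hl0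
      have a1 : l (τ 0) ≤ l (τ (τ.symm i0)) := hm (Fin.zero_le _)
      have a2 : l (τ (τ.symm i0)) ≤ l (τ 4) := hm (Fin.le_last _)
      rw [Equiv.apply_symm_apply] at a1 a2
      linarith
    have hH : Hw (x (τ 4)) (x (τ 3)) (x (τ 2)) (x (τ 0)) (x (τ 1)) W := by
      intro u c b4 b3 b2 b0 b1
      apply hW u c
      intro i
      obtain ⟨j, rfl⟩ := τ.surjective i
      fin_cases j
      exacts [b0, b1, b2, b3, b4]
    have := lab (x (τ 0)) (x (τ 1)) (x (τ 2)) (x (τ 3)) (x (τ 4)) _ _ _ _ _ W m01 m12 m23 m34 s1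
      hne h2 (fun i => by simpa using congrFun s2 i) (hn _) (hn _) (hn _) (hn _) (hn _)
      (fun h => absurd (τ.injective (hinj h)) (by decide)) hH
    refine ⟨this.1, fun hE => ⟨τ, ?_⟩⟩
    obtain ⟨k1, k2, k3, k4, k5, k6, k7⟩ := this.2 hE
    exact ⟨k1, k4, k3, k2, by rw [ip_comm, k7], by rw [ip_comm, k6], by rw [ip_comm, k5]⟩
  by_cases h2 : 0 ≤ g (Tuple.sort g 2)
  · exact key (Tuple.sort g) g (Tuple.monotone_sort g) hg hi0 h2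
  · refine key (Fin.revPerm.trans (Tuple.sort g)) (fun i => -g i) ?_ ?_ (by simpa using hi0) ?_
    · intro a b hab
      simp only [Function.comp, Equiv.trans_apply, Fin.revPerm_apply, neg_le_neg_iff]
      exact Tuple.monotone_sort g (Fin.rev_le_rev.mpr hab)
    · simp only [neg_smul, Finset.sum_neg_distrib, hg, neg_zero]
    · have : (Fin.revPerm.trans (Tuple.sort g)) 2 = Tuple.sort g 2 := rfl
      rw [this]; push Not at h2; linarith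

lemma aux3 (t a m l h : ℝ) (ht : t ^ 2 ≤ l ^ 2) (hlh : l ≤ h) (hm : m ≤ l) (ha : a ≤ h)
    (h1 : m ≤ 2 * a) (h2 : a ≤ 2 * m) :
    t ^ 2 + 4 / 3 * (a ^ 2 - a * m + m ^ 2) ≤ 7 / 12 * (l + h) ^ 2 := by
  have hm0 : 0 ≤ m := by linarith
  have ha0 : 0 ≤ a := by linarith
  nlinarith [mul_nonneg (sub_nonneg.2 ha) (sub_nonneg.2 h1), mul_nonneg (sub_nonneg.2 hm) (sub_nonneg.2 h2),
    mul_nonneg (sub_nonneg.2 hlh) (sub_nonneg.2 h2), mul_nonneg (sub_nonneg.2 hlh) (sub_nonneg.2 h1),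
    mul_nonneg (sub_nonneg.2 hlh) hm0, mul_nonneg (sub_nonneg.2 hlh) ha0,
    mul_nonneg (sub_nonneg.2 ha) (sub_nonneg.2 hm), mul_nonneg (sub_nonneg.2 hm) hm0,
    mul_nonneg (sub_nonneg.2 ha) ha0, mul_nonneg (sub_nonneg.2 hlh) (sub_nonneg.2 hlh),
    mul_nonneg (sub_nonneg.2 hlh) (sub_nonneg.2 hm), mul_nonneg (sub_nonneg.2 hlh) (sub_nonneg.2 ha),
    mul_nonneg (sub_nonneg.2 h1) (sub_nonneg.2 h2), mul_nonneg (sub_nonneg.2 ha) hm0,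
    mul_nonneg (sub_nonneg.2 hm) ha0, mul_nonneg (sub_nonneg.2 hm) (sub_nonneg.2 hm),
    mul_nonneg (sub_nonneg.2 ha) (sub_nonneg.2 h2), mul_nonneg (sub_nonneg.2 hm) (sub_nonneg.2 h1)]

lemma aux4 (t a b c lo hi : ℝ) (hab : b ≤ a) (hbc : c ≤ b) (hs : a + b + c = 0) (ha : a ≤ hi)
    (hc : lo ≤ c) (t1 : lo ≤ t) (t2 : t ≤ hi) (t3 : lo ≤ -t) (t4 : -t ≤ hi) :
    t ^ 2 + 2 / 3 * (a ^ 2 + b ^ 2 + c ^ 2) ≤ 7 / 12 * (hi - lo) ^ 2 := by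
  have hb : b = -a - c := by linarith
  rcases le_total (-lo) hi with h | h
  · have := aux3 t a (-c) (-lo) hi (by nlinarith) h (by linarith) ha (by linarith) (by linarith)
    rw [hb]; linarith
  · have := aux3 t (-c) a hi (-lo) (by nlinarith) h ha (by linarith) (by linarith) (by linarith)
    rw [hb]; linarith

lemma reg_bound (p x1 x2 x3 u : V3) (lo hi : ℝ) (np : ip p p = 1) (n1 : ip x1 x1 = 1)
    (n2 : ip x2 x2 = 1) (n3 : ip x3 x3 = 1) (k1 : ip p x1 = 0) (k2 : ip p x2 = 0)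
    (k12 : ip x1 x2 = -1 / 2) (k13 : ip x1 x3 = -1 / 2) (k23 : ip x2 x3 = -1 / 2)
    (b0 : lo ≤ ip u p ∧ ip u p ≤ hi) (b0' : lo ≤ -ip u p ∧ -ip u p ≤ hi)
    (b1 : lo ≤ ip u x1 ∧ ip u x1 ≤ hi) (b2 : lo ≤ ip u x2 ∧ ip u x2 ≤ hi)
    (b3 : lo ≤ ip u x3 ∧ ip u x3 ≤ hi) : ip u u ≤ 7 / 12 * (hi - lo) ^ 2 := by
  have hz : x1 + x2 + x3 = 0 := by
    apply ip_zero
    have : ip (x1 + x2 + x3) (x1 + x2 + x3) = ip x1 x1 + ip x2 x2 + ip x3 x3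
      + 2 * ip x1 x2 + 2 * ip x1 x3 + 2 * ip x2 x3 := by simp [ip]; ring
    rw [this, n1, n2, n3, k12, k13, k23]; norm_num
  have hs : ip u x1 + ip u x2 + ip u x3 = 0 := by rw [← ip_add, ← ip_add, hz]; simp [ip]
  have hG : ip u u * (ip p p * (ip x1 x1 * ip x2 x2 - ip x1 x2 ^ 2)
        - ip p x1 * (ip p x1 * ip x2 x2 - ip x1 x2 * ip p x2)
        + ip p x2 * (ip p x1 * ip x1 x2 - ip x1 x1 * ip p x2))
      = ip u p ^ 2 * (ip x1 x1 * ip x2 x2 - ip x1 x2 ^ 2)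
        + ip u x1 ^ 2 * (ip p p * ip x2 x2 - ip p x2 ^ 2)
        + ip u x2 ^ 2 * (ip p p * ip x1 x1 - ip p x1 ^ 2)
        - 2 * ip u p * ip u x1 * (ip p x1 * ip x2 x2 - ip p x2 * ip x1 x2)
        + 2 * ip u p * ip u x2 * (ip p x1 * ip x1 x2 - ip p x2 * ip x1 x1)
        - 2 * ip u x1 * ip u x2 * (ip p p * ip x1 x2 - ip p x1 * ip p x2) := by
    unfold ip; ring
  rw [np, n1, n2, k1, k2, k12] at hG
  generalize ip u p = t at *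
  generalize ip u x1 = a at *
  generalize ip u x2 = b at *
  generalize ip u x3 = c at *
  have hU : ip u u = t ^ 2 + 2 / 3 * (a ^ 2 + b ^ 2 + c ^ 2) := by
    have hc : c = -a - b := by linarith
    rw [hc]; linarith
  rw [hU]
  rcases le_total a b with h1 | h1 <;> rcases le_total b c with h2 | h2 <;>
    rcases le_total a c with h3 | h3
  · linarith [aux4 t c b a lo hi h2 h1 (by linarith) b3.2 b1.1 b0.1 b0.2 b0'.1 b0'.2]
  · linarith [aux4 t c b a lo hi h2 h1 (by linarith) b3.2 b1.1 b0.1 b0.2 b0'.1 b0'.2]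
  · linarith [aux4 t b c a lo hi h2 h3 (by linarith) b2.2 b1.1 b0.1 b0.2 b0'.1 b0'.2]
  · linarith [aux4 t b a c lo hi h1 h3 (by linarith) b2.2 b3.1 b0.1 b0.2 b0'.1 b0'.2]
  · linarith [aux4 t c a b lo hi h3 h1 (by linarith) b3.2 b2.1 b0.1 b0.2 b0'.1 b0'.2]
  · linarith [aux4 t a c b lo hi h3 h2 (by linarith) b1.2 b2.1 b0.1 b0.2 b0'.1 b0'.2]
  · linarith [aux4 t a b c lo hi h1 h2 (by linarith) b1.2 b3.1 b0.1 b0.2 b0'.1 b0'.2]
  · linarith [aux4 t a b c lo hi h1 h2 (by linarith) b1.2 b3.1 b0.1 b0.2 b0'.1 b0'.2]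

end Pool.Agent.MP_90395b_gt.W5
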