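import Pool.Agent.MP_90395b_gt.W5Alg

namespace Pool.Agent.MP_90395b_gt.W5

lemma tetra (P Q R S : V3) (hP : ip P P ≤ 1) (hQ : ip Q Q ≤ 1) (hR : ip R R ≤ 1)
    (hS : ip S S ≤ 1) (W : ℝ) (u00 u01 u10 u11 : V3)
    (n00 : ip u00 u00 ≤ W) (n01 : ip u01 u01 ≤ W) (n10 : ip u10 u10 ≤ W) (n11 : ip u11 u11 ≤ W)
    (d00 : ip u00 (P - Q) = 1) (d01 : ip u01 (P - Q) = 1) (d10 : ip u10 (P - Q) = 1)
    (d11 : ip u11 (P - Q) = 1)
    (r00 : ip u00 (R - Q) = 0) (r01 : ip u01 (R - Q) = 0) (r10 : ip u10 (R - Q) = 1)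
    (r11 : ip u11 (R - Q) = 1)
    (s00 : ip u00 (S - Q) = 0) (s01 : ip u01 (S - Q) = 1) (s10 : ip u10 (S - Q) = 0)
    (s11 : ip u11 (S - Q) = 1) : 7 / 12 < W := by
  have hD : 0 < ip (P - Q) (P - Q) := (pos_of_ip u00 _ (by rw [d00]; norm_num)).1
  have p1 := pair u10 u01 _ W d10 d01 n10 n01
  have p2 := pair u11 u00 _ W d11 d00 n11 n00
  have m1 := dt_mul (u10 - u01) (u11 - u00) (P - Q) (R - Q) (S - Q) (P - Q)
  simp only [sub_ip (P - Q) u10 u01, sub_ip (P - Q) u11 u00,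
    sub_ip (R - Q) u10 u01, sub_ip (R - Q) u11 u00, sub_ip (S - Q) u10 u01,
    sub_ip (S - Q) u11 u00, d00, d01, d10, d11, r00, r01, r10, r11, s00, s01, s10, s11] at m1
  have h1 := dt_had (u10 - u01) (u11 - u00) (P - Q)
  have h2 := dt_had (R - S) (R + S - P - Q) (P - Q)
  have h3 : dt (R - S) (R + S - P - Q) (P - Q) = 2 * dt (R - Q) (S - Q) (P - Q) := by
    simp [dt]; ring
  have h4 : 7 / 64 * ip (R - S) (R - S) + 63 / 1024 * ip (R + S - P - Q) (R + S - P - Q)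
      + ip ((7 / 32 : ℝ) • (R + S) + (9 / 32 : ℝ) • (P + Q))
        ((7 / 32 : ℝ) • (R + S) + (9 / 32 : ℝ) • (P + Q))
      = 7 / 32 * (ip R R + ip S S) + 9 / 32 * (ip P P + ip Q Q)
        - 9 / 64 * ip (P - Q) (P - Q) := by
    simp [ip]; ring
  have h5 := ip_nonneg ((7 / 32 : ℝ) • (R + S) + (9 / 32 : ℝ) • (P + Q))
  have a1 := ip_nonneg (u10 - u01)
  have a2 := ip_nonneg (u11 - u00)
  have b1 := ip_nonneg (R - S)
  have b2 := ip_nonneg (R + S - P - Q)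
  rw [h3] at h2
  generalize ip (P - Q) (P - Q) = D at *
  generalize ip (u10 - u01) (u10 - u01) = a at *
  generalize ip (u11 - u00) (u11 - u00) = b at *
  generalize ip (R - S) (R - S) = c at *
  generalize ip (R + S - P - Q) (R + S - P - Q) = e at *
  generalize dt (R - Q) (S - Q) (P - Q) = V at *
  generalize dt (u10 - u01) (u11 - u00) (P - Q) = T at *
  obtain ⟨A, hA⟩ : ∃ A, A = W - 1 / D := ⟨_, rfl⟩
  obtain ⟨B, hB⟩ : ∃ B, B = (64 - 9 * D) / 21 := ⟨_, rfl⟩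
  rw [← hA] at p1 p2
  have hA0 : 0 ≤ A := by linarith
  have hv : 7 / 64 * c + 63 / 1024 * e ≤ 21 / 64 * B := by rw [hB]; linarith
  have hB0 : 0 ≤ B := by linarith
  have hce : c * e ≤ 4 * B ^ 2 := by
    have : (7 / 64 * c + 63 / 1024 * e) ^ 2 ≤ (21 / 64 * B) ^ 2 :=
      pow_le_pow_left₀ (by positivity) hv 2
    linarith [sq_nonneg (7 / 64 * c - 63 / 1024 * e)]
  have hV : V ^ 2 ≤ B ^ 2 * D := by linarith [mul_le_mul_of_nonneg_right hce hD.le]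
  have hab : a * b ≤ 16 * A ^ 2 := by linarith [mul_le_mul p1 p2 a2 (by linarith)]
  have hT : T ^ 2 ≤ 16 * A ^ 2 * D := by linarith [mul_le_mul_of_nonneg_right hab hD.le]
  have hTV : T * V = 2 * D := by linarith
  have hk : (2 * D) ^ 2 ≤ (16 * A ^ 2 * D) * (B ^ 2 * D) := by
    rw [← hTV, mul_pow]; exact mul_le_mul hT hV (sq_nonneg _) (by positivity)
  have hk2 : (1 / 2 : ℝ) ^ 2 ≤ A ^ 2 * B ^ 2 := by
    have hD2 : 0 < D ^ 2 := by positivity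
    by_contra hc
    push Not at hc
    linarith [mul_lt_mul_of_pos_right hc hD2]
  have hAB := mul_ge_of_sq A B (1 / 2) hA0 hB0 hk2
  have hBpos : 0 < B := by
    rcases hB0.lt_or_eq with h | h
    · exact h
    · rw [← h] at hAB; linarith
  have e1 : 0.6 - 0.09 * D ≤ 1 / D := by
    rw [le_div_iff₀ hD]; linarith [sq_nonneg (0.3 * D - 1)]
  have e2 : 0.64 - 0.2048 * B ≤ A := by
    by_contra hc
    push Not at hc
    linarith [mul_lt_mul_of_pos_right hc hBpos, sq_nonneg (B - 1.5625)]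
  linarith

lemma regA (x1 x2 x3 d z1 z2 z3 : V3) (a1 a2 a3 A : ℝ) (hs : a1 + a2 + a3 = 1)
    (h1 : 0 ≤ a1) (h2 : 0 ≤ a2) (h3 : 0 ≤ a3) (hA : 0 < A) (hD : 0 < ip d d)
    (n1 : ip z1 z1 ≤ 4 * A * a1 ^ 2) (n2 : ip z2 z2 ≤ 4 * A * a2 ^ 2)
    (n3 : ip z3 z3 ≤ 4 * A * a3 ^ 2)
    (d1 : ip z1 d = 0) (d2 : ip z2 d = 0) (d3 : ip z3 d = 0)
    (p1 : ip z1 (x1 - x3) = a3 - a2 + a1) (q1 : ip z1 (x2 - x3) = 2 * a1)
    (p2 : ip z2 (x1 - x3) = -2 * a2) (q2 : ip z2 (x2 - x3) = a1 - a3 - a2)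
    (p3 : ip z3 (x1 - x3) = a3 - a2 + a1) (q3 : ip z3 (x2 - x3) = a1 - a3 - a2) :
    1 ≤ A * (ip (pr d x1) (pr d x1) + ip (pr d x2) (pr d x2) + ip (pr d x3) (pr d x3)
      - ip (pr d x1 + pr d x2 + pr d x3) (pr d x1 + pr d x2 + pr d x3) / 3) := by
  obtain ⟨N, hN⟩ : ∃ N, N = a1 ^ 2 + a2 ^ 2 + a3 ^ 2 := ⟨_, rfl⟩
  have hN0 : 0 < N := by
    have : (a1 + a2 + a3) ^ 2 = 1 := by rw [hs]; norm_num
    linarith [sq_nonneg (a1 - a2), sq_nonneg (a2 - a3), sq_nonneg (a1 - a3)]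
  have m12 := dt_mul z1 z2 d (x1 - x3) (x2 - x3) d
  have m13 := dt_mul z1 z3 d (x1 - x3) (x2 - x3) d
  have m23 := dt_mul z2 z3 d (x1 - x3) (x2 - x3) d
  rw [d1, d2, p1, q1, p2, q2] at m12
  rw [d1, d3, p1, q1, p3, q3] at m13
  rw [d2, d3, p2, q2, p3, q3] at m23
  have hL := L3 z1 z2 z3 d 1 1 1 (2 * A * N / ip d d) zero_le_one zero_le_one zero_le_one
    (by positivity)
  have hh := dt_had (pr d x1 - pr d x2) (pr d x1 + pr d x2 - (2 : ℝ) • pr d x3) d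
  have hv : dt (pr d x1 - pr d x2) (pr d x1 + pr d x2 - (2 : ℝ) • pr d x3) d
      = 2 * dt (x1 - x3) (x2 - x3) d := by
    unfold pr
    generalize ip x1 d / ip d d = t1
    generalize ip x2 d / ip d d = t2
    generalize ip x3 d / ip d d = t3
    simp [dt]; ring
  have hS : ip (pr d x1) (pr d x1) + ip (pr d x2) (pr d x2) + ip (pr d x3) (pr d x3)
      - ip (pr d x1 + pr d x2 + pr d x3) (pr d x1 + pr d x2 + pr d x3) / 3
      = ip (pr d x1 - pr d x2) (pr d x1 - pr d x2) / 2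
        + ip (pr d x1 + pr d x2 - (2 : ℝ) • pr d x3) (pr d x1 + pr d x2 - (2 : ℝ) • pr d x3) / 6 := by
    generalize pr d x1 = y1
    generalize pr d x2 = y2
    generalize pr d x3 = y3
    simp [ip]; ring
  rw [hS]
  rw [hv] at hh
  have b1 := ip_nonneg (pr d x1 - pr d x2)
  have b2 := ip_nonneg (pr d x1 + pr d x2 - (2 : ℝ) • pr d x3)
  have c1 := ip_nonneg z1
  have c2 := ip_nonneg z2
  have c3 := ip_nonneg z3
  generalize ip (pr d x1 - pr d x2) (pr d x1 - pr d x2) = c at *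
  generalize ip (pr d x1 + pr d x2 - (2 : ℝ) • pr d x3)
    (pr d x1 + pr d x2 - (2 : ℝ) • pr d x3) = e at *
  generalize dt (x1 - x3) (x2 - x3) d = V at *
  generalize dt z1 z2 d = T12 at *
  generalize dt z1 z3 d = T13 at *
  generalize dt z2 z3 d = T23 at *
  generalize dt z1 z2 z3 = T at *
  generalize ip d (x1 - x3) = k1 at *
  generalize ip d (x2 - x3) = k2 at *
  generalize ip z1 z1 = l1 at *
  generalize ip z2 z2 = l2 at *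
  generalize ip z3 z3 = l3 at *
  generalize ip d d = D at *
  have hc : 2 * A * N / D * D = 2 * A * N := by field_simp
  have hsum : 1 * l1 + 1 * l2 + 1 * l3 + 2 * A * N / D * D ≤ 6 * A * N := by
    rw [hc, hN]; linarith
  have hcube : (1 * l1 + 1 * l2 + 1 * l3 + 2 * A * N / D * D) ^ 3 ≤ (6 * A * N) ^ 3 :=
    pow_le_pow_left₀ (by positivity) hsum 3
  have hT : 2 * A * N / D * (T12 ^ 2 + T13 ^ 2 + T23 ^ 2) ≤ 8 * (A * N) ^ 3 := by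
    linarith [sq_nonneg T]
  have hT2 : T12 ^ 2 + T13 ^ 2 + T23 ^ 2 ≤ 4 * D * (A * N) ^ 2 := by
    have hAN : 0 < A * N := by positivity
    rw [div_mul_eq_mul_div, div_le_iff₀ hD] at hT
    by_contra hc2
    push Not at hc2
    linarith [mul_lt_mul_of_pos_left hc2 hAN]
  have hq : (T12 ^ 2 + T13 ^ 2 + T23 ^ 2) * V ^ 2
      = D ^ 2 * (3 - 8 * (a1 * a2 + a1 * a3 + a2 * a3)) := by
    have : (T12 ^ 2 + T13 ^ 2 + T23 ^ 2) * V ^ 2
      = (T12 * V) ^ 2 + (T13 * V) ^ 2 + (T23 * V) ^ 2 := by ring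
    rw [this, m12, m13, m23]
    have ha : a3 = 1 - a1 - a2 := by linarith
    rw [ha]; ring
  have hq2 : 3 * N ^ 2 ≤ 3 - 8 * (a1 * a2 + a1 * a3 + a2 * a3) := by
    obtain ⟨q, hq⟩ : ∃ q, q = a1 * a2 + a1 * a3 + a2 * a3 := ⟨_, rfl⟩
    have e1 : N = 1 - 2 * q := by
      rw [hN, hq]; have ha : a3 = 1 - a1 - a2 := by linarith
      rw [ha]; ring
    have e2 : 0 ≤ q := by rw [hq]; positivity
    have e3 : q ≤ N := by
      rw [hN, hq]; linarith [sq_nonneg (a1 - a2), sq_nonneg (a2 - a3), sq_nonneg (a1 - a3)]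
    rw [← hq, e1]; rw [e1] at e3
    linarith [mul_nonneg e2 (by linarith : 0 ≤ 1 - 3 * q)]
  have hV : 4 * V ^ 2 ≤ 3 * D * (c / 2 + e / 6) ^ 2 := by
    have : c * e ≤ 3 * (c / 2 + e / 6) ^ 2 := by linarith [sq_nonneg (c / 2 - e / 6)]
    linarith [mul_le_mul_of_nonneg_right this hD.le]
  have hk : D ^ 2 * (3 * N ^ 2) ≤ (4 * D * (A * N) ^ 2) * (3 / 4 * D * (c / 2 + e / 6) ^ 2) := by
    calc D ^ 2 * (3 * N ^ 2) ≤ (T12 ^ 2 + T13 ^ 2 + T23 ^ 2) * V ^ 2 := by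
          rw [hq]; exact mul_le_mul_of_nonneg_left hq2 (sq_nonneg _)
      _ ≤ _ := mul_le_mul hT2 (by linarith) (sq_nonneg _) (by positivity)
  have hk2 : (1 : ℝ) ^ 2 ≤ A ^ 2 * (c / 2 + e / 6) ^ 2 := by
    have hD2 : 0 < D ^ 2 * N ^ 2 := by positivity
    by_contra hc2
    push Not at hc2
    linarith [mul_lt_mul_of_pos_right hc2 hD2]
  exact mul_ge_of_sq A _ 1 hA.le (by positivity) hk2

lemma regP (x1 x2 x3 y1 y2 : V3) (a1 a2 a3 b1 b2 W : ℝ) (hs : a1 + a2 + a3 = 1)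
    (ht : b1 + b2 = 1) (h1 : 0 < a1) (hb : b2 ≤ b1)
    (hx1 : ip x1 x1 ≤ 1) (hx2 : ip x2 x2 ≤ 1) (hx3 : ip x3 x3 ≤ 1) (hy1 : ip y1 y1 ≤ 1)
    (hy2 : ip y2 y2 ≤ 1)
    (rel : ∀ i, a1 * x1 i + a2 * x2 i + a3 * x3 i = b1 * y1 i + b2 * y2 i)
    (uA uB uC uD : V3) (nA : ip uA uA ≤ W) (nB : ip uB uB ≤ W) (nC : ip uC uC ≤ W)
    (nD : ip uD uD ≤ W) (a b g h : ℝ) (ha : a1 * a = b1 - a2) (hb' : a1 * b = b1 - a3)
    (hg : b1 * g = 1 - a1) (hh : b1 * h = a1)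
    (pA : ip uA (x1 - x3) = a) (qA : ip uA (x2 - x3) = 1) (rA : ip uA (y1 - y2) = 1)
    (pB : ip uB (x1 - x3) = b - 1) (qB : ip uB (x2 - x3) = -1) (rB : ip uB (y1 - y2) = 1)
    (pC : ip uC (x1 - x3) = -1) (qC : ip uC (x2 - x3) = 0) (rC : ip uC (y1 - y2) = g)
    (pD : ip uD (x1 - x3) = 1) (qD : ip uD (x2 - x3) = 0) (rD : ip uD (y1 - y2) = h) :
    7 / 12 < W := by
  have m1 := dt_mul uA uB uC (x1 - x3) (x2 - x3) (y1 - y2)
  have m2 := dt_mul uA uB uD (x1 - x3) (x2 - x3) (y1 - y2)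
  have m3 := dt_mul uA uC uD (x1 - x3) (x2 - x3) (y1 - y2)
  have m4 := dt_mul uB uC uD (x1 - x3) (x2 - x3) (y1 - y2)
  simp only [pA, qA, rA, pB, qB, rB, pC, qC, rC, pD, qD, rD] at m1 m2 m3 m4
  have hL := L3 uA uB uC uD (1 / 4) (1 / 4) (1 / 4) (1 / 4) (by norm_num) (by norm_num)
    (by norm_num) (by norm_num)
  have hM := L3 (x1 - x2) (x1 + x2 - (2 : ℝ) • x3) (y1 - y2)
    ((2 : ℝ) • (x1 + x2 + x3) - (3 : ℝ) • (y1 + y2)) (1 / 2) (1 / 6) (1 / 2) (1 / 30)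
    (by norm_num) (by norm_num) (by norm_num) (by norm_num)
  have htr : 1 / 2 * ip (x1 - x2) (x1 - x2)
      + 1 / 6 * ip (x1 + x2 - (2 : ℝ) • x3) (x1 + x2 - (2 : ℝ) • x3)
      + 1 / 2 * ip (y1 - y2) (y1 - y2)
      + 1 / 30 * ip ((2 : ℝ) • (x1 + x2 + x3) - (3 : ℝ) • (y1 + y2))
        ((2 : ℝ) • (x1 + x2 + x3) - (3 : ℝ) • (y1 + y2))
      = ip x1 x1 + ip x2 x2 + ip x3 x3 + ip y1 y1 + ip y2 y2
        - ip (x1 + x2 + x3 + y1 + y2) (x1 + x2 + x3 + y1 + y2) / 5 := by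
    simp [ip]; ring
  have htr0 : 0 ≤ ip x1 x1 + ip x2 x2 + ip x3 x3 + ip y1 y1 + ip y2 y2
        - ip (x1 + x2 + x3 + y1 + y2) (x1 + x2 + x3 + y1 + y2) / 5 := by
    rw [← htr]
    have := ip_nonneg (x1 - x2)
    have := ip_nonneg (x1 + x2 - (2 : ℝ) • x3)
    have := ip_nonneg (y1 - y2)
    have := ip_nonneg ((2 : ℝ) • (x1 + x2 + x3) - (3 : ℝ) • (y1 + y2))
    positivity
  rw [htr] at hM
  have hM2 := hM.trans (pow_le_pow_left₀ htr0 (show _ ≤ (5 : ℝ) by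
    have := ip_nonneg (x1 + x2 + x3 + y1 + y2); linarith) 3)
  have ha3 : a3 = 1 - a1 - a2 := by linarith
  have hb2 : b2 = 1 - b1 := by linarith
  have hw : (2 : ℝ) • (x1 + x2 + x3) - (3 : ℝ) • (y1 + y2)
      = (2 - 6 * a1) • (x1 - x3) + (2 - 6 * a2) • (x2 - x3) + (3 * (2 * b1 - 1)) • (y1 - y2) := by
    ext i
    have := rel i
    rw [ha3, hb2] at this
    simp only [Pi.add_apply, Pi.sub_apply, Pi.smul_apply, smul_eq_mul]
    linear_combination 6 * this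
  rw [hw] at hM2
  have e1 : dt (x1 - x2) (x1 + x2 - (2 : ℝ) • x3) (y1 - y2)
      = 2 * dt (x1 - x3) (x2 - x3) (y1 - y2) := by simp [dt]; ring
  have e2 : dt (x1 - x2) (x1 + x2 - (2 : ℝ) • x3)
      ((2 - 6 * a1) • (x1 - x3) + (2 - 6 * a2) • (x2 - x3) + (3 * (2 * b1 - 1)) • (y1 - y2))
      = 6 * (2 * b1 - 1) * dt (x1 - x3) (x2 - x3) (y1 - y2) := by simp [dt]; ring
  have e3 : dt (x1 - x2) (y1 - y2)
      ((2 - 6 * a1) • (x1 - x3) + (2 - 6 * a2) • (x2 - x3) + (3 * (2 * b1 - 1)) • (y1 - y2))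
      = (6 * a1 + 6 * a2 - 4) * dt (x1 - x3) (x2 - x3) (y1 - y2) := by simp [dt]; ring
  have e4 : dt (x1 + x2 - (2 : ℝ) • x3) (y1 - y2)
      ((2 - 6 * a1) • (x1 - x3) + (2 - 6 * a2) • (x2 - x3) + (3 * (2 * b1 - 1)) • (y1 - y2))
      = (6 * a2 - 6 * a1) * dt (x1 - x3) (x2 - x3) (y1 - y2) := by simp [dt]; ring
  rw [e1, e2, e3, e4] at hM2
  have c1 := ip_nonneg uA
  have c2 := ip_nonneg uB
  have c3 := ip_nonneg uC
  have c4 := ip_nonneg uD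
  have hW : 0 ≤ W := by linarith
  have hL2 := hL.trans (pow_le_pow_left₀ (by positivity) (show _ ≤ W by linarith) 3)
  generalize dt (x1 - x3) (x2 - x3) (y1 - y2) = V at *
  generalize dt uA uB uC = T1 at *
  generalize dt uA uB uD = T2 at *
  generalize dt uA uC uD = T3 at *
  generalize dt uB uC uD = T4 at *
  obtain ⟨e, he⟩ : ∃ e, e = 2 * b1 - 1 := ⟨_, rfl⟩
  have he0 : 0 ≤ e := by linarith
  have hb1 : b1 = (1 + e) / 2 := by linarith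
  have k1 : T1 * V * (a1 * b1) = -(a1 + e) := by
    rw [m1, he]; rw [ha3] at hb'
    linear_combination (-(b1 * g)) * ha + (-(b1 * g)) * hb' + (-(2 * b1 - 1)) * hg
  have k2 : T2 * V * (a1 * b1) = a1 := by
    rw [m2]; rw [ha3] at hb'
    linear_combination (-(b1 * h)) * ha + (-(b1 * h)) * hb' + (-(2 * b1 - 1)) * hh
  have k3 : T3 * V * (a1 * b1) = a1 := by
    rw [m3]; linear_combination a1 * hg + a1 * hh
  have k4 : T4 * V * (a1 * b1) = -a1 := by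
    rw [m4]; linear_combination (-a1) * hg + (-a1) * hh
  obtain ⟨m, hm⟩ : ∃ m, m = (a1 * b1) ^ 2 := ⟨_, rfl⟩
  have hm0 : 0 < m := by rw [hm, hb1]; positivity
  have hS : (T1 ^ 2 + T2 ^ 2 + T3 ^ 2 + T4 ^ 2) * (V ^ 2 * m) = (a1 + e) ^ 2 + 3 * a1 ^ 2 := by
    have : (T1 ^ 2 + T2 ^ 2 + T3 ^ 2 + T4 ^ 2) * (V ^ 2 * m) = (T1 * V * (a1 * b1)) ^ 2
      + (T2 * V * (a1 * b1)) ^ 2 + (T3 * V * (a1 * b1)) ^ 2 + (T4 * V * (a1 * b1)) ^ 2 := by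
      rw [hm]; ring
    rw [this, k1, k2, k3, k4]; ring
  obtain ⟨K, hK⟩ : ∃ K, K = 2 + e ^ 2 - 2 * a1 + 3 * a1 ^ 2 := ⟨_, rfl⟩
  have hK0 : 0 ≤ K := by rw [hK]; linarith [sq_nonneg e, sq_nonneg (a1 - 1 / 3)]
  have hVK : V ^ 2 * K ≤ 1250 / 27 := by
    rw [← he] at hM2
    rw [hK]
    linarith [mul_nonneg (sq_nonneg V) (sq_nonneg (2 * a2 + a1 - 1))]
  have hq := quart a1 e h1.le he0
  rw [← hK, ← hS] at hq
  have hm4 : a1 ^ 2 * (1 + e) ^ 2 = 4 * m := by rw [hm, hb1]; ring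
  rw [hm4] at hq
  have hT : T1 ^ 2 + T2 ^ 2 + T3 ^ 2 + T4 ^ 2 ≤ 64 / 27 * W ^ 3 := by linarith
  have hfin : (T1 ^ 2 + T2 ^ 2 + T3 ^ 2 + T4 ^ 2) * (V ^ 2 * K) ≤ (64 / 27 * W ^ 3) * (1250 / 27) :=
    mul_le_mul hT hVK (by positivity) (by positivity)
  have h22 : 22 ≤ (T1 ^ 2 + T2 ^ 2 + T3 ^ 2 + T4 ^ 2) * (V ^ 2 * K) := by
    by_contra hc
    push Not at hc
    linarith [mul_lt_mul_of_pos_right hc hm0]
  by_contra hc
  push Not at hc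
  have := pow_le_pow_left₀ hW hc 3
  norm_num at this
  linarith

end Pool.Agent.MP_90395b_gt.W5
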